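import Mathlib

namespace Pool.Agent.Helper89.Abs

open Subgroup

theorem cyc_unique {Q : Type*} [Group Q] (x : Q) (hx : ∀ y : Q, y ∈ zpowers x) (H H' : Subgroup Q)
    (n : ℕ) (hH : H.index = n) (hH' : H'.index = n) : H ≤ H' := by
  have hcomm : ∀ a b : Q, a * b = b * a := by
    intro a b
    obtain ⟨i, rfl⟩ := hx a
    obtain ⟨j, rfl⟩ := hx b
    show x ^ i * x ^ j = x ^ j * x ^ i
    rw [← zpow_add, ← zpow_add, add_comm]
  have hnorm : ∀ K : Subgroup Q, K.Normal := by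
    intro K
    constructor
    intro k hk g
    rw [hcomm g k]; simpa using hk
  have := hnorm H
  have := hnorm H'
  intro y hy
  obtain ⟨z, rfl⟩ := hx y
  have hord : orderOf (QuotientGroup.mk x : Q ⧸ H) = n := by
    rw [← hH]
    apply orderOf_eq_card_of_forall_mem_zpowers
    intro q
    obtain ⟨y, rfl⟩ := QuotientGroup.mk_surjective q
    obtain ⟨i, rfl⟩ := hx y
    exact ⟨i, rfl⟩
  have h1 : (QuotientGroup.mk x : Q ⧸ H) ^ z = 1 := by
    rw [← QuotientGroup.mk_zpow, QuotientGroup.eq_one_iff]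
    exact hy
  rw [← orderOf_dvd_iff_zpow_eq_one, hord] at h1
  obtain ⟨k, rfl⟩ := h1
  show x ^ ((n : ℤ) * k) ∈ H'
  rw [zpow_mul]
  apply H'.zpow_mem
  rw [zpow_natCast, ← hH']
  exact H'.pow_index_mem x

section

variable {G A : Type*} [Group G] [Group A] [IsSimpleGroup A]

theorem simple_comap_top (f : A →* G) (K : Subgroup G) [hK : K.Normal] (a : A) (ha : a ≠ 1)
    (h : f a ∈ K) (b : A) : f b ∈ K := by
  rcases (inferInstance : (K.comap f).Normal).eq_bot_or_eq_top with h1 | h1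
  · exfalso
    have : a ∈ K.comap f := h
    rw [h1, Subgroup.mem_bot] at this
    exact ha this
  · have : b ∈ K.comap f := by rw [h1]; trivial
    exact this

theorem step1 (ah : A →* G) (D : G) (u v : A) (huv : u * v ≠ v * u) (K : Subgroup G) [hK : K.Normal]
    (m : ℕ) (hD : D ^ m ∈ K) (hr : ah u * (D ^ m * ah v * (D ^ m)⁻¹) * (ah u)⁻¹ *
      (D ^ m * ah v * (D ^ m)⁻¹)⁻¹ ∈ K) (a : A) : ah a ∈ K := by
  apply simple_comap_top ah K (u * v * u⁻¹ * v⁻¹) _ _ a
  · intro h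
    apply huv
    have h3 : u * v * u⁻¹ * v⁻¹ * (v * u) = u * v := by group
    rw [h, one_mul] at h3
    exact h3.symm
  · rw [← QuotientGroup.eq_one_iff] at hD hr ⊢
    simp only [QuotientGroup.mk_mul, QuotientGroup.mk_inv, map_mul, map_inv] at hr ⊢
    rw [hD] at hr
    simpa using hr

omit [IsSimpleGroup A] in
theorem step2 (ah : A →* G) (D : G) (s₁ s₂ : A) (K : Subgroup G) [hK : K.Normal]
    (hah : ∀ a, ah a ∈ K)
    (hrel : D * (ah s₁ * D * (ah s₁)⁻¹) = ah s₂ * D * (ah s₂)⁻¹) : D ∈ K := by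
  have h1 := (QuotientGroup.eq_one_iff (N := K) _).mpr (hah s₁)
  have h2 := (QuotientGroup.eq_one_iff (N := K) _).mpr (hah s₂)
  have h3 := congrArg (QuotientGroup.mk (s := K)) hrel
  simp only [QuotientGroup.mk_mul, QuotientGroup.mk_inv, h1, h2, one_mul, inv_one, mul_one] at h3
  rw [← QuotientGroup.eq_one_iff]
  exact mul_eq_left.mp h3

theorem step3 (ah lo : A →* G) (u v : A) (huv : u * v ≠ v * u) (K : Subgroup G) [hK : K.Normal]
    (hah : ∀ a, ah a ∈ K) (hrel : ah v * lo u * (ah v)⁻¹ = lo (v * u * v⁻¹)) (a : A) :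
    lo a ∈ K := by
  apply simple_comap_top lo K (u⁻¹ * (v * u * v⁻¹)) _ _ a
  · intro h
    apply huv
    rw [inv_mul_eq_one] at h
    conv_lhs => rw [h]
    group
  · rw [map_mul, ← hrel, map_inv]
    have h1 := (QuotientGroup.eq_one_iff (N := K) _).mpr (hah v)
    rw [← QuotientGroup.eq_one_iff]
    simp only [QuotientGroup.mk_mul, QuotientGroup.mk_inv, h1, one_mul, inv_one, mul_one,
      inv_mul_cancel]

theorem unique_mod (K : Subgroup G) [hK : K.Normal] (x : G)
    (hgen : ∀ g : G, ∃ z : ℤ, (x ^ z)⁻¹ * g ∈ K) (H H' : Subgroup G) (n : ℕ)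
    (hH : H.index = n) (hH' : H'.index = n) (hKH : K ≤ H) (hKH' : K ≤ H') : H = H' := by
  have hx : ∀ y : G ⧸ K, y ∈ zpowers (QuotientGroup.mk' K x) := by
    intro y
    obtain ⟨g, rfl⟩ := QuotientGroup.mk'_surjective K y
    obtain ⟨z, hz⟩ := hgen g
    refine ⟨z, ?_⟩
    show (QuotientGroup.mk' K x) ^ z = _
    rw [← map_zpow]
    exact QuotientGroup.eq.mpr hz
  have hker : (QuotientGroup.mk' K).ker = K := QuotientGroup.ker_mk' K
  have i1 : (H.map (QuotientGroup.mk' K)).index = n := by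
    rw [Subgroup.index_map_eq H (QuotientGroup.mk'_surjective K) (by rw [hker]; exact hKH), hH]
  have i2 : (H'.map (QuotientGroup.mk' K)).index = n := by
    rw [Subgroup.index_map_eq H' (QuotientGroup.mk'_surjective K) (by rw [hker]; exact hKH'), hH']
  have heq : H.map (QuotientGroup.mk' K) = H'.map (QuotientGroup.mk' K) :=
    le_antisymm (cyc_unique _ hx _ _ n i1 i2) (cyc_unique _ hx _ _ n i2 i1)
  have c1 : (H.map (QuotientGroup.mk' K)).comap (QuotientGroup.mk' K) = H :=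
    Subgroup.comap_map_eq_self (by rw [hker]; exact hKH)
  have c2 : (H'.map (QuotientGroup.mk' K)).comap (QuotientGroup.mk' K) = H' :=
    Subgroup.comap_map_eq_self (by rw [hker]; exact hKH')
  rw [← c1, ← c2, heq]

theorem abs_unique {ι : Type*} (S : ι → Subgroup G) (ah lo : A →* G) (D x : G)
    (hgen : ∀ K : Subgroup G, (∀ a, ah a ∈ K) → (∀ a, lo a ∈ K) → D ∈ K → x ∈ K → K = ⊤)
    (u v s₁ s₂ : A) (huv : u * v ≠ v * u)
    (hr : ∀ m : ℕ, m ≠ 0 → ∀ K : Subgroup G, (∀ i, S i ≤ K) →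
      ah u * (D ^ m * ah v * (D ^ m)⁻¹) * (ah u)⁻¹ * (D ^ m * ah v * (D ^ m)⁻¹)⁻¹ ∈ K)
    (hrel : D * (ah s₁ * D * (ah s₁)⁻¹) = ah s₂ * D * (ah s₂)⁻¹)
    (hrel' : ah v * lo u * (ah v)⁻¹ = lo (v * u * v⁻¹)) (hSn : ∀ i, (S i).Normal)
    (H H' : Subgroup G) (n : ℕ) (hn : n ≠ 0)
    (hH : H.index = n) (hH' : H'.index = n) (hS : ∀ i, S i ≤ H) (hS' : ∀ i, S i ≤ H') : H = H' := by
  have hfi : H.FiniteIndex := ⟨by rw [hH]; exact hn⟩
  have hfi' : H'.FiniteIndex := ⟨by rw [hH']; exact hn⟩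
  set K := H.normalCore ⊓ H'.normalCore with hKdef
  have hKn : K.Normal := Subgroup.normal_inf_normal _ _
  have hKf : K.FiniteIndex := inferInstance
  have hKi : K.index ≠ 0 := hKf.index_ne_zero
  have hSK : ∀ i, S i ≤ K := fun i => by
    have := hSn i
    exact le_inf (Subgroup.normal_le_normalCore.mpr (hS i))
      (Subgroup.normal_le_normalCore.mpr (hS' i))
  have hKH : K ≤ H := inf_le_left.trans H.normalCore_le
  have hKH' : K ≤ H' := inf_le_right.trans H'.normalCore_le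
  have hah := step1 ah D u v huv K K.index (K.pow_index_mem _) (hr _ hKi K hSK)
  have hD := step2 ah D s₁ s₂ K hah hrel
  have hlo := step3 ah lo u v huv K hah hrel'
  refine unique_mod K x ?_ H H' n hH hH' hKH hKH'
  have hmem : ∀ g ∈ K, (QuotientGroup.mk' K) g ∈ zpowers (QuotientGroup.mk' K x) := by
    intro g hg
    have h0 : (QuotientGroup.mk' K) g = 1 := (QuotientGroup.eq_one_iff _).mpr hg
    rw [h0]
    exact Subgroup.one_mem _
  have h1 : (zpowers (QuotientGroup.mk' K x)).comap (QuotientGroup.mk' K) = ⊤ := by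
    apply hgen
    · exact fun a => hmem _ (hah a)
    · exact fun a => hmem _ (hlo a)
    · exact hmem _ hD
    · exact Subgroup.mem_zpowers _
  intro g
  have h2 : g ∈ (zpowers (QuotientGroup.mk' K x)).comap (QuotientGroup.mk' K) := by
    rw [h1]; trivial
  obtain ⟨z, hz⟩ := h2
  refine ⟨z, QuotientGroup.eq.mp ?_⟩
  have hz' : (QuotientGroup.mk' K x) ^ z = QuotientGroup.mk' K g := hz
  rw [← map_zpow] at hz'
  exact hz'

end

end Pool.Agent.Helper89.Abs
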