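import Mathlib

namespace Pool.Agent.Helper89.Count

open Subgroup

variable {G : Type*} [Group G]

/-- the permutation action on `Fin b` attached to an index-`b` subgroup. -/
theorem exists_action (H : Subgroup G) (b : ℕ) (hb : b ≠ 0) (hH : H.index = b) :
    ∃ φ : G →* Equiv.Perm (Fin b), ∀ g : G, g ∈ H ↔ φ g ⟨0, Nat.pos_of_ne_zero hb⟩ =
      ⟨0, Nat.pos_of_ne_zero hb⟩ := by
  classical
  have hcard : Nat.card (G ⧸ H) = b := hH
  have : Finite (G ⧸ H) := Nat.finite_of_card_ne_zero (by rw [hcard]; exact hb)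
  let e₀ : (G ⧸ H) ≃ Fin b := (Finite.equivFinOfCardEq hcard)
  let z : Fin b := ⟨0, Nat.pos_of_ne_zero hb⟩
  let e : (G ⧸ H) ≃ Fin b := e₀.trans (Equiv.swap (e₀ (QuotientGroup.mk 1)) z)
  have he : e (QuotientGroup.mk 1) = z := by simp [e]
  refine ⟨(e.permCongrHom.toMonoidHom).comp (MulAction.toPermHom G (G ⧸ H)), fun g => ?_⟩
  have hz : e.symm z = QuotientGroup.mk 1 := by rw [Equiv.symm_apply_eq]; exact he.symm
  have h1 : ((e.permCongrHom.toMonoidHom).comp (MulAction.toPermHom G (G ⧸ H))) g z =
      e (g • (QuotientGroup.mk 1 : G ⧸ H)) := by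
    simp only [MonoidHom.comp_apply, MulEquiv.coe_toMonoidHom]
    show e ((MulAction.toPermHom G (G ⧸ H) g) (e.symm z)) = _
    rw [hz]; rfl
  show g ∈ H ↔ ((e.permCongrHom.toMonoidHom).comp (MulAction.toPermHom G (G ⧸ H))) g z = z
  rw [h1]
  conv_rhs => rw [← he]
  rw [e.apply_eq_iff_eq]
  rw [MulAction.Quotient.smul_mk, smul_eq_mul, mul_one, eq_comm, QuotientGroup.eq]
  simp

theorem index_card_le (S : Finset G) (hS : closure (S : Set G) = ⊤) (b : ℕ) (hb : b ≠ 0) :
    Finite {H : Subgroup G // H.index = b} ∧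
      Nat.card {H : Subgroup G // H.index = b} ≤ (b.factorial) ^ S.card := by
  classical
  choose φ hφ using fun H : {H : Subgroup G // H.index = b} => exists_action H.1 b hb H.2
  let f : {H : Subgroup G // H.index = b} → (S → Equiv.Perm (Fin b)) := fun H s => φ H s
  have hf : Function.Injective f := by
    intro H H' h
    have h1 : φ H = φ H' := by
      apply MonoidHom.eq_of_eqOn_dense hS
      intro s hs
      exact congrFun h ⟨s, hs⟩
    apply Subtype.ext
    ext g
    rw [hφ H g, hφ H' g, h1]
  refine ⟨Finite.of_injective f hf, ?_⟩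
  calc Nat.card {H : Subgroup G // H.index = b} ≤ Nat.card (S → Equiv.Perm (Fin b)) :=
        Nat.card_le_card_of_injective f hf
    _ = (b.factorial) ^ S.card := by
        simp [Nat.card_eq_fintype_card, Fintype.card_perm]

theorem exists_gens_over (l : ℕ) : ∀ (K H : Subgroup G), K ≤ H → K.relIndex H ≠ 0 →
    K.relIndex H < 2 ^ (l + 1) → ∃ f : Fin l → G, H = K ⊔ closure (Set.range f) := by
  induction l with
  | zero =>
    intro K H hKH h0 h1
    refine ⟨fun i => i.elim0, ?_⟩
    have : K.relIndex H = 1 := by omega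
    rw [Subgroup.relIndex_eq_one] at this
    simp [le_antisymm hKH this]
  | succ l ih =>
    intro K H hKH h0 h1
    by_cases hle : H ≤ K
    · refine ⟨fun _ => 1, ?_⟩
      have : closure (Set.range (fun _ : Fin (l+1) => (1 : G))) = ⊥ := by
        rw [Set.range_const]; simp
      rw [this, sup_bot_eq]
      exact le_antisymm hle hKH
    · obtain ⟨h, hhH, hhK⟩ := SetLike.not_le_iff_exists.mp hle
      set K' := K ⊔ closure {h} with hK'
      have hKK' : K ≤ K' := le_sup_left
      have hh : h ∈ K' := (le_sup_right : closure {h} ≤ K') (subset_closure (by simp))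
      have hK'H : K' ≤ H := by
        apply sup_le hKH
        rw [closure_le]; simpa using hhH
      have hmul : K.relIndex K' * K'.relIndex H = K.relIndex H :=
        Subgroup.relIndex_mul_relIndex K K' H hKK' hK'H
      have hne : K.relIndex K' ≠ 1 := by
        intro h1'
        rw [Subgroup.relIndex_eq_one] at h1'
        exact hhK (h1' hh)
      have hne0 : K.relIndex K' ≠ 0 := by
        intro h0'; rw [h0'] at hmul; simp at hmul; exact h0 hmul.symm
      have h2 : 2 ≤ K.relIndex K' := by omega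
      have h3 : K'.relIndex H ≠ 0 := by
        intro h0'; rw [h0'] at hmul; simp at hmul; exact h0 hmul.symm
      have h4 : K'.relIndex H < 2 ^ (l + 1) := by
        have : 2 * K'.relIndex H ≤ K.relIndex H := by rw [← hmul]; exact Nat.mul_le_mul_right _ h2
        have h5 : (2:ℕ) ^ (l + 1 + 1) = 2 * 2 ^ (l+1) := by ring
        omega
      obtain ⟨f, hf⟩ := ih K' H hK'H h3 h4
      refine ⟨Fin.cons h f, ?_⟩
      rw [hf, hK', Fin.range_cons, sup_assoc, ← Subgroup.closure_union]
      simp

theorem card_over_le (K : Subgroup G) (hK : K.index ≠ 0) :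
    Finite {H : Subgroup G // K ≤ H} ∧
      Nat.card {H : Subgroup G // K ≤ H} ≤ K.index ^ (Nat.log 2 K.index) := by
  classical
  set l := Nat.log 2 K.index with hl
  have key : ∀ H : {H : Subgroup G // K ≤ H}, ∃ f : Fin l → G, H.1 = K ⊔ closure (Set.range f) := by
    rintro ⟨H, hH⟩
    have hmul := Subgroup.relIndex_mul_index hH
    apply exists_gens_over l K H hH
    · intro h0; rw [h0] at hmul; simp at hmul; exact hK hmul.symm
    · have h1 : K.relIndex H ≤ K.index := by
        rw [← hmul]
        apply Nat.le_mul_of_pos_right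
        apply Nat.pos_of_ne_zero
        intro h0; rw [h0] at hmul; simp at hmul; exact hK hmul.symm
      exact lt_of_le_of_lt h1 (Nat.lt_pow_succ_log_self (by norm_num) _)
  choose f hf using key
  have : Finite (G ⧸ K) := Nat.finite_of_card_ne_zero hK
  let F : {H : Subgroup G // K ≤ H} → (Fin l → G ⧸ K) := fun H i => (f H i : G ⧸ K)
  have aux : ∀ H H' : {H : Subgroup G // K ≤ H}, F H = F H' → H.1 ≤ H'.1 := by
    intro H H' h
    rw [hf H]
    apply sup_le H'.2
    rw [closure_le]
    rintro _ ⟨i, rfl⟩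
    have hi : (f H' i : G ⧸ K) = (f H i : G ⧸ K) := (congrFun h i).symm
    rw [QuotientGroup.eq] at hi
    have h2 : f H' i ∈ H'.1 := by
      rw [hf H']
      exact (le_sup_right : closure (Set.range (f H')) ≤ _) (subset_closure ⟨i, rfl⟩)
    have h3 := H'.1.mul_mem h2 (H'.2 hi)
    simpa using h3
  have hF : Function.Injective F := by
    intro H H' h
    exact Subtype.ext (le_antisymm (aux H H' h) (aux H' H h.symm))
  refine ⟨Finite.of_injective F hF, ?_⟩
  calc Nat.card {H : Subgroup G // K ≤ H} ≤ Nat.card (Fin l → G ⧸ K) :=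
        Nat.card_le_card_of_injective F hF
    _ = K.index ^ l := by
        rw [Nat.card_fun]
        simp [Subgroup.index]

theorem card_ext_le (S : Finset G) (hS : closure (S : Set G) = ⊤) (A : Subgroup G) [hA : A.Normal]
    (b c : ℕ) (hb : b ≠ 0) (hc : c ≠ 0)
    [hfin : Finite {D : Subgroup A // D.index = c}] :
    Finite {H : Subgroup G // (A ⊔ H).index = b ∧ H.relIndex A = c} ∧
      Nat.card {H : Subgroup G // (A ⊔ H).index = b ∧ H.relIndex A = c} ≤
      (b.factorial) ^ S.card * Nat.card {D : Subgroup A // D.index = c} * c ^ (b * S.card) := by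
  classical
  obtain ⟨hfin1, hcard1⟩ := index_card_le S hS b hb
  -- generators of index b subgroups
  have hgen : ∀ N : {N : Subgroup G // N.index = b}, ∃ g : Fin (b * S.card) → G,
      closure (Set.range g) = N.1 := by
    rintro ⟨N, hN⟩
    have : N.FiniteIndex := ⟨by rw [hN]; exact hb⟩
    obtain ⟨T, hT, hT'⟩ := Subgroup.exists_finset_card_le_mul N hS
    rw [hN] at hT
    -- enumerate T
    have hcl : closure ((fun x : N => (x : G)) '' (T : Set N)) = N := by
      have := congrArg (Subgroup.map N.subtype) hT'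
      rw [MonoidHom.map_closure, ← MonoidHom.range_eq_map, Subgroup.range_subtype] at this
      exact this
    obtain ⟨e⟩ : Nonempty (Fin T.card ≃ T) := ⟨T.equivFin.symm⟩
    refine ⟨fun j => if h : (j : ℕ) < T.card then ((e ⟨j, h⟩ : N) : G) else 1, ?_⟩
    apply le_antisymm
    · rw [closure_le]
      rintro _ ⟨j, rfl⟩
      dsimp only
      split_ifs with h
      · exact ((e ⟨j, h⟩ : T) : N).2
      · exact N.one_mem
    · refine le_trans (le_of_eq hcl.symm) ?_
      apply Subgroup.closure_mono
      rintro _ ⟨x, hx, rfl⟩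
      refine ⟨⟨(e.symm ⟨x, hx⟩ : Fin T.card), lt_of_lt_of_le (e.symm ⟨x, hx⟩).2 hT⟩, ?_⟩
      simp
  choose g hg using hgen
  have heq : ∀ D : {D : Subgroup A // D.index = c}, Nonempty ((A ⧸ D.1) ≃ Fin c) := by
    rintro ⟨D, hD⟩
    have hcard : Nat.card (A ⧸ D) = c := hD
    have : Finite (A ⧸ D) := Nat.finite_of_card_ne_zero (by rw [hcard]; exact hc)
    exact ⟨Finite.equivFinOfCardEq hcard⟩
  let e : ∀ D : {D : Subgroup A // D.index = c}, (A ⧸ D.1) ≃ Fin c := fun D =>
    Classical.choice (heq D)
  let HH := {H : Subgroup G // (A ⊔ H).index = b ∧ H.relIndex A = c}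
  let NN : HH → {N : Subgroup G // N.index = b} := fun H => ⟨A ⊔ H.1, H.2.1⟩
  let DD : HH → {D : Subgroup A // D.index = c} := fun H => ⟨H.1.subgroupOf A, H.2.2⟩
  have hs : ∀ (H : HH) (j : Fin (b * S.card)), ∃ s : A, (s : G) * g (NN H) j ∈ H.1 := by
    intro H j
    have h1 : g (NN H) j ∈ A ⊔ H.1 := by
      have : g (NN H) j ∈ (NN H).1 := by
        rw [← hg (NN H)]; exact subset_closure ⟨j, rfl⟩
      exact this
    rw [Subgroup.mem_sup_of_normal_left] at h1
    obtain ⟨s, hsA, h, hhH, hsh⟩ := h1
    refine ⟨⟨s⁻¹, A.inv_mem hsA⟩, ?_⟩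
    rw [← hsh]; simpa using hhH
  choose s hs using hs
  let F : HH → {N : Subgroup G // N.index = b} × {D : Subgroup A // D.index = c} ×
      (Fin (b * S.card) → Fin c) :=
    fun H => (NN H, DD H, fun j => e (DD H) (QuotientGroup.mk (s H j)⁻¹))
  have aux : ∀ H H' : HH, F H = F H' → H.1 ≤ H'.1 := by
    intro H H' hF
    have hN : NN H = NN H' := congrArg Prod.fst hF
    have hD : DD H = DD H' := congrArg (fun x => x.2.1) hF
    have hT : (fun j => e (DD H) (QuotientGroup.mk (s H j)⁻¹)) =
        (fun j => e (DD H') (QuotientGroup.mk (s H' j)⁻¹)) := congrArg (fun x => x.2.2) hF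
    have hT' : ∀ j, (s H j : G) * ((s H' j : G))⁻¹ ∈ H.1 ∧
        (s H j : G) * ((s H' j : G))⁻¹ ∈ H'.1 := by
      intro j
      have h1 := congrFun hT j
      have h2 : (QuotientGroup.mk (s H j)⁻¹ : A ⧸ (DD H).1) = QuotientGroup.mk (s H' j)⁻¹ := by
        have h3 : e (DD H) (QuotientGroup.mk (s H j)⁻¹) = e (DD H) (QuotientGroup.mk (s H' j)⁻¹) := by
          rw [h1]
          rw [← hD]
        exact (e (DD H)).injective h3
      rw [QuotientGroup.eq] at h2
      have h4 : s H j * (s H' j)⁻¹ ∈ (DD H).1 := by simpa using h2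
      have h5 : s H j * (s H' j)⁻¹ ∈ (DD H').1 := by rw [← hD]; exact h4
      constructor
      · have := Subgroup.mem_subgroupOf.mp h4
        simpa using this
      · have := Subgroup.mem_subgroupOf.mp h5
        simpa using this
    have claim : ∀ x ∈ (NN H).1, ∃ u ∈ A, u * x ∈ H.1 ∧ u * x ∈ H'.1 := by
      intro x hx
      rw [← hg (NN H)] at hx
      induction hx using Subgroup.closure_induction with
      | mem x hx =>
        obtain ⟨j, rfl⟩ := hx
        refine ⟨s H j, (s H j).2, hs H j, ?_⟩
        have h1 := hs H' j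
        rw [← hN] at h1
        have h2 := H'.1.mul_mem (hT' j).2 h1
        have h3 : (s H j : G) * ((s H' j : G))⁻¹ * ((s H' j : G) * g (NN H) j) =
          (s H j : G) * g (NN H) j := by group
        rw [h3] at h2
        exact h2
      | one => exact ⟨1, A.one_mem, by simp [H.1.one_mem], by simp [H'.1.one_mem]⟩
      | mul x y _ _ hx hy =>
        obtain ⟨u, hu, hu1, hu2⟩ := hx
        obtain ⟨v, hv, hv1, hv2⟩ := hy
        refine ⟨u * (x * v * x⁻¹), A.mul_mem hu (hA.conj_mem v hv x), ?_, ?_⟩
        · have := H.1.mul_mem hu1 hv1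
          have h3 : u * x * (v * y) = u * (x * v * x⁻¹) * (x * y) := by group
          rwa [h3] at this
        · have := H'.1.mul_mem hu2 hv2
          have h3 : u * x * (v * y) = u * (x * v * x⁻¹) * (x * y) := by group
          rwa [h3] at this
      | inv x _ hx =>
        obtain ⟨u, hu, hu1, hu2⟩ := hx
        refine ⟨x⁻¹ * u⁻¹ * x, ?_, ?_, ?_⟩
        · have := hA.conj_mem u⁻¹ (A.inv_mem hu) x⁻¹
          simpa using this
        · have := H.1.inv_mem hu1
          have h3 : (u * x)⁻¹ = x⁻¹ * u⁻¹ * x * x⁻¹ := by group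
          rwa [h3] at this
        · have := H'.1.inv_mem hu2
          have h3 : (u * x)⁻¹ = x⁻¹ * u⁻¹ * x * x⁻¹ := by group
          rwa [h3] at this
    intro h hh
    obtain ⟨u, hu, hu1, hu2⟩ := claim h ((le_sup_right : H.1 ≤ A ⊔ H.1) hh)
    have h1 : u ∈ H.1 := by
      have := H.1.mul_mem hu1 (H.1.inv_mem hh)
      simpa using this
    have h2 : (⟨u, hu⟩ : A) ∈ (DD H).1 := by
      rw [Subgroup.mem_subgroupOf]; exact h1
    rw [hD] at h2
    have h3 : u ∈ H'.1 := Subgroup.mem_subgroupOf.mp h2
    have := H'.1.mul_mem (H'.1.inv_mem h3) hu2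
    simpa using this
  have hinj : Function.Injective F := fun H H' h =>
    Subtype.ext (le_antisymm (aux H H' h) (aux H' H h.symm))
  have := hfin1
  refine ⟨Finite.of_injective F hinj, ?_⟩
  calc Nat.card HH ≤ Nat.card ({N : Subgroup G // N.index = b} × {D : Subgroup A // D.index = c} ×
      (Fin (b * S.card) → Fin c)) := Nat.card_le_card_of_injective F hinj
    _ = Nat.card {N : Subgroup G // N.index = b} * (Nat.card {D : Subgroup A // D.index = c} *
        c ^ (b * S.card)) := by
        rw [Nat.card_prod, Nat.card_prod]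
        simp
    _ ≤ _ := by
        rw [mul_assoc]
        exact Nat.mul_le_mul_right _ hcard1

end Pool.Agent.Helper89.Count
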