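import Mathlib
import Pool.Agent.Helper89.Count

namespace Pool.Agent.Helper89.AltSub

open Subgroup Equiv

variable {α : Type*} [Fintype α] [DecidableEq α]

/-- even permutations supported in `T` -/
def K (T : Finset α) : Subgroup (alternatingGroup α) := (alternatingGroup.ofSubtype T).range

theorem mem_K (T : Finset α) (g : alternatingGroup α) :
    g ∈ K T ↔ ∀ p, p ∉ T → (g : Perm α) p = p := by
  rw [K, alternatingGroup.mem_range_ofSubtype_iff]
  constructor
  · intro h p hp
    by_contra hne
    exact hp (h (Perm.mem_support.mpr hne))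
  · intro h p hp
    by_contra hpT
    exact (Perm.mem_support.mp hp) (h p hpT)

theorem K_mono {T U : Finset α} (h : T ⊆ U) : K T ≤ K U := by
  intro g hg
  rw [mem_K] at *
  exact fun p hp => hg p (fun hT => hp (h hT))

theorem two_mul_card_K (T : Finset α) (hT : 2 ≤ T.card) :
    2 * Nat.card (K T) = (T.card).factorial := by
  have h1 : Nat.card (K T) = Nat.card (alternatingGroup T) :=
    (Nat.card_congr (MonoidHom.ofInjective
      (alternatingGroup.ofSubtype_injective (s := T))).toEquiv).symm
  have : Nontrivial T := by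
    rw [← Fintype.one_lt_card_iff_nontrivial]
    simp only [Fintype.card_coe]; omega
  rw [h1, two_mul_nat_card_alternatingGroup, Nat.card_perm]
  simp

/-- the 3-cycle x -> y -> z -> x. -/
def three (x y z : α) (hxy : x ≠ y) (hxz : x ≠ z) : alternatingGroup α :=
  ⟨swap x z * swap x y, by
    rw [Perm.mem_alternatingGroup, map_mul, Perm.sign_swap hxz, Perm.sign_swap hxy]; rfl⟩

theorem three_apply (x y z : α) (hxy : x ≠ y) (hxz : x ≠ z) (hyz : y ≠ z) :
    ((three x y z hxy hxz : alternatingGroup α) : Perm α) x = y := by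
  simp [three, swap_apply_of_ne_of_ne hxy.symm hyz]

theorem three_fix (x y z p : α) (hxy : x ≠ y) (hxz : x ≠ z) (h1 : p ≠ x) (h2 : p ≠ y)
    (h3 : p ≠ z) : ((three x y z hxy hxz : alternatingGroup α) : Perm α) p = p := by
  simp [three, swap_apply_of_ne_of_ne h1 h2, swap_apply_of_ne_of_ne h1 h3]

theorem three_mem_K {T : Finset α} (x y z : α) (hxy : x ≠ y) (hxz : x ≠ z) (h1 : x ∈ T)
    (h2 : y ∈ T) (h3 : z ∈ T) : three x y z hxy hxz ∈ K T := by
  rw [mem_K]
  intro p hp
  apply three_fix
  · rintro rfl; exact hp h1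
  · rintro rfl; exact hp h2
  · rintro rfl; exact hp h3

theorem glue_step (H : Subgroup (alternatingGroup α)) (T : Finset α) (hT : K T ≤ H)
    (hcard : 3 ≤ T.card) (h f a b : α) (hh : h ∉ T) (hf : f ∈ T) (ha : a ∈ T) (hb : b ∈ T)
    (hfa : f ≠ a) (hfb : f ≠ b) (hab : a ≠ b) (u : alternatingGroup α) (hu : u ∈ H)
    (huf : (u : Perm α) f = h) (hua : (u : Perm α) a = a) (hub : (u : Perm α) b = b) :
    K (insert h T) ≤ H := by
  intro g hg
  by_cases hgh : (g : Perm α) h = h
  · apply hT
    rw [mem_K] at hg ⊢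
    intro p hp
    by_cases hph : p = h
    · rw [hph, hgh]
    · exact hg p (by simp [hph, hp])
  · -- c = g h is in T
    have hc : (g : Perm α) h ∈ T := by
      by_contra hc
      rw [mem_K] at hg
      have h1 : (g : Perm α) ((g : Perm α) h) = (g : Perm α) h :=
        hg _ (by simp [hgh, hc])
      exact hgh ((g : Perm α).injective h1)
    set c := (g : Perm α) h with hcdef
    let v := three f a b hfa hfb
    have hv : v ∈ K T := three_mem_K f a b hfa hfb hf ha hb
    let w := u * v * u⁻¹
    have hw : w ∈ H := H.mul_mem (H.mul_mem hu (hT hv)) (H.inv_mem hu)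
    have huinv : ((u : Perm α))⁻¹ h = f := by rw [Perm.inv_eq_iff_eq, huf]
    have hwh : (w : Perm α) h = a := by
      show ((u : Perm α) * (v : Perm α) * (u : Perm α)⁻¹) h = a
      rw [Perm.mul_apply, Perm.mul_apply, huinv]
      rw [show (v : Perm α) f = a from three_apply f a b hfa hfb hab, hua]
    have hwfix : ∀ p, p ∉ insert h T → (w : Perm α) p = p := by
      intro p hp
      simp only [Finset.mem_insert, not_or] at hp
      show ((u : Perm α) * (v : Perm α) * (u : Perm α)⁻¹) p = p
      rw [Perm.mul_apply, Perm.mul_apply]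
      have : (v : Perm α) ((u : Perm α)⁻¹ p) = (u : Perm α)⁻¹ p := by
        apply three_fix
        · intro h0
          rw [Perm.inv_eq_iff_eq, huf] at h0
          exact hp.1 h0
        · intro h0
          rw [Perm.inv_eq_iff_eq, hua] at h0
          exact hp.2 (h0 ▸ ha)
        · intro h0
          rw [Perm.inv_eq_iff_eq, hub] at h0
          exact hp.2 (h0 ▸ hb)
      rw [this]; simp
    -- element moving a to c
    obtain ⟨κ, hκ, hκa⟩ : ∃ κ : alternatingGroup α, κ ∈ K T ∧ (κ : Perm α) a = c := by
      by_cases hac : a = c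
      · exact ⟨1, (K T).one_mem, by simpa using hac⟩
      · obtain ⟨e, he, hea⟩ : ∃ e ∈ T, e ∉ ({a, c} : Finset α) := by
          apply Finset.exists_mem_notMem_of_card_lt_card
          exact lt_of_le_of_lt Finset.card_le_two (by omega)
        simp only [Finset.mem_insert, Finset.mem_singleton, not_or] at hea
        exact ⟨three a c e hac (Ne.symm hea.1), three_mem_K _ _ _ _ _ ha hc he,
          three_apply _ _ _ _ _ (Ne.symm hea.2)⟩
    have hx : w⁻¹ * κ⁻¹ * g ∈ K T := by
      rw [mem_K]
      have hgfix := (mem_K _ _).mp hg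
      have hκfix := (mem_K _ _).mp hκ
      have happ : ∀ p, ((w⁻¹ * κ⁻¹ * g : alternatingGroup α) : Perm α) p =
          (w : Perm α)⁻¹ ((κ : Perm α)⁻¹ ((g : Perm α) p)) := fun p => rfl
      intro p hp
      rw [happ]
      by_cases hph : p = h
      · subst hph
        rw [← hcdef, Perm.inv_eq_iff_eq, Perm.inv_eq_iff_eq, hwh, hκa]
      · have hpi : p ∉ insert h T := by simp [hph, hp]
        rw [hgfix p hpi, Perm.inv_eq_iff_eq, Perm.inv_eq_iff_eq, hwfix p hpi, hκfix p hp]
    have h1 : g = κ * w * (w⁻¹ * κ⁻¹ * g) := by group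
    rw [h1]
    exact H.mul_mem (H.mul_mem (hT hκ) hw) (hT hx)

theorem glue (H : Subgroup (alternatingGroup α)) (U : Finset α) (hU : K U ≤ H)
    (hUc : 3 ≤ U.card) : ∀ (n : ℕ) (T : Finset α), (U \ T).card = n → K T ≤ H → 4 ≤ T.card →
      (∃ f, f ∈ T ∧ f ∈ U) → K (T ∪ U) ≤ H := by
  intro n
  induction n with
  | zero =>
    intro T hn hT _ _
    have : U ⊆ T := by
      rw [← Finset.sdiff_eq_empty_iff_subset]
      exact Finset.card_eq_zero.mp hn
    rwa [Finset.union_eq_left.mpr this]
  | succ n ih =>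
    rintro T hn hT hTc ⟨f, hfT, hfU⟩
    obtain ⟨h, hh⟩ : (U \ T).Nonempty := by
      rw [← Finset.card_pos]; omega
    rw [Finset.mem_sdiff] at hh
    obtain ⟨hhU, hhT⟩ := hh
    have hfh : f ≠ h := by rintro rfl; exact hhT hfT
    obtain ⟨e, heU, he⟩ : ∃ e ∈ U, e ∉ ({f, h} : Finset α) := by
      apply Finset.exists_mem_notMem_of_card_lt_card
      exact lt_of_le_of_lt Finset.card_le_two (by omega)
    simp only [Finset.mem_insert, Finset.mem_singleton, not_or] at he
    obtain ⟨a, haT, ha⟩ : ∃ a ∈ T, a ∉ ({f, e} : Finset α) := by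
      apply Finset.exists_mem_notMem_of_card_lt_card
      exact lt_of_le_of_lt Finset.card_le_two (by omega)
    obtain ⟨b, hbT, hb⟩ : ∃ b ∈ T, b ∉ ({f, e, a} : Finset α) := by
      apply Finset.exists_mem_notMem_of_card_lt_card
      exact lt_of_le_of_lt Finset.card_le_three (by omega)
    simp only [Finset.mem_insert, Finset.mem_singleton, not_or] at ha hb
    have hah : a ≠ h := by rintro rfl; exact hhT haT
    have hbh : b ≠ h := by rintro rfl; exact hhT hbT
    have hstep : K (insert h T) ≤ H := by
      apply glue_step H T hT (by omega) h f a b hhT hfT haT hbT (Ne.symm ha.1) (Ne.symm hb.1)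
        (Ne.symm hb.2.2) (three f h e hfh (Ne.symm he.1)) (hU (three_mem_K _ _ _ _ _ hfU hhU heU))
      · exact three_apply _ _ _ _ _ (Ne.symm he.2)
      · exact three_fix _ _ _ _ _ _ ha.1 hah ha.2
      · exact three_fix _ _ _ _ _ _ hb.1 hbh hb.2.1
    have h2 : (U \ insert h T).card = n := by
      have : U \ insert h T = (U \ T).erase h := by
        ext x; simp only [Finset.mem_sdiff, Finset.mem_insert, Finset.mem_erase]; tauto
      rw [this, Finset.card_erase_of_mem (by simp [hhU, hhT]), hn]; rfl
    have h3 := ih (insert h T) h2 hstep (by rw [Finset.card_insert_of_notMem hhT]; omega)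
      ⟨f, by simp [hfT], hfU⟩
    have h4 : insert h T ∪ U = T ∪ U := by
      ext x; simp only [Finset.mem_union, Finset.mem_insert]
      constructor
      · rintro ((rfl | h1) | h1)
        · right; exact hhU
        · left; exact h1
        · right; exact h1
      · rintro (h1 | h1)
        · left; right; exact h1
        · right; exact h1
    rwa [h4] at h3

theorem glue' (H : Subgroup (alternatingGroup α)) {T U : Finset α} (hT : K T ≤ H)
    (hU : K U ≤ H) (hTc : 4 ≤ T.card) (hUc : 3 ≤ U.card) (h : ∃ f, f ∈ T ∧ f ∈ U) :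
    K (T ∪ U) ≤ H := glue H U hU hUc _ T rfl hT hTc h

/-- key step: if `P` centralises `K E` and `K E` lies in the product set `P H`, then `K E ≤ H`. -/
theorem le_of_subset_mul (H P : Subgroup (alternatingGroup α)) (E : Finset α) (hE : 5 ≤ E.card)
    (c : ℕ) (hc : c ≠ 0) (hH : H.index = c) (hcE : 2 * c < (E.card).factorial)
    (hcomm : ∀ p ∈ P, ∀ a ∈ K E, p * a = a * p)
    (hsub : ∀ a ∈ K E, ∃ p ∈ P, p⁻¹ * a ∈ H) : K E ≤ H := by
  let N : Subgroup (alternatingGroup E) := H.comap (alternatingGroup.ofSubtype E)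
  have hmemK : ∀ a : alternatingGroup E, alternatingGroup.ofSubtype E a ∈ K E := fun a => ⟨a, rfl⟩
  have hN : N.Normal := by
    constructor
    intro n hn a
    have hn' : alternatingGroup.ofSubtype E n ∈ H := hn
    show alternatingGroup.ofSubtype E (a * n * a⁻¹) ∈ H
    obtain ⟨p, hp, hpa⟩ := hsub _ (hmemK a)
    set A := alternatingGroup.ofSubtype E a with hA
    set M := alternatingGroup.ofSubtype E n with hM
    have h1 : alternatingGroup.ofSubtype E (a * n * a⁻¹) = A * M * A⁻¹ := by
      rw [map_mul, map_mul, map_inv]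
    have h2 : p * (A * M * A⁻¹) = (A * M * A⁻¹) * p := by
      rw [← h1]; exact hcomm p hp _ (hmemK _)
    have h3 : (p⁻¹ * A) * M * (p⁻¹ * A)⁻¹ = A * M * A⁻¹ := by
      calc (p⁻¹ * A) * M * (p⁻¹ * A)⁻¹ = p⁻¹ * ((A * M * A⁻¹) * p) := by group
        _ = p⁻¹ * (p * (A * M * A⁻¹)) := by rw [h2]
        _ = A * M * A⁻¹ := by group
    rw [h1, ← h3]
    exact H.mul_mem (H.mul_mem hpa hn') (H.inv_mem hpa)
  have hcardE : Nat.card (alternatingGroup E) * 2 = (E.card).factorial := by
    have : Nontrivial E := by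
      rw [← Fintype.one_lt_card_iff_nontrivial]
      simp; omega
    have h1 := two_mul_nat_card_alternatingGroup (α := E)
    rw [Nat.card_perm] at h1
    simp only [Nat.card_eq_fintype_card, Fintype.card_coe] at h1 ⊢
    omega
  have hNne : N ≠ ⊥ := by
    intro hbot
    -- injection of alternatingGroup E into the quotient
    have : Finite (alternatingGroup α ⧸ H) :=
      Nat.finite_of_card_ne_zero (by rw [show Nat.card (alternatingGroup α ⧸ H) = c from hH]; exact hc)
    have hinj : Function.Injective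
        (fun a : alternatingGroup E => (alternatingGroup.ofSubtype E a : alternatingGroup α ⧸ H)) := by
      intro a b hab
      have h1 := QuotientGroup.eq.mp hab
      have h2 : a⁻¹ * b ∈ N := by
        show alternatingGroup.ofSubtype E (a⁻¹ * b) ∈ H
        rw [map_mul, map_inv]; exact h1
      rw [hbot, Subgroup.mem_bot] at h2
      exact (inv_mul_eq_one.mp h2)
    have h2 := Nat.card_le_card_of_injective _ hinj
    rw [show Nat.card (alternatingGroup α ⧸ H) = c from hH] at h2
    omega
  have hs : IsSimpleGroup (alternatingGroup E) := alternatingGroup.isSimpleGroup (by simpa using hE)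
  have htop : N = ⊤ := (hN.eq_bot_or_eq_top).resolve_left hNne
  rintro _ ⟨a, rfl⟩
  have : a ∈ N := by rw [htop]; trivial
  exact this

/-- image of a subgroup in the coset space -/
def orb (H P : Subgroup (alternatingGroup α)) : Set (alternatingGroup α ⧸ H) :=
  (fun p : alternatingGroup α => (p : alternatingGroup α ⧸ H)) '' (P : Set (alternatingGroup α))

theorem double (H P : Subgroup (alternatingGroup α)) (E : Finset α) (hE : 5 ≤ E.card)
    (c : ℕ) (hc : c ≠ 0) (hH : H.index = c) (hcE : 2 * c < (E.card).factorial)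
    (hcomm : ∀ p ∈ P, ∀ a ∈ K E, p * a = a * p) (hnot : ¬ K E ≤ H) :
    2 * (orb H P).ncard ≤ (orb H (K E ⊔ P)).ncard := by
  have hfin : Finite (alternatingGroup α ⧸ H) :=
    Nat.finite_of_card_ne_zero (by rw [show Nat.card (alternatingGroup α ⧸ H) = c from hH]; exact hc)
  obtain ⟨a, haE, ha⟩ : ∃ a ∈ K E, ∀ p ∈ P, p⁻¹ * a ∉ H := by
    by_contra hcon
    push Not at hcon
    exact hnot (le_of_subset_mul H P E hE c hc hH hcE hcomm hcon)
  let O := orb H P
  let O' := (fun x : alternatingGroup α ⧸ H => a • x) '' O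
  have hdisj : Disjoint O O' := by
    rw [Set.disjoint_left]
    rintro _ ⟨p, hp, rfl⟩ ⟨_, ⟨q, hq, rfl⟩, h⟩
    have h1 : ((a * q : alternatingGroup α) : alternatingGroup α ⧸ H) = (p : alternatingGroup α ⧸ H) := h
    have h2 := QuotientGroup.eq.mp h1.symm
    have h3 : p⁻¹ * (a * q) = (q⁻¹ * p)⁻¹ * a := by
      rw [← hcomm q hq a haE]; group
    rw [h3] at h2
    exact ha _ (P.mul_mem (P.inv_mem hq) hp) h2
  have hcardO' : O'.ncard = O.ncard := Set.ncard_image_of_injective _ (MulAction.injective a)
  have hsub : O ∪ O' ⊆ orb H (K E ⊔ P) := by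
    rintro x (⟨p, hp, rfl⟩ | ⟨_, ⟨p, hp, rfl⟩, rfl⟩)
    · exact ⟨p, (le_sup_right : P ≤ K E ⊔ P) hp, rfl⟩
    · exact ⟨a * p, (K E ⊔ P).mul_mem ((le_sup_left : K E ≤ K E ⊔ P) haE)
        ((le_sup_right : P ≤ K E ⊔ P) hp), rfl⟩
  calc 2 * O.ncard = O.ncard + O'.ncard := by rw [hcardO']; ring
    _ = (O ∪ O').ncard := (Set.ncard_union_eq hdisj (Set.toFinite _) (Set.toFinite _)).symm
    _ ≤ _ := Set.ncard_le_ncard hsub (Set.toFinite _)

theorem K_commute {E F : Finset α} (h : Disjoint E F) (a b : alternatingGroup α) (ha : a ∈ K E)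
    (hb : b ∈ K F) : a * b = b * a := by
  rw [mem_K] at ha hb
  have hd : Perm.Disjoint (a : Perm α) (b : Perm α) := by
    intro x
    by_cases hx : x ∈ E
    · right; exact hb x (Finset.disjoint_left.mp h hx)
    · left; exact ha x hx
  apply Subtype.ext
  exact hd.commute.eq

theorem pow_le_orb {ι : Type*} [DecidableEq ι] (H : Subgroup (alternatingGroup α)) (E : ι → Finset α)
    (c : ℕ) (hc : c ≠ 0) (hH : H.index = c) (hE : ∀ i, 5 ≤ (E i).card)
    (hcE : ∀ i, 2 * c < ((E i).card).factorial) (hdisj : Pairwise (fun i j => Disjoint (E i) (E j)))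
    (s : Finset ι) (hs : ∀ i ∈ s, ¬ K (E i) ≤ H) :
    2 ^ s.card ≤ (orb H (⨆ i ∈ s, K (E i))).ncard := by
  have hfin : Finite (alternatingGroup α ⧸ H) :=
    Nat.finite_of_card_ne_zero (by rw [show Nat.card (alternatingGroup α ⧸ H) = c from hH]; exact hc)
  induction s using Finset.induction_on with
  | empty =>
    have : (orb H (⨆ i ∈ (∅ : Finset ι), K (E i))).Nonempty := ⟨_, 1, Subgroup.one_mem _, rfl⟩
    have h1 : 0 < (orb H (⨆ i ∈ (∅ : Finset ι), K (E i))).ncard := this.ncard_pos
    simpa using Nat.succ_le_of_lt h1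
  | insert i s his ih =>
    have h1 := ih (fun j hj => hs j (by simp [hj]))
    have hcomm : ∀ p ∈ (⨆ j ∈ s, K (E j)), ∀ a ∈ K (E i), p * a = a * p := by
      have hle : (⨆ j ∈ s, K (E j)) ≤ Subgroup.centralizer (K (E i) : Set (alternatingGroup α)) := by
        apply iSup₂_le
        intro j hj g hg
        rw [Subgroup.mem_centralizer_iff]
        intro a ha
        have hji : j ≠ i := by rintro rfl; exact his hj
        exact K_commute (hdisj hji.symm) a g ha hg
      intro p hp a ha
      exact ((Subgroup.mem_centralizer_iff.mp (hle hp)) a ha).symm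
    have h2 := double H (⨆ j ∈ s, K (E j)) (E i) (hE i) c hc hH (hcE i) hcomm (hs i (by simp))
    rw [Finset.card_insert_of_notMem his, Finset.iSup_insert, pow_succ]
    omega

theorem exists_good {ι : Type*} [Fintype ι] [DecidableEq ι] (H : Subgroup (alternatingGroup α))
    (E : ι → Finset α) (c : ℕ) (hc : c ≠ 0) (hH : H.index = c) (hE : ∀ i, 5 ≤ (E i).card)
    (hcE : ∀ i, 2 * c < ((E i).card).factorial) (hdisj : Pairwise (fun i j => Disjoint (E i) (E j)))
    (hι : c < 2 ^ Fintype.card ι) : ∃ i, K (E i) ≤ H := by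
  have hfin : Finite (alternatingGroup α ⧸ H) :=
    Nat.finite_of_card_ne_zero (by rw [show Nat.card (alternatingGroup α ⧸ H) = c from hH]; exact hc)
  by_contra hcon
  push Not at hcon
  have h1 := pow_le_orb H E c hc hH hE hcE hdisj Finset.univ (fun i _ => hcon i)
  have h2 : (orb H (⨆ i ∈ Finset.univ, K (E i))).ncard ≤ Nat.card (alternatingGroup α ⧸ H) := by
    rw [← Set.ncard_univ]
    exact Set.ncard_le_ncard (Set.subset_univ _) (Set.toFinite _)
  rw [show Nat.card (alternatingGroup α ⧸ H) = c from hH] at h2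
  rw [Finset.card_univ] at h1
  omega

theorem two_mul_two_pow_lt (t : ℕ) (ht : 5 ≤ t) : 2 * 2 ^ t < t.factorial := by
  induction t, ht using Nat.le_induction with
  | base => decide
  | succ n hn ih =>
    rw [Nat.factorial_succ, pow_succ]
    calc 2 * (2 ^ n * 2) = 2 * (2 * 2 ^ n) := by ring
      _ < (n + 1) * (n.factorial) := by
        apply lt_of_lt_of_le (Nat.mul_lt_mul_of_pos_left ih (by norm_num))
        exact Nat.mul_le_mul_right _ (by omega)

theorem exists_large (H : Subgroup (alternatingGroup α)) (c t : ℕ) (hc : c ≠ 0) (hH : H.index = c)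
    (ht : 5 ≤ t) (hct : c < 2 ^ t) (hα : t * t ≤ Fintype.card α) :
    ∃ T : Finset α, K T ≤ H ∧ Fintype.card α < T.card + t := by
  classical
  have hfac : 2 * c < t.factorial := lt_of_le_of_lt (by omega) (two_mul_two_pow_lt t ht)
  -- from an injection `Fin t × Fin t → α` we get disjoint sets
  have hsets : ∀ f : Fin t × Fin t → α, Function.Injective f →
      ∃ i : Fin t, K (Finset.univ.image (fun j => f (i, j))) ≤ H := by
    intro f hf
    have hcard : ∀ i, (Finset.univ.image (fun j => f (i, j))).card = t := by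
      intro i
      rw [Finset.card_image_of_injective]
      · simp
      · intro j j' h
        have := hf h
        simpa using this
    apply exists_good H (fun i => Finset.univ.image (fun j => f (i, j))) c hc hH
    · intro i; rw [hcard i]; exact ht
    · intro i; rw [hcard i]; exact hfac
    · intro i i' hii'
      rw [Finset.disjoint_left]
      intro x hx hx'
      simp only [Finset.mem_image, Finset.mem_univ, true_and] at hx hx'
      obtain ⟨j, hj⟩ := hx
      obtain ⟨j', hj'⟩ := hx'
      have := hf (hj.trans hj'.symm)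
      simp only [Prod.mk.injEq] at this
      exact hii' this.1
    · simpa using hct
  obtain ⟨f₀⟩ : Nonempty ((Fin t × Fin t) ↪ α) := by
    apply Function.Embedding.nonempty_of_card_le
    simpa using hα
  obtain ⟨i₀, hi₀⟩ := hsets f₀ f₀.injective
  -- maximal good set
  let good := (Finset.univ : Finset (Finset α)).filter (fun T => K T ≤ H)
  have hgood : (Finset.univ.image (fun j => f₀ (i₀, j))) ∈ good := by simp [good, hi₀]
  obtain ⟨T, hTg, hTmax⟩ := good.exists_max_image Finset.card ⟨_, hgood⟩
  have hT : K T ≤ H := (Finset.mem_filter.mp hTg).2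
  have hTt : t ≤ T.card := by
    have h1 := hTmax _ hgood
    rw [Finset.card_image_of_injective] at h1
    · simpa using h1
    · intro j j' h
      have := f₀.injective h
      simpa using this
  refine ⟨T, hT, ?_⟩
  by_contra hcon
  push Not at hcon
  have hTc : t ≤ Tᶜ.card := by rw [Finset.card_compl]; omega
  -- choose injection with prescribed columns
  obtain ⟨d, hd⟩ : ∃ d : Fin t → α, Function.Injective d ∧ ∀ i, d i ∈ T := by
    obtain ⟨e⟩ : Nonempty (Fin t ↪ T) := by
      apply Function.Embedding.nonempty_of_card_le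
      simpa using hTt
    exact ⟨fun i => (e i : α), fun i j h => e.injective (Subtype.ext h), fun i => (e i).2⟩
  obtain ⟨d', hd'⟩ : ∃ d : Fin t → α, Function.Injective d ∧ ∀ i, d i ∉ T := by
    obtain ⟨e⟩ : Nonempty (Fin t ↪ ↥(Tᶜ)) := by
      apply Function.Embedding.nonempty_of_card_le
      simp only [Fintype.card_fin, Fintype.card_coe]; exact hTc
    exact ⟨fun i => (e i : α), fun i j h => e.injective (Subtype.ext h), fun i =>
      Finset.mem_compl.mp (e i).2⟩
  let z0 : Fin t := ⟨0, by omega⟩
  let z1 : Fin t := ⟨1, by omega⟩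
  let pre : Fin t × Fin t → α := fun x => if x.2 = z0 then d x.1 else d' x.1
  let s : Finset (Fin t × Fin t) := Finset.univ.filter (fun x => x.2 = z0 ∨ x.2 = z1)
  have hpre : Set.InjOn pre s := by
    rintro ⟨i, j⟩ hx ⟨i', j'⟩ hx' h
    simp only [s, Finset.coe_filter, Finset.mem_univ, true_and, Set.mem_ofPred_eq] at hx hx'
    have h01 : z1 ≠ z0 := by simp [z0, z1]
    rcases hx with rfl | rfl <;> rcases hx' with rfl | rfl <;>
      simp only [pre, if_true, if_neg h01] at h
    · rw [hd.1 h]
    · exact absurd (h ▸ hd.2 i) (hd'.2 i')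
    · exact absurd (h ▸ hd.2 i') (fun hh => hd'.2 i (by rw [h]; exact hd.2 i'))
    · rw [hd'.1 h]
  obtain ⟨W, hW1, hW2⟩ : ∃ W : Finset α, s.image pre ⊆ W ∧ W.card = t * t := by
    have h1 : (s.image pre).card ≤ t * t := by
      calc (s.image pre).card ≤ s.card := Finset.card_image_le
        _ ≤ (Finset.univ : Finset (Fin t × Fin t)).card := Finset.card_le_card (Finset.subset_univ _)
        _ = t * t := by simp
    obtain ⟨W, hW1, hW2, hW3⟩ := Finset.exists_subsuperset_card_eq (Finset.subset_univ (s.image pre))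
      h1 (by simpa using hα)
    exact ⟨W, hW1, hW3⟩
  obtain ⟨g, hg⟩ := Finset.exists_equiv_extend_of_card_eq (α := Fin t × Fin t) (t := W)
    (by simp [hW2]) hW1 hpre
  have hinj : Function.Injective (fun x => (g x : α)) := fun x y h => g.injective (Subtype.ext h)
  obtain ⟨i, hi⟩ := hsets (fun x => (g x : α)) hinj
  have h0 : (g (i, z0) : α) = d i := by
    rw [hg (i, z0) (by simp [s])]; simp [pre]
  have h1 : (g (i, z1) : α) = d' i := by
    rw [hg (i, z1) (by simp [s])]
    have h01 : z1 ≠ z0 := by simp [z0, z1]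
    simp [pre, h01]
  set U := Finset.univ.image (fun j => (g (i, j) : α)) with hU
  have hUcard : U.card = t := by
    rw [hU, Finset.card_image_of_injective]
    · simp
    · intro j j' h
      have := hinj h
      simpa using this
  have hglue : K (T ∪ U) ≤ H := by
    apply glue' H hT hi (by omega) (by omega)
    exact ⟨d i, hd.2 i, by rw [hU, Finset.mem_image]; exact ⟨z0, by simp, h0⟩⟩
  have h5 := hTmax (T ∪ U) (by simp [good, hglue])
  have h6 : T ∪ U = T := (Finset.eq_of_subset_of_card_le Finset.subset_union_left h5).symm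
  have h7 : d' i ∈ T := by
    rw [← h6, Finset.mem_union]; right
    rw [hU, Finset.mem_image]; exact ⟨z1, by simp, h1⟩
  exact hd'.2 i h7

end Pool.Agent.Helper89.AltSub
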