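import Mathlib

namespace Pool.Agent.Helper89.Num

theorem pow_self_le (n : ℕ) : n ^ n ≤ (n.factorial) ^ 2 := by
  have h1 : n.factorial = ∏ i ∈ Finset.range n, (i + 1) := (Finset.prod_range_add_one_eq_factorial n).symm
  have h2 : n.factorial = ∏ i ∈ Finset.range n, (n - 1 - i + 1) := by
    rw [h1]
    exact (Finset.prod_range_reflect (fun i => i + 1) n).symm
  calc n ^ n = ∏ _i ∈ Finset.range n, n := by simp
    _ ≤ ∏ i ∈ Finset.range n, ((i + 1) * (n - 1 - i + 1)) := by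
        apply Finset.prod_le_prod (fun _ _ => Nat.zero_le _)
        intro i hi
        have hi' := Finset.mem_range.mp hi
        obtain ⟨j, rfl⟩ : ∃ j, n = i + j + 1 := ⟨n - i - 1, by omega⟩
        have : i + j + 1 - 1 - i + 1 = j + 1 := by omega
        rw [this]; nlinarith
    _ = n.factorial * n.factorial := by
        rw [Finset.prod_mul_distrib, ← h1, ← h2]
    _ = _ := by ring

theorem fact_sq_le (c : ℕ) : (c.factorial) ^ 2 ≤ (2 * c).factorial := by
  have := Nat.factorial_mul_factorial_dvd_factorial_add c c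
  have := Nat.le_of_dvd (Nat.factorial_pos _) this
  calc _ = c.factorial * c.factorial := by ring
    _ ≤ _ := this
    _ = _ := by rw [two_mul]

theorem term_bound (α : ℝ) (hα : 0 < α) (d k₀ n b c : ℕ) (hk : (4 * d : ℝ) ≤ α * k₀) (hk0 : 1 ≤ k₀)
    (m : ℕ → ℕ) (hm : ∀ c, (m c : ℝ) ≤ ((c.factorial : ℕ) : ℝ) ^ α)
    (hb : 1 ≤ b) (hc : 1 ≤ c) (hbc : b * c ≤ n) (hkc : k₀ ≤ c) :
    ((((c + 1) * m c) * ((b.factorial) ^ d * 4 ^ c * c ^ (b * d)) : ℕ) : ℝ) ≤
      (n + 1) ^ (d + 1) * 4 ^ n * ((n.factorial : ℕ) : ℝ) ^ α := by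
  have hcn : c ≤ n := (Nat.le_mul_of_pos_left _ (by omega)).trans hbc
  have hn1 : (1 : ℝ) ≤ ((n.factorial : ℕ) : ℝ) := by exact_mod_cast Nat.factorial_pos n
  have h4 : (4 : ℝ) ^ c ≤ 4 ^ n := pow_le_pow_right₀ (by norm_num) hcn
  have hc1 : ((c : ℝ) + 1) ≤ n + 1 := by
    have : (c : ℝ) ≤ n := by exact_mod_cast hcn
    linarith
  rcases Nat.lt_or_ge b 2 with hb2 | hb2
  · have hb1 : b = 1 := by omega
    subst hb1
    have e1 : (((c.factorial : ℕ) : ℝ)) ^ α ≤ ((n.factorial : ℕ) : ℝ) ^ α := by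
      apply Real.rpow_le_rpow (by positivity) _ hα.le
      exact_mod_cast Nat.factorial_le hcn
    have e2 : (c : ℝ) ^ d ≤ ((n : ℝ) + 1) ^ d := by
      apply pow_le_pow_left₀ (by positivity)
      linarith
    push_cast
    simp only [Nat.factorial_one, Nat.cast_one, one_pow, one_mul]
    calc ((c : ℝ) + 1) * (m c) * (4 ^ c * (c : ℝ) ^ d)
        ≤ ((n : ℝ) + 1) * ((n.factorial : ℕ) : ℝ) ^ α * (4 ^ n * ((n : ℝ) + 1) ^ d) := by
          gcongr
          exact (hm c).trans e1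
      _ = _ := by ring
  · have hfac : ((c.factorial : ℕ) : ℝ) ^ α ≤ (((n.factorial : ℕ) : ℝ)) ^ (α / 2) := by
      have h1 : ((c.factorial : ℕ) : ℝ) ^ 2 ≤ ((n.factorial : ℕ) : ℝ) := by
        have : (c.factorial) ^ 2 ≤ n.factorial := (fact_sq_le c).trans
          (Nat.factorial_le ((Nat.mul_le_mul_right c hb2).trans hbc))
        exact_mod_cast this
      calc ((c.factorial : ℕ) : ℝ) ^ α = (((c.factorial : ℕ) : ℝ) ^ 2) ^ (α / 2) := by
            rw [← Real.rpow_natCast, ← Real.rpow_mul (by positivity)]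
            congr 1; push_cast; ring
        _ ≤ _ := Real.rpow_le_rpow (by positivity) h1 (by positivity)
    have hpow : ((b.factorial : ℕ) : ℝ) ^ d * (c : ℝ) ^ (b * d) ≤ (((n.factorial : ℕ) : ℝ)) ^ (α / 2) := by
      have h1 : (b.factorial) ^ d * c ^ (b * d) ≤ n ^ (b * d) := by
        calc (b.factorial) ^ d * c ^ (b * d) = (b.factorial * c ^ b) ^ d := by
              rw [mul_pow, ← pow_mul]
          _ ≤ (b ^ b * c ^ b) ^ d := by
              apply Nat.pow_le_pow_left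
              exact Nat.mul_le_mul_right _ (Nat.factorial_le_pow b)
          _ = ((b * c) ^ b) ^ d := by rw [mul_pow b c b]
          _ ≤ (n ^ b) ^ d := Nat.pow_le_pow_left (Nat.pow_le_pow_left hbc _) _
          _ = _ := by rw [← pow_mul]
      have h2 : (n ^ (b * d)) ^ k₀ ≤ (n.factorial) ^ (2 * d) := by
        calc (n ^ (b * d)) ^ k₀ = (n ^ (b * k₀)) ^ d := by
              rw [← pow_mul, ← pow_mul]; congr 1; ring
          _ ≤ (n ^ n) ^ d := by
              apply Nat.pow_le_pow_left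
              apply Nat.pow_le_pow_right (by omega)
              exact (Nat.mul_le_mul_left _ hkc).trans hbc
          _ ≤ ((n.factorial) ^ 2) ^ d := Nat.pow_le_pow_left (pow_self_le n) _
          _ = _ := by rw [← pow_mul]
      have hk0' : (0 : ℝ) < k₀ := by exact_mod_cast hk0
      have h3 : ((n : ℝ) ^ (b * d)) ≤ (((n.factorial : ℕ) : ℝ)) ^ ((2 * d : ℝ) / k₀) := by
        have h2' : (((n : ℝ) ^ (b * d)) ^ k₀) ≤ (((n.factorial : ℕ) : ℝ)) ^ (2 * d) := by
          exact_mod_cast h2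
        calc ((n : ℝ) ^ (b * d)) = ((((n : ℝ) ^ (b * d)) ^ k₀)) ^ ((1 : ℝ) / k₀) := by
              rw [← Real.rpow_natCast _ k₀, ← Real.rpow_mul (by positivity)]
              rw [mul_one_div_cancel hk0'.ne', Real.rpow_one]
          _ ≤ ((((n.factorial : ℕ) : ℝ)) ^ (2 * d)) ^ ((1 : ℝ) / k₀) :=
              Real.rpow_le_rpow (by positivity) h2' (by positivity)
          _ = _ := by
              rw [← Real.rpow_natCast _ (2 * d), ← Real.rpow_mul (by positivity)]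
              congr 1; push_cast; ring
      calc ((b.factorial : ℕ) : ℝ) ^ d * (c : ℝ) ^ (b * d) ≤ (n : ℝ) ^ (b * d) := by exact_mod_cast h1
        _ ≤ _ := h3
        _ ≤ _ := by
            apply Real.rpow_le_rpow_of_exponent_le hn1
            rw [div_le_div_iff₀ hk0' (by norm_num)]
            linarith
    push_cast
    have hn2 : (1 : ℝ) ≤ ((n : ℝ) + 1) ^ d := one_le_pow₀ (by linarith [Nat.cast_nonneg (α := ℝ) n])
    calc ((c : ℝ) + 1) * (m c) * (((b.factorial : ℕ) : ℝ) ^ d * 4 ^ c * (c : ℝ) ^ (b * d))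
        = ((c : ℝ) + 1) * 4 ^ c * ((m c) * (((b.factorial : ℕ) : ℝ) ^ d * (c : ℝ) ^ (b * d))) := by ring
      _ ≤ ((n : ℝ) + 1) * 4 ^ n * ((((n.factorial : ℕ) : ℝ)) ^ (α / 2) *
          (((n.factorial : ℕ) : ℝ)) ^ (α / 2)) := by
          gcongr
          exact (hm c).trans hfac
      _ = ((n : ℝ) + 1) * 4 ^ n * ((((n.factorial : ℕ) : ℝ)) ^ α) := by
          rw [← Real.rpow_add (by linarith)]
          congr 2; ring
      _ ≤ (((n : ℝ) + 1) * ((n : ℝ) + 1) ^ d) * 4 ^ n * ((((n.factorial : ℕ) : ℝ)) ^ α) := by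
          gcongr
          exact le_mul_of_one_le_right (by positivity) hn2
      _ = _ := by ring

theorem sum_bound (α : ℝ) (hα : 0 < α) (d k₀ n : ℕ) (hk : (4 * d : ℝ) ≤ α * k₀) (hk0 : 1 ≤ k₀)
    (m : ℕ → ℕ) (hm : ∀ c, (m c : ℝ) ≤ ((c.factorial : ℕ) : ℝ) ^ α) :
    ((n + ∑ bc ∈ (Finset.Icc 1 n ×ˢ Finset.Icc 1 n).filter
        (fun bc => k₀ ≤ bc.2 ∧ bc.1 * bc.2 ≤ n),
        ((bc.2 + 1) * m bc.2) * ((bc.1.factorial) ^ d * 4 ^ bc.2 * bc.2 ^ (bc.1 * d)) : ℕ) : ℝ) ≤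
      2 * (n + 1) ^ (d + 3) * 4 ^ n * ((n.factorial : ℕ) : ℝ) ^ α := by
  set F := (Finset.Icc 1 n ×ˢ Finset.Icc 1 n).filter
    (fun bc : ℕ × ℕ => k₀ ≤ bc.2 ∧ bc.1 * bc.2 ≤ n) with hF
  set R : ℝ := (n + 1) ^ (d + 1) * 4 ^ n * ((n.factorial : ℕ) : ℝ) ^ α with hR
  have hn1 : (1 : ℝ) ≤ ((n.factorial : ℕ) : ℝ) := by exact_mod_cast Nat.factorial_pos n
  have hn0 : (0 : ℝ) ≤ n := Nat.cast_nonneg n
  have hR1 : 1 ≤ R := by
    have h1 : (1 : ℝ) ≤ ((n : ℝ) + 1) ^ (d + 1) := one_le_pow₀ (by linarith)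
    have h2 : (1 : ℝ) ≤ 4 ^ n := one_le_pow₀ (by norm_num)
    have h3 : (1 : ℝ) ≤ ((n.factorial : ℕ) : ℝ) ^ α := Real.one_le_rpow hn1 hα.le
    calc (1 : ℝ) = 1 * 1 * 1 := by norm_num
      _ ≤ _ := by
        apply mul_le_mul (mul_le_mul h1 h2 (by norm_num) (by positivity)) h3 (by norm_num)
          (by positivity)
  have hcard : (F.card : ℝ) ≤ n * n := by
    have : F.card ≤ n * n := by
      calc F.card ≤ (Finset.Icc 1 n ×ˢ Finset.Icc 1 n).card := Finset.card_filter_le _ _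
        _ = n * n := by rw [Finset.card_product, Nat.card_Icc, Nat.add_sub_cancel]
    exact_mod_cast this
  rw [Nat.cast_add, Nat.cast_sum]
  have h1 : ∑ bc ∈ F, (((((bc.2 + 1) * m bc.2) * ((bc.1.factorial) ^ d * 4 ^ bc.2 *
      bc.2 ^ (bc.1 * d)) : ℕ)) : ℝ) ≤ ∑ _bc ∈ F, R := by
    apply Finset.sum_le_sum
    rintro ⟨b, c⟩ hbc
    rw [hF, Finset.mem_filter, Finset.mem_product, Finset.mem_Icc, Finset.mem_Icc] at hbc
    obtain ⟨⟨⟨h1, h2⟩, h3, h4⟩, h5, h6⟩ := hbc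
    exact term_bound α hα d k₀ n b c hk hk0 m hm h1 h3 h6 h5
  rw [Finset.sum_const, nsmul_eq_mul] at h1
  calc (n : ℝ) + _ ≤ n + F.card * R := by linarith
    _ ≤ n * R + n * n * R := by
        have : (n : ℝ) ≤ n * R := le_mul_of_one_le_right hn0 hR1
        have h2 : (F.card : ℝ) * R ≤ n * n * R := by gcongr
        linarith
    _ ≤ 2 * (n + 1) ^ 2 * R := by
        have : (n : ℝ) + n * n ≤ 2 * (n + 1) ^ 2 := by nlinarith
        calc n * R + n * n * R = (n + n * n) * R := by ring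
          _ ≤ _ := by gcongr
    _ = _ := by rw [hR]; ring

end Pool.Agent.Helper89.Num
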