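import Mathlib
import Pool.Agent.Helper89.Num

namespace Pool.Agent.Helper89.Asym

open Pool.Agent.Helper89.Num Filter

theorem log_fact_ge (n : ℕ) (hn : 1 ≤ n) :
    (n : ℝ) / 2 * Real.log n ≤ Real.log ((n.factorial : ℕ) : ℝ) := by
  have h1 : ((n : ℝ)) ^ n ≤ ((n.factorial : ℕ) : ℝ) ^ 2 := by exact_mod_cast pow_self_le n
  have hn0 : (0 : ℝ) < n := by exact_mod_cast hn
  have h2 := Real.log_le_log (by positivity) h1
  rw [Real.log_pow, Real.log_pow] at h2
  push_cast at h2
  linarith

theorem fact_le (k n : ℕ) (hkn : k ≤ n) : n.factorial ≤ k.factorial * n ^ (n - k) := by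
  have h1 := Nat.factorial_mul_ascFactorial k (n - k)
  have h2 := Nat.ascFactorial_le_pow_add k (n - k)
  have h3 : k + (n - k) = n := by omega
  rw [h3] at h1 h2
  rw [← h1]
  exact Nat.mul_le_mul_left _ h2

theorem limit (α : ℝ) (hα : 0 < α) (d : ℕ) (s : ℕ → ℕ)
    (hup : ∀ n : ℕ, (s n : ℝ) ≤ 2 * (n + 1) ^ (d + 3) * 4 ^ n * ((n.factorial : ℕ) : ℝ) ^ α)
    (hlow : ∀ᶠ n : ℕ in atTop, ∃ k : ℕ, k ≤ n ∧ (n - k) ^ 2 ≤ 5 * n ∧
      ((k.factorial : ℕ) : ℝ) ^ α / 2 ≤ s n) :
    Tendsto (fun n : ℕ => Real.log (s n : ℝ) / Real.log ((n.factorial : ℕ) : ℝ)) atTop (nhds α) := by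
  have t1 : Tendsto (fun n : ℕ => Real.log (n : ℝ)) atTop atTop :=
    Real.tendsto_log_atTop.comp tendsto_natCast_atTop_atTop
  have t2 : Tendsto (fun n : ℕ => Real.sqrt (n : ℝ)) atTop atTop :=
    Real.tendsto_sqrt_atTop.comp tendsto_natCast_atTop_atTop
  have t3 : Tendsto (fun n : ℕ => (1 : ℝ) / Real.log (n : ℝ)) atTop (nhds 0) :=
    Tendsto.const_div_atTop t1 _
  have t4 : Tendsto (fun n : ℕ => (2 * α * Real.sqrt 5) / Real.sqrt (n : ℝ)) atTop (nhds 0) :=
    Tendsto.const_div_atTop t2 _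
  have t5 : Tendsto (fun n : ℕ => (2 * (d + 6) : ℝ) / Real.log (n : ℝ)) atTop (nhds 0) :=
    Tendsto.const_div_atTop t1 _
  have u1 : Tendsto (fun n : ℕ => α - ((2 * α * Real.sqrt 5) / Real.sqrt (n : ℝ) +
      1 / Real.log (n : ℝ))) atTop (nhds α) := by
    have := (tendsto_const_nhds (x := α)).sub (t4.add t3)
    simpa using this
  have u2 : Tendsto (fun n : ℕ => α + (2 * (d + 6) : ℝ) / Real.log (n : ℝ)) atTop (nhds α) := by
    have := (tendsto_const_nhds (x := α)).add t5
    simpa using this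
  refine tendsto_of_tendsto_of_tendsto_of_le_of_le' u1 u2 ?_ ?_
  · filter_upwards [hlow, eventually_ge_atTop 3] with n hn hn3
    obtain ⟨k, hkn, hk2, hs⟩ := hn
    have hn3' : (3 : ℝ) ≤ n := by exact_mod_cast hn3
    have hlogn : 0 < Real.log n := Real.log_pos (by linarith)
    have hlf := log_fact_ge n (by omega)
    have hlfpos : 0 < Real.log ((n.factorial : ℕ) : ℝ) :=
      lt_of_lt_of_le (by positivity) hlf
    have hkpos : (0 : ℝ) < ((k.factorial : ℕ) : ℝ) := by exact_mod_cast Nat.factorial_pos k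
    have hspos : (0 : ℝ) < ((k.factorial : ℕ) : ℝ) ^ α / 2 := by positivity
    have h1 := Real.log_le_log hspos hs
    rw [Real.log_div (by positivity) (by norm_num), Real.log_rpow hkpos] at h1
    have h2 : Real.log ((n.factorial : ℕ) : ℝ) ≤ Real.log ((k.factorial : ℕ) : ℝ) +
        (n - k : ℕ) * Real.log n := by
      have h3 : ((n.factorial : ℕ) : ℝ) ≤ ((k.factorial : ℕ) : ℝ) * (n : ℝ) ^ (n - k) := by
        exact_mod_cast fact_le k n hkn
      have h4 := Real.log_le_log (by exact_mod_cast Nat.factorial_pos n) h3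
      rwa [Real.log_mul (by positivity) (by positivity), Real.log_pow] at h4
    have hnk : ((n - k : ℕ) : ℝ) ≤ Real.sqrt 5 * Real.sqrt n := by
      rw [← Real.sqrt_mul (by norm_num)]
      apply Real.le_sqrt_of_sq_le
      exact_mod_cast hk2
    rw [le_div_iff₀ hlfpos]
    -- goal: (α - (...)) * log n! ≤ log s
    have hsq : Real.sqrt n * Real.sqrt n = n := Real.mul_self_sqrt (by linarith)
    have hsqpos : 0 < Real.sqrt n := Real.sqrt_pos.mpr (by linarith)
    have e1 : α * ((n - k : ℕ) * Real.log n) ≤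
        (2 * α * Real.sqrt 5) / Real.sqrt (n : ℝ) * Real.log ((n.factorial : ℕ) : ℝ) := by
      calc α * ((n - k : ℕ) * Real.log n) ≤ α * ((Real.sqrt 5 * Real.sqrt n) * Real.log n) := by
            gcongr
        _ = (2 * α * Real.sqrt 5) / Real.sqrt (n : ℝ) * ((n : ℝ) / 2 * Real.log n) := by
            rw [div_mul_eq_mul_div, eq_div_iff hsqpos.ne']
            calc α * (Real.sqrt 5 * Real.sqrt n * Real.log n) * Real.sqrt n
                = α * Real.sqrt 5 * Real.log n * (Real.sqrt n * Real.sqrt n) := by ring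
              _ = _ := by rw [hsq]; ring
        _ ≤ _ := by gcongr
    have e2 : Real.log 2 ≤ 1 / Real.log n * Real.log ((n.factorial : ℕ) : ℝ) := by
      calc Real.log 2 ≤ 1 := by
            have := Real.log_two_lt_d9; linarith
        _ ≤ 1 / Real.log n * ((n : ℝ) / 2 * Real.log n) := by
            rw [div_mul_eq_mul_div, le_div_iff₀ hlogn]
            nlinarith
        _ ≤ _ := by gcongr
    nlinarith
  · filter_upwards [hlow, eventually_ge_atTop 3] with n hn hn3
    obtain ⟨k, hkn, hk2, hs⟩ := hn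
    have hn3' : (3 : ℝ) ≤ n := by exact_mod_cast hn3
    have hlogn : 0 < Real.log n := Real.log_pos (by linarith)
    have hlf := log_fact_ge n (by omega)
    have hlfpos : 0 < Real.log ((n.factorial : ℕ) : ℝ) :=
      lt_of_lt_of_le (by positivity) hlf
    have hnpos : (0 : ℝ) < ((n.factorial : ℕ) : ℝ) := by exact_mod_cast Nat.factorial_pos n
    have hkpos : (0 : ℝ) < ((k.factorial : ℕ) : ℝ) := by exact_mod_cast Nat.factorial_pos k
    have hspos : (0 : ℝ) < (s n : ℝ) := lt_of_lt_of_le (by positivity) hs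
    have h1 := Real.log_le_log hspos (hup n)
    rw [Real.log_mul (by positivity) (by positivity), Real.log_mul (by positivity) (by positivity),
      Real.log_mul (by norm_num) (by positivity), Real.log_pow, Real.log_pow,
      Real.log_rpow hnpos] at h1
    rw [div_le_iff₀ hlfpos]
    have e0 : Real.log (n + 1 : ℝ) ≤ n := by
      have := Real.log_le_sub_one_of_pos (show (0 : ℝ) < n + 1 by linarith)
      linarith
    have e1 : Real.log 2 ≤ n := by
      have := Real.log_two_lt_d9; linarith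
    have e2 : Real.log 4 ≤ 2 := by
      have : Real.log 4 = 2 * Real.log 2 := by
        rw [show (4 : ℝ) = 2 ^ 2 by norm_num, Real.log_pow]; norm_num
      have := Real.log_two_lt_d9; linarith
    have e3 : Real.log 2 + ((d + 3 : ℕ) : ℝ) * Real.log (n + 1) + n * Real.log 4 ≤
        n * (d + 6) := by
      have h3 : ((d + 3 : ℕ) : ℝ) * Real.log (n + 1) ≤ ((d + 3 : ℕ) : ℝ) * n := by gcongr
      have h4 : (n : ℝ) * Real.log 4 ≤ n * 2 := by gcongr
      push_cast at h3 ⊢
      linarith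
    have e4 : (n : ℝ) * (d + 6) ≤ (2 * (d + 6) : ℝ) / Real.log n * Real.log ((n.factorial : ℕ) : ℝ) := by
      calc (n : ℝ) * (d + 6) = (2 * (d + 6) : ℝ) / Real.log n * ((n : ℝ) / 2 * Real.log n) := by
            rw [div_mul_eq_mul_div, eq_div_iff hlogn.ne']; ring
        _ ≤ _ := by gcongr
    linarith

end Pool.Agent.Helper89.Asym
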