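import Mathlib
import Pool.Agent.Helper89.AltSub

namespace Pool.Agent.Helper89.Gates

open Subgroup Equiv Pool.Agent.Helper89.AltSub

abbrev B : Type := Fin 5 × Fin 5
abbrev Y (L q : ℕ) : Type := (ZMod (L + 1) → Fin 5) × ZMod (q + 1)
abbrev X (L q : ℕ) : Type := Fin 5 × Y L q

variable {L q : ℕ}

theorem card_X (L q : ℕ) : Fintype.card (X L q) = 5 ^ (L + 2) * (q + 1) := by
  simp only [X, Y, Fintype.card_prod, Fintype.card_fin, Fintype.card_fun, ZMod.card]
  ring

/-- global gate: `a` acts on the pair (control, symbol at position 0). -/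
def ahat : Perm B →* Perm (X L q) where
  toFun a :=
    { toFun := fun x => ((a (x.1, x.2.1 0)).1, Function.update x.2.1 0 (a (x.1, x.2.1 0)).2, x.2.2)
      invFun := fun x =>
        ((a⁻¹ (x.1, x.2.1 0)).1, Function.update x.2.1 0 (a⁻¹ (x.1, x.2.1 0)).2, x.2.2)
      left_inv := by
        rintro ⟨c, w, j⟩
        simp
      right_inv := by
        rintro ⟨c, w, j⟩
        simp }
  map_one' := by
    ext ⟨c, w, j⟩ <;> simp
  map_mul' a b := by
    ext ⟨c, w, j⟩ <;> simp

theorem ahat_apply (a : Perm B) (c : Fin 5) (w : ZMod (L + 1) → Fin 5) (j : ZMod (q + 1)) :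
    ahat a ((c, w, j) : X L q) = ((a (c, w 0)).1, Function.update w 0 (a (c, w 0)).2, j) := rfl

/-- the base patch. -/
def P (x : X L q) : Prop := (∀ i, i ≠ 0 → x.2.1 i = 0) ∧ x.2.2 = 0

instance : DecidablePred (P : X L q → Prop) := fun x => by
  unfold P; exact inferInstance

theorem P_ahat (a : Perm B) (x : X L q) : P (ahat a x) ↔ P x := by
  obtain ⟨c, w, j⟩ := x
  rw [ahat_apply]
  simp only [P]
  constructor
  · rintro ⟨h1, h2⟩
    refine ⟨fun i hi => ?_, h2⟩
    have := h1 i hi
    rwa [Function.update_of_ne hi] at this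
  · rintro ⟨h1, h2⟩
    refine ⟨fun i hi => ?_, h2⟩
    rw [Function.update_of_ne hi]
    exact h1 i hi

/-- local gate, as a permutation -/
def locFun (a : Perm B) : Perm (X L q) := Perm.ofSubtype ((ahat a).subtypePerm (p := P) (P_ahat a))

theorem locFun_pos (a : Perm B) (x : X L q) (hx : P x) : locFun a x = ahat a x := by
  rw [locFun, Perm.ofSubtype_apply_of_mem _ hx]
  rfl

theorem locFun_neg (a : Perm B) (x : X L q) (hx : ¬ P x) : locFun a x = x := by
  rw [locFun, Perm.ofSubtype_apply_of_not_mem _ hx]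

/-- local gate -/
def loc : Perm B →* Perm (X L q) where
  toFun a := locFun a
  map_one' := by
    apply Equiv.ext
    intro x
    by_cases hx : P x
    · rw [locFun_pos _ _ hx]; simp
    · rw [locFun_neg _ _ hx]; simp
  map_mul' a b := by
    apply Equiv.ext
    intro x
    rw [Perm.mul_apply]
    by_cases hx : P x
    · rw [locFun_pos _ _ hx, locFun_pos _ _ hx, locFun_pos _ _ ((P_ahat b x).mpr hx), map_mul,
        Perm.mul_apply]
    · rw [locFun_neg _ _ hx, locFun_neg _ _ hx, locFun_neg _ _ hx]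

theorem loc_apply_pos (a : Perm B) (x : X L q) (hx : P x) : loc a x = ahat a x :=
  locFun_pos a x hx

theorem loc_apply_neg (a : Perm B) (x : X L q) (hx : ¬ P x) : loc a x = x :=
  locFun_neg a x hx

/-- shift. -/
def t : Perm (Y L q) where
  toFun y := (fun i => y.1 (i + 1), y.2 + 1)
  invFun y := (fun i => y.1 (i - 1), y.2 - 1)
  left_inv := by rintro ⟨w, j⟩; simp
  right_inv := by rintro ⟨w, j⟩; simp

/-- act on one layer -/
def lay (c : Fin 5) : Perm (Y L q) →* Perm (X L q) where
  toFun g :=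
    { toFun := fun x => if x.1 = c then (c, g x.2) else x
      invFun := fun x => if x.1 = c then (c, g⁻¹ x.2) else x
      left_inv := by
        rintro ⟨d, y⟩
        by_cases h : d = c <;> simp [h]
      right_inv := by
        rintro ⟨d, y⟩
        by_cases h : d = c <;> simp [h] }
  map_one' := by
    apply Equiv.ext
    rintro ⟨d, y⟩
    by_cases h : d = c <;> simp [h]
  map_mul' a b := by
    apply Equiv.ext
    rintro ⟨d, y⟩
    by_cases h : d = c <;> simp [h]

theorem lay_same (c : Fin 5) (g : Perm (Y L q)) (y : Y L q) : lay c g (c, y) = (c, g y) := by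
  simp [lay]

theorem lay_ne (c d : Fin 5) (h : d ≠ c) (g : Perm (Y L q)) (y : Y L q) :
    lay c g (d, y) = (d, y) := by
  simp [lay, h]

theorem lay_comm (c d : Fin 5) (h : c ≠ d) (g g' : Perm (Y L q)) :
    lay c g * lay d g' = lay d g' * lay c g := by
  apply Equiv.ext
  rintro ⟨e, y⟩
  rw [Perm.mul_apply, Perm.mul_apply]
  by_cases h1 : e = c
  · subst h1
    rw [lay_ne d e h, lay_same, lay_ne d e h]
  · by_cases h2 : e = d
    · subst h2
      rw [lay_same, lay_ne c e h1, lay_ne c e h1, lay_same]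
    · rw [lay_ne d e h2, lay_ne c e h1, lay_ne d e h2]

/-- permute the layers -/
def ctrl : Perm (Fin 5) →* Perm (X L q) where
  toFun σ := Equiv.prodCongr σ (Equiv.refl _)
  map_one' := by ext ⟨d, y⟩ <;> simp
  map_mul' a b := by ext ⟨d, y⟩ <;> simp

theorem ctrl_apply (σ : Perm (Fin 5)) (c : Fin 5) (y : Y L q) : ctrl σ (c, y) = (σ c, y) := rfl

theorem ctrl_conj (σ : Perm (Fin 5)) (c : Fin 5) (g : Perm (Y L q)) :
    ctrl σ * lay c g * (ctrl σ)⁻¹ = lay (σ c) g := by
  rw [mul_inv_eq_iff_eq_mul]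
  apply Equiv.ext
  rintro ⟨e, y⟩
  rw [Perm.mul_apply, Perm.mul_apply]
  by_cases h1 : e = c
  · subst h1
    rw [lay_same, ctrl_apply, ctrl_apply, lay_same]
  · rw [lay_ne c e h1, ctrl_apply, lay_ne]
    exact fun h => h1 (σ.injective h)

def Dc (c d : Fin 5) : Perm (X L q) := lay c t * (lay d t)⁻¹

theorem Dc_conj (σ : Perm (Fin 5)) (c d : Fin 5) :
    ctrl σ * (Dc c d : Perm (X L q)) * (ctrl σ)⁻¹ = Dc (σ c) (σ d) := by
  rw [Dc, Dc, ← ctrl_conj σ c, ← ctrl_conj σ d]
  group

theorem Dc_mul (c d e : Fin 5) : (Dc c d : Perm (X L q)) * Dc d e = Dc c e := by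
  rw [Dc, Dc, Dc]; group

/-- permute layers in `B` -/
def ctrlB : Perm (Fin 5) →* Perm B where
  toFun σ := Equiv.prodCongr σ (Equiv.refl _)
  map_one' := by ext ⟨d, y⟩ <;> simp
  map_mul' a b := by ext ⟨d, y⟩ <;> simp

theorem ahat_ctrlB (σ : Perm (Fin 5)) : (ahat (ctrlB σ) : Perm (X L q)) = ctrl σ := by
  apply Equiv.ext
  rintro ⟨c, w, j⟩
  rw [ahat_apply, ctrl_apply]
  simp [ctrlB]

/-- act on layer 0 of `B` -/
def layB : Perm (Fin 5) →* Perm B where
  toFun g :=
    { toFun := fun x => if x.1 = 0 then (0, g x.2) else x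
      invFun := fun x => if x.1 = 0 then (0, g⁻¹ x.2) else x
      left_inv := by
        rintro ⟨d, y⟩
        by_cases h : d = 0 <;> simp [h]
      right_inv := by
        rintro ⟨d, y⟩
        by_cases h : d = 0 <;> simp [h] }
  map_one' := by
    apply Equiv.ext
    rintro ⟨d, y⟩
    by_cases h : d = 0 <;> simp [h]
  map_mul' a b := by
    apply Equiv.ext
    rintro ⟨d, y⟩
    by_cases h : d = 0 <;> simp [h]

/-- change the symbol at position `i`. -/
def pos (i : ZMod (L + 1)) : Perm (Fin 5) →* Perm (Y L q) where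
  toFun g :=
    { toFun := fun y => (Function.update y.1 i (g (y.1 i)), y.2)
      invFun := fun y => (Function.update y.1 i (g⁻¹ (y.1 i)), y.2)
      left_inv := by rintro ⟨w, j⟩; simp
      right_inv := by rintro ⟨w, j⟩; simp }
  map_one' := by ext ⟨w, j⟩ <;> simp
  map_mul' a b := by ext ⟨w, j⟩ <;> simp

theorem pos_apply (i : ZMod (L + 1)) (g : Perm (Fin 5)) (w : ZMod (L + 1) → Fin 5)
    (j : ZMod (q + 1)) : pos i g ((w, j) : Y L q) = (Function.update w i (g (w i)), j) := rfl

theorem ahat_layB (g : Perm (Fin 5)) : (ahat (layB g) : Perm (X L q)) = lay 0 (pos 0 g) := by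
  apply Equiv.ext
  rintro ⟨c, w, j⟩
  rw [ahat_apply]
  by_cases h : c = 0
  · subst h
    rw [lay_same, pos_apply]
    simp [layB]
  · rw [lay_ne 0 c h]
    simp [layB, h]

theorem t_pos (i : ZMod (L + 1)) (g : Perm (Fin 5)) :
    (t : Perm (Y L q)) * pos i g * t⁻¹ = pos (i - 1) g := by
  rw [mul_inv_eq_iff_eq_mul]
  apply Equiv.ext
  rintro ⟨w, j⟩
  rw [Perm.mul_apply, Perm.mul_apply, pos_apply]
  show (((fun k => Function.update w i (g (w i)) (k + 1)), j + 1) : Y L q) =
    pos (i - 1) g ((fun k => w (k + 1)), j + 1)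
  rw [pos_apply]
  congr 1
  funext k
  by_cases h : k = i - 1
  · subst h; simp
  · rw [Function.update_of_ne h, Function.update_of_ne]
    intro h'; apply h; rw [← h']; ring

theorem t_pow_pos (m : ℕ) (g : Perm (Fin 5)) :
    (t : Perm (Y L q)) ^ m * pos 0 g * (t ^ m)⁻¹ = pos (-(m : ZMod (L + 1))) g := by
  induction m with
  | zero => simp
  | succ m ih =>
    have : (t : Perm (Y L q)) ^ (m + 1) * pos 0 g * (t ^ (m + 1))⁻¹ =
        t * (t ^ m * pos 0 g * (t ^ m)⁻¹) * t⁻¹ := by rw [pow_succ']; group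
    rw [this, ih, t_pos]
    congr 1
    push_cast; ring_nf

theorem pos_comm (i i' : ZMod (L + 1)) (h : i ≠ i') (g g' : Perm (Fin 5)) :
    (pos i g : Perm (Y L q)) * pos i' g' = pos i' g' * pos i g := by
  apply Equiv.ext
  rintro ⟨w, j⟩
  rw [Perm.mul_apply, Perm.mul_apply, pos_apply, pos_apply, pos_apply, pos_apply]
  show ((Function.update (Function.update w i' (g' (w i'))) i
      (g (Function.update w i' (g' (w i')) i)), j) : Y L q) =
    (Function.update (Function.update w i (g (w i))) i'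
      (g' (Function.update w i (g (w i)) i')), j)
  rw [Function.update_of_ne h, Function.update_of_ne h.symm, Function.update_comm h]

def D : Perm (X L q) := Dc 0 1

theorem D_pow (m : ℕ) : (D : Perm (X L q)) ^ m = lay 0 (t ^ m) * (lay 1 (t ^ m))⁻¹ := by
  have hc : Commute (lay 0 t : Perm (X L q)) ((lay 1 t)⁻¹) := by
    apply Commute.inv_right
    exact lay_comm 0 1 (by decide) _ _
  rw [D, Dc, hc.mul_pow, map_pow, map_pow, inv_pow]

theorem D_pow_conj (m : ℕ) (g : Perm (Fin 5)) :
    (D : Perm (X L q)) ^ m * ahat (layB g) * (D ^ m)⁻¹ = lay 0 (pos (-(m : ZMod (L + 1))) g) := by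
  rw [D_pow, ahat_layB, ← t_pow_pos]
  have h1 : (lay 1 ((t : Perm (Y L q)) ^ m))⁻¹ * lay 0 (pos 0 g) * lay 1 (t ^ m) =
      lay 0 (pos 0 g) := by
    rw [mul_assoc, lay_comm 0 1 (by decide)]; group
  have h2 : lay 0 (t ^ m) * (lay 1 (t ^ m))⁻¹ * lay 0 (pos 0 g) *
      (lay 0 (t ^ m) * (lay 1 (t ^ m))⁻¹)⁻¹ =
      lay 0 (t ^ m) * ((lay 1 ((t : Perm (Y L q)) ^ m))⁻¹ * lay 0 (pos 0 g) * lay 1 (t ^ m)) *
      (lay 0 (t ^ m))⁻¹ := by group
  rw [h2, h1, map_mul, map_mul, map_inv]

/-- R1 -/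
theorem rel_comm (m : ℕ) (hm : (m : ZMod (L + 1)) ≠ 0) (g h : Perm (Fin 5)) :
    Commute (ahat (layB g) : Perm (X L q)) (D ^ m * ahat (layB h) * (D ^ m)⁻¹) := by
  rw [D_pow_conj, ahat_layB]
  show _ * _ = _ * _
  rw [← map_mul, ← map_mul, pos_comm]
  intro h; apply hm; rw [eq_comm, neg_eq_zero] at h; exact h

theorem rel_conj_self (g : Perm (Fin 5)) :
    (D : Perm (X L q)) ^ (L + 1) * ahat (layB g) * (D ^ (L + 1))⁻¹ = ahat (layB g) := by
  rw [D_pow_conj, ahat_layB]
  congr 2
  rw [ZMod.natCast_self]; simp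

/-- R3 -/
theorem rel_loc (a b : Perm B) :
    (ahat b : Perm (X L q)) * loc a * (ahat b)⁻¹ = loc (b * a * b⁻¹) := by
  rw [mul_inv_eq_iff_eq_mul]
  apply Equiv.ext
  intro x
  rw [Perm.mul_apply, Perm.mul_apply]
  by_cases hx : P x
  · rw [loc_apply_pos a x hx, loc_apply_pos _ _ ((P_ahat b x).mpr hx), ← Perm.mul_apply,
      ← Perm.mul_apply, ← map_mul, ← map_mul]
    simp
  · rw [loc_apply_neg a x hx, loc_apply_neg _ _ (fun h => hx ((P_ahat b x).mp h))]

/-! ### parity -/

abbrev A : Type := alternatingGroup B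

theorem card_B : Nat.card B = 25 := by simp [B]

instance simpleA : IsSimpleGroup A := alternatingGroup.isSimpleGroup (by rw [card_B]; norm_num)

theorem center_A : Subgroup.center A = ⊥ := alternatingGroup.center_eq_bot (by rw [card_B]; norm_num)

theorem hom_units_trivial (f : A →* ℤˣ) (a : A) : f a = 1 := by
  rcases (MonoidHom.normal_ker f).eq_bot_or_eq_top with h | h
  · exfalso
    have hinj := (MonoidHom.ker_eq_bot_iff f).mp h
    have h1 : Subgroup.center A = ⊤ := by
      rw [eq_top_iff]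
      intro x _
      rw [Subgroup.mem_center_iff]
      intro y
      apply hinj
      rw [map_mul, map_mul, mul_comm]
    rw [center_A] at h1
    exact bot_ne_top h1
  · have : a ∈ f.ker := by rw [h]; trivial
    exact this

def ahatA : A →* alternatingGroup (X L q) where
  toFun a := ⟨ahat (a : Perm B), by
    rw [Perm.mem_alternatingGroup]
    exact hom_units_trivial ((Perm.sign.comp (ahat : Perm B →* Perm (X L q))).comp
      (alternatingGroup B).subtype) a⟩
  map_one' := by ext1; simp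
  map_mul' a b := by ext1; simp

def locA : A →* alternatingGroup (X L q) where
  toFun a := ⟨loc (a : Perm B), by
    rw [Perm.mem_alternatingGroup]
    exact hom_units_trivial ((Perm.sign.comp (loc : Perm B →* Perm (X L q))).comp
      (alternatingGroup B).subtype) a⟩
  map_one' := by ext1; simp
  map_mul' a b := by ext1; simp

theorem coe_ahatA (a : A) : ((ahatA a : alternatingGroup (X L q)) : Perm (X L q)) = ahat a.1 := rfl
theorem coe_locA (a : A) : ((locA a : alternatingGroup (X L q)) : Perm (X L q)) = loc a.1 := rfl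

theorem sign_D : Perm.sign (D : Perm (X L q)) = 1 := by
  have h := ctrl_conj (Equiv.swap (0 : Fin 5) 1) 0 (t : Perm (Y L q))
  rw [Equiv.swap_apply_left] at h
  have h2 : Perm.sign (lay 1 (t : Perm (Y L q))) = Perm.sign (lay 0 (t : Perm (Y L q))) := by
    rw [← h]
    simp only [map_mul, map_inv]
    rw [mul_comm (Perm.sign (ctrl _)) (Perm.sign (lay 0 _)), mul_assoc, mul_inv_cancel, mul_one]
  rw [D, Dc, map_mul, map_inv, h2, mul_inv_cancel]

def DA : alternatingGroup (X L q) := ⟨D, Perm.mem_alternatingGroup.mpr sign_D⟩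

theorem coe_DA : ((DA : alternatingGroup (X L q)) : Perm (X L q)) = D := rfl

end Pool.Agent.Helper89.Gates
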