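import Mathlib
import Pool.Agent.Helper89.AltSub
import Pool.Agent.Helper89.Gates

namespace Pool.Agent.Helper89.Gen

open Subgroup Equiv Pool.Agent.Helper89.AltSub Pool.Agent.Helper89.Gates

variable {L q : ℕ}

theorem K_image {α : Type*} [Fintype α] [DecidableEq α] (H : Subgroup (alternatingGroup α))
    (T : Finset α) (hT : K T ≤ H) (u : alternatingGroup α) (hu : u ∈ H) :
    K (T.image (u : Perm α)) ≤ H := by
  intro g hg
  have h1 : u⁻¹ * g * u ∈ K T := by
    rw [mem_K] at hg ⊢
    intro p hp
    show ((u : Perm α)⁻¹ * (g : Perm α) * (u : Perm α)) p = p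
    rw [Perm.mul_apply, Perm.mul_apply, Perm.inv_eq_iff_eq]
    apply hg
    intro h
    rw [Finset.mem_image] at h
    obtain ⟨r, hr, hrp⟩ := h
    exact hp ((u : Perm α).injective hrp ▸ hr)
  have h2 : g = u * (u⁻¹ * g * u) * u⁻¹ := by group
  rw [h2]
  exact H.mul_mem (H.mul_mem hu (hT h1)) (H.inv_mem hu)

/-- the base patch as a finset -/
def T₀ (L q : ℕ) : Finset (X L q) := Finset.univ.filter P

def κ (b : B) : X L q := (b.1, Function.update 0 0 b.2, 0)

theorem P_κ (b : B) : P (κ b : X L q) := by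
  refine ⟨fun i hi => ?_, rfl⟩
  simp [κ, hi]

theorem κ_inj : Function.Injective (κ : B → X L q) := by
  rintro ⟨c, s⟩ ⟨d, s'⟩ h
  simp only [κ, Prod.mk.injEq] at h
  obtain ⟨h1, h2, -⟩ := h
  have := congrFun h2 0
  simp at this
  simp [h1, this]

theorem κ_surj (x : X L q) (hx : P x) : κ (x.1, x.2.1 0) = x := by
  obtain ⟨c, w, j⟩ := x
  obtain ⟨h1, h2⟩ := hx
  simp only [κ, Prod.mk.injEq, true_and]
  refine ⟨?_, h2.symm⟩
  funext i
  by_cases hi : i = 0
  · subst hi; simp
  · rw [Function.update_of_ne hi]; exact (h1 i hi).symm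

theorem ahat_κ (a : Perm B) (b : B) : ahat a (κ b : X L q) = κ (a b) := by
  obtain ⟨c, s⟩ := b
  rw [κ, ahat_apply]
  simp [κ]

noncomputable def eκ : B ≃ {x : X L q // P x} :=
  Equiv.ofBijective (fun b => ⟨κ b, P_κ b⟩)
    ⟨fun _ _ h => κ_inj (Subtype.mk.inj h), fun x => ⟨(x.1.1, x.1.2.1 0), Subtype.ext (κ_surj x.1 x.2)⟩⟩

theorem K_T₀_le (g : alternatingGroup (X L q)) (hg : g ∈ K (T₀ L q)) : ∃ a : A, locA a = g := by
  rw [mem_K] at hg
  have hfix : ∀ x : X L q, ¬ P x → (g : Perm (X L q)) x = x := fun x hx => hg x (by simp [T₀, hx])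
  have hinv : ∀ x : X L q, P ((g : Perm (X L q)) x) ↔ P x := by
    intro x
    constructor
    · intro h
      by_contra hx
      rw [hfix x hx] at h
      exact hx h
    · intro h
      by_contra hx
      have h1 := hfix _ hx
      have h2 := (g : Perm (X L q)).injective h1
      rw [h2] at hx
      exact hx h
  let s : Perm {x : X L q // P x} := (g : Perm (X L q)).subtypePerm hinv
  let a : Perm B := (eκ (L := L) (q := q)).symm.permCongr s
  have hsign : Perm.sign a = 1 := by
    show Perm.sign ((eκ (L := L) (q := q)).symm.permCongr s) = 1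
    rw [Perm.sign_permCongr]
    have := Perm.sign_subtypePerm (g : Perm (X L q)) hinv
      (fun x hx => by by_contra h; exact hx (hfix x h))
    rw [this]
    exact Perm.mem_alternatingGroup.mp g.2
  refine ⟨⟨a, Perm.mem_alternatingGroup.mpr hsign⟩, ?_⟩
  apply Subtype.ext
  rw [coe_locA]
  apply Equiv.ext
  intro x
  by_cases hx : P x
  · rw [loc_apply_pos _ _ hx]
    show ahat a x = _
    conv_lhs => rw [← κ_surj x hx]
    rw [ahat_κ]
    have h1 : ∀ b : B, (κ (a b) : X L q) = (g : Perm (X L q)) (κ b) := by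
      intro b
      have h2 : (eκ (L := L) (q := q)) (a b) = s (eκ b) := by
        show eκ (eκ.symm (s (eκ.symm.symm b))) = _
        simp
      have h3 := congrArg Subtype.val h2
      exact h3
    rw [h1, κ_surj x hx]
  · rw [loc_apply_neg _ _ hx, hfix x hx]

theorem A_transitive (b b' : B) : ∃ a : A, (a : Perm B) b = b' := by
  have := alternatingGroup.isPretransitive_of_three_le_card B (by rw [card_B]; norm_num)
  obtain ⟨a, ha⟩ := MulAction.exists_smul_eq (alternatingGroup B) b b'
  exact ⟨a, ha⟩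

theorem alt5_transitive (b b' : Fin 5) : ∃ a : alternatingGroup (Fin 5), (a : Perm (Fin 5)) b = b' := by
  have := alternatingGroup.isPretransitive_of_three_le_card (Fin 5) (by simp)
  obtain ⟨a, ha⟩ := MulAction.exists_smul_eq (alternatingGroup (Fin 5)) b b'
  exact ⟨a, ha⟩

theorem sign_layB (g : Perm (Fin 5)) (hg : Perm.sign g = 1) : Perm.sign (layB g) = 1 := by
  have h : ∀ a : alternatingGroup (Fin 5), (Perm.sign.comp (layB.comp
      (alternatingGroup (Fin 5)).subtype)) a = 1 := by
    intro a
    have hs : IsSimpleGroup (alternatingGroup (Fin 5)) := alternatingGroup.isSimpleGroup (by simp)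
    set f := (Perm.sign.comp (layB.comp (alternatingGroup (Fin 5)).subtype))
    rcases (MonoidHom.normal_ker f).eq_bot_or_eq_top with h | h
    · exfalso
      have hinj := (MonoidHom.ker_eq_bot_iff f).mp h
      have h1 : Subgroup.center (alternatingGroup (Fin 5)) = ⊤ := by
        rw [eq_top_iff]
        intro x _
        rw [Subgroup.mem_center_iff]
        intro y
        apply hinj
        rw [map_mul, map_mul, mul_comm]
      rw [alternatingGroup.center_eq_bot (by simp)] at h1
      exact bot_ne_top h1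
    · have : a ∈ f.ker := by rw [h]; trivial
      exact this
  exact h ⟨g, Perm.mem_alternatingGroup.mpr hg⟩

/-- The generators generate the whole alternating group. -/
theorem gen_top (H : Subgroup (alternatingGroup (X L q))) (h1 : ∀ a : A, ahatA a ∈ H)
    (h2 : ∀ a : A, locA a ∈ H) (h3 : DA ∈ H) : H = ⊤ := by
  classical
  have hT₀ : K (T₀ L q) ≤ H := by
    intro g hg
    obtain ⟨a, rfl⟩ := K_T₀_le g hg
    exact h2 a
  -- maximal good set containing T₀
  let good := (Finset.univ : Finset (Finset (X L q))).filter (fun T => K T ≤ H ∧ T₀ L q ⊆ T)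
  obtain ⟨T, hTg, hTmax⟩ := good.exists_max_image Finset.card ⟨T₀ L q, by simp [good, hT₀]⟩
  obtain ⟨hT, hT₀T⟩ := (Finset.mem_filter.mp hTg).2
  have hcardT₀ : 4 ≤ (T₀ L q).card := by
    have h4 : (Finset.univ.image (κ : B → X L q)) ⊆ T₀ L q := by
      intro x hx
      simp only [Finset.mem_image, Finset.mem_univ, true_and] at hx
      obtain ⟨b, rfl⟩ := hx
      simp [T₀, P_κ]
    have h5 := Finset.card_le_card h4
    rw [Finset.card_image_of_injective _ κ_inj] at h5
    simp at h5
    omega
  have hcardT : 4 ≤ T.card := le_trans hcardT₀ (Finset.card_le_card hT₀T)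
  -- invariance
  have hinv : ∀ u ∈ H, (∃ f ∈ T₀ L q, (u : Perm (X L q)) f ∈ T₀ L q) →
      ∀ x ∈ T, (u : Perm (X L q)) x ∈ T := by
    rintro u hu ⟨f, hf, huf⟩ x hx
    have h4 : K (T.image (u : Perm (X L q))) ≤ H := K_image H T hT u hu
    have h5 : (T.image (u : Perm (X L q))).card = T.card :=
      Finset.card_image_of_injective _ (u : Perm (X L q)).injective
    have h6 : K (T ∪ T.image (u : Perm (X L q))) ≤ H := by
      apply glue' H hT h4 hcardT (by omega)
      exact ⟨(u : Perm (X L q)) f, hT₀T huf, Finset.mem_image_of_mem _ (hT₀T hf)⟩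
    have h7 := hTmax (T ∪ T.image (u : Perm (X L q))) (by
      simp only [good, Finset.mem_filter, Finset.mem_univ, true_and]
      exact ⟨h6, hT₀T.trans Finset.subset_union_left⟩)
    have h8 : T ∪ T.image (u : Perm (X L q)) = T :=
      (Finset.eq_of_subset_of_card_le Finset.subset_union_left h7).symm
    rw [← h8, Finset.mem_union]
    right
    exact Finset.mem_image_of_mem _ hx
  have hA : ∀ a : A, ∀ x ∈ T, ahat (a : Perm B) x ∈ T := by
    intro a
    apply hinv (ahatA a) (h1 a)
    refine ⟨κ (0, 0), by simp [T₀, P_κ], ?_⟩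
    rw [coe_ahatA, ahat_κ]
    simp [T₀, P_κ]
  have hD : ∀ x ∈ T, (D : Perm (X L q)) x ∈ T := by
    apply hinv DA h3
    refine ⟨κ (2, 0), by simp [T₀, P_κ], ?_⟩
    have : ((DA : alternatingGroup (X L q)) : Perm (X L q)) (κ (2, 0)) = κ (2, 0) := by
      rw [coe_DA, D, Dc, Perm.mul_apply, ← map_inv]
      rw [κ, lay_ne 1 2 (by decide), lay_ne 0 2 (by decide)]
    rw [this]
    simp [T₀, P_κ]
  have hDinv : ∀ x ∈ T, (D : Perm (X L q))⁻¹ x ∈ T := by
    apply hinv (DA⁻¹) (H.inv_mem h3)
    refine ⟨κ (2, 0), by simp [T₀, P_κ], ?_⟩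
    have : ((DA⁻¹ : alternatingGroup (X L q)) : Perm (X L q)) (κ (2, 0)) = κ (2, 0) := by
      show (D : Perm (X L q))⁻¹ (κ (2, 0)) = _
      rw [Perm.inv_eq_iff_eq, D, Dc, Perm.mul_apply, ← map_inv]
      rw [κ, lay_ne 1 2 (by decide), lay_ne 0 2 (by decide)]
    rw [this]
    simp [T₀, P_κ]
  have hDpow : ∀ m : ℕ, ∀ x ∈ T, ((D : Perm (X L q)) ^ m) x ∈ T := by
    intro m
    induction m with
    | zero => intro x hx; simpa using hx
    | succ m ih => intro x hx; rw [pow_succ', Perm.mul_apply]; exact hD _ (ih x hx)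
  have hDpowinv : ∀ m : ℕ, ∀ x ∈ T, ((D : Perm (X L q)) ^ m)⁻¹ x ∈ T := by
    intro m
    induction m with
    | zero => intro x hx; simpa using hx
    | succ m ih =>
      intro x hx; rw [pow_succ, mul_inv_rev, Perm.mul_apply]; exact hDinv _ (ih x hx)
  -- changing a symbol at any position in layer 0
  have hpos : ∀ (i : ZMod (L + 1)) (s : Fin 5) (w : ZMod (L + 1) → Fin 5) (j : ZMod (q + 1)),
      ((0, w, j) : X L q) ∈ T → ((0, Function.update w i s, j) : X L q) ∈ T := by
    intro i s w j hx
    obtain ⟨a, ha⟩ := alt5_transitive (w i) s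
    set m := (-i).val with hm
    have him : -(m : ZMod (L + 1)) = i := by rw [hm, ZMod.natCast_zmod_val]; simp
    have hsg : Perm.sign (layB (a : Perm (Fin 5))) = 1 :=
      sign_layB _ (Perm.mem_alternatingGroup.mp a.2)
    have h4 := hDpow m _ (hA ⟨layB a, Perm.mem_alternatingGroup.mpr hsg⟩ _ (hDpowinv m _ hx))
    have h5 : ((D : Perm (X L q)) ^ m) (ahat (layB (a : Perm (Fin 5)))
        (((D : Perm (X L q)) ^ m)⁻¹ (0, w, j))) =
        ((D : Perm (X L q)) ^ m * ahat (layB (a : Perm (Fin 5))) * (D ^ m)⁻¹ : Perm (X L q))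
          (0, w, j) := rfl
    rw [h5, D_pow_conj, him, lay_same, pos_apply, ha] at h4
    exact h4
  have hbase : ((0, 0, 0) : X L q) ∈ T := by
    apply hT₀T
    simp [T₀, P]
  have hw : ∀ w : ZMod (L + 1) → Fin 5, ((0, w, 0) : X L q) ∈ T := by
    have key : ∀ (s : Finset (ZMod (L + 1))) (w : ZMod (L + 1) → Fin 5),
        (∀ i, i ∉ s → w i = 0) → ((0, w, 0) : X L q) ∈ T := by
      intro s
      induction s using Finset.induction_on with
      | empty =>
        intro w hw
        have : w = 0 := by funext i; exact hw i (by simp)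
        rw [this]; exact hbase
      | insert i s his ih =>
        intro w hw
        have h4 := ih (Function.update w i 0) (by
          intro k hk
          by_cases hki : k = i
          · subst hki; simp
          · rw [Function.update_of_ne hki]
            exact hw k (by simp [hki, hk]))
        have h5 := hpos i (w i) _ _ h4
        have h6 : Function.update (Function.update w i 0) i (w i) = w := by simp
        rwa [h6] at h5
    intro w
    exact key Finset.univ w (by simp)
  have hwj : ∀ (j : ℕ) (w : ZMod (L + 1) → Fin 5), ((0, w, (j : ZMod (q + 1))) : X L q) ∈ T := by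
    intro j
    induction j with
    | zero => intro w; simpa using hw w
    | succ j ih =>
      intro w
      have h4 := hD _ (ih (fun i => w (i - 1)))
      have h5 : (D : Perm (X L q)) (0, (fun i => w (i - 1)), (j : ZMod (q + 1))) =
          (0, w, ((j + 1 : ℕ) : ZMod (q + 1))) := by
        rw [D, Dc, Perm.mul_apply, ← map_inv, lay_ne 1 0 (by decide), lay_same]
        simp [t]
      rwa [h5] at h4
  have hTuniv : T = Finset.univ := by
    rw [Finset.eq_univ_iff_forall]
    rintro ⟨c, w, j⟩
    obtain ⟨a, ha⟩ := A_transitive (0, w 0) (c, w 0)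
    have h4 : ((0, w, j) : X L q) ∈ T := by
      have := hwj j.val w
      rwa [ZMod.natCast_zmod_val] at this
    have h5 := hA a _ h4
    rw [ahat_apply, ha] at h5
    simpa using h5
  rw [eq_top_iff]
  intro g _
  apply hT
  rw [mem_K]
  intro p hp
  exact absurd (by rw [hTuniv]; simp) hp

end Pool.Agent.Helper89.Gen
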