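import Mathlib
import Pool.Agent.Helper89.AltSub
import Pool.Agent.Helper89.Gates
import Pool.Agent.Helper89.Gen

namespace Pool.Agent.Helper89.Gamma

open Subgroup Equiv Pool.Agent.Helper89.AltSub Pool.Agent.Helper89.Gates Pool.Agent.Helper89.Gen

/-- family of marking sets -/
abbrev Fam : Type := ∀ p : ℕ × ℕ, Finset (alternatingGroup (X p.1 p.2))

variable (M : Fam)

abbrev Idx : Type := Σ p : ℕ × ℕ, {x : alternatingGroup (X p.1 p.2) // x ∈ M p}

abbrev Amb : Type := ∀ i : Idx M, alternatingGroup (X i.1.1 i.1.2)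

def ahatG : A →* Amb M := MonoidHom.pi (fun _ => ahatA)
def locG : A →* Amb M := MonoidHom.pi (fun _ => locA)
def DG : Amb M := fun _ => DA
def xG : Amb M := fun i => i.2.1

def gens : Set (Amb M) := Set.range (ahatG M) ∪ Set.range (locG M) ∪ {DG M, xG M}

theorem gens_finite : (gens M).Finite :=
  ((Set.finite_range _).union (Set.finite_range _)).union (Set.toFinite _)

def Gam : Subgroup (Amb M) := closure (gens M)

variable {M}

theorem ahatG_mem (a : A) : ahatG M a ∈ Gam M :=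
  subset_closure (Or.inl (Or.inl ⟨a, rfl⟩))
theorem locG_mem (a : A) : locG M a ∈ Gam M :=
  subset_closure (Or.inl (Or.inr ⟨a, rfl⟩))
theorem DG_mem : DG M ∈ Gam M := subset_closure (Or.inr (by simp))
theorem xG_mem : xG M ∈ Gam M := subset_closure (Or.inr (by simp))

theorem eval_surj (i : Idx M) (g : alternatingGroup (X i.1.1 i.1.2)) : ∃ γ ∈ Gam M, γ i = g := by
  have h : (Gam M).map (Pi.evalMonoidHom (fun i : Idx M => alternatingGroup (X i.1.1 i.1.2)) i) = ⊤ := by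
    apply gen_top
    · intro a; exact ⟨_, ahatG_mem a, rfl⟩
    · intro a; exact ⟨_, locG_mem a, rfl⟩
    · exact ⟨_, DG_mem, rfl⟩
  have h2 : g ∈ (Gam M).map (Pi.evalMonoidHom (fun i : Idx M => alternatingGroup (X i.1.1 i.1.2)) i) := by
    rw [h]; trivial
  obtain ⟨γ, h3, h4⟩ := h2
  exact ⟨γ, h3, h4⟩

theorem natcard_X_ge (L q : ℕ) : 25 ≤ Nat.card (X L q) := by
  rw [Nat.card_eq_fintype_card, card_X]
  have : 5 ^ 2 ≤ 5 ^ (L + 2) := Nat.pow_le_pow_right (by norm_num) (by omega)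
  nlinarith

instance simpleX (L q : ℕ) : IsSimpleGroup (alternatingGroup (X L q)) :=
  alternatingGroup.isSimpleGroup (by have := natcard_X_ge L q; omega)

theorem centerX (L q : ℕ) : Subgroup.center (alternatingGroup (X L q)) = ⊥ :=
  alternatingGroup.center_eq_bot (by have := natcard_X_ge L q; omega)

theorem exists_noncomm {L q : ℕ} (g : alternatingGroup (X L q)) (hg : g ≠ 1) :
    ∃ h : alternatingGroup (X L q), g * h ≠ h * g := by
  by_contra hcon
  push Not at hcon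
  have : g ∈ Subgroup.center (alternatingGroup (X L q)) := by
    rw [Subgroup.mem_center_iff]
    intro h; exact (hcon h).symm
  rw [centerX, Subgroup.mem_bot] at this
  exact hg this

theorem comm_aux {G : Type*} [Group G] (x y : G) (h : x * y * x⁻¹ * y⁻¹ = 1) : x * y = y * x := by
  have h3 : x * y * x⁻¹ * y⁻¹ * (y * x) = x * y := by group
  rw [h, one_mul] at h3
  exact h3.symm

/-- normalised subgroups map onto simple coordinates -/
theorem norm_onto (N : Subgroup (Amb M)) (hN : ∀ γ ∈ Gam M, ∀ n ∈ N, γ * n * γ⁻¹ ∈ N) (i : Idx M)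
    (h : ∃ n ∈ N, n i ≠ 1) (g : alternatingGroup (X i.1.1 i.1.2)) : ∃ n ∈ N, n i = g := by
  let R : Subgroup (alternatingGroup (X i.1.1 i.1.2)) :=
    N.map (Pi.evalMonoidHom (fun i : Idx M => alternatingGroup (X i.1.1 i.1.2)) i)
  have hR : R.Normal := by
    constructor
    rintro _ ⟨n, hn, rfl⟩ g
    obtain ⟨γ, hγ, rfl⟩ := eval_surj i g
    exact ⟨γ * n * γ⁻¹, hN γ hγ n hn, rfl⟩
  have hne : R ≠ ⊥ := by
    intro hbot
    obtain ⟨n, hn, hni⟩ := h
    have : n i ∈ R := ⟨n, hn, rfl⟩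
    rw [hbot, Subgroup.mem_bot] at this
    exact hni this
  have htop : R = ⊤ := hR.eq_bot_or_eq_top.resolve_left hne
  have : g ∈ R := by rw [htop]; trivial
  obtain ⟨n, hn, hni⟩ := this
  exact ⟨n, hn, hni⟩

/-- the degree condition on the index set -/
def cond (L₀ : ℕ) (p : ℕ × ℕ) : Prop :=
  L₀ ≤ p.1 ∧ 5 ^ (p.1 + 1) ≤ p.2 + 1 ∧ p.2 + 1 < 5 ^ (p.1 + 3)

def deg (p : ℕ × ℕ) : ℕ := 5 ^ (p.1 + 2) * (p.2 + 1)

theorem cond_deg_le {L₀ : ℕ} {p : ℕ × ℕ} (hp : cond L₀ p) :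
    5 ^ (2 * p.1 + 3) ≤ deg p ∧ deg p < 5 ^ (2 * p.1 + 5) := by
  obtain ⟨-, h1, h2⟩ := hp
  constructor
  · calc 5 ^ (2 * p.1 + 3) = 5 ^ (p.1 + 2) * 5 ^ (p.1 + 1) := by rw [← pow_add]; congr 1; ring
      _ ≤ _ := Nat.mul_le_mul_left _ h1
  · calc deg p < 5 ^ (p.1 + 2) * 5 ^ (p.1 + 3) := Nat.mul_lt_mul_of_pos_left h2 (by positivity)
      _ = _ := by rw [← pow_add]; congr 1; ring

theorem deg_inj {L₀ : ℕ} {p p' : ℕ × ℕ} (hp : cond L₀ p) (hp' : cond L₀ p') (h : deg p = deg p') :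
    p = p' := by
  obtain ⟨h1, h2⟩ := cond_deg_le hp
  obtain ⟨h3, h4⟩ := cond_deg_le hp'
  rw [h] at h1 h2
  have h5 : 2 * p.1 + 3 < 2 * p'.1 + 5 := (Nat.pow_lt_pow_iff_right (by norm_num)).mp (lt_of_le_of_lt h1 h4)
  have h6 : 2 * p'.1 + 3 < 2 * p.1 + 5 := (Nat.pow_lt_pow_iff_right (by norm_num)).mp (lt_of_le_of_lt h3 h2)
  have h7 : p.1 = p'.1 := by omega
  rw [deg, deg, h7] at h
  have h8 := Nat.eq_of_mul_eq_mul_left (by positivity) h
  exact Prod.ext h7 (by omega)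

theorem exists_eval (i : Idx M) : ∃ ρ : Gam M →* alternatingGroup (X i.1.1 i.1.2),
    (∀ γ : Gam M, ρ γ = γ.1 i) ∧ Function.Surjective ρ := by
  refine ⟨(Pi.evalMonoidHom (fun i : Idx M => alternatingGroup (X i.1.1 i.1.2)) i).comp
    (Gam M).subtype, fun γ => rfl, fun g => ?_⟩
  obtain ⟨γ, hγ, h⟩ := eval_surj i g
  exact ⟨⟨γ, hγ⟩, h⟩

theorem exists_factor {G₁ G₂ G₃ : Type*} [Group G₁] [Group G₂] [Group G₃] (g : G₁ →* G₃)
    (f : G₁ →* G₂) (hf : Function.Surjective f) (hker : f.ker ≤ g.ker) :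
    ∃ ψ : G₂ →* G₃, ∀ x, ψ (f x) = g x :=
  ⟨f.liftOfRightInverse (Function.surjInv hf) (Function.rightInverse_surjInv hf) ⟨g, hker⟩,
      fun γ => MonoidHom.liftOfRightInverse_comp_apply f (Function.surjInv hf)
      (Function.rightInverse_surjInv hf) ⟨g, hker⟩ γ⟩

theorem factor_bij {G₁ G₂ G₃ : Type*} [Group G₁] [Group G₂] [Group G₃] [IsSimpleGroup G₂]
    [Nontrivial G₃] (g : G₁ →* G₃) (f : G₁ →* G₂) (hg : Function.Surjective g)
    (ψ : G₂ →* G₃) (hψ : ∀ x, ψ (f x) = g x) : Function.Bijective ψ := by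
  have hs : Function.Surjective ψ := by
    intro y
    obtain ⟨x, hx⟩ := hg y
    exact ⟨f x, (hψ x).trans hx⟩
  refine ⟨?_, hs⟩
  rcases (MonoidHom.normal_ker ψ).eq_bot_or_eq_top with h | h
  · exact (MonoidHom.ker_eq_bot_iff ψ).mp h
  · exfalso
    obtain ⟨y, hy⟩ := exists_ne (1 : G₃)
    obtain ⟨x, hx⟩ := hs y
    have : x ∈ ψ.ker := by rw [h]; trivial
    exact hy (hx.symm.trans this)

theorem same_coord (p : ℕ × ℕ) (x x' : alternatingGroup (X p.1 p.2)) (hx : x ∈ M p) (hx' : x' ∈ M p)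
    (ψ : alternatingGroup (X p.1 p.2) →* alternatingGroup (X p.1 p.2))
    (hψ : ∀ γ ∈ Gam M, ψ (γ (⟨p, ⟨x', hx'⟩⟩ : Idx M)) = γ (⟨p, ⟨x, hx⟩⟩ : Idx M)) : x' = x := by
  have h1 : ψ.eqLocus (MonoidHom.id _) = ⊤ := by
    apply gen_top
    · intro a
      exact hψ _ (ahatG_mem a)
    · intro a
      exact hψ _ (locG_mem a)
    · exact hψ _ DG_mem
  have h2 : ψ x' = x := hψ _ xG_mem
  have h3 : ψ x' = x' := by
    have : x' ∈ ψ.eqLocus (MonoidHom.id _) := by rw [h1]; trivial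
    exact this
  exact h3.symm.trans h2

/-- separation of two coordinates -/
theorem separate {L₀ : ℕ} (hM : ∀ p, (M p).Nonempty → cond L₀ p) (i j : Idx M) (hij : i ≠ j)
    (g : alternatingGroup (X i.1.1 i.1.2)) : ∃ γ ∈ Gam M, γ i = g ∧ γ j = 1 := by
  let N : Subgroup (Amb M) := Gam M ⊓
    (Pi.evalMonoidHom (fun i : Idx M => alternatingGroup (X i.1.1 i.1.2)) j).ker
  have hN : ∀ γ ∈ Gam M, ∀ n ∈ N, γ * n * γ⁻¹ ∈ N := by
    rintro γ hγ n ⟨hn1, hn2⟩
    refine ⟨(Gam M).mul_mem ((Gam M).mul_mem hγ hn1) ((Gam M).inv_mem hγ), ?_⟩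
    have h1 : n j = 1 := hn2
    show (γ * n * γ⁻¹) j = 1
    simp [h1]
  suffices h : ∃ n ∈ N, n i ≠ 1 by
    obtain ⟨n, hn, hni⟩ := norm_onto N hN i h g
    exact ⟨n, hn.1, hni, hn.2⟩
  by_contra hcon
  push Not at hcon
  -- build the map ψ
  obtain ⟨ρi, hρi', hρi⟩ := exists_eval i
  obtain ⟨ρj, hρj', hρj⟩ := exists_eval j
  have hker : ρj.ker ≤ ρi.ker := by
    intro γ hj
    rw [MonoidHom.mem_ker, hρj'] at hj
    rw [MonoidHom.mem_ker, hρi']
    exact hcon γ.1 ⟨γ.2, hj⟩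
  obtain ⟨ψ, hψ⟩ := exists_factor ρi ρj hρj hker
  have hψb := factor_bij ρi ρj hρi ψ hψ
  have hcard : Nat.card (alternatingGroup (X j.1.1 j.1.2)) =
      Nat.card (alternatingGroup (X i.1.1 i.1.2)) := Nat.card_eq_of_bijective ψ hψb
  have hdeg : deg i.1 = deg j.1 := by
    have h1 := two_mul_nat_card_alternatingGroup (α := X i.1.1 i.1.2)
    have h2 := two_mul_nat_card_alternatingGroup (α := X j.1.1 j.1.2)
    rw [hcard, h1, Nat.card_perm, Nat.card_perm] at h2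
    rw [Nat.card_eq_fintype_card, Nat.card_eq_fintype_card, card_X, card_X] at h2
    have h3 : (2 : ℕ) ≤ 5 ^ (i.1.1 + 2) * (i.1.2 + 1) := by
      have := natcard_X_ge i.1.1 i.1.2
      rw [Nat.card_eq_fintype_card, card_X] at this; omega
    have h4 : (2 : ℕ) ≤ 5 ^ (j.1.1 + 2) * (j.1.2 + 1) := by
      have := natcard_X_ge j.1.1 j.1.2
      rw [Nat.card_eq_fintype_card, card_X] at this; omega
    exact (Nat.factorial_inj (lt_of_lt_of_le (by norm_num) h3)).mp h2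
  obtain ⟨p, x, hx⟩ := i
  obtain ⟨p', x', hx'⟩ := j
  have hpp : p = p' := deg_inj (hM p ⟨x, hx⟩) (hM p' ⟨x', hx'⟩) hdeg
  subst hpp
  apply hij
  have h := same_coord p x x' hx hx' ψ (fun γ hγ =>
    (congrArg ψ (hρj' ⟨γ, hγ⟩).symm).trans ((hψ ⟨γ, hγ⟩).trans (hρi' ⟨γ, hγ⟩)))
  subst h
  rfl

theorem separate_finset {L₀ : ℕ} (hM : ∀ p, (M p).Nonempty → cond L₀ p) (i : Idx M)
    (J : Finset (Idx M)) (hJ : i ∉ J) :
    ∀ (g : alternatingGroup (X i.1.1 i.1.2)), ∃ γ ∈ Gam M, γ i = g ∧ ∀ j ∈ J, γ j = 1 := by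
  classical
  induction J using Finset.induction_on with
  | empty =>
    intro g
    obtain ⟨γ, hγ, h⟩ := eval_surj i g
    exact ⟨γ, hγ, h, by simp⟩
  | insert j J hjJ ih =>
    have hiJ : i ∉ J := fun h => hJ (by simp [h])
    have hij : i ≠ j := fun h => hJ (by simp [h])
    have ih := ih hiJ
    let N : Subgroup (Amb M) := Gam M ⊓ ⨅ k ∈ insert j J,
      (Pi.evalMonoidHom (fun i : Idx M => alternatingGroup (X i.1.1 i.1.2)) k).ker
    have hNmem : ∀ n, n ∈ N ↔ n ∈ Gam M ∧ ∀ k ∈ insert j J, n k = 1 := by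
      intro n
      simp only [N, Subgroup.mem_inf, Subgroup.mem_iInf, MonoidHom.mem_ker, Pi.evalMonoidHom_apply]
    have hN : ∀ γ ∈ Gam M, ∀ n ∈ N, γ * n * γ⁻¹ ∈ N := by
      intro γ hγ n hn
      rw [hNmem] at hn ⊢
      refine ⟨(Gam M).mul_mem ((Gam M).mul_mem hγ hn.1) ((Gam M).inv_mem hγ), fun k hk => ?_⟩
      simp [hn.2 k hk]
    intro g
    suffices h : ∃ n ∈ N, n i ≠ 1 by
      obtain ⟨n, hn, hni⟩ := norm_onto N hN i h g
      rw [hNmem] at hn
      exact ⟨n, hn.1, hni, hn.2⟩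
    obtain ⟨g1, hg1⟩ := exists_ne (1 : alternatingGroup (X i.1.1 i.1.2))
    obtain ⟨g2, hg2⟩ := exists_noncomm g1 hg1
    obtain ⟨γ1, hγ1, h1, h1'⟩ := ih g1
    obtain ⟨γ2, hγ2, h2, h2'⟩ := separate hM i j hij g2
    refine ⟨γ1 * γ2 * γ1⁻¹ * γ2⁻¹, ?_, ?_⟩
    · rw [hNmem]
      refine ⟨(Gam M).mul_mem ((Gam M).mul_mem ((Gam M).mul_mem hγ1 hγ2) ((Gam M).inv_mem hγ1))
        ((Gam M).inv_mem hγ2), fun k hk => ?_⟩
      rw [Finset.mem_insert] at hk
      rcases hk with rfl | hk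
      · simp [h2']
      · simp [h1' k hk]
    · simp only [Pi.mul_apply, Pi.inv_apply, h1, h2]
      intro h
      exact hg2 (comm_aux _ _ h)

theorem idx_finite {L₀ : ℕ} (hM : ∀ p, (M p).Nonempty → cond L₀ p) (m : ℕ) :
    {i : Idx M | i.1.1 ≤ m}.Finite := by
  have h1 : {i : Idx M | i.1.1 ≤ m} ⊆
      ⋃ p ∈ (Finset.range (m + 1) ×ˢ Finset.range (5 ^ (m + 3)) : Finset (ℕ × ℕ)),
        Set.range (fun x : {x // x ∈ M p} => (⟨p, x⟩ : Idx M)) := by
    rintro ⟨p, x, hx⟩ hp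
    simp only [Set.mem_iUnion]
    refine ⟨p, ?_, ⟨⟨x, hx⟩, rfl⟩⟩
    have hp' : p.1 ≤ m := hp
    obtain ⟨-, -, h2⟩ := hM p ⟨x, hx⟩
    rw [Finset.mem_product, Finset.mem_range, Finset.mem_range]
    refine ⟨by omega, ?_⟩
    have : 5 ^ (p.1 + 3) ≤ 5 ^ (m + 3) := Nat.pow_le_pow_right (by norm_num) (by omega)
    omega
  refine Set.Finite.subset ?_ h1
  apply Set.Finite.biUnion (Finset.finite_toSet _)
  intro p _
  exact Set.finite_range _

theorem exists_noncomm5 : ∃ g h : A, (∃ g' h' : Perm (Fin 5), (g : Perm B) = layB g' ∧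
    (h : Perm B) = layB h') ∧ g * h ≠ h * g := by
  have h1 : ∃ g h : alternatingGroup (Fin 5), g * h ≠ h * g := by
    by_contra hcon
    push Not at hcon
    have h2 : Subgroup.center (alternatingGroup (Fin 5)) = ⊤ := by
      rw [eq_top_iff]
      intro x _
      rw [Subgroup.mem_center_iff]
      intro y; exact hcon y x
    rw [alternatingGroup.center_eq_bot (by simp)] at h2
    have : Nontrivial (alternatingGroup (Fin 5)) :=
      alternatingGroup.nontrivial_of_three_le_card (by simp)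
    exact bot_ne_top h2
  obtain ⟨g, h, hgh⟩ := h1
  refine ⟨⟨layB g, Perm.mem_alternatingGroup.mpr (sign_layB _ (Perm.mem_alternatingGroup.mp g.2))⟩,
    ⟨layB h, Perm.mem_alternatingGroup.mpr (sign_layB _ (Perm.mem_alternatingGroup.mp h.2))⟩,
    ⟨g, h, rfl, rfl⟩, ?_⟩
  intro heq
  apply hgh
  have h3 : layB ((g : Perm (Fin 5)) * h) = layB ((h : Perm (Fin 5)) * g) := by
    have := congrArg Subtype.val heq
    rw [map_mul, map_mul]
    exact this
  have hinj : Function.Injective layB := by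
    intro a b hab
    apply Equiv.ext
    intro s
    have := congrFun (congrArg DFunLike.coe hab) (0, s)
    simpa [layB] using this
  exact Subtype.ext (hinj h3)

/-- the commutator relator -/
def rel (m : ℕ) (a b : A) : Amb M :=
  ahatG M a * (DG M ^ m * ahatG M b * (DG M ^ m)⁻¹) * (ahatG M a)⁻¹ *
    (DG M ^ m * ahatG M b * (DG M ^ m)⁻¹)⁻¹

theorem rel_mem (m : ℕ) (a b : A) : rel m a b ∈ Gam M := by
  have h1 : DG M ^ m * ahatG M b * (DG M ^ m)⁻¹ ∈ Gam M :=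
    (Gam M).mul_mem ((Gam M).mul_mem ((Gam M).pow_mem DG_mem m) (ahatG_mem b))
      ((Gam M).inv_mem ((Gam M).pow_mem DG_mem m))
  exact (Gam M).mul_mem ((Gam M).mul_mem ((Gam M).mul_mem (ahatG_mem a) h1)
    ((Gam M).inv_mem (ahatG_mem a))) ((Gam M).inv_mem h1)

theorem rel_apply (m : ℕ) (a b : A) (i : Idx M) : rel m a b i =
    ahatA a * (DA ^ m * ahatA b * (DA ^ m)⁻¹) * (ahatA a)⁻¹ * (DA ^ m * ahatA b * (DA ^ m)⁻¹)⁻¹ :=
  rfl

theorem rel_eq_one (m : ℕ) (a b : A) (h : ∃ g' h' : Perm (Fin 5), (a : Perm B) = layB g' ∧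
    (b : Perm B) = layB h') (i : Idx M) (hi : (m : ZMod (i.1.1 + 1)) ≠ 0) : rel m a b i = 1 := by
  obtain ⟨g', h', ha, hb⟩ := h
  rw [rel_apply]
  have h1 := rel_comm (L := i.1.1) (q := i.1.2) m hi g' h'
  have h2 : ahatA a * (DA ^ m * ahatA b * (DA ^ m)⁻¹) =
      (DA ^ m * ahatA b * (DA ^ m)⁻¹) * (ahatA a : alternatingGroup (X i.1.1 i.1.2)) := by
    apply Subtype.ext
    show ahat (a : Perm B) * (D ^ m * ahat (b : Perm B) * (D ^ m)⁻¹) =
      (D ^ m * ahat (b : Perm B) * (D ^ m)⁻¹) * ahat (a : Perm B)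
    rw [ha, hb]
    exact h1
  rw [h2]; group

theorem rel_ne_one (a b : A) (h : ∃ g' h' : Perm (Fin 5), (a : Perm B) = layB g' ∧
    (b : Perm B) = layB h') (hab : a * b ≠ b * a) (i : Idx M) : rel (i.1.1 + 1) a b i ≠ 1 := by
  obtain ⟨g', h', ha, hb⟩ := h
  rw [rel_apply]
  have h1 : DA ^ (i.1.1 + 1) * ahatA b * (DA ^ (i.1.1 + 1))⁻¹ =
      (ahatA b : alternatingGroup (X i.1.1 i.1.2)) := by
    apply Subtype.ext
    show D ^ (i.1.1 + 1) * ahat (b : Perm B) * (D ^ (i.1.1 + 1))⁻¹ = ahat (b : Perm B)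
    rw [hb]
    exact rel_conj_self h'
  rw [h1]
  intro h2
  apply hab
  have h3 : (ahatA (a * b) : alternatingGroup (X i.1.1 i.1.2)) = ahatA (b * a) := by
    rw [map_mul, map_mul]
    exact comm_aux _ _ h2
  have hinj : Function.Injective (ahatA : A →* alternatingGroup (X i.1.1 i.1.2)) := by
    intro u v huv
    apply Subtype.ext
    apply Equiv.ext
    intro s
    have h5 : (ahat (u : Perm B) : Perm (X i.1.1 i.1.2)) = ahat (v : Perm B) :=
      congrArg Subtype.val huv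
    have h6 := congrFun (congrArg DFunLike.coe h5) (κ s)
    rw [ahat_κ, ahat_κ] at h6
    exact κ_inj h6
  exact hinj h3

theorem single_mem {L₀ : ℕ} (hM : ∀ p, (M p).Nonempty → cond L₀ p) [DecidableEq (Idx M)]
    (i : Idx M) (g : alternatingGroup (X i.1.1 i.1.2)) : Pi.mulSingle i g ∈ Gam M := by
  classical
  obtain ⟨a, b, hl, hab⟩ := exists_noncomm5
  set m := i.1.1 + 1 with hm
  let r : Amb M := rel m a b
  have hr : r ∈ Gam M := rel_mem m a b
  have hri : r i ≠ 1 := rel_ne_one a b hl hab i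
  have hsupp : {j : Idx M | r j ≠ 1}.Finite := by
    apply (idx_finite hM m).subset
    intro j hj
    by_contra hcon
    apply hj
    apply rel_eq_one m a b hl j
    rw [Set.mem_ofPred_eq] at hcon
    push Not at hcon
    intro h0
    rw [ZMod.natCast_eq_zero_iff] at h0
    have := Nat.le_of_dvd (by omega) h0
    omega
  let J : Finset (Idx M) := hsupp.toFinset.erase i
  obtain ⟨h, hh⟩ := exists_noncomm (r i) hri
  obtain ⟨γ, hγ, hγi, hγJ⟩ := separate_finset hM i J (by simp [J]) h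
  let N : Subgroup (Amb M) := Gam M ⊓ ⨅ k, ⨅ _ : k ≠ i,
      (Pi.evalMonoidHom (fun i : Idx M => alternatingGroup (X i.1.1 i.1.2)) k).ker
  have hNmem : ∀ n, n ∈ N ↔ n ∈ Gam M ∧ ∀ k, k ≠ i → n k = 1 := by
    intro n
    simp only [N, Subgroup.mem_inf, Subgroup.mem_iInf, MonoidHom.mem_ker, Pi.evalMonoidHom_apply]
  have hN : ∀ γ ∈ Gam M, ∀ n ∈ N, γ * n * γ⁻¹ ∈ N := by
    intro γ hγ n hn
    rw [hNmem] at hn ⊢
    refine ⟨(Gam M).mul_mem ((Gam M).mul_mem hγ hn.1) ((Gam M).inv_mem hγ), fun k hk => ?_⟩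
    simp [hn.2 k hk]
  have hex : ∃ n ∈ N, n i ≠ 1 := by
    refine ⟨r * γ * r⁻¹ * γ⁻¹, ?_, ?_⟩
    · rw [hNmem]
      refine ⟨(Gam M).mul_mem ((Gam M).mul_mem ((Gam M).mul_mem hr hγ) ((Gam M).inv_mem hr))
        ((Gam M).inv_mem hγ), fun k hk => ?_⟩
      by_cases hk2 : r k = 1
      · simp [hk2]
      · have : γ k = 1 := hγJ k (by simp [J, hk, hk2])
        simp [this]
    · simp only [Pi.mul_apply, Pi.inv_apply, hγi]
      intro h0
      exact hh (comm_aux _ _ h0)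
  obtain ⟨n, hn, hni⟩ := norm_onto N hN i hex g
  rw [hNmem] at hn
  have : Pi.mulSingle i g = n := by
    funext k
    by_cases hk : k = i
    · subst hk; simp [hni]
    · rw [Pi.mulSingle_eq_of_ne hk, hn.2 k hk]
  rw [this]; exact hn.1

end Pool.Agent.Helper89.Gamma
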