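import Mathlib
import Pool.Agent.Helper89.Gamma
import Pool.Agent.Helper89.Abs

namespace Pool.Agent.Helper89.Case0

open Subgroup Equiv Pool.Agent.Helper89.AltSub Pool.Agent.Helper89.Gates Pool.Agent.Helper89.Gen
  Pool.Agent.Helper89.Gamma

variable {M : Fam}

/-- elements of Gamma supported at coordinate `i`. -/
def S (i : Idx M) : Subgroup (Gam M) where
  carrier := {γ | ∀ k, k ≠ i → γ.1 k = 1}
  one_mem' := fun _ _ => rfl
  mul_mem' := by
    intro a b ha hb k hk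
    have h1 := ha k hk
    have h2 := hb k hk
    show a.1 k * b.1 k = 1
    rw [h1, h2, mul_one]
  inv_mem' := by
    intro a ha k hk
    have h1 := ha k hk
    show (a.1 k)⁻¹ = 1
    rw [h1, inv_one]

theorem mem_S (i : Idx M) (γ : Gam M) : γ ∈ S i ↔ ∀ k, k ≠ i → γ.1 k = 1 := Iff.rfl

instance S_normal (i : Idx M) : (S i).Normal := by
  constructor
  intro n hn g k hk
  show g.1 k * n.1 k * (g.1 k)⁻¹ = 1
  rw [hn k hk]; group

theorem finite_support_mem {L₀ : ℕ} (hM : ∀ p, (M p).Nonempty → cond L₀ p)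
    (Kc : Subgroup (Gam M)) (hS : ∀ i, S i ≤ Kc) (J : Finset (Idx M)) :
    ∀ r : Gam M, (∀ j, j ∉ J → r.1 j = 1) → r ∈ Kc := by
  classical
  induction J using Finset.induction_on with
  | empty =>
    intro r hr
    have : r = 1 := by
      apply Subtype.ext
      funext j
      exact hr j (by simp)
    rw [this]; exact Kc.one_mem
  | insert i J hi ih =>
    intro r hr
    let s : Gam M := ⟨Pi.mulSingle i (r.1 i), single_mem hM i (r.1 i)⟩
    have hs : s ∈ Kc := by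
      apply hS i
      rw [mem_S]
      intro k hk
      exact Pi.mulSingle_eq_of_ne hk _
    have h1 : s⁻¹ * r ∈ Kc := by
      apply ih
      intro j hj
      show ((Pi.mulSingle i (r.1 i) : Amb M) j)⁻¹ * r.1 j = 1
      by_cases hji : j = i
      · subst hji
        rw [Pi.mulSingle_eq_same, inv_mul_cancel]
      · rw [Pi.mulSingle_eq_of_ne hji, hr j (by simp [hji, hj])]
        simp
    have h2 := Kc.mul_mem hs h1
    rwa [mul_inv_cancel_left] at h2

def ahatΓ : A →* Gam M := (ahatG M).codRestrict (Gam M) ahatG_mem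
def locΓ : A →* Gam M := (locG M).codRestrict (Gam M) locG_mem
def DΓ : Gam M := ⟨DG M, DG_mem⟩
def xΓ : Gam M := ⟨xG M, xG_mem⟩

theorem sign_ctrlB (g : Perm (Fin 5)) (hg : Perm.sign g = 1) : Perm.sign (ctrlB g) = 1 := by
  have h : ∀ a : alternatingGroup (Fin 5), (Perm.sign.comp (ctrlB.comp
      (alternatingGroup (Fin 5)).subtype)) a = 1 := by
    intro a
    have hs : IsSimpleGroup (alternatingGroup (Fin 5)) := alternatingGroup.isSimpleGroup (by simp)
    set f := (Perm.sign.comp (ctrlB.comp (alternatingGroup (Fin 5)).subtype))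
    rcases (MonoidHom.normal_ker f).eq_bot_or_eq_top with h | h
    · exfalso
      have hinj := (MonoidHom.ker_eq_bot_iff f).mp h
      have h1 : Subgroup.center (alternatingGroup (Fin 5)) = ⊤ := by
        rw [eq_top_iff]
        intro x _
        rw [Subgroup.mem_center_iff]
        intro y
        apply hinj
        rw [map_mul, map_mul, mul_comm]
      rw [alternatingGroup.center_eq_bot (by simp)] at h1
      have : Nontrivial (alternatingGroup (Fin 5)) :=
        alternatingGroup.nontrivial_of_three_le_card (by simp)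
      exact bot_ne_top h1
    · have : a ∈ f.ker := by rw [h]; trivial
      exact this
  exact h ⟨g, Perm.mem_alternatingGroup.mpr hg⟩

def σ₁ : Perm (Fin 5) := swap 0 2 * swap 0 1
def σ₂ : Perm (Fin 5) := swap 1 3 * swap 1 2

def s₁ : A := ⟨ctrlB σ₁, Perm.mem_alternatingGroup.mpr (sign_ctrlB _ (by decide))⟩
def s₂ : A := ⟨ctrlB σ₂, Perm.mem_alternatingGroup.mpr (sign_ctrlB _ (by decide))⟩

theorem rel_D_perm {L q : ℕ} : (D : Perm (X L q)) * (ahat (ctrlB σ₁) * D * (ahat (ctrlB σ₁))⁻¹) =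
      ahat (ctrlB σ₂) * D * (ahat (ctrlB σ₂))⁻¹ := by
  rw [ahat_ctrlB, ahat_ctrlB, D, Dc_conj, Dc_conj]
  have e1 : σ₁ 0 = 1 := by decide
  have e2 : σ₁ 1 = 2 := by decide
  have e3 : σ₂ 0 = 0 := by decide
  have e4 : σ₂ 1 = 2 := by decide
  rw [e1, e2, e3, e4, Dc_mul]

theorem rel_D : (DΓ : Gam M) * (ahatΓ s₁ * DΓ * (ahatΓ s₁)⁻¹) = ahatΓ s₂ * DΓ * (ahatΓ s₂)⁻¹ :=
  Subtype.ext (funext fun _ => Subtype.ext rel_D_perm)

theorem rel_locΓ (u v : A) : (ahatΓ v : Gam M) * locΓ u * (ahatΓ v)⁻¹ = locΓ (v * u * v⁻¹) :=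
  Subtype.ext (funext fun _ => Subtype.ext (rel_loc (u : Perm B) (v : Perm B)))

theorem gam_le_of (K : Subgroup (Gam M)) (h1 : ∀ a, ahatΓ a ∈ K) (h2 : ∀ a, locΓ a ∈ K)
    (h3 : DΓ ∈ K) (h4 : xΓ ∈ K) : K = ⊤ := by
  have hle : closure (gens M) ≤ K.map (Gam M).subtype := by
    apply (closure_le _).mpr
    rintro g ((⟨a, rfl⟩ | ⟨a, rfl⟩) | hg)
    · exact ⟨ahatΓ a, h1 a, rfl⟩
    · exact ⟨locΓ a, h2 a, rfl⟩
    · rcases hg with rfl | hg
      · exact ⟨DΓ, h3, rfl⟩
      · have hg' : g = xG M := hg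
        subst hg'
        exact ⟨xΓ, h4, rfl⟩
  rw [eq_top_iff]
  intro γ _
  obtain ⟨δ, hδ, h⟩ := hle γ.2
  have : δ = γ := Subtype.ext h
  rwa [this] at hδ

theorem rel_mem_of {L₀ : ℕ} (hM : ∀ p, (M p).Nonempty → cond L₀ p) (u v : A)
    (hl : ∃ g' h' : Perm (Fin 5), (u : Perm B) = layB g' ∧ (v : Perm B) = layB h') (m : ℕ)
    (hm : m ≠ 0) (K : Subgroup (Gam M)) (hS : ∀ i, S i ≤ K) :
    ahatΓ u * (DΓ ^ m * ahatΓ v * (DΓ ^ m)⁻¹) * (ahatΓ u)⁻¹ * (DΓ ^ m * ahatΓ v * (DΓ ^ m)⁻¹)⁻¹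
      ∈ K := by
  classical
  have hfin : {j : Idx M | (rel m u v : Amb M) j ≠ 1}.Finite := by
    apply (idx_finite hM m).subset
    intro j hj
    by_contra hcon
    apply hj
    apply rel_eq_one m u v hl j
    rw [Set.mem_ofPred_eq] at hcon
    push Not at hcon
    intro h0
    rw [ZMod.natCast_eq_zero_iff] at h0
    have := Nat.le_of_dvd (by omega) h0
    omega
  have hr : (⟨rel m u v, rel_mem m u v⟩ : Gam M) ∈ K := by
    apply finite_support_mem hM K hS hfin.toFinset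
    intro j hj
    by_contra hne
    exact hj (hfin.mem_toFinset.mpr hne)
  exact hr

theorem case0_unique {L₀ : ℕ} (hM : ∀ p, (M p).Nonempty → cond L₀ p) (H H' : Subgroup (Gam M))
    (n : ℕ) (hH : H.index = n) (hH' : H'.index = n) (hn : n ≠ 0) (hS : ∀ i, S i ≤ H)
    (hS' : ∀ i, S i ≤ H') : H = H' := by
  obtain ⟨u, v, hl, huv⟩ := exists_noncomm5
  have : IsSimpleGroup A := alternatingGroup.isSimpleGroup (by simp)
  exact Abs.abs_unique (S (M := M)) ahatΓ locΓ DΓ xΓ (fun K h1 h2 h3 h4 => gam_le_of K h1 h2 h3 h4)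
    u v s₁ s₂ huv
    (fun m hm K hK => rel_mem_of hM u v hl m hm K hK) rel_D (rel_locΓ u v) S_normal H H' n hn hH hH'
    hS hS'

end Pool.Agent.Helper89.Case0
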