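import Mathlib

set_option autoImplicit false

namespace Pool.Agent.Helper89.EngelStar

theorem map_iter {G H : Type*} [Group G] [Group H] (φ : G →* H) (y : G) (k : ℕ) : ∀ x : G,
    φ ((fun z => z⁻¹ * y⁻¹ * z * y)^[k] x) = (fun z => z⁻¹ * (φ y)⁻¹ * z * φ y)^[k] (φ x) := by
  induction k with
  | zero => intro x; rfl
  | succ k ih =>
    intro x
    rw [Function.iterate_succ_apply, Function.iterate_succ_apply, ih]
    simp only [map_mul, map_inv]

theorem one_iter {G : Type*} [Group G] (k : ℕ) (hk : 1 ≤ k) (x : G) :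
    (fun z => z⁻¹ * (1 : G)⁻¹ * z * 1)^[k] x = 1 := by
  obtain ⟨m, rfl⟩ : ∃ m, k = m + 1 := ⟨k - 1, by omega⟩
  rw [Function.iterate_succ_apply']
  simp

/-- sequences whose entries all lie over the same element of `C` -/
def Gs {G₀ C : Type} [Group G₀] [Group C] (π : G₀ →* C) : Subgroup (ℕ → G₀) where
  carrier := {f | ∀ n, π (f n) = π (f 0)}
  one_mem' := fun _ => rfl
  mul_mem' := by
    intro a b ha hb n
    show π (a n * b n) = π (a 0 * b 0)
    rw [map_mul, map_mul, ha n, hb n]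
  inv_mem' := by
    intro a ha n
    show π (a n)⁻¹ = π (a 0)⁻¹
    rw [map_inv, map_inv, ha n]

theorem general (G₀ : Type) [Group G₀] (C : Type) [Group C] [Finite C] (π : G₀ →* C) (k : ℕ)
    (hk : 1 ≤ k) (h1 : ∀ w, π w = 1 → ∀ g, (fun z => z⁻¹ * g⁻¹ * z * g)^[k] w = 1)
    (x w : G₀) (hw : π w = 1) (h2 : (fun z => z⁻¹ * w⁻¹ * z * w)^[k] x ≠ 1) :
    ¬ (∀ k : ℕ, 1 ≤ k → ∀ (G : Type) [Group G],
      (∀ S : Set G, S.Infinite →
        ∃ x ∈ S, ∃ y ∈ S, x ≠ y ∧
          (fun z => z⁻¹ * y⁻¹ * z * y)^[k] x = 1 ∧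
          (fun z => z⁻¹ * x⁻¹ * z * x)^[k] y = 1) →
      (∀ S : Set G, S.Infinite →
        ∃ x ∈ S, ∃ y ∈ S, x ≠ y ∧
          ∀ a ∈ Subgroup.closure ({x, y} : Set G),
            ∀ b ∈ Subgroup.closure ({x, y} : Set G),
              (fun z => z⁻¹ * b⁻¹ * z * b)^[k] a = 1)) := by
  classical
  intro H
  have hw1 : w ≠ 1 := by
    intro h
    rw [h] at h2
    exact h2 (one_iter k hk x)
  -- two elements in the same class
  have hpair : ∀ a b : G₀, π a = π b → (fun z => z⁻¹ * b⁻¹ * z * b)^[k] a = 1 := by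
    intro a b hab
    have h3 := h1 (b⁻¹ * a) (by rw [map_mul, map_inv, hab, inv_mul_cancel]) b
    obtain ⟨m, rfl⟩ : ∃ m, k = m + 1 := ⟨k - 1, by omega⟩
    rw [Function.iterate_succ_apply] at h3 ⊢
    have h4 : a⁻¹ * b⁻¹ * a * b = (b⁻¹ * a)⁻¹ * b⁻¹ * (b⁻¹ * a) * b := by group
    rw [h4]; exact h3
  have hev : ∀ (n : ℕ) (a b : Gs π), ((fun z => z⁻¹ * b⁻¹ * z * b)^[k] a).1 n =
      (fun z => z⁻¹ * (b.1 n)⁻¹ * z * (b.1 n))^[k] (a.1 n) := fun n a b =>
    map_iter ((Pi.evalMonoidHom (fun _ : ℕ => G₀) n).comp (Gs π).subtype) b k a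
  have hstar : ∀ S : Set (Gs π), S.Infinite →
        ∃ x ∈ S, ∃ y ∈ S, x ≠ y ∧
          (fun z => z⁻¹ * y⁻¹ * z * y)^[k] x = 1 ∧
          (fun z => z⁻¹ * x⁻¹ * z * x)^[k] y = 1 := by
    intro S hS
    obtain ⟨a, ha, b, hb, hab, h3⟩ := hS.exists_ne_map_eq_of_mapsTo
      (f := fun f : Gs π => π (f.1 0)) (t := Set.univ) (fun _ _ => Set.mem_univ _)
      Set.finite_univ
    refine ⟨a, ha, b, hb, hab, ?_, ?_⟩
    · apply Subtype.ext
      funext n
      rw [hev]
      exact hpair _ _ (((a.2 n).trans h3).trans (b.2 n).symm)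
    · apply Subtype.ext
      funext n
      rw [hev]
      exact hpair _ _ (((b.2 n).trans h3.symm).trans (a.2 n).symm)
  let s : ℕ → Gs π := fun j => ⟨fun n => if n = j then x * w else x, fun n => by
    have h : ∀ m : ℕ, π (if m = j then x * w else x) = π x := by
      intro m
      split_ifs
      · rw [map_mul, hw, mul_one]
      · rfl
    exact (h n).trans (h 0).symm⟩
  have hsj : ∀ j, (s j).1 j = x * w := fun j => if_pos rfl
  have hsn : ∀ i j, i ≠ j → (s i).1 j = x := fun i j h => if_neg (Ne.symm h)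
  have hinj : Function.Injective s := by
    intro i j hij
    by_contra hne
    have h3 := hsn i j hne
    rw [hij, hsj] at h3
    exact hw1 (mul_eq_left.mp h3)
  obtain ⟨a, ⟨i, rfl⟩, b, ⟨j, rfl⟩, hne, h3⟩ := H k hk (Gs π) hstar (Set.range s)
    (Set.infinite_range_of_injective hinj)
  have hij : i ≠ j := fun h => hne (by rw [h])
  have m1 : s i ∈ Subgroup.closure ({s i, s j} : Set (Gs π)) := Subgroup.subset_closure (by simp)
  have m2 : s j ∈ Subgroup.closure ({s i, s j} : Set (Gs π)) := Subgroup.subset_closure (by simp)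
  have h4 := h3 (s i) m1 ((s i)⁻¹ * s j) (Subgroup.mul_mem _ (Subgroup.inv_mem _ m1) m2)
  have h5 := congrArg (fun f : Gs π => f.1 j) h4
  have h6 := (hev j (s i) ((s i)⁻¹ * s j)).symm.trans h5
  have h7 : ((s i)⁻¹ * s j).1 j = w := by
    show ((s i).1 j)⁻¹ * (s j).1 j = w
    rw [hsj, hsn i j hij, inv_mul_cancel_left]
  rw [h7, hsn i j hij] at h6
  exact h2 h6

/-- the finite plane -/
abbrev P : Type := ZMod 4 × ZMod 4

/-- the defining condition on functions: `(T_l - 1)(T_u - 1)^3 F = 0` in characteristic two, for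
all `u` and all `l` with first coordinate zero -/
def Cond (F : P → ZMod 2) : Prop :=
  ∀ (l : ZMod 4) (u p : P),
    F (p + 3 • u + (0, l)) + F (p + 2 • u + (0, l)) + F (p + u + (0, l)) + F (p + (0, l)) +
      (F (p + 3 • u) + F (p + 2 • u) + F (p + u) + F p) = 0

@[ext] structure G0 : Type where
  f : P → ZMod 2
  u : P
  h : Cond f

theorem cond_mul {f g : P → ZMod 2} (hf : Cond f) (hg : Cond g) (v : P) :
    Cond (fun p => f (p + v) + g p) := by
  intro l u p
  have h1 := hf l u (p + v)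
  have h2 := hg l u p
  have e1 : ∀ q : P, p + q + v = p + v + q := fun q => by abel
  have e2 : ∀ q r : P, p + q + r + v = p + v + q + r := fun q r => by abel
  simp only [e1, e2]
  linear_combination h1 + h2

theorem cond_inv {f : P → ZMod 2} (hf : Cond f) (v : P) :
    Cond (fun p => f (p + v)) := by
  intro l u p
  have h1 := hf l u (p + v)
  have e1 : ∀ q : P, p + q + v = p + v + q := fun q => by abel
  have e2 : ∀ q r : P, p + q + r + v = p + v + q + r := fun q r => by abel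
  simp only [e1, e2]
  exact h1

theorem cond_zero : Cond (fun _ => 0) := by
  intro l u p
  simp

instance : Group G0 where
  mul x y := ⟨fun p => x.f (p + y.u) + y.f p, x.u + y.u, cond_mul x.h y.h y.u⟩
  one := ⟨fun _ => 0, 0, cond_zero⟩
  inv x := ⟨fun p => x.f (p + -x.u), -x.u, cond_inv x.h _⟩
  mul_assoc x y z := by
    apply G0.ext
    · funext p
      show x.f (p + z.u + y.u) + y.f (p + z.u) + z.f p = x.f (p + (y.u + z.u)) + (y.f (p + z.u) + z.f p)
      rw [add_assoc p z.u y.u, add_comm z.u y.u, add_assoc]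
    · exact add_assoc _ _ _
  one_mul x := by
    apply G0.ext
    · funext p
      show 0 + x.f p = x.f p
      rw [zero_add]
    · exact zero_add _
  mul_one x := by
    apply G0.ext
    · funext p
      show x.f (p + 0) + 0 = x.f p
      rw [add_zero, add_zero]
    · exact add_zero _
  inv_mul_cancel x := by
    apply G0.ext
    · funext p
      show x.f (p + x.u + -x.u) + x.f p = 0
      rw [add_neg_cancel_right]
      exact CharTwo.add_self_eq_zero _
    · exact neg_add_cancel _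

theorem mul_f (x y : G0) (p : P) : (x * y).f p = x.f (p + y.u) + y.f p := rfl
theorem mul_u (x y : G0) : (x * y).u = x.u + y.u := rfl
theorem inv_f (x : G0) (p : P) : (x⁻¹).f p = x.f (p + -x.u) := rfl
theorem inv_u (x : G0) : (x⁻¹).u = -x.u := rfl
theorem one_f (p : P) : (1 : G0).f p = 0 := rfl
theorem one_u : (1 : G0).u = 0 := rfl

theorem cm_u (z g : G0) : (z⁻¹ * g⁻¹ * z * g).u = 0 := by
  rw [mul_u, mul_u, mul_u, inv_u, inv_u]; abel

theorem cm_f (z g : G0) (p : P) : (z⁻¹ * g⁻¹ * z * g).f p =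
    z.f (p + g.u) + z.f p + (g.f (p + z.u) + g.f p) := by
  rw [mul_f, mul_f, mul_f, inv_f, inv_f, inv_u]
  have e1 : p + g.u + z.u + -g.u + -z.u = p := by abel
  have e2 : p + g.u + z.u + -g.u = p + z.u := by abel
  rw [e1, e2]
  ring

theorem cm_f0 (z g : G0) (hz : z.u = 0) (p : P) : (z⁻¹ * g⁻¹ * z * g).f p =
    z.f (p + g.u) + z.f p := by
  rw [cm_f, hz, add_zero, CharTwo.add_self_eq_zero, add_zero]

theorem cm3_f (z g : G0) (hz : z.u = 0) (p : P) : ((fun z => z⁻¹ * g⁻¹ * z * g)^[3] z).f p =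
    z.f (p + 3 • g.u) + z.f (p + 2 • g.u) + z.f (p + g.u) + z.f p := by
  simp only [Function.iterate_succ_apply', Function.iterate_zero, id_eq]
  have e2 : p + g.u + g.u = p + 2 • g.u := by abel
  have e3 : p + g.u + g.u + g.u = p + 3 • g.u := by abel
  rw [cm_f0 _ _ (cm_u _ _), cm_f0 _ _ (cm_u _ _), cm_f0 _ _ (cm_u _ _), cm_f0 _ _ hz,
    cm_f0 _ _ hz, cm_f0 _ _ hz, e3, e2]
  generalize z.f (p + 3 • g.u) = a
  generalize z.f (p + 2 • g.u) = b
  generalize z.f (p + g.u) = c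
  generalize z.f p = d
  revert a b c d
  decide

theorem cm4_f (z g : G0) (p : P) : ((fun z => z⁻¹ * g⁻¹ * z * g)^[4] z).f p =
    g.f (p + 3 • g.u + z.u) + g.f (p + 2 • g.u + z.u) + g.f (p + g.u + z.u) + g.f (p + z.u) +
      (g.f (p + 3 • g.u) + g.f (p + 2 • g.u) + g.f (p + g.u) + g.f p) := by
  rw [Function.iterate_succ_apply, cm3_f _ _ (cm_u _ _), cm_f, cm_f, cm_f, cm_f]
  have e2 : p + g.u + g.u = p + 2 • g.u := by abel
  have e3 : p + 2 • g.u + g.u = p + 3 • g.u := by abel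
  have e4 : p + 3 • g.u + g.u = p := by
    have : (4 : ℕ) • g.u = 0 := by
      generalize g.u = u
      revert u; decide
    calc p + 3 • g.u + g.u = p + 4 • g.u := by abel
      _ = p := by rw [this, add_zero]
  rw [e2, e3, e4]
  generalize z.f (p + 3 • g.u) = a
  generalize z.f (p + 2 • g.u) = b
  generalize z.f (p + g.u) = c
  generalize z.f p = d
  have h2 : ∀ t : ZMod 2, t + t = 0 := CharTwo.add_self_eq_zero
  linear_combination h2 a + h2 b + h2 c + h2 d

/-- the projection to the first coordinate of the translation part -/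
def π : G0 →* Multiplicative (ZMod 4) where
  toFun x := Multiplicative.ofAdd x.u.1
  map_one' := rfl
  map_mul' _ _ := rfl

def bit0 (i : ZMod 4) : ZMod 2 := if i = 1 ∨ i = 3 then 1 else 0
def bit1 (i : ZMod 4) : ZMod 2 := if i = 2 ∨ i = 3 then 1 else 0

def F (p : P) : ZMod 2 := bit1 p.2 * (bit0 p.1 * bit0 p.2 + bit1 p.1)

theorem F_cond : Cond F := by
  unfold Cond
  decide

def x₀ : G0 := ⟨fun _ => 0, (1, 0), cond_zero⟩
def w₀ : G0 := ⟨F, (0, 1), F_cond⟩

theorem right_engel (w : G0) (hw : π w = 1) (g : G0) :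
    (fun z => z⁻¹ * g⁻¹ * z * g)^[4] w = 1 := by
  have hw' : w.u.1 = 0 := hw
  have hw2 : w.u = (0, w.u.2) := Prod.ext hw' rfl
  apply G0.ext
  · funext p
    rw [cm4_f, hw2]
    exact g.h w.u.2 g.u p
  · rw [Function.iterate_succ_apply', cm_u]
    rfl

theorem not_engel : (fun z => z⁻¹ * w₀⁻¹ * z * w₀)^[4] x₀ ≠ 1 := by
  intro h
  have h1 := congrArg (fun t : G0 => t.f (0, 0)) h
  have h2 := (cm4_f x₀ w₀ (0, 0)).symm.trans h1
  revert h2
  decide

theorem main : ¬ (∀ k : ℕ, 1 ≤ k → ∀ (G : Type) [Group G],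
      (∀ S : Set G, S.Infinite →
        ∃ x ∈ S, ∃ y ∈ S, x ≠ y ∧
          (fun z => z⁻¹ * y⁻¹ * z * y)^[k] x = 1 ∧
          (fun z => z⁻¹ * x⁻¹ * z * x)^[k] y = 1) →
      (∀ S : Set G, S.Infinite →
        ∃ x ∈ S, ∃ y ∈ S, x ≠ y ∧
          ∀ a ∈ Subgroup.closure ({x, y} : Set G),
            ∀ b ∈ Subgroup.closure ({x, y} : Set G),
              (fun z => z⁻¹ * b⁻¹ * z * b)^[k] a = 1)) :=
  general G0 (Multiplicative (ZMod 4)) π 4 (by norm_num) right_engel x₀ w₀ rfl not_engel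

end Pool.Agent.Helper89.EngelStar
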