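import Mathlib
import Pool.Agent.Helper89.Count
import Pool.Agent.Helper89.AltSub

namespace Pool.Agent.Helper89.SubBound

open Subgroup Equiv Pool.Agent.Helper89.AltSub Pool.Agent.Helper89.Count

variable {α : Type*} [Fintype α] [DecidableEq α]

theorem index_K_le (T : Finset α) (hT : 2 ≤ T.card) :
    (K T).index ≠ 0 ∧ (K T).index ≤ (Fintype.card α) ^ (Fintype.card α - T.card) := by
  have hα : 2 ≤ Fintype.card α := le_trans hT (Finset.card_le_univ T)
  have : Nontrivial α := by
    rw [← Fintype.one_lt_card_iff_nontrivial]; omega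
  have h1 := two_mul_card_K T hT
  have h2 : 2 * Nat.card (alternatingGroup α) = (Fintype.card α).factorial := by
    rw [two_mul_nat_card_alternatingGroup, Nat.card_perm, Nat.card_eq_fintype_card]
  have h3 := (K T).index_mul_card
  have h4 : Fintype.card α - (Fintype.card α - T.card) = T.card := by
    have := Finset.card_le_univ T
    omega
  have h5 := Nat.factorial_mul_descFactorial
    (n := Fintype.card α) (k := Fintype.card α - T.card) (Nat.sub_le _ _)
  rw [h4] at h5
  have h6 : (K T).index * (T.card).factorial = (Fintype.card α).factorial := by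
    rw [← h1, ← h2, ← h3]; ring
  have h7 : (K T).index = (Fintype.card α).descFactorial (Fintype.card α - T.card) := by
    have h8 : (T.card).factorial * (K T).index =
        (T.card).factorial * (Fintype.card α).descFactorial (Fintype.card α - T.card) := by
      rw [h5, ← h6]; ring
    exact Nat.eq_of_mul_eq_mul_left (Nat.factorial_pos _) h8
  constructor
  · intro h0
    rw [h0] at h6
    have := Nat.factorial_pos (Fintype.card α)
    omega
  · rw [h7]; exact Nat.descFactorial_le_pow _ _

theorem pow_log_mono {N m : ℕ} (h : N ≤ 2 ^ m) : N ^ (Nat.log 2 N) ≤ 2 ^ (m * m) := by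
  have h1 : Nat.log 2 N ≤ m := by
    calc Nat.log 2 N ≤ Nat.log 2 (2 ^ m) := Nat.log_mono_right h
      _ = m := Nat.log_pow (by norm_num) m
  calc N ^ (Nat.log 2 N) ≤ (2 ^ m) ^ (Nat.log 2 N) := Nat.pow_le_pow_left h _
    _ ≤ (2 ^ m) ^ m := Nat.pow_le_pow_right (by positivity) h1
    _ = 2 ^ (m * m) := by rw [← pow_mul]

theorem poly_le_two_pow (l : ℕ) (hl : 24 ≤ l) :
    ((l + 1) * (4 * (l + 2))) * ((l + 1) * (4 * (l + 2))) ≤ 2 ^ l ∧
    (4 * (l + 2)) * (4 * (l + 2)) ≤ 2 ^ l := by
  have key : 16 * (l + 2) ^ 4 ≤ 2 ^ l := by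
    induction l, hl using Nat.le_induction with
    | base => norm_num
    | succ n hn ih =>
      have h1 : 16 * (n + 1 + 2) ^ 4 ≤ 2 * (16 * (n + 2) ^ 4) := by
        have h2 : (n + 3) ^ 4 ≤ 2 * (n + 2) ^ 4 := by
          nlinarith [sq_nonneg ((n:ℤ) + 2), pow_le_pow_left₀ (Nat.zero_le _) hn 2,
            pow_le_pow_left₀ (Nat.zero_le _) hn 3, mul_le_mul hn hn (Nat.zero_le _) (Nat.zero_le _)]
        calc 16 * (n + 1 + 2) ^ 4 = 16 * (n + 3) ^ 4 := by ring
          _ ≤ 16 * (2 * (n + 2) ^ 4) := Nat.mul_le_mul_left _ h2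
          _ = _ := by ring
      calc 16 * (n + 1 + 2) ^ 4 ≤ 2 * (16 * (n + 2) ^ 4) := h1
        _ ≤ 2 * 2 ^ n := Nat.mul_le_mul_left _ ih
        _ = 2 ^ (n + 1) := by ring
  constructor
  · refine le_trans ?_ key
    have : ((l + 1) * (4 * (l + 2))) * ((l + 1) * (4 * (l + 2))) = 16 * ((l+1)^2 * (l+2)^2) := by ring
    rw [this]
    apply Nat.mul_le_mul_left
    calc (l+1)^2 * (l+2)^2 ≤ (l+2)^2 * (l+2)^2 := by
          apply Nat.mul_le_mul_right
          exact Nat.pow_le_pow_left (by omega) 2
      _ = (l+2)^4 := by ring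
  · refine le_trans ?_ key
    have : (4 * (l + 2)) * (4 * (l + 2)) = 16 * (l+2)^2 := by ring
    rw [this]
    apply Nat.mul_le_mul_left
    exact Nat.pow_le_pow_right (by omega) (by norm_num)

theorem card_all_le :
    Finite {H : Subgroup (alternatingGroup α) // (⊥ : Subgroup _) ≤ H} ∧
    Nat.card {H : Subgroup (alternatingGroup α) // (⊥ : Subgroup _) ≤ H} ≤
      2 ^ ((Fintype.card α) ^ 4) := by
  set k := Fintype.card α with hk
  have h0 : (⊥ : Subgroup (alternatingGroup α)).index ≠ 0 := by
    rw [Subgroup.index_bot]; exact Nat.card_pos.ne'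
  obtain ⟨h1, h2⟩ := card_over_le (⊥ : Subgroup (alternatingGroup α)) h0
  refine ⟨h1, le_trans h2 ?_⟩
  have h3 : (⊥ : Subgroup (alternatingGroup α)).index ≤ 2 ^ (k * k) := by
    rw [Subgroup.index_bot]
    calc Nat.card (alternatingGroup α) ≤ Nat.card (Perm α) :=
          Nat.card_le_card_of_injective _ Subtype.val_injective
      _ = k.factorial := by rw [Nat.card_perm, Nat.card_eq_fintype_card]
      _ ≤ k ^ k := Nat.factorial_le_pow k
      _ ≤ (2 ^ k) ^ k := Nat.pow_le_pow_left (Nat.lt_two_pow_self).le k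
      _ = 2 ^ (k * k) := by rw [← pow_mul]
  calc _ ≤ 2 ^ ((k * k) * (k * k)) := pow_log_mono h3
    _ = 2 ^ (k ^ 4) := by ring_nf

theorem sub_bound_small (hk : 2 ^ 24 ≤ Fintype.card α) (c : ℕ) (hc : c ≠ 0)
    (hck : c < (Fintype.card α) ^ 4) :
    Nat.card {H : Subgroup (alternatingGroup α) // H.index = c} ≤ 4 ^ (Fintype.card α) := by
  set k := Fintype.card α with hkdef
  have hk0 : k ≠ 0 := by
    intro h; rw [h] at hk; norm_num at hk
  set l := Nat.log 2 k with hl
  have hl24 : 24 ≤ l := by
    have := Nat.log_mono_right (b := 2) hk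
    rwa [Nat.log_pow (by norm_num)] at this
  have hlk : 2 ^ l ≤ k := Nat.pow_log_le_self 2 hk0
  have hkl : k < 2 ^ (l + 1) := Nat.lt_pow_succ_log_self (by norm_num) k
  set t := Nat.log 2 c + 5 with ht
  have hct : c < 2 ^ t := lt_of_lt_of_le (Nat.lt_pow_succ_log_self (by norm_num) c)
    (Nat.pow_le_pow_right (by norm_num) (by omega))
  have htl : t ≤ 4 * (l + 2) := by
    have h1 : c < 2 ^ ((l + 1) * 4) := by
      calc c < k ^ 4 := hck
        _ ≤ (2 ^ (l+1)) ^ 4 := Nat.pow_le_pow_left hkl.le 4
        _ = 2 ^ ((l+1) * 4) := by rw [← pow_mul]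
    have h2 : Nat.log 2 c < (l + 1) * 4 := Nat.log_lt_of_lt_pow hc h1
    omega
  obtain ⟨hp1, hp2⟩ := poly_le_two_pow l hl24
  have htt : t * t ≤ k := le_trans (le_trans (Nat.mul_le_mul htl htl) hp2) hlk
  have hlt : ((l + 1) * t) * ((l + 1) * t) ≤ k :=
    le_trans (le_trans (Nat.mul_le_mul (Nat.mul_le_mul_left _ htl) (Nat.mul_le_mul_left _ htl)) hp1) hlk
  have hex : ∀ H : {H : Subgroup (alternatingGroup α) // H.index = c},
      ∃ T : {T : Finset α // k < T.card + t}, K T.1 ≤ H.1 := by
    rintro ⟨H, hH⟩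
    obtain ⟨T, h1, h2⟩ := exists_large H c t hc hH (by omega) hct htt
    exact ⟨⟨T, h2⟩, h1⟩
  have hTbound : ∀ T : {T : Finset α // k < T.card + t},
      Finite {H : Subgroup (alternatingGroup α) // K T.1 ≤ H} ∧
      Nat.card {H : Subgroup (alternatingGroup α) // K T.1 ≤ H} ≤ 2 ^ k := by
    rintro ⟨T, hT⟩
    have ht2 : t + 2 ≤ k := by nlinarith
    have hT2 : 2 ≤ T.card := by omega
    obtain ⟨h1, h2⟩ := index_K_le T hT2
    obtain ⟨h3, h4⟩ := card_over_le (K T) h1
    refine ⟨h3, le_trans h4 ?_⟩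
    have h5 : (K T).index ≤ 2 ^ ((l + 1) * t) := by
      calc (K T).index ≤ k ^ (k - T.card) := h2
        _ ≤ k ^ t := Nat.pow_le_pow_right (by omega) (by omega)
        _ ≤ (2 ^ (l + 1)) ^ t := Nat.pow_le_pow_left hkl.le t
        _ = 2 ^ ((l + 1) * t) := by rw [← pow_mul]
    exact le_trans (pow_log_mono h5) (Nat.pow_le_pow_right (by norm_num) hlt)
  choose T hT using hex
  have hfin : ∀ T : {T : Finset α // k < T.card + t},
      Finite {H : Subgroup (alternatingGroup α) // K T.1 ≤ H} := fun T => (hTbound T).1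
  let F : {H : Subgroup (alternatingGroup α) // H.index = c} →
      Σ T : {T : Finset α // k < T.card + t}, {H : Subgroup (alternatingGroup α) // K T.1 ≤ H} :=
    fun H => ⟨T H, ⟨H.1, hT H⟩⟩
  have hF : Function.Injective F := by
    intro H H' h
    simp only [F, Sigma.mk.injEq] at h
    obtain ⟨h1, h2⟩ := h
    apply Subtype.ext
    have : ∀ (T T' : {T : Finset α // k < T.card + t})
        (A : {H : Subgroup (alternatingGroup α) // K T.1 ≤ H})
        (B : {H : Subgroup (alternatingGroup α) // K T'.1 ≤ H}), T = T' → HEq A B → A.1 = B.1 := by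
      rintro T _ A B rfl h
      rw [eq_of_heq h]
    exact this _ _ _ _ h1 h2
  calc Nat.card {H : Subgroup (alternatingGroup α) // H.index = c}
      ≤ Nat.card (Σ T : {T : Finset α // k < T.card + t},
        {H : Subgroup (alternatingGroup α) // K T.1 ≤ H}) := Nat.card_le_card_of_injective F hF
    _ = ∑ T : {T : Finset α // k < T.card + t},
        Nat.card {H : Subgroup (alternatingGroup α) // K T.1 ≤ H} := Nat.card_sigma
    _ ≤ ∑ T : {T : Finset α // k < T.card + t}, 2 ^ k := Finset.sum_le_sum (fun T _ => (hTbound T).2)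
    _ = Fintype.card {T : Finset α // k < T.card + t} * 2 ^ k := by simp
    _ ≤ 2 ^ k * 2 ^ k := by
        apply Nat.mul_le_mul_right
        calc Fintype.card {T : Finset α // k < T.card + t} ≤ Fintype.card (Finset α) :=
              Fintype.card_subtype_le _
          _ = 2 ^ k := by simp [hkdef]
    _ = 4 ^ k := by rw [← mul_pow]; norm_num

theorem sub_bound (hk : 2 ^ 24 ≤ Fintype.card α) (c : ℕ) (hc : Fintype.card α ≤ c) :
    Nat.card {H : Subgroup (alternatingGroup α) // H.index = c} ≤ 4 ^ c := by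
  have hc0 : c ≠ 0 := by
    intro h; rw [h] at hc; have : (0:ℕ) < 2 ^ 24 := by positivity
    omega
  by_cases h : c < (Fintype.card α) ^ 4
  · exact le_trans (sub_bound_small hk c hc0 h) (Nat.pow_le_pow_right (by norm_num) hc)
  · push Not at h
    obtain ⟨h1, h2⟩ := card_all_le (α := α)
    calc Nat.card {H : Subgroup (alternatingGroup α) // H.index = c}
        ≤ Nat.card {H : Subgroup (alternatingGroup α) // (⊥ : Subgroup _) ≤ H} := by
          apply Nat.card_le_card_of_injective (fun H => ⟨H.1, bot_le⟩)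
          intro H H' h
          simp only [Subtype.mk.injEq] at h
          exact Subtype.ext h
      _ ≤ 2 ^ ((Fintype.card α) ^ 4) := h2
      _ ≤ 2 ^ c := Nat.pow_le_pow_right (by norm_num) h
      _ ≤ 4 ^ c := Nat.pow_le_pow_left (by norm_num) c

/-- a proper finite index subgroup of the alternating group has index at least the degree. -/
theorem index_ge (hk : 5 ≤ Fintype.card α) (D : Subgroup (alternatingGroup α))
    (hD : D ≠ ⊤) : Fintype.card α ≤ D.index := by
  by_contra hcon
  push Not at hcon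
  have : Nontrivial α := by
    rw [← Fintype.one_lt_card_iff_nontrivial]; omega
  have hs : IsSimpleGroup (alternatingGroup α) := alternatingGroup.isSimpleGroup (by simpa using hk)
  have hcore : D.normalCore = ⊥ := by
    rcases (Subgroup.normalCore_normal D).eq_bot_or_eq_top with h | h
    · exact h
    · exfalso; apply hD
      rw [eq_top_iff, ← h]; exact Subgroup.normalCore_le D
  -- the action on cosets is faithful
  have hker := Subgroup.normalCore_eq_ker D
  rw [hcore] at hker
  have hinj : Function.Injective (MulAction.toPermHom (alternatingGroup α)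
      (alternatingGroup α ⧸ D)) := (MonoidHom.ker_eq_bot_iff _).mp hker.symm
  have h1 := Nat.card_le_card_of_injective _ hinj
  rw [Nat.card_perm] at h1
  have h2 : 2 * Nat.card (alternatingGroup α) = (Fintype.card α).factorial := by
    rw [two_mul_nat_card_alternatingGroup, Nat.card_perm, Nat.card_eq_fintype_card]
  have h3 : (Nat.card (alternatingGroup α ⧸ D)) = D.index := rfl
  rw [h3] at h1
  have h4 : (D.index).factorial ≤ (Fintype.card α - 1).factorial :=
    Nat.factorial_le (by omega)
  have h5 : (Fintype.card α).factorial = Fintype.card α * (Fintype.card α - 1).factorial := by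
    rw [← Nat.mul_factorial_pred (by omega)]
  have h6 : 5 * (Fintype.card α - 1).factorial ≤ Fintype.card α * (Fintype.card α - 1).factorial :=
    Nat.mul_le_mul_right _ hk
  have h7 := Nat.factorial_pos (Fintype.card α - 1)
  omega

end Pool.Agent.Helper89.SubBound
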