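import Mathlib
import Pool.Agent.Helper89.Count

namespace Pool.Agent.Helper89.Upper

open Subgroup Pool.Agent.Helper89.Count

theorem relIndex_sup_of_normal {G : Type*} [Group G] (A H : Subgroup G) [hA : A.Normal] :
    H.relIndex (A ⊔ H) = H.relIndex A := by
  let f := quotientSubgroupOfEmbeddingOfLE H (le_sup_left : A ≤ A ⊔ H)
  have hf : Function.Surjective f := by
    intro q
    obtain ⟨⟨x, hx⟩, rfl⟩ := QuotientGroup.mk_surjective q
    have hx' := hx
    rw [Subgroup.mem_sup_of_normal_left] at hx'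
    obtain ⟨a, ha, h, hh, rfl⟩ := hx'
    refine ⟨QuotientGroup.mk ⟨a, ha⟩, ?_⟩
    show (QuotientGroup.mk (inclusion le_sup_left ⟨a, ha⟩) :
      (A ⊔ H : Subgroup G) ⧸ H.subgroupOf (A ⊔ H)) = _
    rw [QuotientGroup.eq, Subgroup.mem_subgroupOf]
    show a⁻¹ * (a * h) ∈ H
    rwa [inv_mul_cancel_left]
  exact (Nat.card_congr (Equiv.ofBijective f ⟨f.injective, hf⟩)).symm

theorem index_split {G : Type*} [Group G] (A H : Subgroup G) [hA : A.Normal] :
    (A ⊔ H).index * H.relIndex A = H.index := by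
  rw [← relIndex_sup_of_normal A H, mul_comm]
  exact Subgroup.relIndex_mul_index le_sup_right

theorem upper {G ι : Type*} [Group G] (T : Finset G) (hT : closure (T : Set G) = ⊤) (d : ℕ)
    (hd : T.card ≤ d) (S : ι → Subgroup G) (hS : ∀ i, (S i).Normal) (dg : ι → ℕ) (k₀ : ℕ)
    (hk₀ : ∀ i, k₀ ≤ dg i)
    (hsub : ∀ i c, dg i ≤ c → Nat.card {D : Subgroup (S i) // D.index = c} ≤ 4 ^ c)
    (hidx : ∀ i (D : Subgroup (S i)), D ≠ ⊤ → dg i ≤ D.index)
    (hfin : ∀ i, Finite (S i))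
    (m : ℕ → ℕ) (hcnt : ∀ c, {i | dg i ≤ c}.Finite ∧ {i | dg i ≤ c}.ncard ≤ (c + 1) * m c)
    (huniq : ∀ (H H' : Subgroup G) (n : ℕ), H.index = n → H'.index = n → n ≠ 0 →
      (∀ i, S i ≤ H) → (∀ i, S i ≤ H') → H = H')
    (n : ℕ) : {H : Subgroup G | H.index ≠ 0 ∧ H.index ≤ n}.Finite ∧
      {H : Subgroup G | H.index ≠ 0 ∧ H.index ≤ n}.ncard ≤ n +
      ∑ bc ∈ (Finset.Icc 1 n ×ˢ Finset.Icc 1 n).filter (fun bc => k₀ ≤ bc.2 ∧ bc.1 * bc.2 ≤ n),
        ((bc.2 + 1) * m bc.2) * ((bc.1.factorial) ^ d * 4 ^ bc.2 * bc.2 ^ (bc.1 * d)) := by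
  classical
  set P : Set (Subgroup G) := {H | H.index ≠ 0 ∧ H.index ≤ n} with hP
  have hPfin : P.Finite := by
    have : P ⊆ ⋃ b ∈ Finset.Icc 1 n, {H : Subgroup G | H.index = b} := by
      rintro H ⟨h1, h2⟩
      simp only [Set.mem_iUnion]
      exact ⟨H.index, by rw [Finset.mem_Icc]; omega, rfl⟩
    refine Set.Finite.subset ?_ this
    apply Set.Finite.biUnion (Finset.finite_toSet _)
    intro b hb
    have hb' : b ≠ 0 := by
      have := Finset.mem_Icc.mp (Finset.mem_coe.mp hb); omega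
    exact Set.finite_coe_iff.mp (index_card_le T hT b hb').1
  refine ⟨hPfin, ?_⟩
  set F := (Finset.Icc 1 n ×ˢ Finset.Icc 1 n).filter
    (fun bc : ℕ × ℕ => k₀ ≤ bc.2 ∧ bc.1 * bc.2 ≤ n) with hF
  let P0 : Set (Subgroup G) := {H | (H.index ≠ 0 ∧ H.index ≤ n) ∧ ∀ i, S i ≤ H}
  let P1 : ℕ × ℕ → ι → Set (Subgroup G) := fun bc i =>
    {H | (S i ⊔ H).index = bc.1 ∧ H.relIndex (S i) = bc.2}
  let I : ℕ → Finset ι := fun c => (hcnt c).1.toFinset
  have hP0fin : P0.Finite := hPfin.subset (fun H hH => hH.1)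
  have hP0 : P0.ncard ≤ n := by
    have h1 : P0.ncard ≤ ((Finset.Icc 1 n : Finset ℕ) : Set ℕ).ncard := by
      apply Set.ncard_le_ncard_of_injOn (fun H : Subgroup G => H.index)
      · intro H hH
        have := hH.1
        rw [Finset.mem_coe, Finset.mem_Icc]; omega
      · intro H hH H' hH' h
        exact huniq H H' H'.index h rfl hH'.1.1 hH.2 hH'.2
    rwa [Set.ncard_coe_finset, Nat.card_Icc, Nat.add_sub_cancel] at h1
  have hP1 : ∀ bc ∈ F, ∀ i ∈ I bc.2, (P1 bc i).Finite ∧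
      (P1 bc i).ncard ≤ (bc.1.factorial) ^ d * 4 ^ bc.2 * bc.2 ^ (bc.1 * d) := by
    rintro ⟨b, c⟩ hbc i hi
    rw [hF, Finset.mem_filter, Finset.mem_product, Finset.mem_Icc, Finset.mem_Icc] at hbc
    dsimp only at hbc hi ⊢
    have hi' : dg i ≤ c := (hcnt c).1.mem_toFinset.mp hi
    have := hS i
    have := hfin i
    obtain ⟨h1, h2⟩ := card_ext_le T hT (S i) b c (by omega) (by omega)
    refine ⟨Set.finite_coe_iff.mp h1, ?_⟩
    refine (h2.trans ?_ : _)
    have hb1 : 1 ≤ b.factorial := Nat.factorial_pos b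
    have hc1 : 1 ≤ c := hbc.1.2.1
    apply Nat.mul_le_mul
    · apply Nat.mul_le_mul
      · exact Nat.pow_le_pow_right hb1 hd
      · exact hsub i c hi'
    · exact Nat.pow_le_pow_right hc1 (Nat.mul_le_mul_left _ hd)
  have hsubset : P ⊆ P0 ∪ ⋃ bc ∈ F, ⋃ i ∈ I bc.2, P1 bc i := by
    intro H hH
    by_cases h0 : ∀ i, S i ≤ H
    · exact Or.inl ⟨hH, h0⟩
    · right
      push Not at h0
      obtain ⟨i, hi⟩ := h0
      have := hS i
      have hsplit := index_split (S i) H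
      have h1 : dg i ≤ H.relIndex (S i) := by
        apply hidx i (H.subgroupOf (S i))
        intro htop
        exact hi (subgroupOf_eq_top.mp htop)
      have hb0 : (S i ⊔ H).index ≠ 0 := by
        intro h; rw [h, zero_mul] at hsplit; exact hH.1 hsplit.symm
      have hc0 : H.relIndex (S i) ≠ 0 := by
        intro h; rw [h, mul_zero] at hsplit; exact hH.1 hsplit.symm
      have hn := hH.2
      rw [← hsplit] at hn
      simp only [Set.mem_iUnion]
      refine ⟨((S i ⊔ H).index, H.relIndex (S i)), ?_, i, ?_, rfl, rfl⟩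
      · rw [hF, Finset.mem_filter, Finset.mem_product, Finset.mem_Icc, Finset.mem_Icc]
        dsimp only
        refine ⟨⟨⟨by omega, ?_⟩, by omega, ?_⟩, (hk₀ i).trans h1, hn⟩
        · exact (Nat.le_mul_of_pos_right _ (by omega)).trans hn
        · exact (Nat.le_mul_of_pos_left _ (by omega)).trans hn
      · exact (hcnt _).1.mem_toFinset.mpr h1
  have hUfin : (⋃ bc ∈ F, ⋃ i ∈ I bc.2, P1 bc i).Finite := by
    apply Set.Finite.biUnion (Finset.finite_toSet _)
    intro bc hbc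
    apply Set.Finite.biUnion (Finset.finite_toSet _)
    intro i hi
    exact (hP1 bc hbc i hi).1
  calc P.ncard ≤ (P0 ∪ ⋃ bc ∈ F, ⋃ i ∈ I bc.2, P1 bc i).ncard :=
        Set.ncard_le_ncard hsubset (hP0fin.union hUfin)
    _ ≤ P0.ncard + (⋃ bc ∈ F, ⋃ i ∈ I bc.2, P1 bc i).ncard := Set.ncard_union_le _ _
    _ ≤ n + ∑ bc ∈ F, (⋃ i ∈ I bc.2, P1 bc i).ncard :=
        Nat.add_le_add hP0 (Finset.set_ncard_biUnion_le _ _)
    _ ≤ _ := by
        apply Nat.add_le_add_left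
        apply Finset.sum_le_sum
        intro bc hbc
        calc (⋃ i ∈ I bc.2, P1 bc i).ncard ≤ ∑ i ∈ I bc.2, (P1 bc i).ncard :=
              Finset.set_ncard_biUnion_le _ _
          _ ≤ ∑ i ∈ I bc.2, ((bc.1.factorial) ^ d * 4 ^ bc.2 * bc.2 ^ (bc.1 * d)) :=
              Finset.sum_le_sum (fun i hi => (hP1 bc hbc i hi).2)
          _ = (I bc.2).card * ((bc.1.factorial) ^ d * 4 ^ bc.2 * bc.2 ^ (bc.1 * d)) := by
              rw [Finset.sum_const, smul_eq_mul]
          _ ≤ _ := by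
              apply Nat.mul_le_mul_right
              have := (hcnt bc.2).2
              rwa [Set.ncard_eq_toFinset_card _ (hcnt bc.2).1] at this

end Pool.Agent.Helper89.Upper
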