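import Mathlib
import Pool.Agent.Helper89.Case0
import Pool.Agent.Helper89.SubBound
import Pool.Agent.Helper89.Upper
import Pool.Agent.Helper89.Asym

namespace Pool.Agent.Helper89.FamDef

open Subgroup Equiv Pool.Agent.Helper89.AltSub Pool.Agent.Helper89.Gates Pool.Agent.Helper89.Gen
  Pool.Agent.Helper89.Gamma Pool.Agent.Helper89.Case0 Pool.Agent.Helper89.SubBound

section abstract_part

variable {G H : Type*} [Group G] [Group H]

theorem card_index_congr (e : G ≃* H) (c : ℕ) :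
    Nat.card {D : Subgroup G // D.index = c} = Nat.card {D : Subgroup H // D.index = c} := by
  apply Nat.card_congr
  refine (e.mapSubgroup.toEquiv).subtypeEquiv ?_
  intro D
  show D.index = c ↔ (D.map e.toMonoidHom).index = c
  have : (D.map e.toMonoidHom).index = D.index := Subgroup.index_map_equiv D e
  rw [this]

theorem index_congr (e : G ≃* H) (k : ℕ) (h : ∀ D : Subgroup H, D ≠ ⊤ → k ≤ D.index)
    (D : Subgroup G) (hD : D ≠ ⊤) : k ≤ D.index := by
  have h1 : (D.map e.toMonoidHom).index = D.index := Subgroup.index_map_equiv D e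
  rw [← h1]
  apply h
  intro htop
  apply hD
  rw [eq_top_iff]
  intro x _
  have : e x ∈ D.map e.toMonoidHom := by rw [htop]; trivial
  obtain ⟨y, hy, hxy⟩ := this
  have : y = x := e.injective hxy
  rwa [← this]

theorem equiv_of (ρ : G →* H) (S : Subgroup G) (hinj : ∀ s ∈ S, ∀ t ∈ S, ρ s = ρ t → s = t)
    (hsurj : ∀ h, ∃ s ∈ S, ρ s = h) : Nonempty (S ≃* H) := by
  refine ⟨MulEquiv.ofBijective (ρ.comp S.subtype) ⟨?_, ?_⟩⟩
  · intro s t hst
    exact Subtype.ext (hinj s s.2 t t.2 hst)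
  · intro h
    obtain ⟨s, hs, hsh⟩ := hsurj h
    exact ⟨⟨s, hs⟩, hsh⟩

theorem closure_finset_of (T : Finset G) (hT : ∀ K : Subgroup G, (∀ t ∈ T, t ∈ K) → K = ⊤) :
    closure (T : Set G) = ⊤ :=
  hT _ (fun _ ht => subset_closure ht)

end abstract_part

variable {M : Fam}

theorem card_X' (p : ℕ × ℕ) : Fintype.card (X p.1 p.2) = deg p := card_X _ _

theorem S_equiv {L₀ : ℕ} (hM : ∀ p, (M p).Nonempty → cond L₀ p) (i : Idx M) :
    Nonempty (S i ≃* alternatingGroup (X i.1.1 i.1.2)) := by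
  classical
  obtain ⟨ρ, hρ, -⟩ := exists_eval i
  apply equiv_of ρ (S i)
  · intro s hs t ht hst
    have hst' : s.1 i = t.1 i := (hρ s).symm.trans (hst.trans (hρ t))
    apply Subtype.ext
    funext k
    by_cases hk : k = i
    · subst hk; exact hst'
    · exact (hs k hk).trans (ht k hk).symm
  · intro g
    have h1 : (Pi.mulSingle i g : Amb M) i = g := by rw [Pi.mulSingle_eq_same]
    exact ⟨⟨Pi.mulSingle i g, single_mem hM i g⟩, fun k hk => Pi.mulSingle_eq_of_ne hk _,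
      (hρ _).trans h1⟩

theorem cond_card_ge {L₀ : ℕ} (hM : ∀ p, (M p).Nonempty → cond L₀ p) (i : Idx M) :
    5 ^ (2 * L₀ + 3) ≤ deg i.1 := by
  have h1 := hM i.1 ⟨i.2.1, i.2.2⟩
  refine le_trans ?_ (cond_deg_le h1).1
  apply Nat.pow_le_pow_right (by norm_num)
  have := h1.1
  omega

theorem hsub {L₀ : ℕ} (hM : ∀ p, (M p).Nonempty → cond L₀ p) (hL : 2 ^ 24 ≤ 5 ^ (2 * L₀ + 3))
    (i : Idx M) (c : ℕ) (hc : deg i.1 ≤ c) :
    Nat.card {D : Subgroup (S i) // D.index = c} ≤ 4 ^ c := by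
  obtain ⟨e⟩ := S_equiv hM i
  rw [card_index_congr e c]
  have h1 := cond_card_ge hM i
  exact sub_bound (by rw [card_X']; exact hL.trans h1) c (by rw [card_X']; exact hc)

theorem hidx {L₀ : ℕ} (hM : ∀ p, (M p).Nonempty → cond L₀ p)
    (i : Idx M) (D : Subgroup (S i)) (hD : D ≠ ⊤) : deg i.1 ≤ D.index := by
  obtain ⟨e⟩ := S_equiv hM i
  apply index_congr e _ _ D hD
  intro D' hD'
  have h1 := natcard_X_ge i.1.1 i.1.2
  rw [Nat.card_eq_fintype_card] at h1
  have h2 := index_ge (α := X i.1.1 i.1.2) (by omega) D' hD'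
  rwa [card_X'] at h2

theorem S_finite {L₀ : ℕ} (hM : ∀ p, (M p).Nonempty → cond L₀ p) (i : Idx M) : Finite (S i) := by
  obtain ⟨e⟩ := S_equiv hM i
  exact Finite.of_equiv _ e.symm.toEquiv

theorem hcnt {L₀ : ℕ} (hM : ∀ p, (M p).Nonempty → cond L₀ p) (m : ℕ → ℕ) (hm : Monotone m)
    (hMm : ∀ p, (M p).card ≤ m (deg p)) (c : ℕ) :
    {i : Idx M | deg i.1 ≤ c}.Finite ∧ {i : Idx M | deg i.1 ≤ c}.ncard ≤ (c + 1) * m c := by
  classical
  have hfin : ∀ c, {i : Idx M | deg i.1 ≤ c}.Finite := by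
    intro c
    apply (idx_finite hM c).subset
    intro i hi
    have hi' : deg i.1 ≤ c := hi
    have h1 : i.1.1 < 5 ^ (i.1.1 + 2) :=
      lt_of_lt_of_le (Nat.lt_pow_self (by norm_num)) (Nat.pow_le_pow_right (by norm_num) (by omega))
    have h2 : 5 ^ (i.1.1 + 2) ≤ deg i.1 := Nat.le_mul_of_pos_right _ (by omega)
    show i.1.1 ≤ c
    omega
  refine ⟨hfin c, ?_⟩
  have hsub : {i : Idx M | deg i.1 ≤ c} ⊆ ⋃ k ∈ Finset.range (c + 1), {i : Idx M | deg i.1 = k} := by
    intro i hi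
    have hi' : deg i.1 ≤ c := hi
    simp only [Set.mem_iUnion]
    exact ⟨deg i.1, by rw [Finset.mem_range]; omega, rfl⟩
  have hfin2 : ∀ k, {i : Idx M | deg i.1 = k}.Finite := fun k =>
    (hfin k).subset (fun i hi => le_of_eq hi)
  have hone : ∀ k ∈ Finset.range (c + 1), {i : Idx M | deg i.1 = k}.ncard ≤ m c := by
    intro k hk
    have hk' : k ≤ c := by have := Finset.mem_range.mp hk; omega
    rcases Set.eq_empty_or_nonempty {i : Idx M | deg i.1 = k} with h0 | ⟨i₀, hi₀⟩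
    · rw [h0, Set.ncard_empty]; exact Nat.zero_le _
    · have hi₀' : deg i₀.1 = k := hi₀
      have h1 : {i : Idx M | deg i.1 = k} ⊆
          Set.range (fun x : {x // x ∈ M i₀.1} => (⟨i₀.1, x⟩ : Idx M)) := by
        rintro ⟨p, x⟩ hi
        have hi' : deg p = k := hi
        have hp : p = i₀.1 := deg_inj (hM p ⟨x.1, x.2⟩) (hM i₀.1 ⟨i₀.2.1, i₀.2.2⟩)
          (hi'.trans hi₀'.symm)
        subst hp
        exact ⟨x, rfl⟩
      calc _ ≤ (Set.range (fun x : {x // x ∈ M i₀.1} => (⟨i₀.1, x⟩ : Idx M))).ncard :=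
            Set.ncard_le_ncard h1 (Set.finite_range _)
        _ ≤ (M i₀.1).card := by
            rw [← Set.image_univ]
            refine (Set.ncard_image_le (Set.toFinite _)).trans ?_
            rw [Set.ncard_univ, Nat.card_eq_fintype_card, Fintype.card_coe]
        _ ≤ m (deg i₀.1) := hMm _
        _ ≤ m c := hm (by rw [hi₀']; exact hk')
  calc _ ≤ (⋃ k ∈ Finset.range (c + 1), {i : Idx M | deg i.1 = k}).ncard :=
        Set.ncard_le_ncard hsub (Set.Finite.biUnion (Finset.finite_toSet _) (fun k _ => hfin2 k))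
    _ ≤ ∑ k ∈ Finset.range (c + 1), {i : Idx M | deg i.1 = k}.ncard :=
        Finset.set_ncard_biUnion_le _ _
    _ ≤ ∑ _k ∈ Finset.range (c + 1), m c := Finset.sum_le_sum hone
    _ = _ := by rw [Finset.sum_const, Finset.card_range, smul_eq_mul]

end Pool.Agent.Helper89.FamDef
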