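import Mathlib
import Pool.Agent.Helper89.FamDef

namespace Pool.Agent.Helper89.Lower

open Subgroup Equiv Pool.Agent.Helper89.AltSub Pool.Agent.Helper89.Gates Pool.Agent.Helper89.Gen
  Pool.Agent.Helper89.Gamma Pool.Agent.Helper89.Case0 Pool.Agent.Helper89.SubBound
  Pool.Agent.Helper89.FamDef

theorem lower_abs {G ι : Type*} [Group G] (I : Finset ι) (K : ι → Subgroup G) (k n : ℕ)
    (hk0 : k ≠ 0) (hkn : k ≤ n) (hK : ∀ i ∈ I, (K i).index = k)
    (hinj : ∀ i ∈ I, ∀ j ∈ I, K i = K j → i = j)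
    (hfin : {H : Subgroup G | H.index ≠ 0 ∧ H.index ≤ n}.Finite) :
    I.card ≤ {H : Subgroup G | H.index ≠ 0 ∧ H.index ≤ n}.ncard := by
  classical
  rw [← Set.ncard_coe_finset]
  apply Set.ncard_le_ncard_of_injOn K _ _ hfin
  · intro i hi
    have := hK i (Finset.mem_coe.mp hi)
    exact ⟨by rw [this]; exact hk0, by rw [this]; exact hkn⟩
  · intro i hi j hj h
    exact hinj i (Finset.mem_coe.mp hi) j (Finset.mem_coe.mp hj) h

theorem exists_stab (L q : ℕ) : ∃ D : Subgroup (alternatingGroup (X L q)),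
    D.index = Fintype.card (X L q) ∧ D ≠ ⊤ := by
  have h3 : 3 ≤ Nat.card (X L q) := by have := natcard_X_ge L q; omega
  have : MulAction.IsPretransitive (alternatingGroup (X L q)) (X L q) :=
    alternatingGroup.isPretransitive_of_three_le_card (X L q) h3
  let x : X L q := (0, 0, 0)
  have h1 : (MulAction.stabilizer (alternatingGroup (X L q)) x).index = Fintype.card (X L q) := by
    rw [MulAction.index_stabilizer_of_transitive, Nat.card_eq_fintype_card]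
  refine ⟨_, h1, ?_⟩
  intro htop
  rw [htop, Subgroup.index_top, ← Nat.card_eq_fintype_card] at h1
  omega

theorem comap_sep {G A B : Type*} [Group G] [Group A] [Group B] (ρ : G →* A) (ρ' : G →* B)
    (D : Subgroup A) (D' : Subgroup B) (hD : D ≠ ⊤) (hsep : ∀ g : A, ∃ γ : G, ρ γ = g ∧ ρ' γ = 1) :
    D.comap ρ ≠ D'.comap ρ' := by
  intro h
  apply hD
  rw [eq_top_iff]
  intro g _
  obtain ⟨γ, h1, h2⟩ := hsep g
  have h3 : γ ∈ D'.comap ρ' := by
    show ρ' γ ∈ D'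
    rw [h2]; exact D'.one_mem
  rw [← h] at h3
  have h4 : ρ γ ∈ D := h3
  rwa [h1] at h4

theorem lower_abs2 {G ι : Type*} [Group G] (I : Finset ι) (B : ι → Type*) [∀ i, Group (B i)]
    (ρ : ∀ i, G →* B i) (hρs : ∀ i, Function.Surjective (ρ i)) (D : ∀ i, Subgroup (B i)) (k n : ℕ)
    (hk0 : k ≠ 0) (hkn : k ≤ n) (hD : ∀ i ∈ I, (D i).index = k) (hDt : ∀ i ∈ I, D i ≠ ⊤)
    (hsep : ∀ i j, i ≠ j → ∀ g : B i, ∃ γ : G, ρ i γ = g ∧ ρ j γ = 1)
    (hfin : {H : Subgroup G | H.index ≠ 0 ∧ H.index ≤ n}.Finite) :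
    I.card ≤ {H : Subgroup G | H.index ≠ 0 ∧ H.index ≤ n}.ncard := by
  apply lower_abs I (fun i => (D i).comap (ρ i)) k n hk0 hkn ?_ ?_ hfin
  · intro i hi
    exact (Subgroup.index_comap_of_surjective _ (hρs i)).trans (hD i hi)
  · intro i hi j _ hij
    by_contra hne
    exact comap_sep (ρ i) (ρ j) (D i) (D j) (hDt i hi) (hsep i j hne) hij

variable {M : Fam}

theorem sep_gam {L₀ : ℕ} (hM : ∀ p, (M p).Nonempty → Gamma.cond L₀ p) (i j : Idx M) (hne : i ≠ j)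
    (g : alternatingGroup (X i.1.1 i.1.2)) : ∃ γ : Gam M, γ.1 i = g ∧ γ.1 j = 1 := by
  obtain ⟨γ, hγ, h1, h2⟩ := separate hM i j hne g
  exact ⟨⟨γ, hγ⟩, h1, h2⟩

theorem sep_rho {L₀ : ℕ} (hM : ∀ p, (M p).Nonempty → Gamma.cond L₀ p)
    (ρ : ∀ i : Idx M, Gam M →* alternatingGroup (X i.1.1 i.1.2))
    (hρ : ∀ (i : Idx M) (γ : Gam M), ρ i γ = γ.1 i) (i j : Idx M) (hne : i ≠ j)
    (g : alternatingGroup (X i.1.1 i.1.2)) : ∃ γ : Gam M, ρ i γ = g ∧ ρ j γ = 1 := by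
  have h := sep_gam hM i j hne g
  refine h.imp ?_
  intro γ h2
  exact ⟨(hρ i γ).trans h2.1, (hρ j γ).trans h2.2⟩

theorem lower {L₀ : ℕ} (hM : ∀ p, (M p).Nonempty → Gamma.cond L₀ p) (p : ℕ × ℕ) (n : ℕ)
    (hpn : deg p ≤ n) (hfin : {H : Subgroup (Gam M) | H.index ≠ 0 ∧ H.index ≤ n}.Finite) :
    (M p).card ≤ {H : Subgroup (Gam M) | H.index ≠ 0 ∧ H.index ≤ n}.ncard := by
  choose ρ hρ hρs using fun i : Idx M => exists_eval i
  choose D hD1 hD2 using fun L q : ℕ => exists_stab L q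
  let I : Finset (Idx M) := (M p).attach.map ⟨fun x => ⟨p, x⟩, fun x y h => by
    have := eq_of_heq (Sigma.mk.inj h).2
    exact this⟩
  have hI : I.card = (M p).card := by rw [Finset.card_map, Finset.card_attach]
  rw [← hI]
  have hIp : ∀ i ∈ I, i.1 = p := by
    intro i hi
    rw [Finset.mem_map] at hi
    obtain ⟨x, -, rfl⟩ := hi
    rfl
  have hd0 : deg p ≠ 0 := by
    have h := natcard_X_ge p.1 p.2
    rw [Nat.card_eq_fintype_card, card_X'] at h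
    omega
  have hDI : ∀ i ∈ I, (D i.1.1 i.1.2).index = deg p := by
    intro i hi
    rw [hD1, card_X', hIp i hi]
  have hsep : ∀ i j : Idx M, i ≠ j → ∀ g : alternatingGroup (X i.1.1 i.1.2),
      ∃ γ : Gam M, ρ i γ = g ∧ ρ j γ = 1 := by
    exact sep_rho hM ρ hρ
  exact lower_abs2 I (fun i : Idx M => alternatingGroup (X i.1.1 i.1.2)) ρ hρs
    (fun i => D i.1.1 i.1.2) (deg p) n hd0 hpn hDI (fun i _ => hD2 _ _) hsep hfin

theorem exists_level (L₀ n : ℕ) (hn : 5 ^ (2 * L₀ + 3) ≤ n) :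
    ∃ p : ℕ × ℕ, Gamma.cond L₀ p ∧ deg p ≤ n ∧ (n - deg p) ^ 2 ≤ 5 * n := by
  have hn0 : n ≠ 0 := by
    have : 0 < 5 ^ (2 * L₀ + 3) := by positivity
    omega
  set l := Nat.log 5 n with hl
  have h1 : 5 ^ l ≤ n := Nat.pow_log_le_self 5 hn0
  have h2 : n < 5 ^ (l + 1) := Nat.lt_pow_succ_log_self (by norm_num) n
  have h3 : 2 * L₀ + 3 ≤ l := (Nat.le_log_iff_pow_le (by norm_num) hn0).mpr hn
  set L := (l - 3) / 2 with hL
  have h4 : 2 * L + 3 ≤ l := by omega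
  have h5 : l + 1 ≤ 2 * L + 5 := by omega
  have h6 : 5 ^ (2 * L + 3) ≤ n := (Nat.pow_le_pow_right (by norm_num) h4).trans h1
  have h7 : n < 5 ^ (2 * L + 5) := lt_of_lt_of_le h2 (Nat.pow_le_pow_right (by norm_num) h5)
  have hpos : 0 < 5 ^ (L + 2) := by positivity
  have e1 : 5 ^ (L + 1) * 5 ^ (L + 2) = 5 ^ (2 * L + 3) := by rw [← pow_add]; congr 1; ring
  have e2 : 5 ^ (L + 3) * 5 ^ (L + 2) = 5 ^ (2 * L + 5) := by rw [← pow_add]; congr 1; ring
  have e3 : (5 ^ (L + 2)) ^ 2 = 5 * 5 ^ (2 * L + 3) := by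
    rw [← pow_mul, ← pow_succ']; congr 1; ring
  have h8 : 5 ^ (L + 1) ≤ n / 5 ^ (L + 2) := (Nat.le_div_iff_mul_le hpos).mpr (by rw [e1]; exact h6)
  have h9 : n / 5 ^ (L + 2) < 5 ^ (L + 3) := (Nat.div_lt_iff_lt_mul hpos).mpr (by rw [e2]; exact h7)
  have h10 : 0 < 5 ^ (L + 1) := by positivity
  refine ⟨(L, n / 5 ^ (L + 2) - 1), ⟨by dsimp only; omega, by dsimp only; omega,
    by dsimp only; omega⟩, ?_⟩
  have hdeg : deg (L, n / 5 ^ (L + 2) - 1) = 5 ^ (L + 2) * (n / 5 ^ (L + 2)) := by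
    show 5 ^ (L + 2) * (n / 5 ^ (L + 2) - 1 + 1) = _
    rw [Nat.sub_add_cancel (by omega)]
  rw [hdeg]
  have h11 := Nat.div_add_mod n (5 ^ (L + 2))
  have h12 := Nat.mod_lt n hpos
  refine ⟨by omega, ?_⟩
  have h13 : n - 5 ^ (L + 2) * (n / 5 ^ (L + 2)) ≤ 5 ^ (L + 2) := by omega
  calc _ ≤ (5 ^ (L + 2)) ^ 2 := Nat.pow_le_pow_left h13 2
    _ = 5 * 5 ^ (2 * L + 3) := e3
    _ ≤ _ := by omega

/-- marking count -/
noncomputable def mk (α : ℝ) (c : ℕ) : ℕ := ⌊((c.factorial : ℕ) : ℝ) ^ α⌋₊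

theorem mk_mono (α : ℝ) (hα : 0 < α) : Monotone (mk α) := by
  intro a b hab
  apply Nat.floor_le_floor
  apply Real.rpow_le_rpow (by positivity) _ hα.le
  exact_mod_cast Nat.factorial_le hab

theorem mk_le (α : ℝ) (c : ℕ) : (mk α c : ℝ) ≤ ((c.factorial : ℕ) : ℝ) ^ α :=
  Nat.floor_le (by positivity)

theorem mk_ge (α : ℝ) (hα : 0 < α) (c : ℕ) : ((c.factorial : ℕ) : ℝ) ^ α / 2 ≤ mk α c := by
  have h1 : (1 : ℝ) ≤ ((c.factorial : ℕ) : ℝ) ^ α := by
    apply Real.one_le_rpow _ hα.le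
    exact_mod_cast Nat.factorial_pos c
  have h2 := Nat.lt_floor_add_one (((c.factorial : ℕ) : ℝ) ^ α)
  have h3 : (1 : ℝ) ≤ (mk α c : ℝ) := by
    have : 1 ≤ mk α c := Nat.one_le_floor_iff _ |>.mpr h1
    exact_mod_cast this
  have h4 : ((c.factorial : ℕ) : ℝ) ^ α < (mk α c : ℝ) + 1 := h2
  linarith

theorem mk_le_card (α : ℝ) (hα' : α ≤ 3 / 4) (L q : ℕ) :
    mk α (Fintype.card (X L q)) ≤ Nat.card (alternatingGroup (X L q)) := by
  have h0 := natcard_X_ge L q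
  rw [Nat.card_eq_fintype_card] at h0
  have : Nontrivial (X L q) := by
    rw [← Fintype.one_lt_card_iff_nontrivial]; omega
  have h1 := two_mul_nat_card_alternatingGroup (α := X L q)
  rw [Nat.card_perm, Nat.card_eq_fintype_card (α := X L q)] at h1
  set k := Fintype.card (X L q) with hk
  have h2 : 16 ≤ k.factorial := by
    calc 16 ≤ (4 : ℕ).factorial := by decide
      _ ≤ _ := Nat.factorial_le (by omega)
  have h3 : (16 : ℝ) ≤ ((k.factorial : ℕ) : ℝ) := by exact_mod_cast h2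
  set F : ℝ := ((k.factorial : ℕ) : ℝ) with hF
  have h4 : F ^ α ≤ F ^ (3 / 4 : ℝ) := Real.rpow_le_rpow_of_exponent_le (by linarith) hα'
  have h5 : (2 : ℝ) ≤ F ^ (1 / 4 : ℝ) := by
    have : (16 : ℝ) ^ (1 / 4 : ℝ) = 2 := by
      rw [show (16 : ℝ) = 2 ^ (4 : ℝ) by norm_num, ← Real.rpow_mul (by norm_num)]
      norm_num
    rw [← this]
    exact Real.rpow_le_rpow (by norm_num) h3 (by norm_num)
  have h6 : 2 * F ^ α ≤ F := by
    calc 2 * F ^ α ≤ F ^ (1 / 4 : ℝ) * F ^ (3 / 4 : ℝ) := by gcongr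
      _ = F := by
        rw [← Real.rpow_add (by linarith)]
        norm_num
  have h7 : (2 * mk α k : ℝ) ≤ F := by
    have := mk_le α k
    linarith
  have h8 : 2 * mk α k ≤ k.factorial := by
    rw [hF] at h7
    exact_mod_cast h7
  omega

theorem exists_family (α : ℝ) (hα' : α ≤ 3 / 4) (L₀ : ℕ) :
    ∃ M : Fam, (∀ p, (M p).Nonempty → Gamma.cond L₀ p) ∧ (∀ p, (M p).card ≤ mk α (deg p)) ∧
      (∀ p, Gamma.cond L₀ p → (M p).card = mk α (deg p)) := by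
  classical
  have h : ∀ p : ℕ × ℕ, ∃ t : Finset (alternatingGroup (X p.1 p.2)),
      (t.Nonempty → Gamma.cond L₀ p) ∧ t.card ≤ mk α (deg p) ∧ (Gamma.cond L₀ p → t.card = mk α (deg p)) := by
    intro p
    by_cases hp : Gamma.cond L₀ p
    · have h1 := mk_le_card α hα' p.1 p.2
      rw [card_X', Nat.card_eq_fintype_card] at h1
      obtain ⟨t, -, ht⟩ := Finset.exists_subset_card_eq
        (s := (Finset.univ : Finset (alternatingGroup (X p.1 p.2)))) h1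
      exact ⟨t, fun _ => hp, ht.le, fun _ => ht⟩
    · exact ⟨∅, fun h => absurd h (by simp), by simp, fun h => absurd h hp⟩
  choose M h1 h2 h3 using h
  exact ⟨M, h1, h2, h3⟩

end Pool.Agent.Helper89.Lower
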