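import Mathlib
import Pool.Agent.Helper89.Lower

namespace Pool.Agent.Helper89.Final

open Subgroup Equiv Pool.Agent.Helper89.AltSub Pool.Agent.Helper89.Gates Pool.Agent.Helper89.Gen
  Pool.Agent.Helper89.Gamma Pool.Agent.Helper89.Case0 Pool.Agent.Helper89.SubBound
  Pool.Agent.Helper89.FamDef Pool.Agent.Helper89.Lower

variable {M : Fam}

/-- the number of generators -/
noncomputable def d₀ : ℕ := Nat.card A + Nat.card A + 2

theorem exists_gens (M : Fam) : ∃ T : Finset (Gam M), closure (T : Set (Gam M)) = ⊤ ∧ T.card ≤ d₀ := by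
  classical
  let T : Finset (Gam M) := (Finset.univ.image (ahatΓ (M := M))) ∪
    (Finset.univ.image (locΓ (M := M))) ∪ {DΓ, xΓ}
  refine ⟨T, ?_, ?_⟩
  · apply closure_finset_of
    intro K hK
    apply gam_le_of
    · exact fun a => hK _ (Finset.mem_union_left _ (Finset.mem_union_left _
        (Finset.mem_image_of_mem _ (Finset.mem_univ a))))
    · exact fun a => hK _ (Finset.mem_union_left _ (Finset.mem_union_right _
        (Finset.mem_image_of_mem _ (Finset.mem_univ a))))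
    · exact hK _ (Finset.mem_union_right _ (Finset.mem_insert_self _ _))
    · exact hK _ (Finset.mem_union_right _ (Finset.mem_insert_of_mem (Finset.mem_singleton_self _)))
  · have h1 : (Finset.univ.image (ahatΓ (M := M))).card ≤ Nat.card A := by
      rw [Nat.card_eq_fintype_card]; exact Finset.card_image_le
    have h2 : (Finset.univ.image (locΓ (M := M))).card ≤ Nat.card A := by
      rw [Nat.card_eq_fintype_card]; exact Finset.card_image_le
    have h3 : ({DΓ, xΓ} : Finset (Gam M)).card ≤ 2 := Finset.card_le_two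
    calc T.card ≤ ((Finset.univ.image (ahatΓ (M := M))) ∪ (Finset.univ.image (locΓ (M := M)))).card
          + ({DΓ, xΓ} : Finset (Gam M)).card := Finset.card_union_le _ _
      _ ≤ ((Finset.univ.image (ahatΓ (M := M))).card + (Finset.univ.image (locΓ (M := M))).card) +
          2 := Nat.add_le_add (Finset.card_union_le _ _) h3
      _ ≤ _ := Nat.add_le_add_right (Nat.add_le_add h1 h2) 2

theorem res_finite (M : Fam) (g : Gam M) (hg : g ≠ 1) :
    ∃ H : Subgroup (Gam M), H.FiniteIndex ∧ g ∉ H := by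
  have h1 : ∃ i : Idx M, g.1 i ≠ 1 := by
    by_contra hcon
    push Not at hcon
    exact hg (Subtype.ext (funext hcon))
  obtain ⟨i, hi⟩ := h1
  obtain ⟨ρ, hρ, -⟩ := exists_eval i
  refine ⟨ρ.ker, Subgroup.finiteIndex_ker ρ, ?_⟩
  intro h
  exact hi ((hρ g).symm.trans h)

theorem main (α : ℝ) (hα : 0 < α) (hα' : α ≤ 3 / 4) :
    ∃ (G : Type) (_ : Group G), Group.FG G ∧
      (∀ g : G, g ≠ 1 → ∃ H : Subgroup G, H.FiniteIndex ∧ g ∉ H) ∧
        Filter.Tendsto
          (fun n : ℕ =>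
            Real.log ((Set.ncard {H : Subgroup G | H.index ≠ 0 ∧ H.index ≤ n} : ℕ) : ℝ) /
              Real.log ((Nat.factorial n : ℕ) : ℝ))
          Filter.atTop (nhds α) := by
  obtain ⟨L₀, hL1, hL2⟩ : ∃ L₀ : ℕ, 2 ^ 24 ≤ 5 ^ (2 * L₀ + 3) ∧
      (4 * d₀ : ℝ) ≤ α * ((5 ^ (2 * L₀ + 3) : ℕ) : ℝ) := by
    obtain ⟨N, hN⟩ := exists_nat_ge (4 * d₀ / α : ℝ)
    refine ⟨N + 2 ^ 24, ?_, ?_⟩
    · have h1 : 2 * (N + 2 ^ 24) + 3 < 5 ^ (2 * (N + 2 ^ 24) + 3) := Nat.lt_pow_self (by norm_num)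
      refine le_trans ?_ h1.le
      omega
    · have h1 : 2 * (N + 2 ^ 24) + 3 < 5 ^ (2 * (N + 2 ^ 24) + 3) := Nat.lt_pow_self (by norm_num)
      have h2 : N ≤ 5 ^ (2 * (N + 2 ^ 24) + 3) := le_trans (by omega) h1.le
      have h3 : (N : ℝ) ≤ ((5 ^ (2 * (N + 2 ^ 24) + 3) : ℕ) : ℝ) := Nat.cast_le.mpr h2
      rw [div_le_iff₀ hα] at hN
      calc (4 * d₀ : ℝ) ≤ N * α := hN
        _ ≤ ((5 ^ (2 * (N + 2 ^ 24) + 3) : ℕ) : ℝ) * α := mul_le_mul_of_nonneg_right h3 hα.le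
        _ = _ := mul_comm _ _
  obtain ⟨M, hM, hMm, hMeq⟩ := exists_family α hα' L₀
  obtain ⟨T, hT, hTd⟩ := exists_gens M
  have hup := Upper.upper T hT d₀ hTd (S (M := M)) S_normal (fun i => deg i.1) (5 ^ (2 * L₀ + 3))
    (cond_card_ge hM) (hsub hM hL1) (hidx hM) (S_finite hM) (mk α)
    (hcnt hM (mk α) (mk_mono α hα) hMm)
    (fun H H' n h1 h2 h3 h4 h5 => case0_unique hM H H' n h1 h2 h3 h4 h5)
  refine ⟨Gam M, inferInstance, ⟨⟨T, hT⟩⟩, res_finite M, ?_⟩
  apply Asym.limit α hα d₀ (fun n => {H : Subgroup (Gam M) | H.index ≠ 0 ∧ H.index ≤ n}.ncard)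
  · intro n
    refine le_trans (Nat.cast_le.mpr (hup n).2) ?_
    exact Num.sum_bound α hα d₀ (5 ^ (2 * L₀ + 3)) n hL2 (Nat.one_le_pow _ _ (by norm_num))
      (mk α) (mk_le α)
  · filter_upwards [Filter.eventually_ge_atTop (5 ^ (2 * L₀ + 3))] with n hn
    obtain ⟨p, hp1, hp2, hp3⟩ := exists_level L₀ n hn
    refine ⟨deg p, hp2, hp3, ?_⟩
    have h1 := lower hM p n hp2 (hup n).1
    rw [hMeq p hp1] at h1
    exact (mk_ge α hα (deg p)).trans (Nat.cast_le.mpr h1)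

end Pool.Agent.Helper89.Final
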