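import Pool.Agent.Helper89.RevGraded

/-!
# Successive approximation
-/

namespace Pool.Helper89.Rev

open MvPowerSeries Finset FormalMap

variable {n : ℕ}

/-- the unit attached to an invertible matrix -/
noncomputable def unitOf (M M' : Matrix (Fin n) (Fin n) ℂ) (h : M * M' = 1) (h' : M' * M = 1) :
    (FormalMap n)ˣ :=
  ⟨ofMatrix M, ofMatrix M', by rw [← ofMatrix_mul, h, ofMatrix_one],
    by rw [← ofMatrix_mul, h', ofMatrix_one]⟩

lemma linPart_unitOf (M M' : Matrix (Fin n) (Fin n) ℂ) (h : M * M' = 1) (h' : M' * M = 1) :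
    linPart ((unitOf M M' h h' : (FormalMap n)ˣ) : FormalMap n) = M := linPart_ofMatrix M

lemma cong_quot {d : ℕ} {u v : (FormalMap n)ˣ} (h : Cong d (v : FormalMap n) (u : FormalMap n)) :
    (QuotientGroup.mk v : (FormalMap n)ˣ ⧸ K n d) = QuotientGroup.mk u := by
  rw [QuotientGroup.eq, mem_K]
  have := (Cong.refl d ((v⁻¹ : (FormalMap n)ˣ) : FormalMap n)).mul h
  rw [Units.inv_mul] at this
  exact this.symm

lemma linPart_inv_mul (u : (FormalMap n)ˣ) :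
    linPart ((u⁻¹ : (FormalMap n)ˣ) : FormalMap n) * linPart (u : FormalMap n) = 1 := by
  rw [← linPart_mul, Units.inv_mul, linPart_one]

lemma linPart_mul_inv (u : (FormalMap n)ˣ) :
    linPart (u : FormalMap n) * linPart ((u⁻¹ : (FormalMap n)ˣ) : FormalMap n) = 1 := by
  rw [← linPart_mul, Units.mul_inv, linPart_one]

lemma linPart_of_mem_K {u : (FormalMap n)ˣ} (hu : u ∈ K n 2) : linPart (u : FormalMap n) = 1 := by
  rw [cong_two_iff.1 (mem_K.1 hu), linPart_one]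

lemma linPart_conj {u s : (FormalMap n)ˣ} (hu : u ∈ K n 2) :
    linPart ((u * s * u⁻¹ : (FormalMap n)ˣ) : FormalMap n) = linPart (s : FormalMap n) := by
  rw [Units.val_mul, Units.val_mul, linPart_mul, linPart_mul, linPart_of_mem_K hu,
    linPart_of_mem_K ((K n 2).inv_mem hu), Matrix.one_mul, Matrix.mul_one]

/-- the product of the three conjugates -/
noncomputable def Pi3 (T : Fin 3 → (FormalMap n)ˣ) (u : Fin 3 → (FormalMap n)ˣ) : (FormalMap n)ˣ :=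
  (u 0 * T 0 * (u 0)⁻¹) * (u 1 * T 1 * (u 1)⁻¹) * (u 2 * T 2 * (u 2)⁻¹)

lemma gr_commutator {d : ℕ} (hd : 2 ≤ d) {k s : (FormalMap n)ˣ} (hk : k ∈ K n d) (hs : s * s = 1)
    {t : Matrix (Fin n) (Fin n) ℂ} (hst : linPart (s : FormalMap n) = t)
    {e : Fin n → MvPolynomial (Fin n) ℂ} (hke : gr d (k : FormalMap n) = e) :
    k * s * k⁻¹ * s⁻¹ ∈ K n d ∧
      gr d ((k * s * k⁻¹ * s⁻¹ : (FormalMap n)ˣ) : FormalMap n) = e - act t t e := by
  have hki := (K n d).inv_mem hk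
  have h1 : s * k⁻¹ * s⁻¹ ∈ K n d := (K_normal d).conj_mem _ hki s
  have e1 : k * s * k⁻¹ * s⁻¹ = k * (s * k⁻¹ * s⁻¹) := by group
  have hsinv : s⁻¹ = s := inv_eq_of_mul_eq_one_left hs
  rw [e1]
  refine ⟨(K n d).mul_mem hk h1, ?_⟩
  rw [gr_mul hd hk h1, gr_conj hd s hki, gr_inv hd hk, hke, hsinv, hst, ← actL_apply, map_neg,
    actL_apply]
  exact (sub_eq_add_neg _ _).symm

theorem three_involutions (t : Fin 3 → Matrix (Fin n) (Fin n) ℂ) (ht : ∀ j, t j * t j = 1)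
    (hsolve : ∀ d, 2 ≤ d → ∀ w : Fin n → MvPolynomial (Fin n) ℂ, HomT d w →
      ∃ e1 e2 e3 : Fin n → MvPolynomial (Fin n) ℂ, HomT d e1 ∧ HomT d e2 ∧ HomT d e3 ∧
        w = (e1 - act (t 0) (t 0) e1) + act (t 0) (t 0) (e2 - act (t 1) (t 1) e2) +
          act (t 0) (t 0) (act (t 1) (t 1) (e3 - act (t 2) (t 2) e3)))
    (F : (FormalMap n)ˣ) (hF : linPart (F : FormalMap n) = t 0 * t 1 * t 2) :
    ∃ s1 s2 s3 : (FormalMap n)ˣ, s1 * s1 = 1 ∧ s2 * s2 = 1 ∧ s3 * s3 = 1 ∧ F = s1 * s2 * s3 := by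
  set T : Fin 3 → (FormalMap n)ˣ := fun j => unitOf (t j) (t j) (ht j) (ht j) with hT
  have hTlin : ∀ j, linPart (T j : FormalMap n) = t j := fun j => linPart_unitOf _ _ _ _
  have hTsq : ∀ j, T j * T j = 1 := by
    intro j
    apply Units.ext
    change ofMatrix (t j) * ofMatrix (t j) = 1
    rw [← ofMatrix_mul, ht j, ofMatrix_one]
  have hconj : ∀ (u s : (FormalMap n)ˣ), s * s = 1 → (u * s * u⁻¹) * (u * s * u⁻¹) = 1 := by
    intro u s hs
    calc (u * s * u⁻¹) * (u * s * u⁻¹) = u * (s * s) * u⁻¹ := by group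
      _ = 1 := by rw [hs, mul_one, mul_inv_cancel]
  -- the improvement step
  have step : ∀ (k : ℕ) (u : Fin 3 → (FormalMap n)ˣ), (∀ j, u j ∈ K n 2) ∧
      F * (Pi3 T u)⁻¹ ∈ K n (k + 2) → ∃ u' : Fin 3 → (FormalMap n)ˣ, ((∀ j, u' j ∈ K n 2) ∧
      F * (Pi3 T u')⁻¹ ∈ K n (k + 3)) ∧
      ∀ j, Cong (k + 2) (u' j : FormalMap n) (u j : FormalMap n) := by
    rintro k u ⟨hu, hFu⟩
    have hd : 2 ≤ k + 2 := by omega
    set κ := F * (Pi3 T u)⁻¹ with hκ
    obtain ⟨e1, e2, e3, he1, he2, he3, hw⟩ := hsolve (k + 2) hd (gr (k + 2) (κ : FormalMap n))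
      (gr_hom _ _)
    obtain ⟨k1, hk1, hk1e⟩ := exists_gr hd he1
    obtain ⟨k2, hk2, hk2e⟩ := exists_gr hd he2
    obtain ⟨k3, hk3, hk3e⟩ := exists_gr hd he3
    set s1 := u 0 * T 0 * (u 0)⁻¹ with hs1
    set s2 := u 1 * T 1 * (u 1)⁻¹ with hs2
    set s3 := u 2 * T 2 * (u 2)⁻¹ with hs3
    have q1 : s1 * s1 = 1 := hconj _ _ (hTsq 0)
    have q2 : s2 * s2 = 1 := hconj _ _ (hTsq 1)
    have q3 : s3 * s3 = 1 := hconj _ _ (hTsq 2)
    have l1 : linPart (s1 : FormalMap n) = t 0 := by rw [hs1, linPart_conj (hu 0), hTlin]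
    have l2 : linPart (s2 : FormalMap n) = t 1 := by rw [hs2, linPart_conj (hu 1), hTlin]
    have l3 : linPart (s3 : FormalMap n) = t 2 := by rw [hs3, linPart_conj (hu 2), hTlin]
    have i1 : s1⁻¹ = s1 := inv_eq_of_mul_eq_one_left q1
    have i2 : s2⁻¹ = s2 := inv_eq_of_mul_eq_one_left q2
    obtain ⟨m1, g1⟩ := gr_commutator hd hk1 q1 l1 hk1e
    obtain ⟨m2, g2⟩ := gr_commutator hd hk2 q2 l2 hk2e
    obtain ⟨m3, g3⟩ := gr_commutator hd hk3 q3 l3 hk3e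
    set c1 := k1 * s1 * k1⁻¹ * s1⁻¹ with hc1
    set c2 := k2 * s2 * k2⁻¹ * s2⁻¹ with hc2
    set c3 := k3 * s3 * k3⁻¹ * s3⁻¹ with hc3
    have m2' : s1 * c2 * s1⁻¹ ∈ K n (k + 2) := (K_normal _).conj_mem _ m2 s1
    have m3' : s2 * c3 * s2⁻¹ ∈ K n (k + 2) := (K_normal _).conj_mem _ m3 s2
    have m3'' : s1 * (s2 * c3 * s2⁻¹) * s1⁻¹ ∈ K n (k + 2) := (K_normal _).conj_mem _ m3' s1
    set D := c1 * (s1 * c2 * s1⁻¹) * (s1 * (s2 * c3 * s2⁻¹) * s1⁻¹) with hD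
    have mD : D ∈ K n (k + 2) := (K n _).mul_mem ((K n _).mul_mem m1 m2') m3''
    have gD : gr (k + 2) (D : FormalMap n) = gr (k + 2) (κ : FormalMap n) := by
      rw [hD, gr_mul hd ((K n _).mul_mem m1 m2') m3'', gr_mul hd m1 m2', gr_conj hd s1 m2,
        gr_conj hd s1 m3', gr_conj hd s2 m3, g1, g2, g3, i1, i2, l1, l2, hw]
    set u' : Fin 3 → (FormalMap n)ˣ := ![k1 * u 0, k2 * u 1, k3 * u 2] with hu'
    have hPi : Pi3 T u' = D * Pi3 T u := by
      have : Pi3 T u' = (k1 * u 0 * T 0 * (k1 * u 0)⁻¹) * (k2 * u 1 * T 1 * (k2 * u 1)⁻¹) *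
          (k3 * u 2 * T 2 * (k3 * u 2)⁻¹) := rfl
      rw [this]
      have : Pi3 T u = s1 * s2 * s3 := rfl
      rw [this, hD, hc1, hc2, hc3, hs1, hs2, hs3]
      group
    refine ⟨u', ⟨?_, ?_⟩, ?_⟩
    · intro j
      fin_cases j
      · exact (K n 2).mul_mem (K_mono hd hk1) (hu 0)
      · exact (K n 2).mul_mem (K_mono hd hk2) (hu 1)
      · exact (K n 2).mul_mem (K_mono hd hk3) (hu 2)
    · have e : F * (Pi3 T u')⁻¹ = κ * D⁻¹ := by
        rw [hPi, hκ]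
        group
      rw [e]
      apply mem_K_succ hd ((K n _).mul_mem hFu ((K n _).inv_mem mD))
      rw [gr_mul hd hFu ((K n _).inv_mem mD), gr_inv hd mD, gD, add_neg_cancel]
    · intro j
      have aux : ∀ (a b : (FormalMap n)ˣ), a ∈ K n (k + 2) →
          Cong (k + 2) ((a * b : (FormalMap n)ˣ) : FormalMap n) (b : FormalMap n) := by
        intro a b ha
        have := (mem_K.1 ha).mul (Cong.refl (k + 2) (b : FormalMap n))
        rwa [one_mul] at this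
      fin_cases j
      · exact aux k1 (u 0) hk1
      · exact aux k2 (u 1) hk2
      · exact aux k3 (u 2) hk3
  choose! nxt h1 h2 using step
  set s : ℕ → (Fin 3 → (FormalMap n)ˣ) := fun k => Nat.rec 1 (fun k g => nxt k g) k with hs
  have hs0 : s 0 = 1 := rfl
  have hss : ∀ k, s (k + 1) = nxt k (s k) := fun k => rfl
  have hP : ∀ k, (∀ j, s k j ∈ K n 2) ∧ F * (Pi3 T (s k))⁻¹ ∈ K n (k + 2) := by
    intro k
    induction k with
    | zero =>
      rw [hs0]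
      refine ⟨fun j => (K n 2).one_mem, ?_⟩
      have e : Pi3 T 1 = T 0 * T 1 * T 2 := by
        simp [Pi3]
      rw [e, mem_K, cong_two_iff, linPart_one, Units.val_mul, linPart_mul, hF]
      have h := linPart_mul_inv (T 0 * T 1 * T 2)
      rw [Units.val_mul, Units.val_mul, linPart_mul, linPart_mul, hTlin, hTlin, hTlin] at h
      exact h
    | succ k ih =>
      rw [hss]
      exact h1 k _ ih
  have hc : ∀ j k, Cong (k + 2) (s (k + 1) j : FormalMap n) (s k j : FormalMap n) := by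
    intro j k
    rw [hss]
    exact h2 k _ (hP k) j
  have hlim : ∀ j, ∃ v : (FormalMap n)ˣ, ∀ k, Cong (k + 2) (v : FormalMap n)
      (s k j : FormalMap n) := by
    intro j
    obtain ⟨y, hy⟩ := exists_limit (fun k => (s k j : FormalMap n)) (hc j)
    obtain ⟨v, hv⟩ := isUnit_of_cong_two y (by
      have := hy 0
      simp only [hs0] at this
      exact this)
    refine ⟨v, ?_⟩
    rw [hv]
    exact hy
  choose v hv using hlim
  refine ⟨v 0 * T 0 * (v 0)⁻¹, v 1 * T 1 * (v 1)⁻¹, v 2 * T 2 * (v 2)⁻¹, hconj _ _ (hTsq 0),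
    hconj _ _ (hTsq 1), hconj _ _ (hTsq 2), ?_⟩
  change F = Pi3 T v
  rw [← mul_inv_eq_one]
  apply eq_one_of_mem_K
  intro d
  have hk := (hP d).2
  have e0 : (QuotientGroup.mk (F * (Pi3 T (s d))⁻¹) : (FormalMap n)ˣ ⧸ K n (d + 2)) = 1 :=
    (QuotientGroup.eq_one_iff _).2 hk
  have e1 : ∀ j, (QuotientGroup.mk (v j) : (FormalMap n)ˣ ⧸ K n (d + 2)) =
      QuotientGroup.mk (s d j) := fun j => cong_quot (hv j d)
  have e2 : (QuotientGroup.mk (Pi3 T v) : (FormalMap n)ˣ ⧸ K n (d + 2)) =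
      QuotientGroup.mk (Pi3 T (s d)) := by
    simp only [Pi3, QuotientGroup.mk_mul, QuotientGroup.mk_inv, e1]
  have e3 : (QuotientGroup.mk (F * (Pi3 T v)⁻¹) : (FormalMap n)ˣ ⧸ K n (d + 2)) = 1 := by
    rw [QuotientGroup.mk_mul, QuotientGroup.mk_inv, e2, ← QuotientGroup.mk_inv,
      ← QuotientGroup.mk_mul]
    exact e0
  exact K_mono (by omega) ((QuotientGroup.eq_one_iff _).1 e3)

end Pool.Helper89.Rev
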