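import Mathlib

/-!
# The fixed configuration: no equivariant polynomial maps of degree at least two

Everything here is about a tuple `Φ : Fin n → MvPolynomial (Fin n) ℂ`, seen as the polynomial map
`y ↦ (eval y (Φ i))_i`.
-/

namespace Pool.Helper89.Rev

open MvPolynomial Finset

variable {n : ℕ}

/-- genericity principle -/
lemma mul_eval_eq_zero {g h : MvPolynomial (Fin n) ℂ} (hg : g ≠ 0)
    (hz : ∀ y, eval y g * eval y h = 0) : ∀ y, eval y h = 0 := by
  have h1 : g * h = 0 := by
    apply MvPolynomial.funext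
    intro y
    simpa using hz y
  rcases mul_eq_zero.1 h1 with h2 | h2
  · exact absurd h2 hg
  · intro y
    simp [h2]

lemma ne_zero_of_eval {g : MvPolynomial (Fin n) ℂ} (y : Fin n → ℂ) (h : eval y g ≠ 0) :
    g ≠ 0 := by
  intro h0
  apply h
  simp [h0]

/-- the torus -/
def IsTorus (lam : Fin n → ℂ) : Prop :=
  (∀ i, lam i * lam (Fin.rev i) = 1) ∧ ∀ i, Fin.rev i = i → lam i = 1

lemma IsTorus.ne_zero {lam : Fin n → ℂ} (h : IsTorus lam) (i : Fin n) : lam i ≠ 0 := by
  intro h0
  have := h.1 i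
  rw [h0, zero_mul] at this
  exact zero_ne_one this

/-- commuting with the torus -/
def TorusComm (Φ : Fin n → MvPolynomial (Fin n) ℂ) : Prop :=
  ∀ lam : Fin n → ℂ, IsTorus lam → ∀ (y : Fin n → ℂ) (i : Fin n),
    eval (fun k => lam k * y k) (Φ i) = lam i * eval y (Φ i)

/-- commuting with the reflection `y ↦ y - 2 (∑ y) v` -/
def ReflComm (v : Fin n → ℂ) (Φ : Fin n → MvPolynomial (Fin n) ℂ) : Prop :=
  ∀ (y : Fin n → ℂ) (i : Fin n),
    eval (fun k => y k - 2 * (∑ j, y j) * v k) (Φ i) =
      eval y (Φ i) - 2 * (∑ j, eval y (Φ j)) * v i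

/-- shape of the vector `v` -/
structure VShape (v : Fin n → ℂ) (β γ : ℂ) : Prop where
  lo : ∀ i, i < Fin.rev i → v i = 0
  hi : ∀ i, Fin.rev i < i → v i = β
  mid : ∀ i, Fin.rev i = i → v i = γ
  hβ : β ≠ 0
  hγ : γ ≠ 0
  hγ2 : 1 - 2 * γ ≠ 0

lemma sum_zero_of_comm {v : Fin n → ℂ} {β γ : ℂ} (_hv : VShape v β γ)
    {Φ : Fin n → MvPolynomial (Fin n) ℂ} (hΦ : ReflComm v Φ) (i0 : Fin n) (hi0 : v i0 ≠ 0)
    (y : Fin n → ℂ) (hy : ∑ j, y j = 0) : ∑ j, eval y (Φ j) = 0 := by
  have h := hΦ y i0
  rw [hy] at h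
  simp only [mul_zero, zero_mul, sub_zero] at h
  have h2 : 2 * (∑ j, eval y (Φ j)) * v i0 = 0 := by linear_combination h
  have h3 : (2 : ℂ) ≠ 0 := two_ne_zero
  rcases mul_eq_zero.1 h2 with h4 | h4
  · rcases mul_eq_zero.1 h4 with h5 | h5
    · exact absurd h5 h3
    · exact h5
  · exact absurd h4 hi0


lemma torus_hyperplane {v : Fin n → ℂ} {β γ : ℂ} (hv : VShape v β γ)
    {Φ : Fin n → MvPolynomial (Fin n) ℂ} (hΦ : ReflComm v Φ) (hT : TorusComm Φ)
    (i0 : Fin n) (hi0 : v i0 ≠ 0)
    (lam : Fin n → ℂ) (hlam : IsTorus lam)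
    (y : Fin n → ℂ) (hy : ∑ j, lam j * y j = 0) : ∑ j, lam j * eval y (Φ j) = 0 := by
  have h := sum_zero_of_comm hv hΦ i0 hi0 (fun k => lam k * y k) hy
  rw [← h]
  exact Finset.sum_congr rfl fun j _ => (hT lam hlam y j).symm

/-- changing a torus element at a pair -/
lemma isTorus_update {mu : Fin n → ℂ} (hmu : IsTorus mu) (l : Fin n) (hl : Fin.rev l ≠ l)
    (z : ℂ) (hz : z ≠ 0) :
    IsTorus (fun k => if k = l then z else if k = Fin.rev l then z⁻¹ else mu k) := by
  constructor
  · intro i
    by_cases h1 : i = l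
    · subst h1
      simp [hl, hz]
    · by_cases h2 : i = Fin.rev l
      · subst h2
        simp [hl, hz]
      · have h3 : Fin.rev i ≠ l := fun h => h2 (by rw [← h, Fin.rev_rev])
        have h4 : Fin.rev i ≠ Fin.rev l := fun h => h1 (Fin.rev_injective h)
        simp only [h1, h2, h3, h4, if_false]
        exact hmu.1 i
  · intro i hi
    have h1 : i ≠ l := fun h => hl (by rw [← h]; exact hi)
    have h2 : i ≠ Fin.rev l := by
      intro h
      apply h1
      rw [← hi, h, Fin.rev_rev]
    simp only [h1, h2, if_false]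
    exact hmu.2 i hi

lemma sum_split (l : Fin n) (hl : Fin.rev l ≠ l) (f : Fin n → ℂ) :
    ∑ j, f j = f l + f (Fin.rev l) + ∑ j ∈ (univ.erase l).erase (Fin.rev l), f j := by
  rw [← Finset.add_sum_erase univ f (mem_univ l),
    ← Finset.add_sum_erase (univ.erase l) f (mem_erase.2 ⟨hl, mem_univ _⟩)]
  ring

/-- the quadratic argument, pointwise -/
lemma quad_arg (yl yl' c Pl Pl' C : ℂ) (hyl : yl ≠ 0) (hyl' : yl' ≠ 0)
    (hdisc : c ^ 2 - 4 * yl * yl' ≠ 0)
    (H : ∀ z : ℂ, z ≠ 0 → z * yl + z⁻¹ * yl' + c = 0 → z * Pl + z⁻¹ * Pl' + C = 0) :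
    C * yl = c * Pl ∧ Pl' * yl = Pl * yl' := by
  obtain ⟨w, hw⟩ : ∃ w : ℂ, c ^ 2 - 4 * yl * yl' = w * w := IsAlgClosed.exists_eq_mul_self _
  have hw0 : w ≠ 0 := by
    rintro rfl
    apply hdisc
    rw [hw]; ring
  set z1 := (-c + w) / (2 * yl) with hz1
  set z2 := (-c - w) / (2 * yl) with hz2
  have e1 : z1 * yl = (-c + w) / 2 := by rw [hz1]; field_simp
  have e2 : z2 * yl = (-c - w) / 2 := by rw [hz2]; field_simp
  have q1 : z1 * z1 * yl + yl' + c * z1 = 0 := by
    have : yl * (z1 * z1 * yl + yl' + c * z1) = 0 := by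
      have : yl * (z1 * z1 * yl + yl' + c * z1) =
        (z1 * yl) * (z1 * yl) + yl * yl' + c * (z1 * yl) := by ring
      rw [this, e1]
      linear_combination (-1/4 : ℂ) * hw
    rcases mul_eq_zero.1 this with h | h
    · exact absurd h hyl
    · exact h
  have q2 : z2 * z2 * yl + yl' + c * z2 = 0 := by
    have : yl * (z2 * z2 * yl + yl' + c * z2) = 0 := by
      have : yl * (z2 * z2 * yl + yl' + c * z2) =
        (z2 * yl) * (z2 * yl) + yl * yl' + c * (z2 * yl) := by ring
      rw [this, e2]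
      linear_combination (-1/4 : ℂ) * hw
    rcases mul_eq_zero.1 this with h | h
    · exact absurd h hyl
    · exact h
  have z1ne : z1 ≠ 0 := by
    intro h; rw [h] at q1; apply hyl'; linear_combination q1
  have z2ne : z2 ≠ 0 := by
    intro h; rw [h] at q2; apply hyl'; linear_combination q2
  have H1 := H z1 z1ne (by
    have : z1 * (z1 * yl + z1⁻¹ * yl' + c) = 0 := by
      have h : z1 * (z1 * yl + z1⁻¹ * yl' + c) = z1 * z1 * yl + (z1 * z1⁻¹) * yl' + c * z1 := by
        ring
      rw [h, mul_inv_cancel₀ z1ne, one_mul, q1]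
    exact (mul_eq_zero.1 this).resolve_left z1ne)
  have H2 := H z2 z2ne (by
    have : z2 * (z2 * yl + z2⁻¹ * yl' + c) = 0 := by
      have h : z2 * (z2 * yl + z2⁻¹ * yl' + c) = z2 * z2 * yl + (z2 * z2⁻¹) * yl' + c * z2 := by
        ring
      rw [h, mul_inv_cancel₀ z2ne, one_mul, q2]
    exact (mul_eq_zero.1 this).resolve_left z2ne)
  have P1 : z1 * z1 * Pl + Pl' + C * z1 = 0 := by
    have h : z1 * z1 * Pl + (z1 * z1⁻¹) * Pl' + C * z1 = z1 * (z1 * Pl + z1⁻¹ * Pl' + C) := by ring
    rw [H1, mul_inv_cancel₀ z1ne, one_mul, mul_zero] at h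
    exact h
  have P2 : z2 * z2 * Pl + Pl' + C * z2 = 0 := by
    have h : z2 * z2 * Pl + (z2 * z2⁻¹) * Pl' + C * z2 = z2 * (z2 * Pl + z2⁻¹ * Pl' + C) := by ring
    rw [H2, mul_inv_cancel₀ z2ne, one_mul, mul_zero] at h
    exact h
  have hne : z1 - z2 ≠ 0 := by
    intro h
    apply hw0
    have : (z1 - z2) * yl = w := by rw [sub_mul, e1, e2]; ring
    rw [← this, h, zero_mul]
  have hC : C = -(z1 + z2) * Pl := by
    have : (z1 - z2) * ((z1 + z2) * Pl + C) = 0 := by linear_combination P1 - P2
    have := (mul_eq_zero.1 this).resolve_left hne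
    linear_combination this
  have hc : c = -(z1 + z2) * yl := by
    have : (z1 - z2) * ((z1 + z2) * yl + c) = 0 := by linear_combination q1 - q2
    have := (mul_eq_zero.1 this).resolve_left hne
    linear_combination this
  have hPl' : Pl' = z1 * z2 * Pl := by
    rw [hC] at P1
    linear_combination P1
  have hyl'' : yl' = z1 * z2 * yl := by
    rw [hc] at q1
    linear_combination q1
  constructor
  · rw [hC, hc]; ring
  · rw [hPl', hyl'']; ring

lemma pair_identities {v : Fin n → ℂ} {β γ : ℂ} (hv : VShape v β γ)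
    {Φ : Fin n → MvPolynomial (Fin n) ℂ} (hΦ : ReflComm v Φ) (hT : TorusComm Φ)
    (i0 : Fin n) (hi0 : v i0 ≠ 0) (l : Fin n) (hl : Fin.rev l ≠ l)
    (mu : Fin n → ℂ) (hmu : IsTorus mu) :
    ∀ y : Fin n → ℂ,
      (∑ j ∈ (univ.erase l).erase (Fin.rev l), mu j * eval y (Φ j)) * y l =
        (∑ j ∈ (univ.erase l).erase (Fin.rev l), mu j * y j) * eval y (Φ l) ∧
      eval y (Φ (Fin.rev l)) * y l = eval y (Φ l) * y (Fin.rev l) := by
  classical
  set S := (univ.erase l).erase (Fin.rev l) with hS
  set cp : MvPolynomial (Fin n) ℂ := ∑ j ∈ S, C (mu j) * X j with hcp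
  set Cp : MvPolynomial (Fin n) ℂ := ∑ j ∈ S, C (mu j) * Φ j with hCp
  set g : MvPolynomial (Fin n) ℂ := X l * X (Fin.rev l) * (cp ^ 2 - 4 * X l * X (Fin.rev l)) with hg
  have g0 : g ≠ 0 := by
    apply ne_zero_of_eval (fun k => if k = l ∨ k = Fin.rev l then 1 else 0)
    have hc0 : eval (fun k => if k = l ∨ k = Fin.rev l then (1:ℂ) else 0) cp = 0 := by
      rw [hcp, map_sum]
      apply Finset.sum_eq_zero
      intro j hj
      have h1 : j ≠ Fin.rev l := (mem_erase.1 hj).1
      have h2 : j ≠ l := (mem_erase.1 (mem_erase.1 hj).2).1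
      simp [h1, h2]
    rw [hg]
    simp only [map_mul, map_sub, map_pow, hc0, eval_X]
    simp
  have evc : ∀ y : Fin n → ℂ, eval y cp = ∑ j ∈ S, mu j * y j := by
    intro y; rw [hcp, map_sum]; simp
  have evC : ∀ y : Fin n → ℂ, eval y Cp = ∑ j ∈ S, mu j * eval y (Φ j) := by
    intro y; rw [hCp, map_sum]; simp
  have key : ∀ y : Fin n → ℂ, eval y g ≠ 0 →
      eval y Cp * y l = eval y cp * eval y (Φ l) ∧
        eval y (Φ (Fin.rev l)) * y l = eval y (Φ l) * y (Fin.rev l) := by
    intro y hy
    rw [hg] at hy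
    simp only [map_mul, map_sub, map_pow, eval_X] at hy
    have a1 : y l ≠ 0 := fun h => hy (by rw [h]; ring)
    have a2 : y (Fin.rev l) ≠ 0 := fun h => hy (by rw [h]; ring)
    have a3 : eval y cp ^ 2 - 4 * y l * y (Fin.rev l) ≠ 0 := by
      intro h
      apply hy
      have : (eval y) 4 = (4:ℂ) := by
        rw [show (4 : MvPolynomial (Fin n) ℂ) = C 4 from rfl, eval_C]
      rw [this, h, mul_zero]
    apply quad_arg (y l) (y (Fin.rev l)) (eval y cp) (eval y (Φ l)) (eval y (Φ (Fin.rev l)))
      (eval y Cp) a1 a2 a3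
    intro z hz hzz
    have hlam := isTorus_update hmu l hl z hz
    have hex : ∀ f : Fin n → ℂ, ∑ j, (if j = l then z else if j = Fin.rev l then z⁻¹ else mu j) * f j
        = z * f l + z⁻¹ * f (Fin.rev l) + ∑ j ∈ S, mu j * f j := by
      intro f
      rw [sum_split l hl]
      simp only [if_true, hl, if_false]
      congr 1
      apply Finset.sum_congr rfl
      intro j hj
      have h1 : j ≠ Fin.rev l := (mem_erase.1 hj).1
      have h2 : j ≠ l := (mem_erase.1 (mem_erase.1 hj).2).1
      simp [h1, h2]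
    have := torus_hyperplane hv hΦ hT i0 hi0 _ hlam y (by rw [hex, ← evc]; exact hzz)
    rw [hex] at this
    rw [evC]
    exact this
  intro y
  constructor
  · have h := mul_eval_eq_zero (g := g) (h := Cp * X l - cp * Φ l) g0 (by
      intro y
      by_cases hy : eval y g = 0
      · rw [hy, zero_mul]
      · have := (key y hy).1
        simp only [map_sub, map_mul, eval_X]
        rw [this, sub_self, mul_zero]) y
    simp only [map_sub, map_mul, eval_X] at h
    rw [← evc y, ← evC y]
    linear_combination h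
  · have h := mul_eval_eq_zero (g := g) (h := Φ (Fin.rev l) * X l - Φ l * X (Fin.rev l)) g0 (by
      intro y
      by_cases hy : eval y g = 0
      · rw [hy, zero_mul]
      · have := (key y hy).2
        simp only [map_sub, map_mul, eval_X]
        rw [this, sub_self, mul_zero]) y
    simp only [map_sub, map_mul, eval_X] at h
    linear_combination h

lemma isTorus_one : IsTorus (fun _ : Fin n => (1:ℂ)) := ⟨fun _ => by simp, fun _ _ => rfl⟩

/-- `Φ` is everywhere proportional to the identity -/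
lemma proportional {v : Fin n → ℂ} {β γ : ℂ} (hv : VShape v β γ)
    {Φ : Fin n → MvPolynomial (Fin n) ℂ} (hΦ : ReflComm v Φ) (hT : TorusComm Φ)
    (i0 : Fin n) (hi0 : v i0 ≠ 0) (l : Fin n) (hl : Fin.rev l ≠ l) (i : Fin n) (y : Fin n → ℂ) :
    eval y (Φ i) * y l = y i * eval y (Φ l) := by
  classical
  -- full sums
  have full : ∀ mu : Fin n → ℂ, IsTorus mu →
      ∑ j, mu j * (eval y (Φ j) * y l - y j * eval y (Φ l)) = 0 := by
    intro mu hmu
    obtain ⟨h1, h2⟩ := pair_identities hv hΦ hT i0 hi0 l hl mu hmu y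
    rw [sum_split l hl]
    have e1 : ∑ j ∈ (univ.erase l).erase (Fin.rev l),
        mu j * (eval y (Φ j) * y l - y j * eval y (Φ l)) =
        (∑ j ∈ (univ.erase l).erase (Fin.rev l), mu j * eval y (Φ j)) * y l -
        (∑ j ∈ (univ.erase l).erase (Fin.rev l), mu j * y j) * eval y (Φ l) := by
      rw [Finset.sum_mul, Finset.sum_mul, ← Finset.sum_sub_distrib]
      apply Finset.sum_congr rfl
      intro j _
      ring
    rw [e1, h1, sub_self, add_zero]
    linear_combination mu (Fin.rev l) * h2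
  set D : Fin n → ℂ := fun j => eval y (Φ j) * y l - y j * eval y (Φ l) with hD
  have D0 : ∀ j, Fin.rev j ≠ j → D j = 0 := by
    intro j hj
    have f1 := full _ isTorus_one
    have f2 := full _ (isTorus_update isTorus_one j hj (-1) (by norm_num))
    have f3 := full _ (isTorus_update isTorus_one j hj 2 (by norm_num))
    have ex : ∀ z : ℂ, ∑ k, (if k = j then z else if k = Fin.rev j then z⁻¹ else 1) * D k =
        z * D j + z⁻¹ * D (Fin.rev j) + ∑ k ∈ (univ.erase j).erase (Fin.rev j), D k := by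
      intro z
      rw [sum_split j hj]
      simp only [if_true, hj, if_false]
      congr 1
      apply Finset.sum_congr rfl
      intro k hk
      have h1 : k ≠ Fin.rev j := (mem_erase.1 hk).1
      have h2 : k ≠ j := (mem_erase.1 (mem_erase.1 hk).2).1
      simp [h1, h2]
    have g2 := ex (-1)
    have g3 := ex 2
    have g1 := ex 1
    have f1' : ∑ k, (if k = j then (1:ℂ) else if k = Fin.rev j then (1:ℂ)⁻¹ else 1) * D k = 0 := by
      rw [← f1]
      apply Finset.sum_congr rfl
      intro k _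
      simp [hD]
    rw [f1'] at g1
    rw [f2] at g2
    rw [f3] at g3
    have i1 : (1:ℂ)⁻¹ = 1 := by norm_num
    have i2 : (-1:ℂ)⁻¹ = -1 := by norm_num
    rw [i1] at g1
    rw [i2] at g2
    have e : (2:ℂ)⁻¹ = 1/2 := by norm_num
    rw [e] at g3
    linear_combination (-2/3 : ℂ) * g3 + (1/2 : ℂ) * g1 + (1/6 : ℂ) * g2
  by_cases hi : Fin.rev i = i
  · have f1 := full _ isTorus_one
    have : ∑ j, (1:ℂ) * (eval y (Φ j) * y l - y j * eval y (Φ l)) = D i := by
      rw [Finset.sum_eq_single i]
      · rw [one_mul]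
      · intro j _ hj
        have hj2 : Fin.rev j ≠ j := by
          intro h
          apply hj
          have h1 : (Fin.rev j).val = j.val := by rw [h]
          have h2 : (Fin.rev i).val = i.val := by rw [hi]
          rw [Fin.val_rev] at h1 h2
          apply Fin.ext
          omega
        have := D0 j hj2
        rw [hD] at this
        simp only at this
        rw [this, mul_zero]
      · intro h; exact absurd (mem_univ i) h
    rw [this] at f1
    rw [hD] at f1
    simp only at f1
    linear_combination f1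
  · have := D0 i hi
    rw [hD] at this
    simp only at this
    linear_combination this

lemma eval_scale {φ : MvPolynomial (Fin n) ℂ} {d : ℕ} (hφ : φ.IsHomogeneous d) (z : ℂ)
    (y : Fin n → ℂ) : eval (fun k => z * y k) φ = z ^ d * eval y φ := by
  rw [eval_eq', eval_eq', Finset.mul_sum]
  apply Finset.sum_congr rfl
  intro α hα
  have h1 : ∏ i, (z * y i) ^ α i = z ^ (∑ i, α i) * ∏ i, y i ^ α i := by
    rw [← Finset.prod_pow_eq_pow_sum, ← Finset.prod_mul_distrib]
    apply Finset.prod_congr rfl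
    intro i _
    rw [mul_pow]
  have h2 : ∑ i, α i = d := by
    have := hφ.degree_eq_sum_deg_support hα
    rw [this]
    symm
    apply Finset.sum_subset (Finset.subset_univ _)
    intro i _ hi
    exact Finsupp.notMem_support_iff.1 hi
  rw [h1, h2]
  ring

lemma two_pow_sub_ne {d : ℕ} (hd : 2 ≤ d) : (2:ℂ) ^ d - 2 ≠ 0 := by
  intro h
  have h1 : ((2 ^ d : ℕ) : ℂ) = ((2 : ℕ) : ℂ) := by
    push_cast
    linear_combination h
  have h2 : 2 ^ d = 2 := Nat.cast_injective h1
  have h3 : 2 ^ 2 ≤ 2 ^ d := Nat.pow_le_pow_right (by norm_num) hd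
  omega

/-- the data from which the vanishing is deduced -/
structure Data (n d : ℕ) (v : Fin n → ℂ) (β γ : ℂ) (Φ : Fin n → MvPolynomial (Fin n) ℂ) :
    Prop where
  hd : 2 ≤ d
  hv : VShape v β γ
  hR : ReflComm v Φ
  hT : TorusComm Φ
  hom : ∀ i, (Φ i).IsHomogeneous d
  prop : ∀ l, Fin.rev l ≠ l → ∀ (i : Fin n) (y : Fin n → ℂ),
    eval y (Φ i) * y l = y i * eval y (Φ l)

/-- torus element equal to `z` on the lower half -/
lemma isTorus_lo (z : ℂ) (hz : z ≠ 0) :
    IsTorus (fun i : Fin n => if i < Fin.rev i then z else if Fin.rev i < i then z⁻¹ else 1) := by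
  constructor
  · intro i
    rcases lt_trichotomy i (Fin.rev i) with h | h | h
    · have h2 : ¬ (Fin.rev i < i) := not_lt.2 h.le
      simp [h, h2, Fin.rev_rev, hz]
    · have h2 : ¬ (i < Fin.rev i) := by rw [← h]; exact lt_irrefl _
      have h3 : ¬ (Fin.rev i < i) := by rw [← h]; exact lt_irrefl _
      simp [h2, h3, Fin.rev_rev]
    · have h2 : ¬ (i < Fin.rev i) := not_lt.2 h.le
      simp [h, h2, Fin.rev_rev, hz]
  · intro i hi
    simp [hi]

lemma vanish_lo {d : ℕ} {v : Fin n → ℂ} {β γ : ℂ} {Φ : Fin n → MvPolynomial (Fin n) ℂ}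
    (D : Data n d v β γ Φ) (y : Fin n → ℂ) (hy : ∀ i, y i ≠ 0 → i < Fin.rev i)
    (l : Fin n) (hl : y l ≠ 0) (i : Fin n) : eval y (Φ i) = 0 := by
  have hlr : Fin.rev l ≠ l := (hy l hl).ne'
  have h := D.hT _ (isTorus_lo 2 two_ne_zero) y l
  have e : (fun k => (if k < Fin.rev k then (2:ℂ) else if Fin.rev k < k then (2:ℂ)⁻¹ else 1) * y k)
      = fun k => 2 * y k := by
    funext k
    by_cases hk : y k = 0
    · rw [hk]; simp
    · simp [hy k hk]
  rw [e, eval_scale (D.hom l)] at h
  simp only [hy l hl, if_true] at h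
  have h1 : (2 ^ d - 2) * eval y (Φ l) = 0 := by linear_combination h
  have h2 : eval y (Φ l) = 0 := (mul_eq_zero.1 h1).resolve_left (two_pow_sub_ne D.hd)
  have h3 := D.prop l hlr i y
  rw [h2, mul_zero] at h3
  exact (mul_eq_zero.1 h3).resolve_right hl

/-- middle component along a half -/
lemma mid_const {d : ℕ} {v : Fin n → ℂ} {β γ : ℂ} {Φ : Fin n → MvPolynomial (Fin n) ℂ}
    (D : Data n d v β γ Φ) (m : Fin n) (hm : Fin.rev m = m) (y : Fin n → ℂ)
    (H : ∀ z : ℂ, z ≠ 0 → ∃ lam : Fin n → ℂ, IsTorus lam ∧ ∀ i, i ≠ m → y i ≠ 0 → lam i = z) :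
    eval y (Φ m) = eval (fun i => if i = m then y m else 0) (Φ m) := by
  have hc : Continuous (fun z : ℂ => eval (fun i => if i = m then y m else z * y i) (Φ m)) := by
    apply (MvPolynomial.continuous_eval (Φ m)).comp
    apply continuous_pi
    intro i
    by_cases hi : i = m
    · simp only [hi, if_true]; exact continuous_const
    · simp only [hi, if_false]; exact continuous_id.mul continuous_const
  have hcc : Continuous (fun _ : ℂ => eval y (Φ m)) := continuous_const
  have heq : (fun z : ℂ => eval (fun i => if i = m then y m else z * y i) (Φ m)) =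
      fun _ : ℂ => eval y (Φ m) := by
    apply Continuous.ext_on (dense_compl_singleton (0:ℂ)) hc hcc
    intro z hz
    obtain ⟨lam, h1, h2⟩ := H z hz
    have h3 := D.hT lam h1 y m
    rw [h1.2 m hm, one_mul] at h3
    simp only
    rw [← h3]
    refine congrArg (fun w => eval w (Φ m)) ?_
    funext i
    by_cases hi : i = m
    · subst hi; simp [h1.2 i hm]
    · simp only [hi, if_false]
      by_cases hy : y i = 0
      · rw [hy]; simp
      · rw [h2 i hi hy]
  have h0 := congrFun heq 0
  simp only [zero_mul] at h0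
  exact h0.symm

lemma eval_mid {d : ℕ} {v : Fin n → ℂ} {β γ : ℂ} {Φ : Fin n → MvPolynomial (Fin n) ℂ}
    (D : Data n d v β γ Φ) (m : Fin n) (c : ℂ) :
    eval (fun i => if i = m then c else 0) (Φ m) =
      c ^ d * eval (fun i => if i = m then 1 else 0) (Φ m) := by
  rw [← eval_scale (D.hom m)]
  refine congrArg (fun w => eval w (Φ m)) ?_
  funext i
  by_cases hi : i = m <;> simp [hi]

lemma rev_eq_unique {i m : Fin n} (hi : Fin.rev i = i) (hm : Fin.rev m = m) : i = m := by
  have h1 : (Fin.rev i).val = i.val := by rw [hi]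
  have h2 : (Fin.rev m).val = m.val := by rw [hm]
  rw [Fin.val_rev] at h1 h2
  apply Fin.ext
  omega

lemma kappa_zero {d : ℕ} {v : Fin n → ℂ} {β γ : ℂ} {Φ : Fin n → MvPolynomial (Fin n) ℂ}
    (D : Data n d v β γ Φ) (m : Fin n) (hm : Fin.rev m = m) (l' : Fin n) (hl' : Fin.rev l' < l') :
    eval (fun i => if i = m then 1 else 0) (Φ m) = 0 := by
  set κ := eval (fun i => if i = m then (1:ℂ) else 0) (Φ m) with hκ
  have hlm : l' ≠ m := by
    rintro rfl
    rw [hm] at hl'
    exact lt_irrefl _ hl'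
  set s : ℂ := -1 / (2 * γ) with hs
  have hsγ : 2 * s * γ = -1 := by
    rw [hs]; field_simp [D.hv.hγ]
  set y : Fin n → ℂ := fun i => if i = m then 1 else if i = l' then s - 1 else 0 with hy
  have ym : y m = 1 := by simp [hy]
  have ysupp : ∀ i, y i ≠ 0 → i = m ∨ i = l' := by
    intro i hi
    by_contra hcon
    push Not at hcon
    apply hi
    simp [hy, hcon.1, hcon.2]
  have ysum : ∑ i, y i = s := by
    have : ∀ i, y i = (if i = m then 1 else 0) + (if i = l' then s - 1 else 0) := by
      intro i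
      by_cases h1 : i = m
      · subst h1
        simp [hy, Ne.symm hlm]
      · simp [hy, h1]
    rw [Finset.sum_congr rfl (fun i _ => this i), Finset.sum_add_distrib]
    simp
  -- upper half torus
  have Hup : ∀ w : Fin n → ℂ, (∀ i, w i ≠ 0 → i = m ∨ Fin.rev i < i) → ∀ z : ℂ, z ≠ 0 →
      ∃ lam : Fin n → ℂ, IsTorus lam ∧ ∀ i, i ≠ m → w i ≠ 0 → lam i = z := by
    intro w hw z hz
    refine ⟨_, isTorus_lo z⁻¹ (inv_ne_zero hz), ?_⟩
    intro i him hwi
    have h1 : Fin.rev i < i := (hw i hwi).resolve_left him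
    have h2 : ¬ (i < Fin.rev i) := not_lt.2 h1.le
    simp [h1, h2]
  have Pm : eval y (Φ m) = κ := by
    rw [mid_const D m hm y (Hup y (by
      intro i hi
      rcases ysupp i hi with h | h
      · exact Or.inl h
      · right; rw [h]; exact hl')), ym]
  have Pall : ∀ i, eval y (Φ i) = κ * y i := by
    intro i
    by_cases hi : Fin.rev i = i
    · have := rev_eq_unique hi hm
      subst this
      rw [Pm, ym, mul_one]
    · have := D.prop i hi m y
      rw [Pm, ym, one_mul] at this
      exact this.symm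
  have hR := D.hR y m
  rw [ysum, Finset.sum_congr rfl (fun i _ => Pall i), ← Finset.mul_sum, ysum, Pm,
    D.hv.mid m hm] at hR
  rw [mid_const D m hm (fun k => y k - 2 * s * v k) (Hup _ (by
    intro i hi
    by_cases h1 : i = m
    · exact Or.inl h1
    · right
      rcases lt_trichotomy i (Fin.rev i) with h | h | h
      · exfalso
        apply hi
        have h2 : i ≠ l' := by
          rintro rfl
          exact lt_asymm h hl'
        simp [hy, h1, h2, D.hv.lo i h]
      · exact absurd (rev_eq_unique h.symm hm) h1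
      · exact h))] at hR
  rw [ym, D.hv.mid m hm, eval_mid D m] at hR
  rw [← hκ] at hR
  have e1 : (1:ℂ) - 2 * s * γ = 2 := by rw [hsγ]; norm_num
  rw [e1] at hR
  have h1 : (2 ^ d - 2) * κ = 0 := by linear_combination hR - κ * hsγ
  exact (mul_eq_zero.1 h1).resolve_left (two_pow_sub_ne D.hd)

lemma vanish_lo_mid {d : ℕ} {v : Fin n → ℂ} {β γ : ℂ} {Φ : Fin n → MvPolynomial (Fin n) ℂ}
    (D : Data n d v β γ Φ) (l' : Fin n) (hl' : Fin.rev l' < l')
    (y : Fin n → ℂ) (hy : ∀ i, y i ≠ 0 → i < Fin.rev i ∨ Fin.rev i = i)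
    (l : Fin n) (hl : y l ≠ 0) (i : Fin n) : eval y (Φ i) = 0 := by
  by_cases hmid : ∃ m, Fin.rev m = m ∧ y m ≠ 0
  · obtain ⟨m, hm, hym⟩ := hmid
    have hP : eval y (Φ m) = 0 := by
      rw [mid_const D m hm y, eval_mid D m, kappa_zero D m hm l' hl', mul_zero]
      intro z hz
      refine ⟨_, isTorus_lo z hz, ?_⟩
      intro i him hwi
      have h1 : i < Fin.rev i := by
        rcases hy i hwi with h | h
        · exact h
        · exact absurd (rev_eq_unique h hm) him
      simp [h1]
    by_cases hi : Fin.rev i = i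
    · have := rev_eq_unique hi hm
      subst this
      exact hP
    · have := D.prop i hi m y
      rw [hP, zero_mul] at this
      exact (mul_eq_zero.1 this.symm).resolve_left hym
  · push Not at hmid
    apply vanish_lo D y _ l hl i
    intro k hk
    rcases hy k hk with h | h
    · exact h
    · exact absurd (hmid k h) hk

/-- generic vanishing -/
lemma vanish_generic {d : ℕ} {v : Fin n → ℂ} {β γ : ℂ} {Φ : Fin n → MvPolynomial (Fin n) ℂ}
    (D : Data n d v β γ Φ) (l' : Fin n) (hl' : Fin.rev l' < l')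
    (x : Fin n → ℂ) (hx : ∀ i, Fin.rev i < i → x i ≠ 0)
    (hS : (∑ i, if i < Fin.rev i then x i * x (Fin.rev i) else 0) ≠ 0) (i : Fin n) :
    eval x (Φ i) = 0 := by
  set S : ℂ := ∑ i, if i < Fin.rev i then x i * x (Fin.rev i) else 0 with hSdef
  set z0 : ℂ := ∑ i, if Fin.rev i = i then x i else 0 with hz0
  set g0 : ℂ := ∑ i, if Fin.rev i = i then v i else 0 with hg0
  have hβ := D.hv.hβ
  have hg : 1 - 2 * g0 ≠ 0 := by
    by_cases hmid : ∃ m : Fin n, Fin.rev m = m
    · obtain ⟨m, hm⟩ := hmid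
      have : g0 = γ := by
        rw [hg0, Finset.sum_eq_single m]
        · simp [hm, D.hv.mid m hm]
        · intro j _ hj
          have : Fin.rev j ≠ j := fun h => hj (rev_eq_unique h hm)
          simp [this]
        · intro h; exact absurd (mem_univ m) h
      rw [this]
      exact D.hv.hγ2
    · push Not at hmid
      have : g0 = 0 := by
        rw [hg0]
        apply Finset.sum_eq_zero
        intro j _
        simp [hmid j]
      rw [this]; norm_num
  obtain ⟨a, ha⟩ : ∃ a : ℂ, (1 - 2 * g0) * (a * a) + (-z0) * a + S / (2 * β) = 0 :=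
    exists_quadratic_eq_zero hg (IsAlgClosed.exists_eq_mul_self _)
  have hSβ : S / (2 * β) ≠ 0 := div_ne_zero hS (mul_ne_zero two_ne_zero hβ)
  have ha0 : a ≠ 0 := by
    rintro rfl
    apply hSβ
    linear_combination ha
  have h2aβ : 2 * a * β ≠ 0 := mul_ne_zero (mul_ne_zero two_ne_zero ha0) hβ
  set y : Fin n → ℂ := fun i => if i < Fin.rev i then -(x i * x (Fin.rev i)) / (2 * a * β)
    else if Fin.rev i = i then x i + 2 * a * v i else 0 with hy
  have ysum : ∑ i, y i = a := by
    have e : ∀ i, y i = -(1 / (2 * a * β)) * (if i < Fin.rev i then x i * x (Fin.rev i) else 0) +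
        ((if Fin.rev i = i then x i else 0) + 2 * a * (if Fin.rev i = i then v i else 0)) := by
      intro i
      by_cases h1 : i < Fin.rev i
      · have h2 : Fin.rev i ≠ i := h1.ne'
        simp only [hy, h1, h2, if_true, if_false]
        ring
      · by_cases h2 : Fin.rev i = i
        · simp [hy, h2]
        · simp [hy, h1, h2]
    rw [Finset.sum_congr rfl (fun i _ => e i), Finset.sum_add_distrib, Finset.sum_add_distrib,
      ← Finset.mul_sum, ← Finset.mul_sum, ← hSdef, ← hz0, ← hg0]
    have : a * (-(1 / (2 * a * β)) * S + (z0 + 2 * a * g0) - a) = 0 := by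
      have e1 : a * (1 / (2 * a * β)) = 1 / (2 * β) := by field_simp
      have e2 : a * (-(1 / (2 * a * β)) * S + (z0 + 2 * a * g0) - a) =
        -((a * (1 / (2 * a * β))) * S) + a * (z0 + 2 * a * g0) - a * a := by ring
      rw [e2, e1]
      have e3 : 1 / (2 * β) * S = S / (2 * β) := by ring
      rw [e3]
      linear_combination -ha
    have := (mul_eq_zero.1 this).resolve_left ha0
    linear_combination this
  set lam : Fin n → ℂ := fun i => if i < Fin.rev i then -(2 * a * β) / x (Fin.rev i)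
    else if Fin.rev i < i then -(x i) / (2 * a * β) else 1 with hlam
  have hlamT : IsTorus lam := by
    constructor
    · intro i
      rcases lt_trichotomy i (Fin.rev i) with h | h | h
      · have h2 : ¬ (Fin.rev i < i) := not_lt.2 h.le
        have h3 : x (Fin.rev i) ≠ 0 := hx _ (by rw [Fin.rev_rev]; exact h)
        simp only [hlam, h, h2, Fin.rev_rev, if_true, if_false]
        field_simp
      · have h2 : ¬ (i < Fin.rev i) := by rw [← h]; exact lt_irrefl _
        have h3 : ¬ (Fin.rev i < i) := by rw [← h]; exact lt_irrefl _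
        simp [hlam, h2, h3, Fin.rev_rev]
      · have h2 : ¬ (i < Fin.rev i) := not_lt.2 h.le
        have h3 : x i ≠ 0 := hx _ h
        simp only [hlam, h, h2, Fin.rev_rev, if_true, if_false]
        field_simp
    · intro i hi
      simp [hlam, hi]
  have hpt : (fun k => lam k * (y k - 2 * (∑ j, y j) * v k)) = x := by
    funext k
    rw [ysum]
    rcases lt_trichotomy k (Fin.rev k) with h | h | h
    · have h3 : x (Fin.rev k) ≠ 0 := hx _ (by rw [Fin.rev_rev]; exact h)
      rw [D.hv.lo k h]
      simp only [hlam, hy, h, if_true]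
      field_simp
      ring
    · have h' : Fin.rev k = k := h.symm
      simp [hlam, hy, h']
    · have h2 : ¬ (k < Fin.rev k) := not_lt.2 h.le
      have h3 : ¬ (Fin.rev k = k) := h.ne
      rw [D.hv.hi k h]
      simp only [hlam, hy, h, h2, h3, if_true, if_false]
      field_simp
      ring
  obtain ⟨l, hl⟩ : ∃ l, y l ≠ 0 := by
    by_contra hcon
    push Not at hcon
    apply hS
    rw [hSdef]
    apply Finset.sum_eq_zero
    intro j _
    by_cases h1 : j < Fin.rev j
    · have := hcon j
      simp only [hy, h1, if_true] at this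
      simp only [h1, if_true]
      have h3 := (div_eq_zero_iff.1 this).resolve_right h2aβ
      linear_combination -h3
    · simp [h1]
  have hP : ∀ i, eval y (Φ i) = 0 := by
    intro i
    apply vanish_lo_mid D l' hl' y _ l hl i
    intro k hk
    by_contra hcon
    push Not at hcon
    apply hk
    simp [hy, not_lt.2 hcon.1, hcon.2]
  rw [← hpt, D.hT lam hlamT, D.hR y i, hP i]
  simp [hP]

theorem no_equivariant {d : ℕ} {v : Fin n → ℂ} {β γ : ℂ} {Φ : Fin n → MvPolynomial (Fin n) ℂ}
    (hn : 2 ≤ n) (hd : 2 ≤ d) (hv : VShape v β γ) (hR : ReflComm v Φ) (hT : TorusComm Φ)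
    (hom : ∀ i, (Φ i).IsHomogeneous d) (i : Fin n) : Φ i = 0 := by
  classical
  set l' : Fin n := ⟨n - 1, by omega⟩ with hl'def
  have hl' : Fin.rev l' < l' := by
    rw [Fin.lt_def, Fin.val_rev]
    simp [hl'def]
    omega
  have hvl' : v l' ≠ 0 := by rw [hv.hi l' hl']; exact hv.hβ
  have D : Data n d v β γ Φ := ⟨hd, hv, hR, hT, hom, fun l hl i y =>
    proportional hv hR hT l' hvl' l hl i y⟩
  set g : MvPolynomial (Fin n) ℂ := (∏ i, if Fin.rev i < i then X i else 1) *
    (∑ i, if i < Fin.rev i then X i * X (Fin.rev i) else 0) with hg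
  have evg : ∀ x : Fin n → ℂ, eval x g = (∏ i, if Fin.rev i < i then x i else 1) *
    (∑ i, if i < Fin.rev i then x i * x (Fin.rev i) else 0) := by
    intro x
    rw [hg, map_mul, map_prod, map_sum]
    congr 1
    · apply Finset.prod_congr rfl
      intro j _
      split_ifs <;> simp
    · apply Finset.sum_congr rfl
      intro j _
      split_ifs <;> simp
  have hg0 : g ≠ 0 := by
    apply ne_zero_of_eval (fun _ => 1)
    rw [evg]
    simp only [mul_one, ite_self, Finset.prod_const_one, one_mul]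
    rw [Finset.sum_boole]
    have : (Finset.univ.filter (fun i : Fin n => i < Fin.rev i)).Nonempty := by
      refine ⟨⟨0, by omega⟩, ?_⟩
      rw [Finset.mem_filter]
      refine ⟨mem_univ _, ?_⟩
      rw [Fin.lt_def, Fin.val_rev]
      simp
      omega
    exact Nat.cast_ne_zero.2 (Finset.card_pos.2 this).ne'
  have h0 := mul_eval_eq_zero (h := Φ i) hg0 (by
    intro x
    by_cases hx : eval x g = 0
    · rw [hx, zero_mul]
    · rw [evg] at hx
      have h1 := left_ne_zero_of_mul hx
      have h2 := right_ne_zero_of_mul hx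
      rw [vanish_generic D l' hl' x (by
        intro j hj
        have := Finset.prod_ne_zero_iff.1 h1 j (mem_univ j)
        simpa [hj] using this) h2 i, mul_zero])
  apply MvPolynomial.funext
  intro y
  rw [h0 y]
  simp

end Pool.Helper89.Rev
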