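import Pool.Agent.Helper89.RevTri

/-!
# Cyclic matrices of determinant `±1` are products of three involutions
-/

namespace Pool.Helper89.Rev

open Finset

/-- the reversal matrix -/
def Jm (n : ℕ) : Matrix (Fin n) (Fin n) ℂ := Matrix.of fun i j => if i = Fin.rev j then 1 else 0

lemma mul_Jm {n : ℕ} (M : Matrix (Fin n) (Fin n) ℂ) (i k : Fin n) :
    (M * Jm n) i k = M i (Fin.rev k) := by
  rw [Matrix.mul_apply, Finset.sum_eq_single (Fin.rev k)]
  · simp [Jm]
  · intro j _ hj
    simp [Jm, hj]
  · intro h; exact absurd (mem_univ _) h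

lemma Jm_sq (n : ℕ) : Jm n * Jm n = 1 := by
  ext i k
  rw [mul_Jm]
  simp [Jm, Matrix.one_apply]

/-- the second involution -/
def Qm (m : ℕ) (ε : ℂ) : Matrix (Fin (m + 1)) (Fin (m + 1)) ℂ :=
  Matrix.of fun i j => if i.val + j.val = 0 then ε else if i.val + j.val = m + 1 then 1 else 0

lemma Qm_apply (m : ℕ) (ε : ℂ) (i j : Fin (m + 1)) : Qm m ε i j =
    if i.val + j.val = 0 then ε else if i.val + j.val = m + 1 then 1 else 0 := rfl

lemma mul_Qm_zero {m : ℕ} (ε : ℂ) (M : Matrix (Fin (m + 1)) (Fin (m + 1)) ℂ)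
    (i k : Fin (m + 1)) (hk : k.val = 0) : (M * Qm m ε) i k = ε * M i 0 := by
  rw [Matrix.mul_apply, Finset.sum_eq_single 0]
  · rw [Qm_apply, if_pos (by rw [hk]; rfl), mul_comm]
  · intro j _ hj
    have h1 : j.val ≠ 0 := fun h => hj (Fin.ext h)
    have h2 : j.val < m + 1 := j.isLt
    rw [Qm_apply, if_neg (by omega), if_neg (by omega), mul_zero]
  · intro h; exact absurd (mem_univ _) h

lemma mul_Qm_pos {m : ℕ} (ε : ℂ) (M : Matrix (Fin (m + 1)) (Fin (m + 1)) ℂ)
    (i k j : Fin (m + 1)) (hj : j.val + k.val = m + 1) :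
    (M * Qm m ε) i k = M i j := by
  rw [Matrix.mul_apply, Finset.sum_eq_single j]
  · rw [Qm_apply, if_neg (by omega), if_pos hj, mul_one]
  · intro l _ hl
    have h4 : ¬ (l.val + k.val = m + 1) := by
      intro h
      apply hl
      ext
      omega
    have h5 : k.val ≠ 0 := by
      have := j.isLt
      omega
    rw [Qm_apply, if_neg (by omega), if_neg h4, mul_zero]
  · intro h; exact absurd (mem_univ _) h

lemma Qm_sq (m : ℕ) (ε : ℂ) (hε : ε * ε = 1) : Qm m ε * Qm m ε = 1 := by
  ext i k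
  by_cases hk : k.val = 0
  · rw [mul_Qm_zero ε _ i k hk, Qm_apply]
    by_cases hi : i.val = 0
    · have : i = k := Fin.ext (by omega)
      subst this
      rw [if_pos (by rw [hi]; rfl), hε, Matrix.one_apply_eq]
    · have : i ≠ k := fun h => hi (by rw [h]; exact hk)
      have h2 : i.val < m + 1 := i.isLt
      rw [Matrix.one_apply_ne this, if_neg, if_neg, mul_zero]
      · change ¬ (i.val + 0 = m + 1)
        omega
      · change ¬ (i.val + 0 = 0)
        omega
  · have hkl : k.val < m + 1 := k.isLt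
    rw [mul_Qm_pos ε _ i k ⟨m + 1 - k.val, by omega⟩ (by change m + 1 - k.val + k.val = m + 1; omega),
      Qm_apply]
    rw [if_neg (by change ¬ (i.val + (m + 1 - k.val) = 0); omega)]
    by_cases hik : i = k
    · subst hik
      rw [if_pos (by change i.val + (m + 1 - i.val) = m + 1; omega), Matrix.one_apply_eq]
    · rw [Matrix.one_apply_ne hik, if_neg]
      change ¬ (i.val + (m + 1 - k.val) = m + 1)
      intro h
      apply hik
      ext
      omega

/-- a companion-like matrix of determinant `±1` is a product of three involutions -/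
theorem companion_factor {m : ℕ} (C : Matrix (Fin (m + 1)) (Fin (m + 1)) ℂ)
    (hC : ∀ i k : Fin (m + 1), k ≠ Fin.last m → C i k = if i.val = k.val + 1 then 1 else 0)
    (hdet : C.det * C.det = 1) :
    ∃ s1 s2 s3 : Matrix (Fin (m + 1)) (Fin (m + 1)) ℂ, s1 * s1 = 1 ∧ s2 * s2 = 1 ∧ s3 * s3 = 1 ∧
      C = s1 * s2 * s3 := by
  -- entries of `C J Q`
  have hS0 : ∀ ε : ℂ, ∀ i k : Fin (m + 1), k.val = 0 →
      (C * Jm (m + 1) * Qm m ε) i k = ε * C i (Fin.last m) := by
    intro ε i k hk
    rw [mul_Qm_zero ε _ i k hk, mul_Jm]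
    congr 2
  have hS1 : ∀ ε : ℂ, ∀ i k : Fin (m + 1), k.val ≠ 0 →
      (C * Jm (m + 1) * Qm m ε) i k = if i = k then 1 else 0 := by
    intro ε i k hk
    have hkl : k.val < m + 1 := k.isLt
    rw [mul_Qm_pos ε _ i k ⟨m + 1 - k.val, by omega⟩
      (by change m + 1 - k.val + k.val = m + 1; omega), mul_Jm, hC]
    · rw [Fin.val_rev]
      simp only [Fin.ext_iff]
      congr 1
      apply propext
      constructor <;> intro h <;> omega
    · intro h
      have := congrArg Fin.val h
      rw [Fin.val_rev] at this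
      simp at this
      omega
  set c0 := C 0 (Fin.last m) with hc0
  have hdetS : (C * Jm (m + 1) * Qm m 1).det = c0 := by
    rw [Matrix.det_of_isLowerTriangular]
    · rw [Finset.prod_eq_single 0]
      · rw [hS0 1 0 0 rfl, one_mul]
      · intro j _ hj
        rw [hS1 1 j j (fun h => hj (Fin.ext h)), if_pos rfl]
      · intro h; exact absurd (mem_univ _) h
    · intro i j hij
      have hij' : i < j := hij
      have h1 : j.val ≠ 0 := by
        have := Fin.lt_def.1 hij'
        omega
      rw [hS1 1 i j h1, if_neg hij'.ne]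
  have hc0sq : c0 * c0 = 1 := by
    rw [← hdetS, Matrix.det_mul, Matrix.det_mul]
    have h1 : (Jm (m + 1)).det * (Jm (m + 1)).det = 1 := by
      rw [← Matrix.det_mul, Jm_sq, Matrix.det_one]
    have h2 : (Qm m 1).det * (Qm m 1).det = 1 := by
      rw [← Matrix.det_mul, Qm_sq m 1 (by norm_num), Matrix.det_one]
    calc C.det * (Jm (m + 1)).det * (Qm m 1).det * (C.det * (Jm (m + 1)).det * (Qm m 1).det)
        = (C.det * C.det) * ((Jm (m + 1)).det * (Jm (m + 1)).det) *
          ((Qm m 1).det * (Qm m 1).det) := by ring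
      _ = 1 := by rw [hdet, h1, h2]; ring
  set ε : ℂ := -c0 with hε
  have hεsq : ε * ε = 1 := by rw [hε]; linear_combination hc0sq
  set S := C * Jm (m + 1) * Qm m ε with hS
  have HS0 : ∀ i k : Fin (m + 1), k.val = 0 → S i k = ε * C i (Fin.last m) := hS0 ε
  have HS1 : ∀ i k : Fin (m + 1), k.val ≠ 0 → S i k = if i = k then 1 else 0 := hS1 ε
  refine ⟨S, Qm m ε, Jm (m + 1), ?_, Qm_sq m ε hεsq, Jm_sq _, ?_⟩
  · ext i k
    rw [Matrix.mul_apply]
    by_cases hk : k.val = 0
    · have hk' : k = 0 := Fin.ext hk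
      subst hk'
      rw [← Finset.add_sum_erase univ _ (mem_univ (0 : Fin (m + 1)))]
      have e : ∑ x ∈ univ.erase (0 : Fin (m + 1)), S i x * S x 0 =
          ∑ x ∈ univ.erase (0 : Fin (m + 1)), if i = x then S x 0 else 0 := by
        apply Finset.sum_congr rfl
        intro x hx
        have hx0 : x.val ≠ 0 := fun h => (mem_erase.1 hx).1 (Fin.ext h)
        rw [HS1 i x hx0]
        split_ifs <;> simp
      rw [e, Finset.sum_ite_eq]
      have h00 : S 0 0 = -1 := by
        rw [HS0 0 0 rfl, ← hc0, hε]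
        linear_combination -hc0sq
      by_cases hi : i = 0
      · subst hi
        rw [h00]
        simp
      · rw [h00, if_pos (mem_erase.2 ⟨hi, mem_univ _⟩)]
        rw [Matrix.one_apply, if_neg hi]
        ring
    · have e : ∀ x ∈ (univ : Finset (Fin (m + 1))), S i x * S x k = if x = k then S i x else 0 := by
        intro x _
        rw [HS1 x k hk]
        split_ifs <;> simp
      rw [Finset.sum_congr rfl e, Finset.sum_ite_eq', if_pos (mem_univ _), HS1 i k hk,
        Matrix.one_apply]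
  · rw [hS]
    have h1 : C * Jm (m + 1) * Qm m ε * Qm m ε * Jm (m + 1) =
        C * Jm (m + 1) * (Qm m ε * Qm m ε) * Jm (m + 1) := by
      simp only [Matrix.mul_assoc]
    rw [h1, Qm_sq m ε hεsq, Matrix.mul_one, Matrix.mul_assoc, Jm_sq, Matrix.mul_one]

end Pool.Helper89.Rev
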