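import Pool.Agent.Helper89.RevTorus

/-!
# Duality: solving the linearised equation
-/

namespace Pool.Helper89.Rev

open MvPolynomial Finset

variable {n : ℕ}

/-- the linear forms given by the rows of a matrix -/
noncomputable def lin (g : Matrix (Fin n) (Fin n) ℂ) (k : Fin n) : MvPolynomial (Fin n) ℂ :=
  ∑ l, C (g k l) * X l

/-- `g ∘ P ∘ g'` on tuples of polynomials -/
noncomputable def act (g g' : Matrix (Fin n) (Fin n) ℂ) (P : Fin n → MvPolynomial (Fin n) ℂ) :
    Fin n → MvPolynomial (Fin n) ℂ :=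
  fun i => ∑ j, C (g i j) * aeval (lin g') (P j)

lemma lin_hom (g : Matrix (Fin n) (Fin n) ℂ) (k : Fin n) : (lin g k).IsHomogeneous 1 := by
  unfold lin
  apply IsHomogeneous.sum
  intro l _
  exact isHomogeneous_C_mul_X _ _

/-- tuples of homogeneous polynomials -/
def HomT (d : ℕ) (P : Fin n → MvPolynomial (Fin n) ℂ) : Prop := ∀ i, (P i).IsHomogeneous d

lemma act_hom {g g' : Matrix (Fin n) (Fin n) ℂ} {d : ℕ} {P : Fin n → MvPolynomial (Fin n) ℂ}
    (hP : HomT d P) : HomT d (act g g' P) := by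
  intro i
  unfold act
  apply IsHomogeneous.sum
  intro j _
  apply IsHomogeneous.C_mul
  have := (hP j).aeval (lin g') (fun k => lin_hom g' k)
  rwa [one_mul] at this

/-- the action as a linear map -/
noncomputable def actL (g g' : Matrix (Fin n) (Fin n) ℂ) :
    (Fin n → MvPolynomial (Fin n) ℂ) →ₗ[ℂ] (Fin n → MvPolynomial (Fin n) ℂ) where
  toFun := act g g'
  map_add' P Q := by
    funext i
    simp only [act, Pi.add_apply, map_add, mul_add, Finset.sum_add_distrib]
  map_smul' c P := by
    funext i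
    simp only [act, Pi.smul_apply, map_smul, RingHom.id_apply, Finset.smul_sum, mul_smul_comm]

lemma actL_apply (g g' : Matrix (Fin n) (Fin n) ℂ) (P : Fin n → MvPolynomial (Fin n) ℂ) :
    actL g g' P = act g g' P := rfl

/-- the submodule of homogeneous tuples -/
noncomputable def HomV (n d : ℕ) : Submodule ℂ (Fin n → MvPolynomial (Fin n) ℂ) :=
  Submodule.pi Set.univ (fun _ => homogeneousSubmodule (Fin n) ℂ d)

lemma mem_HomV {d : ℕ} {P : Fin n → MvPolynomial (Fin n) ℂ} : P ∈ HomV n d ↔ HomT d P := by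
  unfold HomV HomT
  rw [Submodule.mem_pi]
  simp [mem_homogeneousSubmodule]

/-- the generic linear form -/
noncomputable def ell (y : Fin n → ℂ) : MvPolynomial (Fin n) ℂ := ∑ k, C (y k) * X k

lemma ell_hom (y : Fin n → ℂ) : (ell y).IsHomogeneous 1 := by
  unfold ell
  apply IsHomogeneous.sum
  intro l _
  exact isHomogeneous_C_mul_X _ _

lemma aeval_ell (g : Matrix (Fin n) (Fin n) ℂ) (y : Fin n → ℂ) :
    aeval (lin g) (ell y) = ell (fun l => ∑ k, g k l * y k) := by
  unfold ell lin
  rw [map_sum]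
  simp only [map_mul, aeval_X, algHom_C]
  have : ∀ k ∈ (univ : Finset (Fin n)), (algebraMap ℂ (MvPolynomial (Fin n) ℂ)) (y k) *
      (∑ l, C (g k l) * X l) = ∑ l, C (g k l * y k) * (X l : MvPolynomial (Fin n) ℂ) := by
    intro k _
    rw [Finset.mul_sum]
    apply Finset.sum_congr rfl
    intro l _
    rw [MvPolynomial.algebraMap_eq, C_mul]
    ring
  rw [Finset.sum_congr rfl this, Finset.sum_comm]
  apply Finset.sum_congr rfl
  intro l _
  rw [← Finset.sum_mul, ← map_sum]

/-- equivariance under the transpose of `t` -/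
def EquivT (t : Matrix (Fin n) (Fin n) ℂ) (Φ : Fin n → MvPolynomial (Fin n) ℂ) : Prop :=
  ∀ (y : Fin n → ℂ) (j : Fin n),
    eval (fun l => ∑ k, t k l * y k) (Φ j) = ∑ i, t i j * eval y (Φ i)

section dual

variable (ψ : (Fin n → MvPolynomial (Fin n) ℂ) →ₗ[ℂ] ℂ)

/-- the polynomial map attached to a functional -/
noncomputable def dualPoly (d : ℕ) (j : Fin n) : MvPolynomial (Fin n) ℂ :=
  ∑ a ∈ piAntidiag (univ : Finset (Fin n)) d,
    monomial (Finsupp.equivFunOnFinite.symm a)
      ((Nat.multinomial univ a : ℂ) *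
        ψ (Pi.single j (monomial (Finsupp.equivFunOnFinite.symm a) (1:ℂ))))

lemma ell_pow (d : ℕ) (y : Fin n → ℂ) : ell y ^ d =
    ∑ a ∈ piAntidiag (univ : Finset (Fin n)) d,
      ((Nat.multinomial univ a : ℂ) * ∏ k, y k ^ a k) •
        (monomial (Finsupp.equivFunOnFinite.symm a) (1:ℂ) : MvPolynomial (Fin n) ℂ) := by
  unfold ell
  rw [Finset.sum_pow_eq_sum_piAntidiag]
  apply Finset.sum_congr rfl
  intro a _
  rw [smul_monomial, smul_eq_mul, mul_one, monomial_eq, Finsupp.prod_fintype _ _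
    (fun k => pow_zero _)]
  simp only [Finsupp.equivFunOnFinite_symm_apply_apply, mul_pow, Finset.prod_mul_distrib, C_mul,
    map_prod, map_pow, map_natCast]
  ring

lemma eval_dualPoly (d : ℕ) (j : Fin n) (y : Fin n → ℂ) :
    eval y (dualPoly ψ d j) = ψ (Pi.single j (ell y ^ d)) := by
  classical
  have h1 : (Pi.single j (ell y ^ d) : Fin n → MvPolynomial (Fin n) ℂ) =
      ∑ a ∈ piAntidiag (univ : Finset (Fin n)) d,
        ((Nat.multinomial univ a : ℂ) * ∏ k, y k ^ a k) •
          (Pi.single j (monomial (Finsupp.equivFunOnFinite.symm a) (1:ℂ)) :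
            Fin n → MvPolynomial (Fin n) ℂ) := by
    rw [ell_pow]
    funext i
    rw [Finset.sum_apply]
    by_cases h : i = j
    · subst h
      simp only [Pi.single_eq_same, Pi.smul_apply]
    · simp [Pi.single_eq_of_ne h]
  rw [h1, map_sum, dualPoly, map_sum]
  apply Finset.sum_congr rfl
  intro a _
  rw [map_smul, eval_monomial, Finsupp.prod_fintype _ _ (fun k => pow_zero _)]
  simp only [Finsupp.equivFunOnFinite_symm_apply_apply, smul_eq_mul]
  ring

lemma dualPoly_hom (d : ℕ) (j : Fin n) : (dualPoly ψ d j).IsHomogeneous d := by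
  unfold dualPoly
  apply IsHomogeneous.sum
  intro a ha
  apply isHomogeneous_monomial
  rw [mem_piAntidiag] at ha
  rw [Finsupp.degree_eq_sum]
  simpa using ha.1

lemma dual_equiv (d : ℕ) (t : Matrix (Fin n) (Fin n) ℂ) (ht : t * t = 1)
    (hψ : ∀ P, HomT d P → ψ (act t t P) = ψ P) : EquivT t (dualPoly ψ d) := by
  classical
  have main : ∀ (y : Fin n → ℂ) (j : Fin n), eval y (dualPoly ψ d j) =
      ∑ i, t i j * eval (fun l => ∑ k, t k l * y k) (dualPoly ψ d i) := by
    intro y j
    have hP : HomT d (Pi.single j (ell y ^ d) : Fin n → MvPolynomial (Fin n) ℂ) := by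
      intro i
      by_cases h : i = j
      · subst h
        rw [Pi.single_eq_same]
        have := (ell_hom y).pow d
        rwa [one_mul] at this
      · rw [Pi.single_eq_of_ne h]
        exact isHomogeneous_zero _ _ _
    have h1 := hψ _ hP
    rw [eval_dualPoly, ← h1]
    have h2 : act t t (Pi.single j (ell y ^ d)) = ∑ i, t i j •
        (Pi.single i (ell (fun l => ∑ k, t k l * y k) ^ d) : Fin n → MvPolynomial (Fin n) ℂ) := by
      funext i
      rw [Finset.sum_apply]
      unfold act
      rw [Finset.sum_eq_single j]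
      · rw [Pi.single_eq_same, map_pow, aeval_ell]
        rw [Finset.sum_eq_single i]
        · rw [Pi.smul_apply, Pi.single_eq_same, smul_eq_C_mul]
        · intro k _ hk
          rw [Pi.smul_apply, Pi.single_eq_of_ne (Ne.symm hk), smul_zero]
        · intro h; exact absurd (mem_univ i) h
      · intro k _ hk
        rw [Pi.single_eq_of_ne hk, map_zero, mul_zero]
      · intro h; exact absurd (mem_univ j) h
    rw [h2, map_sum]
    apply Finset.sum_congr rfl
    intro i _
    rw [map_smul, smul_eq_mul, eval_dualPoly]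
  intro y j
  rw [main]
  apply Finset.sum_congr rfl
  intro i _
  congr 1
  have : (fun l => ∑ k, t k l * ∑ k', t k' k * y k') = y := by
    funext l
    have h1 : ∀ k ∈ (univ : Finset (Fin n)), t k l * ∑ k', t k' k * y k' =
        ∑ k', y k' * (t k' k * t k l) := by
      intro k _
      rw [Finset.mul_sum]
      apply Finset.sum_congr rfl
      intro k' _
      ring
    rw [Finset.sum_congr rfl h1, Finset.sum_comm]
    have h2 : ∀ k' ∈ (univ : Finset (Fin n)), ∑ k, y k' * (t k' k * t k l) =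
        y k' * (1 : Matrix (Fin n) (Fin n) ℂ) k' l := by
      intro k' _
      rw [← Finset.mul_sum, ← Matrix.mul_apply, ht]
    rw [Finset.sum_congr rfl h2]
    simp [Matrix.one_apply]
  rw [this]

lemma psi_zero_of_dualPoly (d : ℕ) (h : ∀ j, dualPoly ψ d j = 0)
    (w : Fin n → MvPolynomial (Fin n) ℂ) (hw : HomT d w) : ψ w = 0 := by
  classical
  have h1 : ∀ (j : Fin n) (a : Fin n →₀ ℕ), ∑ k, a k = d →
      ψ (Pi.single j (monomial a (1:ℂ))) = 0 := by
    intro j a ha
    have h2 := congrArg (coeff a) (h j)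
    rw [dualPoly, coeff_sum, coeff_zero] at h2
    simp only [coeff_monomial] at h2
    rw [Finset.sum_eq_single (⇑a)] at h2
    · have e : Finsupp.equivFunOnFinite.symm (⇑a) = a := by
        ext k; simp
      rw [e, if_pos rfl] at h2
      have h3 : ((Nat.multinomial univ (⇑a) : ℕ) : ℂ) ≠ 0 :=
        Nat.cast_ne_zero.2 (Nat.multinomial_pos _ _).ne'
      exact (mul_eq_zero.1 h2).resolve_left h3
    · intro b _ hb
      rw [if_neg]
      intro h4
      apply hb
      rw [← h4]
      funext k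
      simp
    · intro h4
      exfalso
      apply h4
      rw [mem_piAntidiag]
      exact ⟨ha, fun _ _ => mem_univ _⟩
  have h2 : w = ∑ j, ∑ a ∈ (w j).support, coeff a (w j) •
      (Pi.single j (monomial a (1:ℂ)) : Fin n → MvPolynomial (Fin n) ℂ) := by
    funext i
    rw [Finset.sum_apply, Finset.sum_eq_single i]
    · rw [Finset.sum_apply]
      conv_lhs => rw [MvPolynomial.as_sum (w i)]
      apply Finset.sum_congr rfl
      intro a _
      rw [Pi.smul_apply, Pi.single_eq_same, smul_monomial, smul_eq_mul, mul_one]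
    · intro j _ hj
      rw [Finset.sum_apply]
      apply Finset.sum_eq_zero
      intro a _
      rw [Pi.smul_apply, Pi.single_eq_of_ne (Ne.symm hj), smul_zero]
    · intro h; exact absurd (mem_univ i) h
  rw [h2, map_sum]
  apply Finset.sum_eq_zero
  intro j _
  rw [map_sum]
  apply Finset.sum_eq_zero
  intro a ha
  rw [map_smul, h1 j a, smul_zero]
  have h3 := (hw j).degree_eq_sum_deg_support ha
  rw [h3]
  symm
  apply Finset.sum_subset (Finset.subset_univ _)
  intro i _ hi
  exact Finsupp.notMem_support_iff.1 hi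

end dual

/-- solving the linearised equation -/
theorem solve_lin (d : ℕ) (t1 t2 t3 : Matrix (Fin n) (Fin n) ℂ) (h1 : t1 * t1 = 1)
    (h2 : t2 * t2 = 1) (h3 : t3 * t3 = 1)
    (hno : ∀ Φ : Fin n → MvPolynomial (Fin n) ℂ, HomT d Φ → EquivT t1 Φ → EquivT t2 Φ →
      EquivT t3 Φ → ∀ i, Φ i = 0)
    (w : Fin n → MvPolynomial (Fin n) ℂ) (hw : HomT d w) :
    ∃ e1 e2 e3 : Fin n → MvPolynomial (Fin n) ℂ, HomT d e1 ∧ HomT d e2 ∧ HomT d e3 ∧
      w = (e1 - act t1 t1 e1) + act t1 t1 (e2 - act t2 t2 e2) +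
        act t1 t1 (act t2 t2 (e3 - act t3 t3 e3)) := by
  set V := HomV n d with hV
  set T1 := actL t1 t1 with hT1
  set T2 := actL t2 t2 with hT2
  set T3 := actL t3 t3 with hT3
  set W : Submodule ℂ (Fin n → MvPolynomial (Fin n) ℂ) :=
    V.map (LinearMap.id - T1) ⊔ V.map (T1.comp (LinearMap.id - T2)) ⊔
      V.map (T1.comp (T2.comp (LinearMap.id - T3))) with hW
  by_cases hmem : w ∈ W
  · rw [hW, Submodule.mem_sup] at hmem
    obtain ⟨x, hx, z, hz, hxz⟩ := hmem
    rw [Submodule.mem_sup] at hx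
    obtain ⟨x1, hx1, x2, hx2, hx12⟩ := hx
    rw [Submodule.mem_map] at hx1 hx2 hz
    obtain ⟨e1, he1, rfl⟩ := hx1
    obtain ⟨e2, he2, rfl⟩ := hx2
    obtain ⟨e3, he3, rfl⟩ := hz
    refine ⟨e1, e2, e3, mem_HomV.1 he1, mem_HomV.1 he2, mem_HomV.1 he3, ?_⟩
    rw [← hxz, ← hx12]
    simp [hT1, hT2, hT3, actL_apply]
  · exfalso
    obtain ⟨ψ, hψw, hψ⟩ := Submodule.exists_le_ker_of_notMem hmem
    have k1 : ∀ P, HomT d P → ψ (act t1 t1 P) = ψ P := by
      intro P hP
      have : ((LinearMap.id : (Fin n → MvPolynomial (Fin n) ℂ) →ₗ[ℂ]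
          (Fin n → MvPolynomial (Fin n) ℂ)) - T1) P ∈ W :=
        Submodule.mem_sup_left (Submodule.mem_sup_left (Submodule.mem_map_of_mem (mem_HomV.2 hP)))
      have h := LinearMap.mem_ker.1 (hψ this)
      simp only [LinearMap.sub_apply, LinearMap.id_apply, map_sub, hT1, actL_apply] at h
      exact (sub_eq_zero.1 h).symm
    have k2 : ∀ P, HomT d P → ψ (act t2 t2 P) = ψ P := by
      intro P hP
      have : (T1.comp (LinearMap.id - T2)) P ∈ W :=
        Submodule.mem_sup_left (Submodule.mem_sup_right (Submodule.mem_map_of_mem (mem_HomV.2 hP)))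
      have h := LinearMap.mem_ker.1 (hψ this)
      simp only [LinearMap.comp_apply, LinearMap.sub_apply, LinearMap.id_apply, map_sub, hT1, hT2,
        actL_apply] at h
      rw [k1 _ hP, k1 _ (act_hom hP)] at h
      exact (sub_eq_zero.1 h).symm
    have k3 : ∀ P, HomT d P → ψ (act t3 t3 P) = ψ P := by
      intro P hP
      have : (T1.comp (T2.comp (LinearMap.id - T3))) P ∈ W :=
        Submodule.mem_sup_right (Submodule.mem_map_of_mem (mem_HomV.2 hP))
      have h := LinearMap.mem_ker.1 (hψ this)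
      simp only [LinearMap.comp_apply, LinearMap.sub_apply, LinearMap.id_apply, map_sub, hT1, hT2,
        hT3, actL_apply] at h
      rw [k1 _ (act_hom hP), k1 _ (act_hom (act_hom hP)), k2 _ hP, k2 _ (act_hom hP)] at h
      exact (sub_eq_zero.1 h).symm
    apply hψw
    apply psi_zero_of_dualPoly ψ d _ w hw
    exact hno (dualPoly ψ d) (dualPoly_hom ψ d) (dual_equiv ψ d t1 h1 k1) (dual_equiv ψ d t2 h2 k2)
      (dual_equiv ψ d t3 h3 k3)

end Pool.Helper89.Rev
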