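import Pool.Agent.Helper89.RevCyc
import Pool.Agent.Helper89.RevDual

/-!
# Factorisation of matrices of determinant `±1`
-/

namespace Pool.Helper89.Rev

open Finset

/-- a Hessenberg matrix with nonzero subdiagonal is cyclic -/
theorem hessenberg_cyclic {m : ℕ} (N : Matrix (Fin (m + 1)) (Fin (m + 1)) ℂ)
    (h0 : ∀ i k : Fin (m + 1), k.val + 1 < i.val → N i k = 0)
    (h1 : ∀ i k : Fin (m + 1), i.val = k.val + 1 → N i k ≠ 0) :
    ∃ K C : Matrix (Fin (m + 1)) (Fin (m + 1)) ℂ, IsUnit K ∧ N * K = K * C ∧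
      ∀ i k : Fin (m + 1), k ≠ Fin.last m → C i k = if i.val = k.val + 1 then 1 else 0 := by
  have claim : ∀ k : ℕ, ∀ i : Fin (m + 1), (k < i.val → (N ^ k) i 0 = 0) ∧
      (i.val = k → (N ^ k) i 0 ≠ 0) := by
    intro k
    induction k with
    | zero =>
      intro i
      rw [pow_zero]
      constructor
      · intro h
        rw [Matrix.one_apply_ne]
        intro h'
        rw [h'] at h
        simp at h
      · intro h
        have : i = 0 := Fin.ext h
        rw [this, Matrix.one_apply_eq]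
        exact one_ne_zero
    | succ k ih =>
      intro i
      rw [pow_succ', Matrix.mul_apply]
      constructor
      · intro h
        apply Finset.sum_eq_zero
        intro j _
        by_cases hj : k < j.val
        · rw [(ih j).1 hj, mul_zero]
        · rw [h0 i j (by omega), zero_mul]
      · intro h
        have hk : k < m + 1 := by
          have := i.isLt
          omega
        rw [Finset.sum_eq_single (⟨k, hk⟩ : Fin (m + 1))]
        · exact mul_ne_zero (h1 i ⟨k, hk⟩ h) ((ih ⟨k, hk⟩).2 rfl)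
        · intro j _ hj
          have hjk : j.val ≠ k := fun h => hj (Fin.ext h)
          by_cases hj2 : k < j.val
          · rw [(ih j).1 hj2, mul_zero]
          · rw [h0 i j (by omega), zero_mul]
        · intro h; exact absurd (mem_univ _) h
  set K : Matrix (Fin (m + 1)) (Fin (m + 1)) ℂ := Matrix.of fun i k => (N ^ k.val) i 0 with hK
  have hKapp : ∀ i k, K i k = (N ^ k.val) i 0 := fun i k => rfl
  have hdet : K.det ≠ 0 := by
    rw [Matrix.det_of_isUpperTriangular]
    · apply Finset.prod_ne_zero_iff.2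
      intro i _
      rw [hKapp]
      exact (claim i.val i).2 rfl
    · intro i j hij
      have hij' : j < i := hij
      rw [hKapp]
      exact (claim j.val i).1 hij'
  have hunit : IsUnit K := (Matrix.isUnit_iff_isUnit_det K).2 (isUnit_iff_ne_zero.2 hdet)
  have hinv : K⁻¹ * K = 1 := Matrix.nonsing_inv_mul K (isUnit_iff_ne_zero.2 hdet)
  have hinv' : K * K⁻¹ = 1 := Matrix.mul_nonsing_inv K (isUnit_iff_ne_zero.2 hdet)
  refine ⟨K, K⁻¹ * (N * K), hunit, ?_, ?_⟩
  · rw [← Matrix.mul_assoc, hinv', Matrix.one_mul]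
  · intro i k hk
    have hk' : k.val + 1 < m + 1 := by
      have h1 := k.isLt
      have h2 : k.val ≠ m := fun h => hk (Fin.ext h)
      omega
    have e : ∀ j, (N * K) j k = K j ⟨k.val + 1, hk'⟩ := by
      intro j
      rw [hKapp, Matrix.mul_apply]
      change _ = (N ^ (k.val + 1)) j 0
      rw [pow_succ', Matrix.mul_apply]
      apply Finset.sum_congr rfl
      intro l _
      rw [hKapp]
    rw [Matrix.mul_apply, Finset.sum_congr rfl (fun j _ => by rw [e j]), ← Matrix.mul_apply, hinv,
      Matrix.one_apply]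
    congr 1
    apply propext
    rw [Fin.ext_iff]

/-- the first involution -/
noncomputable def AJ (n : ℕ) : Matrix (Fin n) (Fin n) ℂ :=
  Matrix.of fun i j => if i = Fin.rev j then bv i else 0

/-- the reflection -/
def Sm {n : ℕ} (v : Fin n → ℂ) : Matrix (Fin n) (Fin n) ℂ :=
  Matrix.of fun k l => (if k = l then 1 else 0) - 2 * v l

lemma AJ_apply {n : ℕ} (i j : Fin n) : AJ n i j = if i = Fin.rev j then bv i else 0 := rfl

lemma Jm_apply {n : ℕ} (i j : Fin n) : Jm n i j = if i = Fin.rev j then 1 else 0 := rfl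

lemma Sm_apply {n : ℕ} (v : Fin n → ℂ) (k l : Fin n) :
    Sm v k l = (if k = l then 1 else 0) - 2 * v l := rfl

lemma AJ_Jm_apply {n : ℕ} (i j : Fin n) : (AJ n * Jm n) i j = if i = j then bv i else 0 := by
  rw [mul_Jm, AJ_apply, Fin.rev_rev]

lemma AJ_sq (n : ℕ) : AJ n * AJ n = 1 := by
  ext i k
  rw [Matrix.mul_apply, Finset.sum_eq_single (Fin.rev k)]
  · rw [AJ_apply, AJ_apply, Fin.rev_rev, if_pos rfl]
    by_cases h : i = k
    · subst h
      rw [if_pos rfl, Matrix.one_apply_eq, bv_rev]
    · rw [if_neg h, Matrix.one_apply_ne h, zero_mul]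
  · intro j _ hj
    rw [AJ_apply j k, if_neg hj, mul_zero]
  · intro h; exact absurd (mem_univ _) h

lemma Sm_sq {n : ℕ} (v : Fin n → ℂ) (hv : ∑ i, v i = 1) : Sm v * Sm v = 1 := by
  ext i k
  rw [Matrix.mul_apply]
  have e : ∀ j ∈ (univ : Finset (Fin n)), Sm v i j * Sm v j k =
      (if i = j then (if j = k then 1 else 0) - 2 * v k else 0) - 2 * (if j = k then v j else 0) +
        4 * v k * v j := by
    intro j _
    rw [Sm_apply, Sm_apply]
    split_ifs <;> ring
  rw [Finset.sum_congr rfl e, Finset.sum_add_distrib, Finset.sum_sub_distrib, ← Finset.mul_sum,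
    ← Finset.mul_sum, hv, Finset.sum_ite_eq, if_pos (mem_univ _), Finset.sum_ite_eq',
    if_pos (mem_univ _), Matrix.one_apply]
  ring

lemma H_apply {n : ℕ} (v : Fin n → ℂ) (i j : Fin n) :
    (AJ n * Jm n * Sm v) i j = bv i * ((if i = j then 1 else 0) - 2 * v j) := by
  rw [Matrix.mul_apply, Finset.sum_eq_single i]
  · rw [AJ_Jm_apply, if_pos rfl, Sm_apply]
  · intro k _ hk
    rw [AJ_Jm_apply, if_neg (Ne.symm hk), zero_mul]
  · intro h; exact absurd (mem_univ _) h

lemma bv_injective {n : ℕ} : Function.Injective (bv : Fin n → ℂ) := by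
  intro i j hij
  have h1 : bq i = bq j := by
    unfold bv at hij
    exact_mod_cast hij
  have h2 : ∏ k, bq k ^ (fun k => if k = j then 1 else 0 : Fin n → ℕ) k = bq i := by
    rw [h1, Finset.prod_eq_single j]
    · simp
    · intro k _ hk
      simp [hk]
    · intro h; exact absurd (mem_univ _) h
  have h3 := exponent_relation _ i h2
  by_cases hi : Fin.rev i = i
  · have h4 := h3 j
    simp only [hi, sub_self, if_true] at h4
    by_cases hj : Fin.rev j = j
    · exact rev_eq_unique hi hj
    · simp [hj] at h4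
  · have h4 := h3 i
    have hi' : ¬ (i = Fin.rev i) := fun h => hi h.symm
    simp only [hi, if_true, if_false] at h4
    by_contra hij'
    simp only [hij', if_false] at h4
    by_cases h5 : Fin.rev i = j
    · simp [h5] at h4
    · simp [h5] at h4

/-- **factorisation theorem** -/
theorem factor {n : ℕ} (hn : 0 < n) (v : Fin n → ℂ) (hv : ∑ i, v i = 1)
    (L : Matrix (Fin n) (Fin n) ℂ) (hL : L.det * L.det = 1) :
    ∃ g g' s1 s2 s3 : Matrix (Fin n) (Fin n) ℂ, g * g' = 1 ∧ g' * g = 1 ∧
      s1 * s1 = 1 ∧ s2 * s2 = 1 ∧ s3 * s3 = 1 ∧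
      L = g * (AJ n * Jm n * Sm v) * g' * (s1 * s2 * s3) := by
  obtain ⟨m, rfl⟩ : ∃ m, n = m + 1 := ⟨n - 1, by omega⟩
  set H := AJ (m + 1) * Jm (m + 1) * Sm v with hH
  have Happ : ∀ i j, H i j = bv i * ((if i = j then 1 else 0) - 2 * v j) := H_apply v
  have Hdet : H.det * H.det = 1 := by
    rw [hH, Matrix.det_mul, Matrix.det_mul]
    have h1 : (Jm (m + 1)).det * (Jm (m + 1)).det = 1 := by
      rw [← Matrix.det_mul, Jm_sq, Matrix.det_one]
    have h2 : (AJ (m + 1)).det * (AJ (m + 1)).det = 1 := by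
      rw [← Matrix.det_mul, AJ_sq, Matrix.det_one]
    have h3 : (Sm v).det * (Sm v).det = 1 := by
      rw [← Matrix.det_mul, Sm_sq v hv, Matrix.det_one]
    calc _ = ((AJ (m + 1)).det * (AJ (m + 1)).det) * ((Jm (m + 1)).det * (Jm (m + 1)).det) *
          ((Sm v).det * (Sm v).det) := by ring
      _ = 1 := by rw [h1, h2, h3]; ring
  -- Krylov matrix of `H`
  set P : Matrix (Fin (m + 1)) (Fin (m + 1)) ℂ := Matrix.of fun i k => bv i ^ (k.val + 1) with hP
  have Papp : ∀ i k, P i k = bv i ^ (k.val + 1) := fun i k => rfl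
  have Pdet : P.det ≠ 0 := by
    have e : P = Matrix.diagonal bv * Matrix.vandermonde bv := by
      ext i k
      rw [Papp, Matrix.diagonal_mul, Matrix.vandermonde_apply]
      ring
    rw [e, Matrix.det_mul, Matrix.det_diagonal]
    exact mul_ne_zero (Finset.prod_ne_zero_iff.2 fun i _ => bv_ne_zero i)
      (Matrix.det_vandermonde_ne_zero_iff.2 bv_injective)
  have Pinv : P⁻¹ * P = 1 := Matrix.nonsing_inv_mul P (isUnit_iff_ne_zero.2 Pdet)
  have Pinv' : P * P⁻¹ = 1 := Matrix.mul_nonsing_inv P (isUnit_iff_ne_zero.2 Pdet)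
  set C' := P⁻¹ * (H * P) with hC'
  have C'col : ∀ i k : Fin (m + 1), k ≠ Fin.last m → C' i k =
      (if i.val = k.val + 1 then 1 else 0) +
        (-(2 * ∑ j, v j * P j k)) * (if i = 0 then 1 else 0) := by
    intro i k hk
    have hk' : k.val + 1 < m + 1 := by
      have h1 := k.isLt
      have h2 : k.val ≠ m := fun h => hk (Fin.ext h)
      omega
    have e : ∀ j, (H * P) j k = P j ⟨k.val + 1, hk'⟩ + (-(2 * ∑ j, v j * P j k)) * P j 0 := by
      intro j
      rw [Matrix.mul_apply]
      have e1 : ∀ l ∈ (univ : Finset (Fin (m + 1))), H j l * P l k =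
          bv j * ((if j = l then P l k else 0) - 2 * (v l * P l k)) := by
        intro l _
        rw [Happ]
        split_ifs <;> ring
      rw [Finset.sum_congr rfl e1, ← Finset.mul_sum, Finset.sum_sub_distrib, ← Finset.mul_sum,
        Finset.sum_ite_eq, if_pos (mem_univ _)]
      have e2 : P j ⟨k.val + 1, hk'⟩ = bv j * P j k := by
        rw [Papp, Papp]
        change bv j ^ (k.val + 1 + 1) = _
        ring
      have e3 : P j 0 = bv j := by
        rw [Papp]
        simp
      rw [e2, e3]
      ring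
    rw [hC', Matrix.mul_apply, Finset.sum_congr rfl (fun j _ => by rw [e j, mul_add])]
    rw [Finset.sum_add_distrib, ← Matrix.mul_apply, Pinv]
    have e4 : ∀ c : ℂ, ∑ x, P⁻¹ i x * (c * P x 0) = c * (P⁻¹ * P) i 0 := by
      intro c
      rw [Matrix.mul_apply, Finset.mul_sum]
      apply Finset.sum_congr rfl
      intro x _
      ring
    rw [e4, Pinv, Matrix.one_apply, Matrix.one_apply]
    congr 2
    apply propext
    rw [Fin.ext_iff]
  -- triangularise the inverse of `L`
  have hLdet : L.det ≠ 0 := by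
    intro h
    rw [h, zero_mul] at hL
    exact zero_ne_one hL
  have Linv' : L * L⁻¹ = 1 := Matrix.mul_nonsing_inv L (isUnit_iff_ne_zero.2 hLdet)
  obtain ⟨U, R, hU, hUR, hR⟩ := exists_triangular L⁻¹
  have Udet : IsUnit U.det := (Matrix.isUnit_iff_isUnit_det U).1 hU
  have Uinv : U⁻¹ * U = 1 := Matrix.nonsing_inv_mul U Udet
  have Uinv' : U * U⁻¹ = 1 := Matrix.mul_nonsing_inv U Udet
  have LRdet : L⁻¹.det = R.det := by
    have := congrArg Matrix.det hUR
    rw [Matrix.det_mul, Matrix.det_mul, mul_comm] at this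
    exact mul_left_cancel₀ (isUnit_iff_ne_zero.1 Udet) this
  have LLdet : L.det * L⁻¹.det = 1 := by
    rw [← Matrix.det_mul, Linv', Matrix.det_one]
  have Rdet0 : R.det ≠ 0 := by
    rw [← LRdet]
    intro h
    rw [h, mul_zero] at LLdet
    exact zero_ne_one LLdet
  have Rdiag : ∀ i, R i i ≠ 0 := by
    rw [Matrix.det_of_isUpperTriangular (fun i j hij => hR i j hij)] at Rdet0
    intro i
    exact Finset.prod_ne_zero_iff.1 Rdet0 i (mem_univ i)
  set N := R * C' with hN
  obtain ⟨K, C, hK, hNK, hC⟩ := hessenberg_cyclic N (by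
    intro i k hik
    have hk : k ≠ Fin.last m := by
      intro h
      rw [h] at hik
      have := i.isLt
      simp at hik
      omega
    rw [hN, Matrix.mul_apply]
    apply Finset.sum_eq_zero
    intro j _
    by_cases hj : j < i
    · rw [hR i j hj, zero_mul]
    · have h1 : i.val ≤ j.val := not_lt.1 hj
      have h2 : j ≠ 0 := by
        intro h
        have h5 : j.val = 0 := by rw [h]; rfl
        omega
      rw [C'col j k hk, if_neg (by omega), if_neg h2]
      ring) (by
    intro i k hik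
    have hk : k ≠ Fin.last m := by
      intro h
      rw [h] at hik
      have := i.isLt
      simp at hik
      omega
    rw [hN, Matrix.mul_apply, Finset.sum_eq_single i]
    · have h2 : i ≠ 0 := by
        intro h
        rw [h] at hik
        simp at hik
      rw [C'col i k hk, if_pos hik, if_neg h2, mul_zero, add_zero, mul_one]
      exact Rdiag i
    · intro j _ hji
      by_cases hj : j < i
      · rw [hR i j hj, zero_mul]
      · have h1 : i.val ≤ j.val := not_lt.1 hj
        have h3 : i.val ≠ j.val := fun h => hji (Fin.ext h.symm)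
        have h2 : j ≠ 0 := by
          intro h
          have h5 : j.val = 0 := by rw [h]; rfl
          omega
        rw [C'col j k hk, if_neg (by omega), if_neg h2]
        ring
    · intro h; exact absurd (mem_univ _) h)
  have Kdet : IsUnit K.det := (Matrix.isUnit_iff_isUnit_det K).1 hK
  have Kinv : K⁻¹ * K = 1 := Matrix.nonsing_inv_mul K Kdet
  have Kinv' : K * K⁻¹ = 1 := Matrix.mul_nonsing_inv K Kdet
  have C'det : C'.det = H.det := by
    have h1 : P * C' = H * P := by
      rw [hC', ← Matrix.mul_assoc, Pinv', Matrix.one_mul]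
    have := congrArg Matrix.det h1
    rw [Matrix.det_mul P C', Matrix.det_mul H P, mul_comm H.det] at this
    exact mul_left_cancel₀ Pdet this
  have Cdet : C.det = R.det * H.det := by
    have h1 := congrArg Matrix.det hNK
    rw [Matrix.det_mul N K, Matrix.det_mul K C, mul_comm N.det] at h1
    have h2 := mul_left_cancel₀ (isUnit_iff_ne_zero.1 Kdet) h1
    rw [← h2, hN, Matrix.det_mul R C', C'det]
  have Cdet2 : C.det * C.det = 1 := by
    have h1 : L⁻¹.det * L⁻¹.det = 1 := by
      calc L⁻¹.det * L⁻¹.det = (L.det * L.det) * (L⁻¹.det * L⁻¹.det) := by rw [hL, one_mul]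
        _ = (L.det * L⁻¹.det) * (L.det * L⁻¹.det) := by ring
        _ = 1 := by rw [LLdet, one_mul]
    rw [Cdet, ← LRdet]
    calc _ = (L⁻¹.det * L⁻¹.det) * (H.det * H.det) := by ring
      _ = 1 := by rw [h1, Hdet, one_mul]
  obtain ⟨s1, s2, s3, hs1, hs2, hs3, hCs⟩ := companion_factor C hC Cdet2
  set h := U * K with hh
  set h' := K⁻¹ * U⁻¹ with hh'
  have hhh : h * h' = 1 := by
    rw [hh, hh', Matrix.mul_assoc, ← Matrix.mul_assoc K, Kinv', Matrix.one_mul, Uinv']
  have hh'h : h' * h = 1 := by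
    rw [hh, hh', Matrix.mul_assoc, ← Matrix.mul_assoc U⁻¹, Uinv, Matrix.one_mul, Kinv]
  have conj_sq : ∀ s : Matrix (Fin (m + 1)) (Fin (m + 1)) ℂ, s * s = 1 →
      (h * s * h') * (h * s * h') = 1 := by
    intro s hs
    calc (h * s * h') * (h * s * h') = h * s * (h' * h) * s * h' := by
          simp only [Matrix.mul_assoc]
      _ = h * (s * s) * h' := by rw [hh'h]; simp only [Matrix.mul_assoc, Matrix.one_mul]
      _ = 1 := by rw [hs, Matrix.mul_one, hhh]
  refine ⟨U * P⁻¹, P * U⁻¹, h * s3 * h', h * s2 * h', h * s1 * h', ?_, ?_, conj_sq s3 hs3,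
    conj_sq s2 hs2, conj_sq s1 hs1, ?_⟩
  · rw [Matrix.mul_assoc, ← Matrix.mul_assoc P⁻¹, Pinv, Matrix.one_mul, Uinv']
  · rw [Matrix.mul_assoc, ← Matrix.mul_assoc U⁻¹, Uinv, Matrix.one_mul, Pinv']
  · -- `g H g' = L h C h'`
    have k1 : U * P⁻¹ * H * (P * U⁻¹) = L * (h * C * h') := by
      have k2 : U * C' = L * (U * K * C * K⁻¹) := by
        have k3 : U * K * C * K⁻¹ = L⁻¹ * U * C' := by
          calc U * K * C * K⁻¹ = U * (K * C) * K⁻¹ := by simp only [Matrix.mul_assoc]
            _ = U * (N * K) * K⁻¹ := by rw [hNK]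
            _ = U * N * (K * K⁻¹) := by simp only [Matrix.mul_assoc]
            _ = U * R * C' := by rw [Kinv', Matrix.mul_one, hN, Matrix.mul_assoc]
            _ = L⁻¹ * U * C' := by rw [hUR]
        rw [k3, Matrix.mul_assoc, ← Matrix.mul_assoc L, Linv', Matrix.one_mul]
      calc U * P⁻¹ * H * (P * U⁻¹) = U * (P⁻¹ * (H * P)) * U⁻¹ := by
            simp only [Matrix.mul_assoc]
        _ = U * C' * U⁻¹ := by rw [hC']
        _ = L * (U * K * C * K⁻¹) * U⁻¹ := by rw [k2]
        _ = L * (h * C * h') := by rw [hh, hh']; simp only [Matrix.mul_assoc]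
    have k4 : h * s3 * h' * (h * s2 * h') * (h * s1 * h') = h * (s3 * s2 * s1) * h' := by
      calc h * s3 * h' * (h * s2 * h') * (h * s1 * h') =
          h * s3 * (h' * h) * s2 * (h' * h) * s1 * h' := by simp only [Matrix.mul_assoc]
        _ = _ := by rw [hh'h]; simp only [Matrix.mul_assoc, Matrix.one_mul]
    have k5 : C * (s3 * s2 * s1) = 1 := by
      rw [hCs]
      calc s1 * s2 * s3 * (s3 * s2 * s1) = s1 * (s2 * ((s3 * s3) * (s2 * s1))) := by
            simp only [Matrix.mul_assoc]
        _ = s1 * ((s2 * s2) * s1) := by rw [hs3, Matrix.one_mul]; simp only [Matrix.mul_assoc]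
        _ = 1 := by rw [hs2, Matrix.one_mul, hs1]
    rw [k1, k4]
    calc L = L * (h * (C * (s3 * s2 * s1)) * h') := by rw [k5, Matrix.mul_one, hhh, Matrix.mul_one]
      _ = L * (h * C * ((h' * h) * (s3 * s2 * s1)) * h') := by
          rw [hh'h, Matrix.one_mul]; simp only [Matrix.mul_assoc]
      _ = L * (h * C * h') * (h * (s3 * s2 * s1) * h') := by simp only [Matrix.mul_assoc]

end Pool.Helper89.Rev
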