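import Mathlib

/-!
# Orders and substitution of formal power series
-/

namespace Pool.Helper89.Rev

open MvPowerSeries Finset

variable {n : ℕ}

/-- all coefficients of degree `< d` vanish -/
def E (d : ℕ) (φ : MvPowerSeries (Fin n) ℂ) : Prop :=
  ∀ a : Fin n →₀ ℕ, a.degree < d → coeff a φ = 0

lemma E_iff_order {d : ℕ} {φ : MvPowerSeries (Fin n) ℂ} : E d φ ↔ (d : ℕ∞) ≤ φ.order := by
  constructor
  · intro h
    exact nat_le_order h
  · intro h a ha
    exact coeff_of_lt_order (lt_of_lt_of_le (by exact_mod_cast ha) h)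

lemma E.mono {d d' : ℕ} {φ : MvPowerSeries (Fin n) ℂ} (h : E d φ) (hd : d' ≤ d) : E d' φ :=
  fun a ha => h a (lt_of_lt_of_le ha hd)

lemma E_zero (d : ℕ) : E d (0 : MvPowerSeries (Fin n) ℂ) := fun a _ => by simp

lemma E_zero_deg (φ : MvPowerSeries (Fin n) ℂ) : E 0 φ := fun a ha => absurd ha (Nat.not_lt_zero _)

lemma E.add {d : ℕ} {φ ψ : MvPowerSeries (Fin n) ℂ} (h : E d φ) (h' : E d ψ) : E d (φ + ψ) :=
  fun a ha => by rw [map_add, h a ha, h' a ha, add_zero]

lemma E.sub {d : ℕ} {φ ψ : MvPowerSeries (Fin n) ℂ} (h : E d φ) (h' : E d ψ) : E d (φ - ψ) :=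
  fun a ha => by rw [map_sub, h a ha, h' a ha, sub_zero]

lemma E.neg {d : ℕ} {φ : MvPowerSeries (Fin n) ℂ} (h : E d φ) : E d (-φ) :=
  fun a ha => by rw [map_neg, h a ha, neg_zero]

lemma E.mul {d d' : ℕ} {φ ψ : MvPowerSeries (Fin n) ℂ} (h : E d φ) (h' : E d' ψ) :
    E (d + d') (φ * ψ) := by
  rw [E_iff_order] at *
  refine le_trans ?_ le_order_mul
  push_cast
  exact add_le_add h h'

lemma E.mul_left {d : ℕ} {φ : MvPowerSeries (Fin n) ℂ} (h : E d φ) (ψ : MvPowerSeries (Fin n) ℂ) :
    E d (ψ * φ) := by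
  have := (E_zero_deg ψ).mul h
  rwa [zero_add] at this

lemma E.sum {ι : Type*} {d : ℕ} (s : Finset ι) {φ : ι → MvPowerSeries (Fin n) ℂ}
    (h : ∀ i ∈ s, E d (φ i)) : E d (∑ i ∈ s, φ i) := by
  intro a ha
  rw [map_sum]
  exact Finset.sum_eq_zero fun i hi => h i hi a ha

lemma E_one_iff {φ : MvPowerSeries (Fin n) ℂ} : E 1 φ ↔ constantCoeff φ = 0 := by
  constructor
  · intro h
    rw [← coeff_zero_eq_constantCoeff_apply]
    exact h 0 (by simp)
  · intro h a ha
    have h1 : a.degree = 0 := by omega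
    have h2 : a = 0 := (Finsupp.degree_eq_zero_iff a).1 h1
    rw [h2, coeff_zero_eq_constantCoeff_apply, h]

lemma E_all_eq_zero {φ : MvPowerSeries (Fin n) ℂ} (h : ∀ d, E d φ) : φ = 0 := by
  ext a
  rw [h (a.degree + 1) a (Nat.lt_succ_self _)]
  simp

/-- comparison of two monomials of the same shape -/
def Rel (d p : ℕ) (X Y : MvPowerSeries (Fin n) ℂ) : Prop :=
  E p X ∧ E p Y ∧ E (p + (d - 1)) (X - Y)

lemma Rel.mul {d p q : ℕ} {X Y X' Y' : MvPowerSeries (Fin n) ℂ} (h : Rel d p X Y)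
    (h' : Rel d q X' Y') : Rel d (p + q) (X * X') (Y * Y') := by
  refine ⟨h.1.mul h'.1, h.2.1.mul h'.2.1, ?_⟩
  have e : X * X' - Y * Y' = (X - Y) * X' + Y * (X' - Y') := by ring
  rw [e]
  apply E.add
  · have := h.2.2.mul h'.1
    have e2 : p + (d - 1) + q = p + q + (d - 1) := by omega
    rwa [e2] at this
  · have := h.2.1.mul h'.2.2
    have e2 : p + (q + (d - 1)) = p + q + (d - 1) := by omega
    rwa [e2] at this

lemma Rel_one (d : ℕ) : Rel d 0 (1 : MvPowerSeries (Fin n) ℂ) 1 :=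
  ⟨E_zero_deg _, E_zero_deg _, by rw [sub_self]; exact E_zero _⟩

lemma Rel.pow {d : ℕ} {X Y : MvPowerSeries (Fin n) ℂ} (h : Rel d 1 X Y) (k : ℕ) :
    Rel d k (X ^ k) (Y ^ k) := by
  induction k with
  | zero => simpa using Rel_one d
  | succ k ih =>
    rw [pow_succ, pow_succ]
    exact ih.mul h

lemma Rel.prod {d : ℕ} {a b : Fin n → MvPowerSeries (Fin n) ℂ} (h : ∀ i, Rel d 1 (a i) (b i))
    (α : Fin n → ℕ) (s : Finset (Fin n)) :
    Rel d (∑ i ∈ s, α i) (∏ i ∈ s, a i ^ α i) (∏ i ∈ s, b i ^ α i) := by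
  classical
  induction s using Finset.induction_on with
  | empty => simpa using Rel_one d
  | insert i s hi ih =>
    rw [Finset.sum_insert hi, Finset.prod_insert hi, Finset.prod_insert hi]
    exact ((h i).pow (α i)).mul ih

/-- the monomial of exponent `α` evaluated at `a` -/
noncomputable def mon (a : Fin n → MvPowerSeries (Fin n) ℂ) (α : Fin n →₀ ℕ) :
    MvPowerSeries (Fin n) ℂ := α.prod fun s e => a s ^ e

lemma mon_eq (a : Fin n → MvPowerSeries (Fin n) ℂ) (α : Fin n →₀ ℕ) :
    mon a α = ∏ i, a i ^ α i := by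
  unfold mon
  rw [Finsupp.prod_fintype]
  intro i
  exact pow_zero _

lemma Rel_mon {d : ℕ} {a b : Fin n → MvPowerSeries (Fin n) ℂ} (h : ∀ i, Rel d 1 (a i) (b i))
    (α : Fin n →₀ ℕ) : Rel d α.degree (mon a α) (mon b α) := by
  have := Rel.prod h (⇑α) univ
  rw [← mon_eq, ← mon_eq, ← Finsupp.degree_eq_sum] at this
  exact this

/-- tuples with zero constant term -/
def Z (a : Fin n → MvPowerSeries (Fin n) ℂ) : Prop := ∀ i, E 1 (a i)

lemma Z.hasSubst {a : Fin n → MvPowerSeries (Fin n) ℂ} (h : Z a) : HasSubst a :=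
  hasSubst_of_constantCoeff_zero fun i => E_one_iff.1 (h i)

lemma coeff_subst' {a : Fin n → MvPowerSeries (Fin n) ℂ} (h : Z a) (f : MvPowerSeries (Fin n) ℂ)
    (e : Fin n →₀ ℕ) :
    coeff e (subst a f) = finsum (fun α => coeff α f * coeff e (mon a α)) := by
  rw [coeff_subst h.hasSubst]
  rfl

lemma finite_support' {a : Fin n → MvPowerSeries (Fin n) ℂ} (h : Z a)
    (f : MvPowerSeries (Fin n) ℂ) (e : Fin n →₀ ℕ) :
    (fun α => coeff α f * coeff e (mon a α)).HasFiniteSupport :=
  coeff_subst_finite h.hasSubst f e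

lemma E_mon {a : Fin n → MvPowerSeries (Fin n) ℂ} (h : Z a) (α : Fin n →₀ ℕ) :
    E α.degree (mon a α) :=
  (Rel_mon (d := 1) (fun i => ⟨h i, h i, by rw [sub_self]; exact E_zero _⟩) α).1

/-- substitution preserves the order -/
lemma E.subst {d : ℕ} {f : MvPowerSeries (Fin n) ℂ} (hf : E d f)
    {a : Fin n → MvPowerSeries (Fin n) ℂ} (h : Z a) : E d (MvPowerSeries.subst a f) := by
  intro e he
  rw [coeff_subst' h]
  apply finsum_eq_zero_of_forall_eq_zero
  intro α
  by_cases hα : α.degree < d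
  · rw [hf α hα, zero_mul]
  · rw [E_mon h α e (lt_of_lt_of_le he (not_lt.1 hα)), mul_zero]

/-- substitution of congruent arguments -/
lemma subst_congr {d : ℕ} (hd : 1 ≤ d) (f : MvPowerSeries (Fin n) ℂ)
    {a b : Fin n → MvPowerSeries (Fin n) ℂ} (ha : Z a) (hb : Z b)
    (hab : ∀ i, E d (a i - b i)) : E d (subst a f - subst b f) := by
  intro e he
  rw [map_sub, sub_eq_zero, coeff_subst' ha, coeff_subst' hb]
  apply finsum_congr
  intro α
  by_cases h0 : α = 0
  · subst h0
    simp [mon]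
  · have h1 : 1 ≤ α.degree := by
      rw [Nat.one_le_iff_ne_zero]
      intro h
      exact h0 ((Finsupp.degree_eq_zero_iff α).1 h)
    have h2 := (Rel_mon (d := d) (fun i => ⟨ha i, hb i, by
      have e : 1 + (d - 1) = d := by omega
      rw [e]; exact hab i⟩) α).2.2 e (by omega)
    rw [map_sub, sub_eq_zero] at h2
    rw [h2]

/-- congruent arguments modulo order two in a series of order `d` -/
lemma subst_congr_two {d : ℕ} {f : MvPowerSeries (Fin n) ℂ} (hf : E d f)
    {a b : Fin n → MvPowerSeries (Fin n) ℂ} (ha : Z a) (hb : Z b)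
    (hab : ∀ i, E 2 (a i - b i)) : E (d + 1) (subst a f - subst b f) := by
  intro e he
  rw [map_sub, sub_eq_zero, coeff_subst' ha, coeff_subst' hb]
  apply finsum_congr
  intro α
  by_cases hα : α.degree < d
  · rw [hf α hα, zero_mul, zero_mul]
  · have h2 := (Rel_mon (d := 2) (fun i => ⟨ha i, hb i, hab i⟩) α).2.2 e (by omega)
    rw [map_sub, sub_eq_zero] at h2
    rw [h2]

lemma exists_single_of_degree_one {α : Fin n →₀ ℕ} (h : α.degree = 1) :
    ∃ i, Finsupp.single i 1 = α := by
  rw [Finsupp.degree_eq_sum] at h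
  obtain ⟨i, hi⟩ : ∃ i, α i ≠ 0 := by
    by_contra hcon
    push Not at hcon
    rw [Finset.sum_eq_zero (fun i _ => hcon i)] at h
    exact zero_ne_one h
  refine ⟨i, ?_⟩
  have h1 : α i ≤ 1 := by
    rw [← h]
    exact Finset.single_le_sum (f := fun i => α i) (fun _ _ => Nat.zero_le _) (mem_univ i)
  have h2 : α i = 1 := by omega
  ext j
  by_cases hj : j = i
  · subst hj
    simp [h2]
  · rw [Finsupp.single_eq_of_ne hj]
    by_contra hne
    have h3 : α i + α j ≤ ∑ k, α k := by
      rw [← Finset.add_sum_erase univ (fun k => α k) (mem_univ i)]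
      apply Nat.add_le_add_left
      exact Finset.single_le_sum (f := fun i => α i) (fun _ _ => Nat.zero_le _)
        (mem_erase.2 ⟨hj, mem_univ j⟩)
    omega

/-- first order Taylor expansion -/
lemma subst_taylor {d : ℕ} (hd : 1 ≤ d) (f : MvPowerSeries (Fin n) ℂ)
    {a ε : Fin n → MvPowerSeries (Fin n) ℂ} (ha : Z a) (hε : ∀ i, E d (ε i)) :
    E (d + 1) (subst (fun i => a i + ε i) f - subst a f -
      ∑ i, C (coeff (Finsupp.single i 1) f) * ε i) := by
  classical
  have hε1 : Z ε := fun i => (hε i).mono hd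
  have hb : Z (fun i => a i + ε i) := fun i => (ha i).add (hε1 i)
  intro e he
  rw [map_sub, map_sub, coeff_subst' hb, coeff_subst' ha,
    ← finsum_sub_distrib (finite_support' hb f e) (finite_support' ha f e)]
  have hR := Rel_mon (d := d) (a := fun i => a i + ε i) (b := a) (fun i => ⟨hb i, ha i, by
      have e : 1 + (d - 1) = d := by omega
      rw [e, add_sub_cancel_left]; exact hε i⟩)
  have hsupp : Function.support (fun α => coeff α f * coeff e (mon (fun i => a i + ε i) α) -
      coeff α f * coeff e (mon a α)) ⊆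
      ((univ : Finset (Fin n)).image (fun i => Finsupp.single i 1) : Finset (Fin n →₀ ℕ)) := by
    intro α hα
    rw [Function.mem_support] at hα
    by_contra hcon
    apply hα
    rw [← mul_sub, ← map_sub]
    by_cases h0 : α = 0
    · subst h0
      simp [mon]
    · have h1 : α.degree ≠ 0 := fun h => h0 ((Finsupp.degree_eq_zero_iff α).1 h)
      have h2 : α.degree ≠ 1 := by
        intro h
        apply hcon
        obtain ⟨i, hi⟩ := exists_single_of_degree_one h
        rw [Finset.mem_coe, Finset.mem_image]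
        exact ⟨i, mem_univ _, hi⟩
      rw [(hR α).2.2 e (by omega), mul_zero]
  rw [finsum_eq_sum_of_support_subset _ hsupp, Finset.sum_image, map_sum,
    ← Finset.sum_sub_distrib]
  · apply Finset.sum_eq_zero
    intro i _
    have hm : ∀ c : Fin n → MvPowerSeries (Fin n) ℂ, mon c (Finsupp.single i 1) = c i := by
      intro c
      rw [mon_eq, Finset.prod_eq_single i]
      · simp
      · intro j _ hj
        simp [Ne.symm hj]
      · intro h; exact absurd (mem_univ i) h
    rw [hm, hm, map_add, coeff_C_mul]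
    ring
  · intro i _ j _ hij
    exact Finsupp.single_left_injective one_ne_zero hij

end Pool.Helper89.Rev
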