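import Pool.Agent.Helper89.RevFactor

/-!
# The linear package
-/

namespace Pool.Helper89.Rev

open Finset MvPolynomial

variable {n : ℕ}

lemma diagComm_of_equiv {Φ : Fin n → MvPolynomial (Fin n) ℂ} (h1 : EquivT (AJ n) Φ)
    (h2 : EquivT (Jm n) Φ) : DiagComm Φ := by
  intro y j
  have e1 : ∀ (z : Fin n → ℂ), (fun l => ∑ k, Jm n k l * z k) = fun l => z (Fin.rev l) := by
    intro z
    funext l
    rw [Finset.sum_eq_single (Fin.rev l)]
    · rw [Jm_apply, if_pos rfl, one_mul]
    · intro k _ hk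
      rw [Jm_apply, if_neg hk, zero_mul]
    · intro h; exact absurd (mem_univ _) h
  have e2 : ∀ (z : Fin n → ℂ), (fun l => ∑ k, AJ n k l * z k) =
      fun l => bv (Fin.rev l) * z (Fin.rev l) := by
    intro z
    funext l
    rw [Finset.sum_eq_single (Fin.rev l)]
    · rw [AJ_apply, if_pos rfl]
    · intro k _ hk
      rw [AJ_apply, if_neg hk, zero_mul]
    · intro h; exact absurd (mem_univ _) h
  have k2 := h2 (fun l => bv (Fin.rev l) * y (Fin.rev l)) j
  rw [e1] at k2
  simp only [Fin.rev_rev] at k2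
  rw [k2, Finset.sum_eq_single (Fin.rev j)]
  · rw [Jm_apply, if_pos rfl, one_mul]
    have k1 := h1 y (Fin.rev j)
    rw [e2] at k1
    rw [k1, Finset.sum_eq_single j]
    · rw [AJ_apply, Fin.rev_rev, if_pos rfl]
    · intro k _ hk
      rw [AJ_apply, Fin.rev_rev, if_neg hk, zero_mul]
    · intro h; exact absurd (mem_univ _) h
  · intro k _ hk
    rw [Jm_apply, if_neg hk, zero_mul]
  · intro h; exact absurd (mem_univ _) h

lemma reflComm_of_equiv {v : Fin n → ℂ} {Φ : Fin n → MvPolynomial (Fin n) ℂ}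
    (h : EquivT (Sm v) Φ) : ReflComm v Φ := by
  intro y i
  have k := h y i
  have e : (fun l => ∑ k, Sm v k l * y k) = fun l => y l - 2 * (∑ j, y j) * v l := by
    funext l
    have e1 : ∀ k ∈ (univ : Finset (Fin n)), Sm v k l * y k =
        (if k = l then y k else 0) - 2 * v l * y k := by
      intro k _
      rw [Sm_apply]
      split_ifs <;> ring
    rw [Finset.sum_congr rfl e1, Finset.sum_sub_distrib, Finset.sum_ite_eq', if_pos (mem_univ _),
      ← Finset.mul_sum]
    ring
  rw [e] at k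
  rw [k]
  have e1 : ∀ k ∈ (univ : Finset (Fin n)), Sm v k i * eval y (Φ k) =
      (if k = i then eval y (Φ k) else 0) - 2 * v i * eval y (Φ k) := by
    intro k _
    rw [Sm_apply]
    split_ifs <;> ring
  rw [Finset.sum_congr rfl e1, Finset.sum_sub_distrib, Finset.sum_ite_eq', if_pos (mem_univ _),
    ← Finset.mul_sum]
  ring

lemma exists_config (hn : 2 ≤ n) : ∃ (v : Fin n → ℂ) (β γ : ℂ), VShape v β γ ∧ ∑ i, v i = 1 := by
  set cM : ℂ := ∑ i : Fin n, if Fin.rev i = i then 1 else 0 with hcM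
  set cH : ℂ := ∑ i : Fin n, if Fin.rev i < i then 1 else 0 with hcH
  have hcM' : cM = 0 ∨ cM = 1 := by
    by_cases h : ∃ m : Fin n, Fin.rev m = m
    · right
      obtain ⟨m, hm⟩ := h
      rw [hcM, Finset.sum_eq_single m]
      · rw [if_pos hm]
      · intro k _ hk
        rw [if_neg (fun h => hk (rev_eq_unique h hm))]
      · intro h; exact absurd (mem_univ _) h
    · left
      push Not at h
      rw [hcM]
      exact Finset.sum_eq_zero fun k _ => if_neg (h k)
  have hcH0 : cH ≠ 0 := by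
    rw [hcH, Finset.sum_boole]
    have : (Finset.univ.filter (fun i : Fin n => Fin.rev i < i)).Nonempty := by
      refine ⟨⟨n - 1, by omega⟩, ?_⟩
      rw [Finset.mem_filter]
      refine ⟨mem_univ _, ?_⟩
      rw [Fin.lt_def, Fin.val_rev]
      change n - (n - 1 + 1) < n - 1
      omega
    exact Nat.cast_ne_zero.2 (Finset.card_pos.2 this).ne'
  set β : ℂ := (1 - cM / 3) / cH with hβ
  refine ⟨fun i => if i < Fin.rev i then 0 else if Fin.rev i < i then β else 1 / 3, β, 1 / 3,
    ⟨?_, ?_, ?_, ?_, ?_, ?_⟩, ?_⟩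
  · intro i hi
    simp [hi]
  · intro i hi
    have : ¬ (i < Fin.rev i) := not_lt.2 hi.le
    simp [hi, this]
  · intro i hi
    simp [hi]
  · rw [hβ]
    apply div_ne_zero _ hcH0
    rcases hcM' with h | h <;> rw [h] <;> norm_num
  · norm_num
  · norm_num
  · have e : ∀ i ∈ (univ : Finset (Fin n)),
        (if i < Fin.rev i then 0 else if Fin.rev i < i then β else 1 / 3) =
        β * (if Fin.rev i < i then 1 else 0) + (1 / 3) * (if Fin.rev i = i then 1 else 0) := by
      intro i _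
      rcases lt_trichotomy i (Fin.rev i) with h | h | h
      · have h2 : ¬ (Fin.rev i < i) := not_lt.2 h.le
        simp [h, h2, h.ne']
      · have h2 : ¬ (i < Fin.rev i) := by rw [← h]; exact lt_irrefl _
        have h3 : ¬ (Fin.rev i < i) := by rw [← h]; exact lt_irrefl _
        rw [if_neg h2, if_neg h3, if_neg h3, if_pos h.symm]
        ring
      · have h2 : ¬ (i < Fin.rev i) := not_lt.2 h.le
        simp [h, h2, h.ne]
    rw [Finset.sum_congr rfl e, Finset.sum_add_distrib, ← Finset.mul_sum, ← Finset.mul_sum, ← hcM,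
      ← hcH, hβ, div_mul_cancel₀ _ hcH0]
    ring

/-- **The linear package**: three involutive matrices whose linearised equation is solvable in
every degree `≥ 2`, and such that every matrix of determinant `±1` is a conjugate of their product
times three involutive matrices. -/
theorem linear_package (hn : 2 ≤ n) : ∃ t1 t2 t3 : Matrix (Fin n) (Fin n) ℂ,
    t1 * t1 = 1 ∧ t2 * t2 = 1 ∧ t3 * t3 = 1 ∧
    (∀ d, 2 ≤ d → ∀ w : Fin n → MvPolynomial (Fin n) ℂ, HomT d w →
      ∃ e1 e2 e3 : Fin n → MvPolynomial (Fin n) ℂ, HomT d e1 ∧ HomT d e2 ∧ HomT d e3 ∧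
        w = (e1 - act t1 t1 e1) + act t1 t1 (e2 - act t2 t2 e2) +
          act t1 t1 (act t2 t2 (e3 - act t3 t3 e3))) ∧
    ∀ L : Matrix (Fin n) (Fin n) ℂ, L.det * L.det = 1 →
      ∃ g g' s1 s2 s3 : Matrix (Fin n) (Fin n) ℂ, g * g' = 1 ∧ g' * g = 1 ∧
        s1 * s1 = 1 ∧ s2 * s2 = 1 ∧ s3 * s3 = 1 ∧
        L = g * (t1 * t2 * t3) * g' * (s1 * s2 * s3) := by
  obtain ⟨v, β, γ, hv, hsum⟩ := exists_config hn
  refine ⟨AJ n, Jm n, Sm v, AJ_sq n, Jm_sq n, Sm_sq v hsum, ?_, ?_⟩
  · intro d hd w hw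
    apply solve_lin d _ _ _ (AJ_sq n) (Jm_sq n) (Sm_sq v hsum) _ w hw
    intro Φ hΦ h1 h2 h3
    exact no_equivariant hn hd hv (reflComm_of_equiv h3)
      (torusComm_of_diagComm (diagComm_of_equiv h1 h2)) hΦ
  · intro L hL
    exact factor (by omega) v hsum L hL

end Pool.Helper89.Rev
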