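import Pool.Agent.Helper89.RevGroup
import Pool.Agent.Helper89.RevPackage

/-!
# Congruence subgroups and graded pieces
-/

namespace Pool.Helper89.Rev

open MvPowerSeries Finset FormalMap

variable {n : ℕ}

/-- the congruence subgroups of the group of formal maps -/
def K (n d : ℕ) : Subgroup (FormalMap n)ˣ where
  carrier := {u | Cong d (u : FormalMap n) 1}
  mul_mem' {a b} ha hb := by
    have := Cong.mul (d := d) ha hb
    rwa [mul_one] at this
  one_mem' := Cong.refl d _
  inv_mem' {a} ha := by
    have := (Cong.refl d ((a⁻¹ : (FormalMap n)ˣ) : FormalMap n)).mul ha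
    rw [Units.inv_mul, mul_one] at this
    exact this.symm

lemma mem_K {d : ℕ} {u : (FormalMap n)ˣ} : u ∈ K n d ↔ Cong d (u : FormalMap n) 1 := Iff.rfl

instance K_normal (d : ℕ) : (K n d).Normal where
  conj_mem a ha g := by
    have := ((Cong.refl d (g : FormalMap n)).mul (mem_K.1 ha)).mul
      (Cong.refl d ((g⁻¹ : (FormalMap n)ˣ) : FormalMap n))
    rw [mul_one, Units.mul_inv] at this
    exact this

lemma K_mono {d d' : ℕ} (h : d' ≤ d) : K n d ≤ K n d' := fun _ hu => Cong.mono hu h

lemma eq_one_of_mem_K {u : (FormalMap n)ˣ} (h : ∀ d, u ∈ K n d) : u = 1 := by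
  apply Units.ext
  exact eq_of_cong h

/-- the homogeneous part of degree `d`, as a tuple of polynomials -/
noncomputable def gr (d : ℕ) (f : FormalMap n) : Fin n → MvPolynomial (Fin n) ℂ :=
  fun i => ∑ a ∈ piAntidiag (univ : Finset (Fin n)) d,
    MvPolynomial.monomial (Finsupp.equivFunOnFinite.symm a)
      (coeff (Finsupp.equivFunOnFinite.symm a) (f.comp i))

lemma coeff_gr (d : ℕ) (f : FormalMap n) (i : Fin n) (a : Fin n →₀ ℕ) :
    MvPolynomial.coeff a (gr d f i) = if a.degree = d then coeff a (f.comp i) else 0 := by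
  classical
  rw [gr, MvPolynomial.coeff_sum]
  simp only [MvPolynomial.coeff_monomial]
  by_cases h : a.degree = d
  · rw [if_pos h, Finset.sum_eq_single (⇑a)]
    · have e : Finsupp.equivFunOnFinite.symm (⇑a) = a := by
        ext k; simp
      rw [e, if_pos rfl]
    · intro b _ hb
      rw [if_neg]
      intro h4
      apply hb
      rw [← h4]
      funext k
      simp
    · intro h4
      exfalso
      apply h4
      rw [mem_piAntidiag]
      refine ⟨?_, fun _ _ => mem_univ _⟩
      rw [← h, Finsupp.degree_eq_sum]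
  · rw [if_neg h]
    apply Finset.sum_eq_zero
    intro b hb
    rw [if_neg]
    intro h4
    apply h
    rw [← h4, Finsupp.degree_eq_sum]
    rw [mem_piAntidiag] at hb
    simpa using hb.1

lemma gr_hom (d : ℕ) (f : FormalMap n) : HomT d (gr d f) := by
  intro i
  unfold gr
  apply MvPolynomial.IsHomogeneous.sum
  intro a ha
  apply MvPolynomial.isHomogeneous_monomial
  rw [mem_piAntidiag] at ha
  rw [Finsupp.degree_eq_sum]
  simpa using ha.1

lemma coeff_coe (P : MvPolynomial (Fin n) ℂ) (a : Fin n →₀ ℕ) :
    coeff a (P : MvPowerSeries (Fin n) ℂ) = MvPolynomial.coeff a P :=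
  MvPolynomial.coeff_coe P a

lemma E_coe_hom {d : ℕ} {P : MvPolynomial (Fin n) ℂ} (hP : P.IsHomogeneous d) :
    E d (P : MvPowerSeries (Fin n) ℂ) := by
  intro a ha
  rw [coeff_coe]
  exact hP.coeff_eq_zero (by
    intro h
    rw [h] at ha
    exact lt_irrefl _ ha)

/-- expansion of an element of `K d` -/
lemma K_expand {d : ℕ} (hd : 2 ≤ d) {u : (FormalMap n)ˣ} (hu : u ∈ K n d) (i : Fin n) :
    E (d + 1) ((u : FormalMap n).comp i - X i - (gr d (u : FormalMap n) i :
      MvPowerSeries (Fin n) ℂ)) := by
  intro a ha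
  rw [map_sub, coeff_coe, coeff_gr]
  by_cases h : a.degree = d
  · rw [if_pos h, map_sub]
    have : coeff a (X i : MvPowerSeries (Fin n) ℂ) = 0 := by
      rw [coeff_X, if_neg]
      intro h'
      rw [h'] at h
      simp at h
      omega
    rw [this]
    ring
  · rw [if_neg h, sub_zero]
    exact hu i a (by omega)

/-- characterisation of the graded piece -/
lemma gr_unique {d : ℕ} (hd : 2 ≤ d) (f : FormalMap n) {P : Fin n → MvPolynomial (Fin n) ℂ}
    (hP : HomT d P)
    (h : ∀ i, E (d + 1) (f.comp i - X i - (P i : MvPowerSeries (Fin n) ℂ))) : gr d f = P := by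
  funext i
  ext a
  rw [coeff_gr]
  by_cases ha : a.degree = d
  · rw [if_pos ha]
    have h1 := h i a (by omega)
    have : coeff a (X i : MvPowerSeries (Fin n) ℂ) = 0 := by
      rw [coeff_X, if_neg]
      intro h'
      rw [h'] at ha
      simp at ha
      omega
    rw [map_sub, map_sub, this, coeff_coe, sub_zero, sub_eq_zero] at h1
    exact h1
  · rw [if_neg ha, (hP i).coeff_eq_zero ha]

lemma gr_one {d : ℕ} (hd : 2 ≤ d) : gr d (1 : FormalMap n) = 0 := by
  apply gr_unique hd
  · intro i
    exact MvPolynomial.isHomogeneous_zero _ _ _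
  · intro i
    rw [one_comp]
    simp only [sub_self, Pi.zero_apply, MvPolynomial.coe_zero]
    exact E_zero _

/-- (G1) -/
lemma gr_mul {d : ℕ} (hd : 2 ≤ d) {u v : (FormalMap n)ˣ} (hu : u ∈ K n d) (hv : v ∈ K n d) :
    gr d ((u * v : (FormalMap n)ˣ) : FormalMap n) = gr d (u : FormalMap n) +
      gr d (v : FormalMap n) := by
  apply gr_unique hd
  · intro i
    exact (gr_hom d _ i).add (gr_hom d _ i)
  · intro i
    rw [Units.val_mul, mul_comp, Pi.add_apply, MvPolynomial.coe_add]
    have hv2 : ∀ j, E 2 ((v : FormalMap n).comp j - X j) := fun j => (hv j).mono hd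
    have hX : Z (fun j : Fin n => (X j : MvPowerSeries (Fin n) ℂ)) := (1 : FormalMap n).z
    have h1 := subst_congr_two (hu i) (v : FormalMap n).z hX hv2
    have e0 : subst (fun j : Fin n => (X j : MvPowerSeries (Fin n) ℂ))
        ((u : FormalMap n).comp i - (1 : FormalMap n).comp i) =
        (u : FormalMap n).comp i - (1 : FormalMap n).comp i := by
      change subst X _ = _
      rw [subst_self]; rfl
    rw [e0, subst_sub (v : FormalMap n).z.hasSubst, one_comp, subst_X (v : FormalMap n).z.hasSubst]
      at h1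
    have h2 := K_expand hd hu i
    have h3 := K_expand hd hv i
    have e : subst (v : FormalMap n).comp ((u : FormalMap n).comp i) - X i -
        ((gr d (u : FormalMap n) i : MvPowerSeries (Fin n) ℂ) +
          (gr d (v : FormalMap n) i : MvPowerSeries (Fin n) ℂ)) =
        (subst (v : FormalMap n).comp ((u : FormalMap n).comp i) - (v : FormalMap n).comp i -
          ((u : FormalMap n).comp i - X i)) +
        ((u : FormalMap n).comp i - X i - (gr d (u : FormalMap n) i : MvPowerSeries (Fin n) ℂ)) +
        ((v : FormalMap n).comp i - X i - (gr d (v : FormalMap n) i :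
          MvPowerSeries (Fin n) ℂ)) := by ring
    rw [e]
    exact (h1.add h2).add h3

lemma gr_inv {d : ℕ} (hd : 2 ≤ d) {u : (FormalMap n)ˣ} (hu : u ∈ K n d) :
    gr d ((u⁻¹ : (FormalMap n)ˣ) : FormalMap n) = - gr d (u : FormalMap n) := by
  have := gr_mul hd hu ((K n d).inv_mem hu)
  rw [mul_inv_cancel, Units.val_one, gr_one hd] at this
  exact (neg_eq_of_add_eq_zero_right this.symm).symm

/-- (G3) -/
lemma mem_K_succ {d : ℕ} (hd : 2 ≤ d) {u : (FormalMap n)ˣ} (hu : u ∈ K n d)
    (h : gr d (u : FormalMap n) = 0) : u ∈ K n (d + 1) := by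
  intro i
  have h1 := K_expand hd hu i
  rw [h] at h1
  rw [one_comp]
  simpa using h1

/-- (G3') -/
lemma gr_of_mem_K_succ {d : ℕ} (hd : 2 ≤ d) {u : (FormalMap n)ˣ} (hu : u ∈ K n (d + 1)) :
    gr d (u : FormalMap n) = 0 := by
  apply gr_unique hd
  · intro i
    exact MvPolynomial.isHomogeneous_zero _ _ _
  · intro i
    have := hu i
    rw [one_comp] at this
    simpa using this

/-- (G4) -/
lemma exists_gr {d : ℕ} (hd : 2 ≤ d) {P : Fin n → MvPolynomial (Fin n) ℂ} (hP : HomT d P) :
    ∃ u ∈ K n d, gr d (u : FormalMap n) = P := by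
  set f : FormalMap n := ⟨fun i => X i + (P i : MvPowerSeries (Fin n) ℂ), fun i => by
    rw [map_add, E_one_iff.1 ((E_coe_hom (hP i)).mono (by omega))]
    simp⟩ with hf
  have hfc : ∀ i, f.comp i = X i + (P i : MvPowerSeries (Fin n) ℂ) := fun i => rfl
  have hcong : Cong d f 1 := by
    intro i
    rw [hfc, one_comp, add_sub_cancel_left]
    exact E_coe_hom (hP i)
  obtain ⟨u, hu⟩ := isUnit_of_cong_two f (hcong.mono hd)
  refine ⟨u, ?_, ?_⟩
  · rw [mem_K, hu]
    exact hcong
  · rw [hu]
    apply gr_unique hd _ hP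
    intro i
    rw [hfc, add_sub_cancel_left, sub_self]
    exact E_zero _

lemma coe_lin (g : Matrix (Fin n) (Fin n) ℂ) (k : Fin n) :
    ((lin g k : MvPolynomial (Fin n) ℂ) : MvPowerSeries (Fin n) ℂ) = (ofMatrix g).comp k := by
  rw [lin, ofMatrix_comp, ← MvPolynomial.coeToMvPowerSeries.ringHom_apply, map_sum]
  apply Finset.sum_congr rfl
  intro l _
  rw [map_mul, MvPolynomial.coeToMvPowerSeries.ringHom_apply,
    MvPolynomial.coeToMvPowerSeries.ringHom_apply, MvPolynomial.coe_C, MvPolynomial.coe_X]

lemma subst_coe_lin (g : Matrix (Fin n) (Fin n) ℂ) (P : MvPolynomial (Fin n) ℂ) :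
    subst (ofMatrix g).comp (P : MvPowerSeries (Fin n) ℂ) =
      ((MvPolynomial.aeval (lin g) P : MvPolynomial (Fin n) ℂ) : MvPowerSeries (Fin n) ℂ) := by
  rw [subst_coe]
  induction P using MvPolynomial.induction_on with
  | C c =>
    rw [MvPolynomial.aeval_C, MvPolynomial.aeval_C, MvPolynomial.algebraMap_eq, MvPolynomial.coe_C]
    rfl
  | add p q hp hq =>
    rw [map_add, map_add, hp, hq, MvPolynomial.coe_add]
  | mul_X p k hp =>
    rw [map_mul, map_mul, hp, MvPolynomial.aeval_X, MvPolynomial.aeval_X, MvPolynomial.coe_mul,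
      coe_lin]

/-- (G2) -/
lemma gr_conj {d : ℕ} (hd : 2 ≤ d) (f : (FormalMap n)ˣ) {u : (FormalMap n)ˣ} (hu : u ∈ K n d) :
    gr d ((f * u * f⁻¹ : (FormalMap n)ˣ) : FormalMap n) =
      act (linPart (f : FormalMap n)) (linPart ((f⁻¹ : (FormalMap n)ˣ) : FormalMap n))
        (gr d (u : FormalMap n)) := by
  set F : FormalMap n := (f : FormalMap n) with hF
  set F' : FormalMap n := ((f⁻¹ : (FormalMap n)ˣ) : FormalMap n) with hF'
  set U : FormalMap n := (u : FormalMap n) with hU
  apply gr_unique hd
  · exact act_hom (gr_hom d _)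
  · intro i
    rw [Units.val_mul, Units.val_mul, mul_comp, mul_comp]
    -- Taylor
    have hX : Z (fun j : Fin n => (X j : MvPowerSeries (Fin n) ℂ)) := (1 : FormalMap n).z
    have hδ : ∀ j, E d (U.comp j - X j) := hu
    have h1 := subst_taylor (d := d) (by omega) (F.comp i) hX hδ
    have e1 : (fun j => X j + (U.comp j - X j)) = U.comp := by
      funext j; ring
    have e2 : subst (fun j : Fin n => (X j : MvPowerSeries (Fin n) ℂ)) (F.comp i) = F.comp i := by
      change subst X _ = _
      rw [subst_self]; rfl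
    rw [e1, e2] at h1
    -- apply the inverse
    have h2 := h1.subst F'.z
    rw [subst_sub F'.z.hasSubst, subst_sub F'.z.hasSubst, subst_sum F'.z] at h2
    have e3 : subst F'.comp (F.comp i) = X i := by
      have : F * F' = 1 := f.mul_inv
      rw [← mul_comp, this, one_comp]
    rw [e3] at h2
    have e4 : ∀ j, subst F'.comp (C (coeff (Finsupp.single j 1) (F.comp i)) *
        (U.comp j - X j : MvPowerSeries (Fin n) ℂ)) =
        C (linPart F i j) * subst F'.comp (U.comp j - X j) := by
      intro j
      rw [subst_mul F'.z.hasSubst, subst_C' F'.z]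
      rfl
    rw [Finset.sum_congr rfl (fun j _ => e4 j)] at h2
    -- replace the inverse by its linear part, and `U - X` by its homogeneous part
    have h3 : ∀ j, E (d + 1) (subst F'.comp (U.comp j - X j) -
        ((MvPolynomial.aeval (lin (linPart F')) (gr d U j) : MvPolynomial (Fin n) ℂ) :
          MvPowerSeries (Fin n) ℂ)) := by
      intro j
      have a1 : E (d + 1) (subst F'.comp (U.comp j - X j) -
          subst (ofMatrix (linPart F')).comp (U.comp j - X j)) := by
        apply subst_congr_two (hδ j) F'.z (ofMatrix (linPart F')).z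
        apply (cong_two_iff (f := F') (g := ofMatrix (linPart F'))).2
        rw [linPart_ofMatrix]
      have a2 : E (d + 1) (subst (ofMatrix (linPart F')).comp (U.comp j - X j -
          (gr d U j : MvPowerSeries (Fin n) ℂ))) :=
        (K_expand hd hu j).subst (ofMatrix (linPart F')).z
      rw [subst_sub (ofMatrix (linPart F')).z.hasSubst, subst_coe_lin] at a2
      have := a1.add a2
      rwa [sub_add_sub_cancel] at this
    have h4 : E (d + 1) (∑ j, C (linPart F i j) * subst F'.comp (U.comp j - X j) -
        (act (linPart F) (linPart F') (gr d U) i : MvPowerSeries (Fin n) ℂ)) := by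
      have e5 : ((act (linPart F) (linPart F') (gr d U) i : MvPolynomial (Fin n) ℂ) :
          MvPowerSeries (Fin n) ℂ) = ∑ j, C (linPart F i j) *
          ((MvPolynomial.aeval (lin (linPart F')) (gr d U j) : MvPolynomial (Fin n) ℂ) :
          MvPowerSeries (Fin n) ℂ) := by
        rw [act, ← MvPolynomial.coeToMvPowerSeries.ringHom_apply, map_sum]
        apply Finset.sum_congr rfl
        intro j _
        rw [map_mul, MvPolynomial.coeToMvPowerSeries.ringHom_apply,
          MvPolynomial.coeToMvPowerSeries.ringHom_apply, MvPolynomial.coe_C]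
      rw [e5, ← Finset.sum_sub_distrib]
      apply E.sum
      intro j _
      rw [← mul_sub]
      exact (h3 j).mul_left _
    have := h2.add h4
    have e6 : subst F'.comp (subst U.comp (F.comp i)) - X i -
        ∑ j, C (linPart F i j) * subst F'.comp (U.comp j - X j) +
        (∑ j, C (linPart F i j) * subst F'.comp (U.comp j - X j) -
        (act (linPart F) (linPart F') (gr d U) i : MvPowerSeries (Fin n) ℂ)) =
        subst F'.comp (subst U.comp (F.comp i)) - X i -
        (act (linPart F) (linPart F') (gr d U) i : MvPowerSeries (Fin n) ℂ) := by ring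
    rw [e6] at this
    exact this

end Pool.Helper89.Rev
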