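import Pool.Agent.Helper89.RevFormal
import Pool.Agent.Helper89.RevDual

/-!
# The monoid of formal maps and its group of units
-/

namespace Pool.Helper89.Rev

open MvPowerSeries Finset

/-- A formal map `(ℂⁿ, 0) → (ℂⁿ, 0)`: an `n`-tuple of formal power series in `n` variables over `ℂ`
with zero constant terms. -/
@[ext]
structure FormalMap (n : ℕ) where
  /-- the components -/
  comp : Fin n → MvPowerSeries (Fin n) ℂ
  /-- the constant terms vanish -/
  const_zero : ∀ i, MvPowerSeries.constantCoeff (comp i) = 0

variable {n : ℕ}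

namespace FormalMap

lemma z (f : FormalMap n) : Z f.comp := fun i => E_one_iff.2 (f.const_zero i)

/-- formal composition `f ∘ g`: substitute the components of `g` into the components of `f` -/
noncomputable instance : Mul (FormalMap n) :=
  ⟨fun f g => ⟨fun i => MvPowerSeries.subst g.comp (f.comp i), fun i =>
    E_one_iff.1 (E.subst (f.z i) g.z)⟩⟩

/-- the identity `(X_1, …, X_n)` -/
noncomputable instance : One (FormalMap n) :=
  ⟨⟨fun i => MvPowerSeries.X i, fun i => by simp⟩⟩

lemma mul_comp (f g : FormalMap n) (i : Fin n) : (f * g).comp i = subst g.comp (f.comp i) := rfl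

lemma one_comp (i : Fin n) : (1 : FormalMap n).comp i = X i := rfl

lemma ext' {f g : FormalMap n} (h : ∀ i, f.comp i = g.comp i) : f = g := by
  apply FormalMap.ext
  funext i
  exact h i

noncomputable instance : Monoid (FormalMap n) where
  mul_assoc f g h := by
    apply ext'
    intro i
    rw [mul_comp, mul_comp, mul_comp, subst_comp_subst_apply g.z.hasSubst h.z.hasSubst]
    rfl
  one_mul f := by
    apply ext'
    intro i
    rw [mul_comp, one_comp, subst_X f.z.hasSubst]
  mul_one f := by
    apply ext'
    intro i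
    rw [mul_comp]
    change subst X (f.comp i) = _
    rw [subst_self]
    rfl

end FormalMap

open FormalMap

/-- the linear part: the matrix of the coefficients of degree one -/
noncomputable def linPart (f : FormalMap n) : Matrix (Fin n) (Fin n) ℂ :=
  Matrix.of fun i j => MvPowerSeries.coeff (Finsupp.single j 1) (f.comp i)

lemma linPart_apply (f : FormalMap n) (i j : Fin n) :
    linPart f i j = coeff (Finsupp.single j 1) (f.comp i) := rfl

lemma linPart_one : linPart (1 : FormalMap n) = 1 := by
  ext i j
  rw [linPart_apply, one_comp, coeff_X, Matrix.one_apply]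
  congr 1
  apply propext
  constructor
  · intro h
    exact (Finsupp.single_left_injective one_ne_zero h).symm
  · intro h
    rw [h]

lemma linPart_mul (f g : FormalMap n) : linPart (f * g) = linPart f * linPart g := by
  ext i k
  have h := subst_taylor (le_refl 1) (f.comp i) (a := 0) (ε := g.comp)
    (fun _ => E_zero 1) g.z (Finsupp.single k 1) (by simp)
  have e1 : (fun i => (0 : Fin n → MvPowerSeries (Fin n) ℂ) i + g.comp i) = g.comp := by
    funext i
    simp
  rw [e1, subst_zero_of_constantCoeff_zero (f.const_zero i), sub_zero, map_sub, map_sum,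
    sub_eq_zero] at h
  rw [linPart_apply, mul_comp, h, Matrix.mul_apply]
  apply Finset.sum_congr rfl
  intro j _
  rw [coeff_C_mul, linPart_apply, linPart_apply]

/-- the linear part as a monoid homomorphism -/
noncomputable def linHom : FormalMap n →* Matrix (Fin n) (Fin n) ℂ where
  toFun := linPart
  map_one' := linPart_one
  map_mul' := linPart_mul

/-- congruence modulo order `d` -/
def Cong (d : ℕ) (f g : FormalMap n) : Prop := ∀ i, E d (f.comp i - g.comp i)

lemma Cong.refl (d : ℕ) (f : FormalMap n) : Cong d f f := fun i => by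
  rw [sub_self]; exact E_zero _

lemma Cong.symm {d : ℕ} {f g : FormalMap n} (h : Cong d f g) : Cong d g f := fun i => by
  rw [← neg_sub]; exact (h i).neg

lemma Cong.trans {d : ℕ} {f g k : FormalMap n} (h : Cong d f g) (h' : Cong d g k) :
    Cong d f k := fun i => by
  have : f.comp i - k.comp i = (f.comp i - g.comp i) + (g.comp i - k.comp i) := by ring
  rw [this]; exact (h i).add (h' i)

lemma Cong.mono {d d' : ℕ} {f g : FormalMap n} (h : Cong d f g) (hd : d' ≤ d) : Cong d' f g :=
  fun i => (h i).mono hd

lemma Cong.mul {d : ℕ} {f f' g g' : FormalMap n} (h : Cong d f f') (h' : Cong d g g') :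
    Cong d (f * g) (f' * g') := by
  intro i
  by_cases hd : 1 ≤ d
  · rw [mul_comp, mul_comp]
    have e : subst g.comp (f.comp i) - subst g'.comp (f'.comp i) =
      (subst g.comp (f.comp i) - subst g'.comp (f.comp i)) +
        subst g'.comp (f.comp i - f'.comp i) := by
      rw [subst_sub g'.z.hasSubst]
      ring
    rw [e]
    exact (subst_congr hd _ g.z g'.z h').add ((h i).subst g'.z)
  · have : d = 0 := by omega
    subst this
    exact E_zero_deg _

lemma eq_of_cong {f g : FormalMap n} (h : ∀ d, Cong d f g) : f = g := by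
  apply ext'
  intro i
  have := E_all_eq_zero (fun d => h d i)
  exact sub_eq_zero.1 this

lemma cong_two_iff {f g : FormalMap n} : Cong 2 f g ↔ linPart f = linPart g := by
  constructor
  · intro h
    ext i j
    have := h i (Finsupp.single j 1) (by simp)
    rw [map_sub, sub_eq_zero] at this
    exact this
  · intro h i a ha
    rw [map_sub, sub_eq_zero]
    by_cases h1 : a.degree = 1
    · obtain ⟨j, rfl⟩ := exists_single_of_degree_one h1
      exact congrFun (congrFun h i) j
    · have h0 : a = 0 := (Finsupp.degree_eq_zero_iff a).1 (by omega)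
      subst h0
      rw [coeff_zero_eq_constantCoeff_apply, coeff_zero_eq_constantCoeff_apply, f.const_zero,
        g.const_zero]

/-- coherent sequences have limits -/
lemma exists_limit (x : ℕ → FormalMap n) (hx : ∀ k, Cong (k + 2) (x (k + 1)) (x k)) :
    ∃ y : FormalMap n, ∀ k, Cong (k + 2) y (x k) := by
  have key : ∀ k l, k ≤ l → Cong (k + 2) (x l) (x k) := by
    intro k l hkl
    induction l, hkl using Nat.le_induction with
    | base => exact Cong.refl _ _
    | succ l hl ih => exact ((hx l).mono (by omega)).trans ih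
  refine ⟨⟨fun i => fun a => coeff a ((x a.degree).comp i), ?_⟩, ?_⟩
  · intro i
    change coeff 0 ((x (Finsupp.degree (0 : Fin n →₀ ℕ))).comp i) = 0
    rw [coeff_zero_eq_constantCoeff_apply]
    exact (x _).const_zero i
  · intro k i a ha
    rw [map_sub, sub_eq_zero]
    change coeff a ((x a.degree).comp i) = _
    by_cases h : a.degree ≤ k
    · have := key a.degree k h i a (by omega)
      rw [map_sub, sub_eq_zero] at this
      exact this.symm
    · have := key k a.degree (by omega) i a ha
      rw [map_sub, sub_eq_zero] at this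
      exact this

/-- tangent-to-identity maps have right inverses -/
lemma exists_right_inverse (f : FormalMap n) (hf : Cong 2 f 1) :
    ∃ g : FormalMap n, Cong 2 g 1 ∧ f * g = 1 := by
  have hlin : linPart f = 1 := by rw [cong_two_iff.1 hf, linPart_one]
  -- the iteration
  have step : ∀ k (g : FormalMap n), Cong (k + 2) (f * g) 1 →
      ∃ g' : FormalMap n, Cong (k + 3) (f * g') 1 ∧ Cong (k + 2) g' g := by
    intro k g hg
    have hε : ∀ i, E (k + 2) (X i - (f * g).comp i) := fun i => by
      have := (hg i).neg
      rwa [neg_sub] at this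
    have hZ : Z (fun i => g.comp i + (X i - (f * g).comp i)) := fun i =>
      (g.z i).add ((hε i).mono (by omega))
    refine ⟨⟨fun i => g.comp i + (X i - (f * g).comp i), fun i => E_one_iff.1 (hZ i)⟩, ?_, ?_⟩
    · intro i
      have h := subst_taylor (d := k + 2) (by omega) (f.comp i) (a := g.comp)
        (ε := fun i => X i - (f * g).comp i) g.z hε
      have e : ∑ j, C (coeff (Finsupp.single j 1) (f.comp i)) *
          (X j - (f * g).comp j : MvPowerSeries (Fin n) ℂ) = X i - (f * g).comp i := by
        rw [Finset.sum_eq_single i]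
        · rw [← linPart_apply, hlin, Matrix.one_apply_eq, map_one, one_mul]
        · intro j _ hj
          rw [← linPart_apply, hlin, Matrix.one_apply_ne (Ne.symm hj), map_zero, zero_mul]
        · intro h; exact absurd (mem_univ i) h
      rw [e] at h
      rw [mul_comp, one_comp]
      have e2 : subst (fun i => g.comp i + (X i - (f * g).comp i)) (f.comp i) -
          subst g.comp (f.comp i) - (X i - (f * g).comp i) =
          subst (fun i => g.comp i + (X i - (f * g).comp i)) (f.comp i) - X i := by
        rw [← mul_comp f g i]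
        ring
      rw [e2] at h
      exact h
    · intro i
      change E (k + 2) (g.comp i + (X i - (f * g).comp i) - g.comp i)
      rw [add_sub_cancel_left]
      exact hε i
  choose! nxt h1 h2 using step
  -- build the sequence
  set s : ℕ → FormalMap n := fun k => Nat.rec 1 (fun k g => nxt k g) k with hs
  have hs0 : s 0 = 1 := rfl
  have hss : ∀ k, s (k + 1) = nxt k (s k) := fun k => rfl
  have hP : ∀ k, Cong (k + 2) (f * s k) 1 := by
    intro k
    induction k with
    | zero => rw [hs0, mul_one]; exact hf
    | succ k ih => rw [hss]; exact h1 k _ ih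
  have hc : ∀ k, Cong (k + 2) (s (k + 1)) (s k) := by
    intro k
    rw [hss]
    exact h2 k _ (hP k)
  obtain ⟨y, hy⟩ := exists_limit s hc
  refine ⟨y, ?_, ?_⟩
  · have := hy 0
    rwa [hs0] at this
  · apply eq_of_cong
    intro d
    have h3 : Cong (d + 2) (f * y) 1 := ((Cong.refl _ f).mul (hy d)).trans (hP d)
    exact h3.mono (by omega)

lemma isUnit_of_cong_two (f : FormalMap n) (hf : Cong 2 f 1) : IsUnit f := by
  obtain ⟨g, hg, hfg⟩ := exists_right_inverse f hf
  obtain ⟨h, _, hgh⟩ := exists_right_inverse g hg
  have : h = f := by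
    calc h = (f * g) * h := by rw [hfg, one_mul]
      _ = f * (g * h) := by rw [mul_assoc]
      _ = f := by rw [hgh, mul_one]
  refine ⟨⟨f, g, hfg, ?_⟩, rfl⟩
  rw [← this]
  exact hgh

/-- the linear map attached to a matrix -/
noncomputable def ofMatrix (M : Matrix (Fin n) (Fin n) ℂ) : FormalMap n :=
  ⟨fun i => ∑ l, C (M i l) * X l, fun i => by simp⟩

lemma ofMatrix_comp (M : Matrix (Fin n) (Fin n) ℂ) (i : Fin n) :
    (ofMatrix M).comp i = ∑ l, C (M i l) * X l := rfl

lemma ofMatrix_one : ofMatrix (1 : Matrix (Fin n) (Fin n) ℂ) = 1 := by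
  apply ext'
  intro i
  rw [ofMatrix_comp, one_comp, Finset.sum_eq_single i]
  · rw [Matrix.one_apply_eq, map_one, one_mul]
  · intro j _ hj
    rw [Matrix.one_apply_ne (Ne.symm hj), map_zero, zero_mul]
  · intro h; exact absurd (mem_univ i) h

lemma subst_C' {a : Fin n → MvPowerSeries (Fin n) ℂ} (ha : Z a) (c : ℂ) :
    subst a (C c : MvPowerSeries (Fin n) ℂ) = C c := by
  rw [← substAlgHom_apply ha.hasSubst]
  have h := (substAlgHom ha.hasSubst).commutes c
  rw [← MvPowerSeries.c_eq_algebraMap] at h
  exact h

lemma subst_sum {a : Fin n → MvPowerSeries (Fin n) ℂ} (ha : Z a) {ι : Type*} (s : Finset ι)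
    (f : ι → MvPowerSeries (Fin n) ℂ) :
    subst a (∑ i ∈ s, f i) = ∑ i ∈ s, subst a (f i) := by
  simp only [← substAlgHom_apply ha.hasSubst, map_sum]

lemma subst_lin {a : Fin n → MvPowerSeries (Fin n) ℂ} (ha : Z a) (c : Fin n → ℂ) :
    subst a (∑ l, C (c l) * X l : MvPowerSeries (Fin n) ℂ) = ∑ l, C (c l) * a l := by
  rw [subst_sum ha]
  apply Finset.sum_congr rfl
  intro l _
  rw [subst_mul ha.hasSubst, subst_C' ha, subst_X ha.hasSubst]

lemma ofMatrix_mul_comp (M : Matrix (Fin n) (Fin n) ℂ) (f : FormalMap n) (i : Fin n) :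
    (ofMatrix M * f).comp i = ∑ l, C (M i l) * f.comp l := by
  rw [mul_comp, ofMatrix_comp, subst_lin f.z]

lemma ofMatrix_mul (M N : Matrix (Fin n) (Fin n) ℂ) :
    ofMatrix (M * N) = ofMatrix M * ofMatrix N := by
  apply ext'
  intro i
  rw [ofMatrix_mul_comp, ofMatrix_comp]
  simp only [ofMatrix_comp, Finset.mul_sum]
  rw [Finset.sum_comm]
  apply Finset.sum_congr rfl
  intro l _
  rw [Matrix.mul_apply, map_sum, Finset.sum_mul]
  apply Finset.sum_congr rfl
  intro k _
  rw [map_mul, mul_assoc]

lemma linPart_ofMatrix (M : Matrix (Fin n) (Fin n) ℂ) : linPart (ofMatrix M) = M := by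
  ext i j
  rw [linPart_apply, ofMatrix_comp, map_sum, Finset.sum_eq_single j]
  · rw [coeff_C_mul, coeff_X, if_pos rfl, mul_one]
  · intro k _ hk
    rw [coeff_C_mul, coeff_X, if_neg, mul_zero]
    intro h
    exact hk (Finsupp.single_left_injective one_ne_zero h).symm
  · intro h; exact absurd (mem_univ j) h

/-- the formal inverse function theorem: a formal map is invertible if and only if its linear part
is. -/
theorem isUnit_iff (f : FormalMap n) : IsUnit f ↔ (linPart f).det ≠ 0 := by
  constructor
  · intro h
    have h1 : IsUnit (linPart f) := h.map linHom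
    exact isUnit_iff_ne_zero.1 ((Matrix.isUnit_iff_isUnit_det _).1 h1)
  · intro h
    have h1 : linPart f * (linPart f)⁻¹ = 1 :=
      Matrix.mul_nonsing_inv _ (isUnit_iff_ne_zero.2 h)
    have h2 : (linPart f)⁻¹ * linPart f = 1 :=
      Matrix.nonsing_inv_mul _ (isUnit_iff_ne_zero.2 h)
    have h3 : IsUnit (ofMatrix (linPart f)) :=
      ⟨⟨ofMatrix (linPart f), ofMatrix (linPart f)⁻¹, by rw [← ofMatrix_mul, h1, ofMatrix_one],
        by rw [← ofMatrix_mul, h2, ofMatrix_one]⟩, rfl⟩
    have h4 : IsUnit (ofMatrix (linPart f)⁻¹ * f) := by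
      apply isUnit_of_cong_two
      rw [cong_two_iff, linPart_mul, linPart_ofMatrix, h2, linPart_one]
    have h5 : f = ofMatrix (linPart f) * (ofMatrix (linPart f)⁻¹ * f) := by
      rw [← mul_assoc, ← ofMatrix_mul, h1, ofMatrix_one, one_mul]
    rw [h5]
    exact h3.mul h4

end Pool.Helper89.Rev
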