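import Pool.Agent.Helper89.RevApprox

/-!
# A formal map which is not a product of three involutions
-/

namespace Pool.Helper89.Rev

open MvPowerSeries Finset FormalMap

variable {n : ℕ}

lemma lin_comp (g h : Matrix (Fin n) (Fin n) ℂ) (P : MvPolynomial (Fin n) ℂ) :
    MvPolynomial.aeval (lin g) (MvPolynomial.aeval (lin h) P) =
      MvPolynomial.aeval (lin (h * g)) P := by
  have e : ∀ k, MvPolynomial.aeval (lin g) (lin h k) = lin (h * g) k := by
    intro k
    unfold lin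
    rw [map_sum]
    simp only [map_mul, MvPolynomial.aeval_X, MvPolynomial.aeval_C, MvPolynomial.algebraMap_eq,
      Finset.mul_sum]
    rw [Finset.sum_comm]
    apply Finset.sum_congr rfl
    intro l _
    rw [Matrix.mul_apply, map_sum, Finset.sum_mul]
    apply Finset.sum_congr rfl
    intro j _
    rw [map_mul]
    ring
  induction P using MvPolynomial.induction_on with
  | C c => simp only [MvPolynomial.aeval_C, MvPolynomial.algebraMap_eq]
  | add p q hp hq => rw [map_add, map_add, map_add, hp, hq]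
  | mul_X p k hp =>
    rw [map_mul, map_mul, map_mul, hp, MvPolynomial.aeval_X, MvPolynomial.aeval_X, e]

lemma act_act (g g' h h' : Matrix (Fin n) (Fin n) ℂ) (P : Fin n → MvPolynomial (Fin n) ℂ) :
    act g g' (act h h' P) = act (g * h) (h' * g') P := by
  funext i
  unfold act
  simp only [map_sum, map_mul, lin_comp, MvPolynomial.aeval_C, MvPolynomial.algebraMap_eq,
    Finset.mul_sum]
  rw [Finset.sum_comm]
  apply Finset.sum_congr rfl
  intro k _
  rw [Matrix.mul_apply, map_sum, Finset.sum_mul]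
  apply Finset.sum_congr rfl
  intro j _
  rw [map_mul]
  ring

lemma lin_one (k : Fin n) : lin (1 : Matrix (Fin n) (Fin n) ℂ) k = MvPolynomial.X k := by
  unfold lin
  rw [Finset.sum_eq_single k]
  · rw [Matrix.one_apply_eq, map_one, one_mul]
  · intro j _ hj
    rw [Matrix.one_apply_ne (Ne.symm hj), map_zero, zero_mul]
  · intro h; exact absurd (mem_univ _) h

lemma act_one (P : Fin n → MvPolynomial (Fin n) ℂ) : act 1 1 P = P := by
  funext i
  unfold act
  have e : (lin (1 : Matrix (Fin n) (Fin n) ℂ)) = MvPolynomial.X := by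
    funext k; exact lin_one k
  rw [Finset.sum_eq_single i]
  · rw [Matrix.one_apply_eq, map_one, one_mul, e, MvPolynomial.aeval_X_left]
    rfl
  · intro j _ hj
    rw [Matrix.one_apply_ne (Ne.symm hj), map_zero, zero_mul]
  · intro h; exact absurd (mem_univ _) h

/-- the cubic `x_0² · x` -/
noncomputable def cubic (i0 : Fin n) : Fin n → MvPolynomial (Fin n) ℂ :=
  fun i => MvPolynomial.X i0 ^ 2 * MvPolynomial.X i

lemma cubic_hom (i0 : Fin n) : HomT 3 (cubic i0) := by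
  intro i
  exact (MvPolynomial.isHomogeneous_X_pow i0 2).mul (MvPolynomial.isHomogeneous_X _ i)

lemma act_cubic (i0 : Fin n) (t : Matrix (Fin n) (Fin n) ℂ) (ht : t * t = 1) :
    act t t (cubic i0) = fun i => lin t i0 ^ 2 * MvPolynomial.X i := by
  funext i
  unfold act cubic
  simp only [map_mul, map_pow, MvPolynomial.aeval_X]
  have e : ∑ j, MvPolynomial.C (t i j) * (lin t i0 ^ 2 * lin t j) =
      lin t i0 ^ 2 * ∑ j, MvPolynomial.C (t i j) * lin t j := by
    rw [Finset.mul_sum]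
    apply Finset.sum_congr rfl
    intro j _
    ring
  rw [e]
  congr 1
  rw [← lin_one i, ← ht]
  unfold lin
  simp only [Finset.mul_sum]
  rw [Finset.sum_comm]
  apply Finset.sum_congr rfl
  intro l _
  rw [Matrix.mul_apply, map_sum, Finset.sum_mul]
  apply Finset.sum_congr rfl
  intro j _
  rw [map_mul]
  ring

/-- the averaging of the cubic over a Klein four-group does not vanish -/
lemma no_average (i0 : Fin n) (t1 t2 t3 : Matrix (Fin n) (Fin n) ℂ) (h1 : t1 * t1 = 1)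
    (h2 : t2 * t2 = 1) (h3 : t3 * t3 = 1) (h12 : t1 * t2 = t3) (h21 : t2 * t1 = t3)
    (h : cubic i0 + act t1 t1 (cubic i0) + act t2 t2 (cubic i0) + act t3 t3 (cubic i0) = 0) :
    False := by
  have hp : (MvPolynomial.X i0 ^ 2 + lin t1 i0 ^ 2 + lin t2 i0 ^ 2 + lin t3 i0 ^ 2 :
      MvPolynomial (Fin n) ℂ) = 0 := by
    have := congrFun h i0
    rw [act_cubic i0 t1 h1, act_cubic i0 t2 h2, act_cubic i0 t3 h3] at this
    simp only [Pi.add_apply, Pi.zero_apply, cubic] at this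
    have e : (MvPolynomial.X i0 ^ 2 + lin t1 i0 ^ 2 + lin t2 i0 ^ 2 + lin t3 i0 ^ 2) *
        (MvPolynomial.X i0 : MvPolynomial (Fin n) ℂ) = 0 := by
      rw [← this]; ring
    exact (mul_eq_zero.1 e).resolve_right (MvPolynomial.X_ne_zero i0)
  have hev : ∀ y : Fin n → ℂ, y i0 ^ 2 + (t1.mulVec y i0) ^ 2 + (t2.mulVec y i0) ^ 2 +
      (t3.mulVec y i0) ^ 2 = 0 := by
    intro y
    have := congrArg (MvPolynomial.eval y) hp
    have e : ∀ t : Matrix (Fin n) (Fin n) ℂ, MvPolynomial.eval y (lin t i0) = t.mulVec y i0 := by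
      intro t
      unfold lin
      rw [map_sum]
      simp [Matrix.mulVec, dotProduct]
    simpa [e] using this
  have h13 : t1 * t3 = t2 := by rw [← h12, ← mul_assoc, h1, one_mul]
  have h23 : t2 * t3 = t1 := by rw [← h21, ← mul_assoc, h2, one_mul]
  have h31 : t3 * t1 = t2 := by rw [← h21, mul_assoc, h1, mul_one]
  have h32 : t3 * t2 = t1 := by rw [← h12, mul_assoc, h2, mul_one]
  have key : ∀ a b : ℂ, a * a = 1 → b * b = 1 →
      1 + a * t1 i0 i0 + b * t2 i0 i0 + a * b * t3 i0 i0 = 0 := by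
    intro a b ha hb
    set M : Matrix (Fin n) (Fin n) ℂ := 1 + a • t1 + b • t2 + (a * b) • t3 with hM
    have m1 : t1 * M = a • M := by
      rw [hM]
      simp only [mul_add, mul_one, Matrix.mul_smul, h1, h12, h13, smul_add, smul_smul, ha]
      have e1 : a * (a * b) = b := by rw [← mul_assoc, ha, one_mul]
      rw [e1, one_smul]
      abel
    have m2 : t2 * M = b • M := by
      rw [hM]
      simp only [mul_add, mul_one, Matrix.mul_smul, h2, h21, h23, smul_add, smul_smul, hb]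
      have e1 : b * (a * b) = a := by
        calc b * (a * b) = a * (b * b) := by ring
          _ = a := by rw [hb, mul_one]
      have e2 : b * a = a * b := mul_comm _ _
      rw [e1, e2, one_smul]
      abel
    have m3 : t3 * M = (a * b) • M := by
      rw [← h12, mul_assoc, m2, Matrix.mul_smul, m1, smul_smul, mul_comm]
    set y : Fin n → ℂ := fun i => M i i0 with hy
    have ev : ∀ (t : Matrix (Fin n) (Fin n) ℂ) (c : ℂ), t * M = c • M →
        t.mulVec y i0 = c * y i0 := by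
      intro t c htc
      have := congrFun (congrFun htc i0) i0
      rw [Matrix.mul_apply] at this
      exact this
    have h := hev y
    rw [ev t1 a m1, ev t2 b m2, ev t3 (a * b) m3] at h
    have e : y i0 ^ 2 + (a * y i0) ^ 2 + (b * y i0) ^ 2 + (a * b * y i0) ^ 2 =
        (1 + a * a) * (1 + b * b) * y i0 ^ 2 := by ring
    rw [e, ha, hb] at h
    have h0 : y i0 ^ 2 = 0 := by
      have : (1 + 1 : ℂ) * (1 + 1) ≠ 0 := by norm_num
      exact (mul_eq_zero.1 h).resolve_left this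
    have h0' : y i0 = 0 := pow_eq_zero_iff (two_ne_zero) |>.1 h0
    rw [hy, hM] at h0'
    simpa [Matrix.add_apply, Matrix.smul_apply] using h0'
  have k1 := key 1 1 (by norm_num) (by norm_num)
  have k2 := key 1 (-1) (by norm_num) (by norm_num)
  have k3 := key (-1) 1 (by norm_num) (by norm_num)
  have k4 := key (-1) (-1) (by norm_num) (by norm_num)
  have : (4 : ℂ) = 0 := by linear_combination k1 + k2 + k3 + k4
  norm_num at this

section cocycle

/-- the linearisation of an involution -/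
noncomputable def Tl (t : Matrix (Fin n) (Fin n) ℂ) (ht : t * t = 1) : (FormalMap n)ˣ :=
  unitOf t t ht ht

lemma Tl_lin (t : Matrix (Fin n) (Fin n) ℂ) (ht : t * t = 1) :
    linPart (Tl t ht : FormalMap n) = t := linPart_unitOf _ _ _ _

lemma Tl_sq (t : Matrix (Fin n) (Fin n) ℂ) (ht : t * t = 1) : Tl t ht * Tl t ht = 1 := by
  apply Units.ext
  change ofMatrix t * ofMatrix t = 1
  rw [← ofMatrix_mul, ht, ofMatrix_one]

lemma Tl_inv (t : Matrix (Fin n) (Fin n) ℂ) (ht : t * t = 1) : (Tl t ht)⁻¹ = Tl t ht :=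
  inv_eq_of_mul_eq_one_left (Tl_sq t ht)

lemma Tl_mul {t t' t'' : Matrix (Fin n) (Fin n) ℂ} (ht : t * t = 1) (ht' : t' * t' = 1)
    (ht'' : t'' * t'' = 1) (h : t * t' = t'') : Tl t ht * Tl t' ht' = Tl t'' ht'' := by
  apply Units.ext
  change ofMatrix t * ofMatrix t' = ofMatrix t''
  rw [← ofMatrix_mul, h]

lemma mem_K_two_of_lin {s : (FormalMap n)ˣ} {t : Matrix (Fin n) (Fin n) ℂ} (ht : t * t = 1)
    (hs : linPart (s : FormalMap n) = t) : s * (Tl t ht)⁻¹ ∈ K n 2 := by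
  rw [mem_K, cong_two_iff, linPart_one, Tl_inv, Units.val_mul, linPart_mul, hs, Tl_lin, ht]

/-- the cocycle identity -/
lemma cocycle {d : ℕ} (hd : 2 ≤ d) {s s' s'' : (FormalMap n)ˣ}
    {t t' t'' : Matrix (Fin n) (Fin n) ℂ}
    (ht : t * t = 1) (ht' : t' * t' = 1) (ht'' : t'' * t'' = 1) (h : t * t' = t'')
    (hs : s * (Tl t ht)⁻¹ ∈ K n d) (hs' : s' * (Tl t' ht')⁻¹ ∈ K n d)
    (hs'' : s'' * (Tl t'' ht'')⁻¹ ∈ K n d) (hc : s * s' * s''⁻¹ ∈ K n (d + 1)) :
    gr d ((s'' * (Tl t'' ht'')⁻¹ : (FormalMap n)ˣ) : FormalMap n) =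
      gr d ((s * (Tl t ht)⁻¹ : (FormalMap n)ˣ) : FormalMap n) +
        act t t (gr d ((s' * (Tl t' ht')⁻¹ : (FormalMap n)ˣ) : FormalMap n)) := by
  set T := Tl t ht with hT
  set T' := Tl t' ht' with hT'
  set T'' := Tl t'' ht'' with hT''
  have hTT : T * T' = T'' := Tl_mul ht ht' ht'' h
  have e : s * s' * s''⁻¹ * (s'' * T''⁻¹) = (s * T⁻¹) * (T * (s' * T'⁻¹) * T⁻¹) := by
    rw [← hTT]; group
  have m1 : T * (s' * T'⁻¹) * T⁻¹ ∈ K n d := (K_normal d).conj_mem _ hs' T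
  have h1 := gr_mul hd (K_mono (Nat.le_succ d) hc) hs''
  rw [gr_of_mem_K_succ hd hc, zero_add] at h1
  rw [← h1, e, gr_mul hd hs m1, gr_conj hd T hs']
  have hi : T⁻¹ = T := Tl_inv t ht
  rw [hi, hT, Tl_lin]

lemma cocycle_sq {d : ℕ} (hd : 2 ≤ d) {s : (FormalMap n)ˣ} {t : Matrix (Fin n) (Fin n) ℂ}
    (ht : t * t = 1) (hs2 : s * s = 1) (hs : s * (Tl t ht)⁻¹ ∈ K n d) :
    act t t (gr d ((s * (Tl t ht)⁻¹ : (FormalMap n)ˣ) : FormalMap n)) =
      -gr d ((s * (Tl t ht)⁻¹ : (FormalMap n)ˣ) : FormalMap n) := by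
  set T := Tl t ht with hT
  have hTT : T * T = 1 := Tl_sq t ht
  have hi : T⁻¹ = T := Tl_inv t ht
  have m1 : T * (s * T⁻¹) * T⁻¹ ∈ K n d := (K_normal d).conj_mem _ hs T
  have e : (s * T⁻¹) * (T * (s * T⁻¹) * T⁻¹) = 1 := by
    calc (s * T⁻¹) * (T * (s * T⁻¹) * T⁻¹) = (s * s) * (T * T)⁻¹ := by group
      _ = 1 := by rw [hs2, hTT, inv_one, mul_one]
  have h1 := gr_mul hd hs m1
  rw [e, Units.val_one, gr_one hd, gr_conj hd T hs, hi, hT, Tl_lin] at h1
  rw [hT, Tl_inv]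
  exact (neg_eq_of_add_eq_zero_right h1.symm).symm

end cocycle

/-- relations in a group generated by three involutions with trivial product -/
lemma klein {Q : Type*} [Group Q] {a b c : Q} (ha : a * a = 1) (hb : b * b = 1) (hc : c * c = 1)
    (h : a * b * c = 1) : a * b = c ∧ b * a = c ∧ a * c = b ∧ c * a = b ∧ b * c = a ∧ c * b = a := by
  have ia : a⁻¹ = a := inv_eq_of_mul_eq_one_left ha
  have ib : b⁻¹ = b := inv_eq_of_mul_eq_one_left hb
  have ic : c⁻¹ = c := inv_eq_of_mul_eq_one_left hc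
  have h1 : a * b = c := by rw [← ic]; exact eq_inv_of_mul_eq_one_left h
  have h2 : b * a = c := by
    calc b * a = b⁻¹ * a⁻¹ := by rw [ia, ib]
      _ = (a * b)⁻¹ := by group
      _ = c := by rw [h1, ic]
  refine ⟨h1, h2, ?_, ?_, ?_, ?_⟩
  · rw [← h1, ← mul_assoc, ha, one_mul]
  · rw [← h2, mul_assoc, ha, mul_one]
  · rw [← h2, ← mul_assoc, hb, one_mul]
  · rw [← h1, mul_assoc, hb, mul_one]

lemma mem_of_quot {d : ℕ} {a b c : (FormalMap n)ˣ}
    (h : (QuotientGroup.mk a : (FormalMap n)ˣ ⧸ K n d) * QuotientGroup.mk b =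
      QuotientGroup.mk c) : a * b * c⁻¹ ∈ K n d := by
  rw [← QuotientGroup.eq_one_iff, QuotientGroup.mk_mul, QuotientGroup.mk_mul, h,
    QuotientGroup.mk_inv, mul_inv_cancel]

lemma average_aux {V : Type*} [AddCommGroup V] [Module ℂ V] (T : V →ₗ[ℂ] V) {x y z : V}
    (hx : T x = -x) (hy : z = x + T y) (hz : y = x + T z) :
    T ((-(1 / 4) : ℂ) • (x + y + z)) = (-(1 / 4) : ℂ) • (x + y + z) + x := by
  have e1 : T y = z - x := by rw [hy]; abel
  have e2 : T z = y - x := by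
    have := hz
    rw [eq_sub_iff_add_eq, add_comm]
    exact this.symm
  rw [map_smul, map_add, map_add, hx, e1, e2]
  module

/-- **The cubic perturbation of the identity is not a product of three involutions.** -/
theorem not_three_involutions (i0 : Fin n) (F : (FormalMap n)ˣ) (hF : F ∈ K n 3)
    (hgr : gr 3 (F : FormalMap n) = cubic i0) (s1 s2 s3 : (FormalMap n)ˣ) (h1 : s1 * s1 = 1)
    (h2 : s2 * s2 = 1) (h3 : s3 * s3 = 1) : F ≠ s1 * s2 * s3 := by
  intro hprod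
  set t1 := linPart (s1 : FormalMap n) with ht1
  set t2 := linPart (s2 : FormalMap n) with ht2
  set t3 := linPart (s3 : FormalMap n) with ht3
  have hsq : ∀ s : (FormalMap n)ˣ, s * s = 1 → linPart (s : FormalMap n) *
      linPart (s : FormalMap n) = 1 := by
    intro s hs
    rw [← linPart_mul, ← Units.val_mul, hs, Units.val_one, linPart_one]
  have q1 : t1 * t1 = 1 := hsq s1 h1
  have q2 : t2 * t2 = 1 := hsq s2 h2
  have q3 : t3 * t3 = 1 := hsq s3 h3
  -- relations modulo `K 2` and `K 3`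
  have hmk : ∀ d, F ∈ K n d → (QuotientGroup.mk s1 : (FormalMap n)ˣ ⧸ K n d) *
      QuotientGroup.mk s2 * QuotientGroup.mk s3 = 1 := by
    intro d hd
    rw [← QuotientGroup.mk_mul, ← QuotientGroup.mk_mul, ← hprod]
    exact (QuotientGroup.eq_one_iff _).2 hd
  have hmksq : ∀ d (s : (FormalMap n)ˣ), s * s = 1 →
      (QuotientGroup.mk s : (FormalMap n)ˣ ⧸ K n d) * QuotientGroup.mk s = 1 := by
    intro d s hs
    rw [← QuotientGroup.mk_mul, hs]
    rfl
  obtain ⟨c12, c21, c13, c31, c23, c32⟩ := klein (hmksq 3 s1 h1) (hmksq 3 s2 h2) (hmksq 3 s3 h3)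
    (hmk 3 hF)
  have k12 := mem_of_quot c12
  have k21 := mem_of_quot c21
  have k13 := mem_of_quot c13
  have k31 := mem_of_quot c31
  have k23 := mem_of_quot c23
  have k32 := mem_of_quot c32
  have hlinrel : ∀ {a b c : (FormalMap n)ˣ}, a * b * c⁻¹ ∈ K n 3 →
      linPart (a : FormalMap n) * linPart (b : FormalMap n) = linPart (c : FormalMap n) := by
    intro a b c habc
    have h := linPart_of_mem_K (K_mono (by norm_num : 2 ≤ 3) habc)
    rw [Units.val_mul, Units.val_mul, linPart_mul, linPart_mul] at h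
    calc linPart (a : FormalMap n) * linPart (b : FormalMap n) =
        linPart (a : FormalMap n) * linPart (b : FormalMap n) *
          (linPart ((c⁻¹ : (FormalMap n)ˣ) : FormalMap n) * linPart (c : FormalMap n)) := by
          rw [linPart_inv_mul, mul_one]
      _ = (linPart (a : FormalMap n) * linPart (b : FormalMap n) *
          linPart ((c⁻¹ : (FormalMap n)ˣ) : FormalMap n)) * linPart (c : FormalMap n) := by
          simp only [mul_assoc]
      _ = linPart (c : FormalMap n) := by rw [h, one_mul]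
  have r12 : t1 * t2 = t3 := hlinrel k12
  have r21 : t2 * t1 = t3 := hlinrel k21
  have r13 : t1 * t3 = t2 := hlinrel k13
  have r31 : t3 * t1 = t2 := hlinrel k31
  have r23 : t2 * t3 = t1 := hlinrel k23
  have r32 : t3 * t2 = t1 := hlinrel k32
  -- level two
  have two : (2 : ℕ) ≤ 2 := le_refl 2
  have m1 : s1 * (Tl t1 q1)⁻¹ ∈ K n 2 := mem_K_two_of_lin q1 rfl
  have m2 : s2 * (Tl t2 q2)⁻¹ ∈ K n 2 := mem_K_two_of_lin q2 rfl
  have m3 : s3 * (Tl t3 q3)⁻¹ ∈ K n 2 := mem_K_two_of_lin q3 rfl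
  set α1 := gr 2 ((s1 * (Tl t1 q1)⁻¹ : (FormalMap n)ˣ) : FormalMap n) with hα1
  set α2 := gr 2 ((s2 * (Tl t2 q2)⁻¹ : (FormalMap n)ˣ) : FormalMap n) with hα2
  set α3 := gr 2 ((s3 * (Tl t3 q3)⁻¹ : (FormalMap n)ˣ) : FormalMap n) with hα3
  have a11 : act t1 t1 α1 = -α1 := cocycle_sq two q1 h1 m1
  have a22 : act t2 t2 α2 = -α2 := cocycle_sq two q2 h2 m2
  have a33 : act t3 t3 α3 = -α3 := cocycle_sq two q3 h3 m3
  have a12 : α3 = α1 + act t1 t1 α2 := cocycle two q1 q2 q3 r12 m1 m2 m3 k12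
  have a21 : α3 = α2 + act t2 t2 α1 := cocycle two q2 q1 q3 r21 m2 m1 m3 k21
  have a13 : α2 = α1 + act t1 t1 α3 := cocycle two q1 q3 q2 r13 m1 m3 m2 k13
  have a31 : α2 = α3 + act t3 t3 α1 := cocycle two q3 q1 q2 r31 m3 m1 m2 k31
  have a23 : α1 = α2 + act t2 t2 α3 := cocycle two q2 q3 q1 r23 m2 m3 m1 k23
  have a32 : α1 = α3 + act t3 t3 α2 := cocycle two q3 q2 q1 r32 m3 m2 m1 k32
  set υ : Fin n → MvPolynomial (Fin n) ℂ := (-(1 / 4) : ℂ) • (α1 + α2 + α3) with hυ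
  have hυhom : HomT 2 υ := by
    rw [← mem_HomV, hυ]
    apply Submodule.smul_mem
    apply Submodule.add_mem
    · apply Submodule.add_mem
      · exact mem_HomV.2 (gr_hom 2 _)
      · exact mem_HomV.2 (gr_hom 2 _)
    · exact mem_HomV.2 (gr_hom 2 _)
  have u1 : act t1 t1 υ = υ + α1 := average_aux (actL t1 t1) a11 a12 a13
  have u2 : act t2 t2 υ = υ + α2 := by
    have := average_aux (actL t2 t2) (x := α2) (y := α1) (z := α3) a22 a21 a23
    have e : α2 + α1 + α3 = α1 + α2 + α3 := by abel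
    rw [e] at this
    exact this
  have u3 : act t3 t3 υ = υ + α3 := by
    have := average_aux (actL t3 t3) (x := α3) (y := α1) (z := α2) a33 a31 a32
    have e : α3 + α1 + α2 = α1 + α2 + α3 := by abel
    rw [e] at this
    exact this
  obtain ⟨u, hu, hugr⟩ := exists_gr two hυhom
  have conj_mem : ∀ (s : (FormalMap n)ˣ) (t : Matrix (Fin n) (Fin n) ℂ) (ht : t * t = 1)
      (_ : s * (Tl t ht)⁻¹ ∈ K n 2)
      (_ : act t t υ = υ + gr 2 ((s * (Tl t ht)⁻¹ : (FormalMap n)ˣ) : FormalMap n)),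
      (u * s * u⁻¹) * (Tl t ht)⁻¹ ∈ K n 3 := by
    intro s t ht hm hav
    have hui := (K n 2).inv_mem hu
    have e : (u * s * u⁻¹) * (Tl t ht)⁻¹ = u * (s * (Tl t ht)⁻¹) *
        ((Tl t ht) * u⁻¹ * (Tl t ht)⁻¹) := by group
    have mm : (Tl t ht) * u⁻¹ * (Tl t ht)⁻¹ ∈ K n 2 := (K_normal 2).conj_mem _ hui _
    have hmem : (u * s * u⁻¹) * (Tl t ht)⁻¹ ∈ K n 2 := by
      rw [e]
      exact (K n 2).mul_mem ((K n 2).mul_mem hu hm) mm
    apply mem_K_succ two hmem
    rw [e, gr_mul two ((K n 2).mul_mem hu hm) mm, gr_mul two hu hm, gr_conj two _ hui,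
      gr_inv two hu, hugr, Tl_inv, Tl_lin, ← actL_apply, map_neg, actL_apply, hav, Tl_inv]
    abel
  have n1 : (u * s1 * u⁻¹) * (Tl t1 q1)⁻¹ ∈ K n 3 := conj_mem s1 t1 q1 m1 u1
  have n2 : (u * s2 * u⁻¹) * (Tl t2 q2)⁻¹ ∈ K n 3 := conj_mem s2 t2 q2 m2 u2
  have n3 : (u * s3 * u⁻¹) * (Tl t3 q3)⁻¹ ∈ K n 3 := conj_mem s3 t3 q3 m3 u3
  -- level three
  have three : (2 : ℕ) ≤ 3 := by norm_num
  have hconj : ∀ s : (FormalMap n)ˣ, s * s = 1 → (u * s * u⁻¹) * (u * s * u⁻¹) = 1 := by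
    intro s hs
    calc (u * s * u⁻¹) * (u * s * u⁻¹) = u * (s * s) * u⁻¹ := by group
      _ = 1 := by rw [hs, mul_one, mul_inv_cancel]
  set γ1 := gr 3 (((u * s1 * u⁻¹) * (Tl t1 q1)⁻¹ : (FormalMap n)ˣ) : FormalMap n) with hγ1
  set γ2 := gr 3 (((u * s2 * u⁻¹) * (Tl t2 q2)⁻¹ : (FormalMap n)ˣ) : FormalMap n) with hγ2
  set γ3 := gr 3 (((u * s3 * u⁻¹) * (Tl t3 q3)⁻¹ : (FormalMap n)ˣ) : FormalMap n) with hγ3
  have b1 : act t1 t1 γ1 = -γ1 := cocycle_sq three q1 (hconj s1 h1) n1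
  have b2 : act t2 t2 γ2 = -γ2 := cocycle_sq three q2 (hconj s2 h2) n2
  have b3 : act t3 t3 γ3 = -γ3 := cocycle_sq three q3 (hconj s3 h3) n3
  have hui3 : linPart ((u⁻¹ : (FormalMap n)ˣ) : FormalMap n) = 1 :=
    linPart_of_mem_K ((K n 2).inv_mem hu)
  have hu3 : linPart (u : FormalMap n) = 1 := linPart_of_mem_K hu
  have hgr' : gr 3 ((u * F * u⁻¹ : (FormalMap n)ˣ) : FormalMap n) = cubic i0 := by
    rw [gr_conj three u hF, hu3, hui3, act_one, hgr]
  have hT12 : Tl t1 q1 * Tl t2 q2 = Tl t3 q3 := Tl_mul q1 q2 q3 r12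
  have hT33 : Tl t3 q3 * Tl t3 q3 = 1 := Tl_sq t3 q3
  have hdec : u * F * u⁻¹ = ((u * s1 * u⁻¹) * (Tl t1 q1)⁻¹) *
      (Tl t1 q1 * ((u * s2 * u⁻¹) * (Tl t2 q2)⁻¹) * (Tl t1 q1)⁻¹) *
      (Tl t3 q3 * ((u * s3 * u⁻¹) * (Tl t3 q3)⁻¹) * (Tl t3 q3)⁻¹) := by
    calc u * F * u⁻¹ = (u * s1 * u⁻¹) * (u * s2 * u⁻¹) * (u * s3 * u⁻¹) := by
          rw [hprod]; group
      _ = (u * s1 * u⁻¹) * (u * s2 * u⁻¹) * ((Tl t1 q1 * Tl t2 q2)⁻¹ * Tl t3 q3) *
          (u * s3 * u⁻¹) * (Tl t3 q3 * Tl t3 q3)⁻¹ := by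
          rw [hT12, hT33, inv_one, mul_one, inv_mul_cancel, mul_one]
      _ = _ := by group
  have p2 : Tl t1 q1 * ((u * s2 * u⁻¹) * (Tl t2 q2)⁻¹) * (Tl t1 q1)⁻¹ ∈ K n 3 :=
    (K_normal 3).conj_mem _ n2 _
  have p3 : Tl t3 q3 * ((u * s3 * u⁻¹) * (Tl t3 q3)⁻¹) * (Tl t3 q3)⁻¹ ∈ K n 3 :=
    (K_normal 3).conj_mem _ n3 _
  have hcub : cubic i0 = γ1 + act t1 t1 γ2 + act t3 t3 γ3 := by
    rw [← hgr', hdec, gr_mul three ((K n 3).mul_mem n1 p2) p3, gr_mul three n1 p2,
      gr_conj three _ n2, gr_conj three _ n3, Tl_inv t1 q1, Tl_lin, Tl_inv t3 q3, Tl_lin]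
    simp only [hγ1, hγ2, hγ3, Tl_inv]
  -- averages
  have addact : ∀ (t : Matrix (Fin n) (Fin n) ℂ) (x y : Fin n → MvPolynomial (Fin n) ℂ),
      act t t (x + y) = act t t x + act t t y := fun t x y => map_add (actL t t) x y
  have negact : ∀ (t : Matrix (Fin n) (Fin n) ℂ) (x : Fin n → MvPolynomial (Fin n) ℂ),
      act t t (-x) = - act t t x := fun t x => map_neg (actL t t) x
  have c1 : cubic i0 = γ1 + act t1 t1 γ2 - γ3 := by rw [hcub, b3]; abel
  have e12 : ∀ x : Fin n → MvPolynomial (Fin n) ℂ, act t1 t1 (act t2 t2 x) = act t3 t3 x := by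
    intro x; rw [act_act, r12, r21]
  have e21 : ∀ x : Fin n → MvPolynomial (Fin n) ℂ, act t2 t2 (act t1 t1 x) = act t3 t3 x := by
    intro x; rw [act_act, r12, r21]
  have e13 : ∀ x : Fin n → MvPolynomial (Fin n) ℂ, act t1 t1 (act t3 t3 x) = act t2 t2 x := by
    intro x; rw [act_act, r13, r31]
  have e31 : ∀ x : Fin n → MvPolynomial (Fin n) ℂ, act t3 t3 (act t1 t1 x) = act t2 t2 x := by
    intro x; rw [act_act, r13, r31]
  have e11 : ∀ x : Fin n → MvPolynomial (Fin n) ℂ, act t1 t1 (act t1 t1 x) = x := by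
    intro x; rw [act_act, q1, act_one]
  have d1 : act t3 t3 γ1 = - act t2 t2 γ1 := by rw [← e21, b1, negact]
  have d2 : act t3 t3 γ2 = - act t1 t1 γ2 := by rw [← e12, b2, negact]
  have d3 : act t2 t2 γ3 = - act t1 t1 γ3 := by rw [← e13, b3, negact]
  have subact : ∀ (t : Matrix (Fin n) (Fin n) ℂ) (x y : Fin n → MvPolynomial (Fin n) ℂ),
      act t t (x - y) = act t t x - act t t y := fun t x y => map_sub (actL t t) x y
  apply no_average i0 t1 t2 t3 q1 q2 q3 r12 r21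
  rw [c1]
  simp only [subact, addact, e11, e21, e31, b1, b2, b3, d1, d2, d3]
  abel

end Pool.Helper89.Rev
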