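import Pool.Agent.Helper89.RevConfig

/-!
# Commuting with one diagonal matrix with multiplicatively independent entries
-/

namespace Pool.Helper89.Rev

open MvPolynomial Finset

variable {n : ℕ}

/-- the prime attached to an index -/
noncomputable def pr (k : ℕ) : ℕ := Nat.nth Nat.Prime k

lemma pr_prime (k : ℕ) : (pr k).Prime := Nat.prime_nth_prime k

lemma pr_inj {j k : ℕ} (h : pr j = pr k) : j = k :=
  Nat.nth_injective Nat.infinite_setOfPred_prime h

/-- rational diagonal entries -/
noncomputable def bq (i : Fin n) : ℚ :=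
  if i < Fin.rev i then (pr i : ℚ) else if Fin.rev i < i then (pr (Fin.rev i) : ℚ)⁻¹ else 1

/-- complex diagonal entries -/
noncomputable def bv (i : Fin n) : ℂ := ((bq i : ℚ) : ℂ)

lemma bq_ne_zero (i : Fin n) : bq i ≠ 0 := by
  unfold bq
  split_ifs
  · exact_mod_cast (pr_prime _).ne_zero
  · exact inv_ne_zero (by exact_mod_cast (pr_prime _).ne_zero)
  · exact one_ne_zero

lemma bv_ne_zero (i : Fin n) : bv i ≠ 0 := by
  unfold bv
  exact_mod_cast bq_ne_zero i

lemma bq_rev (i : Fin n) : bq i * bq (Fin.rev i) = 1 := by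
  rcases lt_trichotomy i (Fin.rev i) with h | h | h
  · have h2 : ¬ (Fin.rev i < i) := not_lt.2 h.le
    have h3 : (pr i : ℚ) ≠ 0 := by exact_mod_cast (pr_prime _).ne_zero
    simp only [bq, h, h2, Fin.rev_rev, if_true, if_false]
    exact mul_inv_cancel₀ h3
  · have h2 : ¬ (i < Fin.rev i) := by rw [← h]; exact lt_irrefl _
    have h3 : ¬ (Fin.rev i < i) := by rw [← h]; exact lt_irrefl _
    simp [bq, h2, h3, Fin.rev_rev]
  · have h2 : ¬ (i < Fin.rev i) := not_lt.2 h.le
    have h3 : (pr (Fin.rev i) : ℚ) ≠ 0 := by exact_mod_cast (pr_prime _).ne_zero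
    simp only [bq, h, h2, Fin.rev_rev, if_true, if_false]
    exact inv_mul_cancel₀ h3

lemma bv_rev (i : Fin n) : bv i * bv (Fin.rev i) = 1 := by
  unfold bv
  rw [← Rat.cast_mul, bq_rev, Rat.cast_one]

lemma bq_pos (i : Fin n) : 0 < bq i := by
  unfold bq
  split_ifs
  · exact_mod_cast (pr_prime _).pos
  · exact inv_pos.2 (by exact_mod_cast (pr_prime _).pos)
  · exact one_pos

/-- valuations of the entries -/
lemma val_bq (l : Fin n) (hl : l < Fin.rev l) (k : Fin n) :
    padicValRat (pr l) (bq k) = (if k = l then 1 else 0) - (if Fin.rev k = l then 1 else 0) := by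
  have : Fact (pr l).Prime := ⟨pr_prime _⟩
  have key : ∀ j : Fin n, padicValRat (pr l) (pr j : ℚ) = if j = l then 1 else 0 := by
    intro j
    have : Fact (pr j).Prime := ⟨pr_prime _⟩
    rw [padicValRat.of_nat]
    by_cases h : j = l
    · subst h
      simp
    · have hne : pr l ≠ pr j := by
        intro h1
        apply h
        exact (Fin.ext (pr_inj h1)).symm
      rw [padicValNat_primes hne]
      simp [h]
  rcases lt_trichotomy k (Fin.rev k) with h | h | h
  · have h3 : Fin.rev k ≠ l := by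
      intro h4
      rw [← h4, Fin.rev_rev] at hl
      exact lt_asymm hl h
    simp only [bq, h, if_true]
    rw [key k]
    simp [h3]
  · have h2 : ¬ (k < Fin.rev k) := by rw [← h]; exact lt_irrefl _
    have h3 : ¬ (Fin.rev k < k) := by rw [← h]; exact lt_irrefl _
    simp only [bq, h2, h3, if_false]
    rw [padicValRat.one, ← h]
    simp
  · have h2 : ¬ (k < Fin.rev k) := not_lt.2 h.le
    have h3 : k ≠ l := by
      rintro rfl
      exact h2 hl
    simp only [bq, h, h2, if_true, if_false]
    rw [padicValRat.inv, key]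
    simp [h3]

lemma padicValRat_prod {ι : Type*} (p : ℕ) [Fact p.Prime] (s : Finset ι) (f : ι → ℚ)
    (hf : ∀ i, f i ≠ 0) : padicValRat p (∏ i ∈ s, f i) = ∑ i ∈ s, padicValRat p (f i) := by
  classical
  induction s using Finset.induction_on with
  | empty => simp
  | insert a s ha ih =>
    rw [Finset.prod_insert ha, Finset.sum_insert ha, padicValRat.mul (hf a)
      (Finset.prod_ne_zero_iff.2 fun i _ => hf i), ih]

lemma exponent_relation (α : Fin n → ℕ) (i : Fin n) (h : ∏ k, bq k ^ α k = bq i)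
    (k : Fin n) :
    (α k : ℤ) - α (Fin.rev k) = (if i = k then 1 else 0) - (if Fin.rev i = k then 1 else 0) := by
  have low : ∀ l : Fin n, l < Fin.rev l → (α l : ℤ) - α (Fin.rev l) =
      (if i = l then 1 else 0) - (if Fin.rev i = l then 1 else 0) := by
    intro l hl
    have : Fact (pr l).Prime := ⟨pr_prime _⟩
    have h1 := congrArg (padicValRat (pr l)) h
    rw [padicValRat_prod _ _ _ (fun j => pow_ne_zero _ (bq_ne_zero j)), val_bq l hl i] at h1
    rw [← h1]
    have : ∀ j ∈ (univ : Finset (Fin n)), padicValRat (pr l) (bq j ^ α j) =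
        (if j = l then (α j : ℤ) else 0) - (if j = Fin.rev l then (α j : ℤ) else 0) := by
      intro j _
      rw [padicValRat.pow, val_bq l hl j]
      have e : (Fin.rev j = l) ↔ (j = Fin.rev l) := by
        constructor
        · intro h; rw [← h, Fin.rev_rev]
        · intro h; rw [h, Fin.rev_rev]
      simp only [e]
      split_ifs <;> ring
    rw [Finset.sum_congr rfl this, Finset.sum_sub_distrib]
    simp
  rcases lt_trichotomy k (Fin.rev k) with h1 | h1 | h1
  · exact low k h1
  · have e : (Fin.rev i = k) ↔ (i = k) := by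
      constructor
      · intro h; rw [← Fin.rev_rev i, h]; exact h1.symm
      · intro h; rw [h]; exact h1.symm
    rw [← h1]
    simp [e]
  · have h2 := low (Fin.rev k) (by rw [Fin.rev_rev]; exact h1)
    rw [Fin.rev_rev] at h2
    have e1 : (i = Fin.rev k) ↔ (Fin.rev i = k) := by
      constructor
      · intro h; rw [h, Fin.rev_rev]
      · intro h; rw [← h, Fin.rev_rev]
    have e2 : (Fin.rev i = Fin.rev k) ↔ (i = k) :=
      ⟨fun h => Fin.rev_injective h, fun h => by rw [h]⟩
    simp only [e1, e2] at h2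
    linarith

lemma torus_exponent (α : Fin n → ℕ) (i : Fin n)
    (H : ∀ k, (α k : ℤ) - α (Fin.rev k) =
      (if i = k then 1 else 0) - (if Fin.rev i = k then 1 else 0))
    (lam : Fin n → ℂ) (hlam : IsTorus lam) : ∏ k, lam k ^ α k = lam i := by
  classical
  -- square root of the torus element
  have hsq : ∀ z : ℂ, ∃ w : ℂ, z = w * w := fun z => IsAlgClosed.exists_eq_mul_self z
  choose sq hsq using hsq
  have hsq0 : ∀ z : ℂ, z ≠ 0 → sq z ≠ 0 := by
    intro z hz h
    apply hz
    rw [hsq z, h, zero_mul]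
  set ρ : Fin n → ℂ := fun k => if k < Fin.rev k then sq (lam k) else
    if Fin.rev k < k then (sq (lam (Fin.rev k)))⁻¹ else 1 with hρ
  have hρT : IsTorus ρ := by
    constructor
    · intro k
      have a1 := hsq0 _ (hlam.ne_zero k)
      have a2 := hsq0 _ (hlam.ne_zero (Fin.rev k))
      rcases lt_trichotomy k (Fin.rev k) with h | h | h
      · have h2 : ¬ (Fin.rev k < k) := not_lt.2 h.le
        simp [hρ, h, h2, Fin.rev_rev, a1]
      · have h2 : ¬ (k < Fin.rev k) := by rw [← h]; exact lt_irrefl _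
        have h3 : ¬ (Fin.rev k < k) := by rw [← h]; exact lt_irrefl _
        simp [hρ, h2, h3, Fin.rev_rev]
      · have h2 : ¬ (k < Fin.rev k) := not_lt.2 h.le
        simp [hρ, h, h2, Fin.rev_rev, a2]
    · intro k hk
      simp [hρ, hk]
  have hρ2 : ∀ k, ρ k ^ 2 = lam k := by
    intro k
    rcases lt_trichotomy k (Fin.rev k) with h | h | h
    · simp only [hρ, h, if_true]
      rw [pow_two, ← hsq]
    · have h2 : ¬ (k < Fin.rev k) := by rw [← h]; exact lt_irrefl _
      have h3 : ¬ (Fin.rev k < k) := by rw [← h]; exact lt_irrefl _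
      simp only [hρ, h2, h3, if_false]
      rw [hlam.2 k h.symm, one_pow]
    · have h2 : ¬ (k < Fin.rev k) := not_lt.2 h.le
      simp only [hρ, h, h2, if_true, if_false]
      rw [inv_pow, pow_two, ← hsq]
      exact (eq_inv_of_mul_eq_one_left (hlam.1 k)).symm
  have hinv : ∀ k, ρ (Fin.rev k) = (ρ k)⁻¹ := fun k => eq_inv_of_mul_eq_one_right (hρT.1 k)
  have hρ0 := hρT.ne_zero
  have e1 : ∏ k, lam k ^ α k = (∏ k, ρ k ^ (α k : ℤ)) * (∏ k, ρ k ^ (α k : ℤ)) := by
    rw [← Finset.prod_mul_distrib]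
    apply Finset.prod_congr rfl
    intro k _
    rw [← hρ2 k, ← pow_mul, zpow_natCast, ← pow_add]
    congr 1
    omega
  have e2 : ∏ k, ρ k ^ (α k : ℤ) = ∏ k, ρ k ^ (-(α (Fin.rev k) : ℤ)) := by
    rw [← Equiv.prod_comp Fin.revPerm (fun k => ρ k ^ (α k : ℤ))]
    apply Finset.prod_congr rfl
    intro k _
    rw [Fin.revPerm_apply, hinv, inv_zpow']

  have e3 : ∏ k, lam k ^ α k = ∏ k, ρ k ^ ((if i = k then 1 else 0) -
      (if Fin.rev i = k then 1 else 0) : ℤ) := by
    rw [e1]
    nth_rewrite 2 [e2]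
    rw [← Finset.prod_mul_distrib]
    apply Finset.prod_congr rfl
    intro k _
    rw [← zpow_add₀ (hρ0 k), ← H k]
    congr 1
  rw [e3]
  have e4 : ∀ k ∈ (univ : Finset (Fin n)), ρ k ^ ((if i = k then 1 else 0) -
      (if Fin.rev i = k then 1 else 0) : ℤ) =
      (if i = k then ρ k else 1) * (if Fin.rev i = k then (ρ k)⁻¹ else 1) := by
    intro k _
    rw [zpow_sub₀ (hρ0 k)]
    split_ifs <;> simp [div_eq_mul_inv]
  rw [Finset.prod_congr rfl e4, Finset.prod_mul_distrib]
  simp only [Finset.prod_ite_eq, mem_univ, if_true]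
  rw [hinv, inv_inv, ← hρ2 i, pow_two]

/-- commuting with the diagonal matrix `bv` -/
def DiagComm (Φ : Fin n → MvPolynomial (Fin n) ℂ) : Prop :=
  ∀ (y : Fin n → ℂ) (i : Fin n),
    eval (fun k => bv k * y k) (Φ i) = bv i * eval y (Φ i)

lemma coeff_of_diagComm {Φ : Fin n → MvPolynomial (Fin n) ℂ} (h : DiagComm Φ) (i : Fin n)
    (α : Fin n →₀ ℕ) (hα : coeff α (Φ i) ≠ 0) : ∏ k, bv k ^ α k = bv i := by
  classical
  set q : MvPolynomial (Fin n) ℂ := ∑ a ∈ (Φ i).support,
    monomial a (coeff a (Φ i) * (∏ k, bv k ^ a k - bv i)) with hq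
  have hq0 : q = 0 := by
    apply MvPolynomial.funext
    intro y
    have h1 := h y i
    rw [eval_eq', eval_eq', Finset.mul_sum, ← sub_eq_zero, ← Finset.sum_sub_distrib] at h1
    rw [map_zero, ← h1, hq, map_sum]
    apply Finset.sum_congr rfl
    intro a _
    rw [eval_monomial, Finsupp.prod_fintype _ _ (fun k => pow_zero _)]
    have : ∏ k, (bv k * y k) ^ a k = (∏ k, bv k ^ a k) * ∏ k, y k ^ a k := by
      rw [← Finset.prod_mul_distrib]
      apply Finset.prod_congr rfl
      intro k _
      rw [mul_pow]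
    rw [this]
    ring
  have h2 := congrArg (coeff α) hq0
  rw [hq, coeff_sum] at h2
  simp only [coeff_monomial, coeff_zero] at h2
  rw [Finset.sum_ite_eq' _ _ _, if_pos (mem_support_iff.2 hα)] at h2
  have h3 := (mul_eq_zero.1 h2).resolve_left hα
  linear_combination h3

theorem torusComm_of_diagComm {Φ : Fin n → MvPolynomial (Fin n) ℂ} (h : DiagComm Φ) :
    TorusComm Φ := by
  intro lam hlam y i
  rw [eval_eq', eval_eq', Finset.mul_sum]
  apply Finset.sum_congr rfl
  intro α hα
  have h1 := coeff_of_diagComm h i α (mem_support_iff.1 hα)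
  have h2 : ∏ k, bq k ^ α k = bq i := by
    have : ((∏ k, bq k ^ α k : ℚ) : ℂ) = ((bq i : ℚ) : ℂ) := by
      push_cast
      exact h1
    exact_mod_cast this
  have h3 := torus_exponent (fun k => α k) i (exponent_relation (fun k => α k) i h2) lam hlam
  have : ∏ k, (lam k * y k) ^ α k = (∏ k, lam k ^ α k) * ∏ k, y k ^ α k := by
    rw [← Finset.prod_mul_distrib]
    apply Finset.prod_congr rfl
    intro k _
    rw [mul_pow]
  rw [this, h3]
  ring

end Pool.Helper89.Rev
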