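import Mathlib

/-!
# Triangularisation over the complex numbers
-/

namespace Pool.Helper89.Rev

open Finset Module

theorem exists_flag_basis (n : ℕ) : ∀ (V : Type) [AddCommGroup V] [Module ℂ V]
    [FiniteDimensional ℂ V], finrank ℂ V = n → ∀ f : Module.End ℂ V,
    ∃ b : Basis (Fin n) ℂ V, ∀ i j, j < i → b.repr (f (b j)) i = 0 := by
  induction n with
  | zero =>
    intro V _ _ _ hV f
    exact ⟨finBasisOfFinrankEq ℂ V hV, fun i => Fin.elim0 i⟩
  | succ n ih =>
    intro V _ _ _ hV f
    have : Nontrivial V := by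
      apply Module.nontrivial_of_finrank_pos (R := ℂ)
      omega
    obtain ⟨μ, hμ⟩ := f.exists_eigenvalue
    set h : Module.End ℂ V := f - μ • (1 : Module.End ℂ V) with hh
    have hker : LinearMap.ker h ≠ ⊥ := by
      obtain ⟨x, hx⟩ := hμ.exists_hasEigenvector
      intro hbot
      apply hx.2
      have : x ∈ LinearMap.ker h := by
        rw [LinearMap.mem_ker, hh]
        simp [hx.apply_eq_smul]
      rw [hbot, Submodule.mem_bot] at this
      exact this
    have hrange : LinearMap.range h < ⊤ := by
      rw [lt_top_iff_ne_top]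
      intro htop
      exact hker (LinearMap.ker_eq_bot_iff_range_eq_top.2 htop)
    obtain ⟨φ, hφ0, hφ⟩ := Submodule.exists_le_ker_of_lt_top _ hrange
    set W := LinearMap.ker φ with hW
    obtain ⟨y, hy⟩ : ∃ y, φ y ≠ 0 := by
      by_contra hcon
      push Not at hcon
      exact hφ0 (LinearMap.ext hcon)
    have hWf : ∀ w ∈ W, f w ∈ W := by
      intro w hw
      have e : f w = μ • w + h w := by
        rw [hh]; simp
      rw [e]
      exact W.add_mem (W.smul_mem _ hw) (hφ ⟨w, rfl⟩)
    have hfin : finrank ℂ W = n := by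
      have h1 := LinearMap.finrank_range_add_finrank_ker φ
      have h2 : LinearMap.range φ = ⊤ := by
        rw [eq_top_iff]
        intro c _
        refine ⟨(c / φ y) • y, ?_⟩
        rw [map_smul, smul_eq_mul, div_mul_cancel₀ _ hy]
      rw [h2, finrank_top, finrank_self, hV] at h1
      rw [hW]
      omega
    obtain ⟨b', hb'⟩ := ih W hfin (f.restrict hWf)
    have hli : ∀ (c : ℂ), ∀ x ∈ W, c • y + x = 0 → c = 0 := by
      intro c x hx hc
      have := congrArg φ hc
      rw [map_add, map_smul, LinearMap.mem_ker.1 hx, add_zero, map_zero, smul_eq_mul] at this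
      exact (mul_eq_zero.1 this).resolve_right hy
    have hsp : ∀ z : V, ∃ c : ℂ, z + c • y ∈ W := by
      intro z
      refine ⟨-(φ z / φ y), ?_⟩
      rw [hW, LinearMap.mem_ker, map_add, map_smul, smul_eq_mul, neg_mul, div_mul_cancel₀ _ hy]
      ring
    set b := Basis.mkFinSnoc b' y hli hsp with hb
    have bcast : ∀ k : Fin n, b (Fin.castSucc k) = (b' k : V) := by
      intro k
      rw [hb, Basis.coe_mkFinSnoc, Fin.snoc_castSucc]
      rfl
    refine ⟨b, ?_⟩
    intro i j hij
    obtain ⟨j', rfl⟩ : ∃ j' : Fin n, j = Fin.castSucc j' := by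
      refine ⟨⟨j.val, ?_⟩, ?_⟩
      · have h1 := i.isLt
        have h2 : j.val < i.val := hij
        omega
      · ext; rfl
    have e1 : f (b (Fin.castSucc j')) = ∑ k, b'.repr (f.restrict hWf (b' j')) k •
        b (Fin.castSucc k) := by
      have e2 := congrArg (Submodule.subtype W) (b'.sum_repr (f.restrict hWf (b' j')))
      rw [map_sum] at e2
      rw [bcast]
      have e3 : (Submodule.subtype W) (f.restrict hWf (b' j')) = f (b' j' : V) := rfl
      rw [← e3, ← e2]
      apply Finset.sum_congr rfl
      intro k _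
      rw [map_smul, bcast]
      rfl
    rw [e1, map_sum, Finsupp.finsetSum_apply]
    apply Finset.sum_eq_zero
    intro k _
    rw [map_smul, Basis.repr_self, Finsupp.smul_apply, smul_eq_mul]
    by_cases hk : Fin.castSucc k = i
    · have : j' < k := by
        rw [← hk] at hij
        exact hij
      rw [hb' k j' this, zero_mul]
    · rw [Finsupp.single_eq_of_ne (Ne.symm hk), mul_zero]

/-- every complex matrix is similar to an upper triangular one -/
theorem exists_triangular {n : ℕ} (L : Matrix (Fin n) (Fin n) ℂ) :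
    ∃ U R : Matrix (Fin n) (Fin n) ℂ, IsUnit U ∧ L * U = U * R ∧ ∀ i j, j < i → R i j = 0 := by
  obtain ⟨b, hb⟩ := exists_flag_basis n (Fin n → ℂ) (by simp) (Matrix.toLin' L)
  refine ⟨Matrix.of (fun i j => b j i), Matrix.of (fun i j => b.repr (Matrix.toLin' L (b j)) i),
    ?_, ?_, ?_⟩
  · have e : Matrix.of (fun i j => b j i) = (Pi.basisFun ℂ (Fin n)).toMatrix b := by
      ext i j
      simp [Basis.toMatrix_apply]
    rw [e]
    have := (Pi.basisFun ℂ (Fin n)).invertibleToMatrix b
    exact isUnit_of_invertible _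
  · ext i j
    rw [Matrix.mul_apply, Matrix.mul_apply]
    simp only [Matrix.of_apply]
    have e := congrFun (b.sum_repr (Matrix.toLin' L (b j))) i
    rw [Finset.sum_apply] at e
    have e2 : (Matrix.toLin' L (b j)) i = ∑ k, L i k * b j k := by
      rw [Matrix.toLin'_apply]
      rfl
    rw [← e2, ← e]
    apply Finset.sum_congr rfl
    intro k _
    rw [Pi.smul_apply, smul_eq_mul, mul_comm]
  · intro i j hij
    rw [Matrix.of_apply]
    exact hb i j hij

end Pool.Helper89.Rev
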